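import Mathlib

/-!
Project SW: Stickelberger's theorem for the element `σ_1⁻¹ + ... + σ_((p-1)/2)⁻¹` and primes of degree
one of the `p`-th cyclotomic field (by Jacobi sums), for the equation `X ^ p + Y ^ p = z ^ n`.
-/

set_option autoImplicit false

namespace Pool.Agent.U792.SW

open NumberField Finset

variable (p : ℕ) [hp : Fact p.Prime] (K : Type*) [Field K] [NumberField K]
  [IsCyclotomicExtension {p} ℚ K]

/-- the automorphism `ζ ↦ ζ ^ u` of the ring of integers -/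
noncomputable def tau (u : (ZMod p)ˣ) : 𝓞 K →+* 𝓞 K :=
  MulSemiringAction.toRingHom Gal(K/ℚ) (𝓞 K)
    ((IsCyclotomicExtension.Rat.galEquivZMod p K).symm u)

/-- the residue classes of `1, ..., (p - 1) / 2` -/
noncomputable def H : Finset (ZMod p)ˣ := by
  classical
  exact univ.filter (fun u => 2 * (u : ZMod p).val < p)

theorem mem_H {u : (ZMod p)ˣ} : u ∈ H p ↔ 2 * (u : ZMod p).val < p := by
  classical
  simp [H]

variable {K}

theorem tau_zeta {ζ : K} (hζ : IsPrimitiveRoot ζ p) (u : (ZMod p)ˣ) :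
    tau p K u hζ.toInteger = hζ.toInteger ^ (u : ZMod p).val := by
  have h := IsCyclotomicExtension.Rat.galEquivZMod_smul_of_pow_eq p K
    ((IsCyclotomicExtension.Rat.galEquivZMod p K).symm u)
    (x := hζ.toInteger) hζ.toInteger_isPrimitiveRoot.pow_eq_one
  rw [MulEquiv.apply_symm_apply] at h
  exact h

theorem tau_mul (u v : (ZMod p)ˣ) (x : 𝓞 K) :
    tau p K (u * v) x = tau p K u (tau p K v x) := by
  simp only [tau, MulSemiringAction.toRingHom_apply, map_mul, mul_smul]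

theorem tau_one (x : 𝓞 K) : tau p K 1 x = x := by
  rw [tau, MulSemiringAction.toRingHom_apply, map_one, one_smul]

theorem tau_inv_tau (u : (ZMod p)ˣ) (x : 𝓞 K) : tau p K u⁻¹ (tau p K u x) = x := by
  rw [← tau_mul, inv_mul_cancel, tau_one]

theorem tau_tau_inv (u : (ZMod p)ˣ) (x : 𝓞 K) : tau p K u (tau p K u⁻¹ x) = x := by
  rw [← tau_mul, mul_inv_cancel, tau_one]

theorem tau_injective (u : (ZMod p)ˣ) : Function.Injective (tau p K u) :=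
  Function.LeftInverse.injective (tau_inv_tau p u)

variable (K)

/-- Package A1: the Jacobi sum. `P` is a prime of degree one which does not contain `ζ - 1`. -/
def S_A1 : Prop :=
  ∀ (ζ : K) (hζ : IsPrimitiveRoot ζ p) (P : Ideal (𝓞 K)), p ≠ 2 → P.IsPrime →
    (Nat.card (𝓞 K ⧸ P)).Prime → hζ.toInteger - 1 ∉ P →
    ∃ J : 𝓞 K, (∀ u ∈ H p, tau p K u J ∈ P) ∧
      J * tau p K (-1) J = (Nat.card (𝓞 K ⧸ P) : 𝓞 K)

/-- Package A2: from A1 to the factorisation. -/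
def S_A2 : Prop :=
  ∀ (ζ : K) (hζ : IsPrimitiveRoot ζ p) (P : Ideal (𝓞 K)) (J : 𝓞 K), p ≠ 2 → P.IsPrime →
    (Nat.card (𝓞 K ⧸ P)).Prime → hζ.toInteger - 1 ∉ P → (∀ u ∈ H p, tau p K u J ∈ P) →
    J * tau p K (-1) J = (Nat.card (𝓞 K ⧸ P) : 𝓞 K) →
    Ideal.span {J} = ∏ u ∈ H p, P.map (tau p K u⁻¹)

/-- Package B1: the prime divisors of `X + ζ Y` have degree one. -/
def S_B1 : Prop :=
  ∀ (ζ : K) (hζ : IsPrimitiveRoot ζ p) (P : Ideal (𝓞 K)) (X Y : ℤ), P.IsPrime → P ≠ ⊥ →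
    IsCoprime X Y → (X : 𝓞 K) + hζ.toInteger * Y ∈ P → (Nat.card (𝓞 K ⧸ P)).Prime

/-- `P` has degree one and does not contain `ζ - 1`. -/
def Good {K : Type*} [Field K] [NumberField K] {p : ℕ} {ζ : K} (hζ : IsPrimitiveRoot ζ p)
    [NeZero p] (P : Ideal (𝓞 K)) : Prop :=
  P.IsPrime ∧ (Nat.card (𝓞 K ⧸ P)).Prime ∧ hζ.toInteger - 1 ∉ P

/-- Package B2: from primes to ideals. -/
def S_B2 : Prop :=
  ∀ (ζ : K) (hζ : IsPrimitiveRoot ζ p),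
    (∀ P : Ideal (𝓞 K), Good hζ P → ∃ J : 𝓞 K, Ideal.span {J} = ∏ u ∈ H p, P.map (tau p K u⁻¹)) →
    ∀ I : Ideal (𝓞 K), I ≠ ⊥ → (∀ P : Ideal (𝓞 K), P.IsPrime → P ≠ ⊥ → I ≤ P → Good hζ P) →
      ∃ J : 𝓞 K, J ≠ 0 ∧ Ideal.span {J} = ∏ u ∈ H p, I.map (tau p K u⁻¹)

/-- Package D: an inequality. -/
def S_D : Prop :=
  ∀ (m : ℕ) (X Y F : ℤ), 5 ≤ m → Odd m → X ≠ 0 → Y ≠ 0 → X ≠ Y → X ≠ -Y →
    (X + Y) * F = X ^ m + Y ^ m → 1 < |F| ∧ (m : ℤ) < |F|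

/-- Package E: coefficients with respect to the basis `1, ζ, ..., ζ ^ (p - 2)`. -/
def S_E : Prop :=
  ∀ (ζ : K) (hζ : IsPrimitiveRoot ζ p) (M : ℤ) (f : ℕ → ℤ),
    (M : 𝓞 K) ∣ ∑ k ∈ range (p - 1), (f k : 𝓞 K) * hζ.toInteger ^ k → ∀ k < p - 1, M ∣ f k

/-- Package G1: the congruence modulo `q ^ 2` (`x ^ q ≡ tau u x` modulo `q`). -/
def S_G1 : Prop :=
  ∀ (ζ : K) (_ : IsPrimitiveRoot ζ p) (q : ℕ) (A B a b : 𝓞 K) (u : (ZMod p)ˣ), q.Prime → q ≠ p →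
    (u : ZMod p) = (q : ZMod p) → IsCoprime b (q : 𝓞 K) → A * a ^ q = B * b ^ q →
    (q : 𝓞 K) ^ 2 ∣ A ^ q * tau p K u B - B ^ q * tau p K u A

/-- Package G2: consequence of the congruence for `A = X + ζ Y` and `B = X + ζ⁻¹ Y`, `q < p`. -/
def S_G2 : Prop :=
  ∀ (ζ : K) (hζ : IsPrimitiveRoot ζ p) (q : ℕ) (X Y : ℤ), q.Prime → q ≠ 2 → q < p →
    (q : 𝓞 K) ^ 2 ∣
      ((X : 𝓞 K) + hζ.toInteger * Y) ^ q * ((X : 𝓞 K) + hζ.toInteger ^ ((p - 1) * q) * Y) -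
      ((X : 𝓞 K) + hζ.toInteger ^ (p - 1) * Y) ^ q * ((X : 𝓞 K) + hζ.toInteger ^ q * Y) →
    (q : ℤ) ∣ X * Y * (X - Y) * (X + Y)

end Pool.Agent.U792.SW
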