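import Mathlib
import Pool.Agent.U792.SW.Stm

/-!
# Project SW, package A1 (helper962): the Jacobi sum of a prime of degree one
-/

set_option autoImplicit false

namespace Pool.Agent.U792.SW

open NumberField Finset

namespace A1Aux

/-- the power residue character of a finite field with values in `R` -/
theorem exists_char {F R : Type*} [Field F] [Fintype F] [DecidableEq F] [CommRing R] [IsDomain R]
    (φ : R →+* F) (p a : ℕ) (hp : 0 < p) (ha : 0 < a) (hpa : Fintype.card F - 1 = p * a) (z : R) (hz : z ^ p = 1)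
    (hφz : IsPrimitiveRoot (φ z) p) :
    ∃ χ : MulChar F R, (∀ x : F, φ (χ x) = x ^ a) ∧ (∀ x : F, χ x = 0 ∨ ∃ m : ℕ, χ x = z ^ m) := by
  obtain ⟨g, hg⟩ := IsCyclic.exists_generator (α := Fˣ)
  have hcard : Fintype.card Fˣ = p * a := by rw [Fintype.card_units, hpa]
  have hga : ((g : F) ^ a) ^ p = 1 := by
    rw [← pow_mul, mul_comm a p, ← hcard, ← Units.val_pow_eq_pow_val, pow_card_eq_one, Units.val_one]
  haveI : NeZero p := ⟨hp.ne'⟩
  obtain ⟨k, -, hk⟩ := hφz.eq_pow_of_pow_eq_one hga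
  set zU : Rˣ := Units.ofPowEqOne z p hz hp.ne' with hzU
  have hzUval : (zU : R) = z := Units.val_ofPowEqOne ..
  have hμ : zU ^ k ∈ rootsOfUnity (Fintype.card Fˣ) R := by
    rw [mem_rootsOfUnity, hcard]
    ext
    push_cast
    rw [hzUval, ← pow_mul, show k * (p * a) = p * (k * a) by ring, pow_mul, hz, one_pow]
  set χ : MulChar F R := MulChar.ofRootOfUnity hμ hg with hχ
  have hχg : χ (g : F) = z ^ k := by
    rw [hχ, MulChar.ofRootOfUnity_spec]
    push_cast
    rw [hzUval]
  have hunit : ∀ x : Fˣ, ∃ n : ℕ, (x : F) = (g : F) ^ n := by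
    intro x
    have := hg x
    rw [← mem_powers_iff_mem_zpowers] at this
    obtain ⟨n, hn⟩ := this
    refine ⟨n, ?_⟩
    rw [← Units.val_pow_eq_pow_val]
    exact congrArg _ hn.symm
  refine ⟨χ, ?_, ?_⟩
  · intro x
    by_cases hx : x = 0
    · subst hx
      rw [MulChar.map_zero, map_zero, zero_pow ha.ne']
    · obtain ⟨n, hn⟩ := hunit (Units.mk0 x hx)
      rw [Units.val_mk0] at hn
      rw [hn, map_pow, hχg, map_pow, map_pow, hk, ← pow_mul, ← pow_mul, mul_comm]
  · intro x
    by_cases hx : x = 0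
    · left
      rw [hx, MulChar.map_zero]
    · right
      obtain ⟨n, hn⟩ := hunit (Units.mk0 x hx)
      rw [Units.val_mk0] at hn
      exact ⟨k * n, by rw [hn, map_pow, hχg, ← pow_mul]⟩

theorem sum_zero {F : Type*} [Field F] [Fintype F] (n : ℕ) (h : 2 * n < Fintype.card F - 1) :
    ∑ x : F, x ^ n * (1 - x) ^ n = 0 := by
  have h1 : ∀ x : F, x ^ n * (1 - x) ^ n =
      ∑ m ∈ range (n + 1), ((-1) ^ m * (n.choose m : F)) * x ^ (n + m) := by
    intro x
    rw [show (1 : F) - x = -x + 1 by ring, add_pow, Finset.mul_sum]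
    refine Finset.sum_congr rfl fun m _ => ?_
    rw [one_pow, neg_pow, pow_add]
    ring
  rw [Finset.sum_congr rfl fun x _ => h1 x, Finset.sum_comm]
  refine Finset.sum_eq_zero fun m hm => ?_
  rw [← Finset.mul_sum, FiniteField.sum_pow_lt_card_sub_one, mul_zero]
  have := Finset.mem_range.mp hm
  omega

end A1Aux

theorem t_A1 (p : ℕ) [hp : Fact p.Prime] (K : Type*) [Field K] [NumberField K]
    [IsCyclotomicExtension {p} ℚ K] : S_A1 p K := by
  classical
  intro ζ hζ P hp2 hP hl hζP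
  haveI := hP
  haveI : Finite (𝓞 K ⧸ P) := Nat.finite_of_card_ne_zero hl.ne_zero
  have hmax : P.IsMaximal := Ideal.Quotient.maximal_of_isField P (Finite.isField_of_domain _)
  letI : Field (𝓞 K ⧸ P) := Ideal.Quotient.field P
  letI : Fintype (𝓞 K ⧸ P) := Fintype.ofFinite _
  set φ : 𝓞 K →+* 𝓞 K ⧸ P := Ideal.Quotient.mk P with hφ
  set z : 𝓞 K := hζ.toInteger with hzdef
  have hz : z ^ p = 1 := hζ.toInteger_isPrimitiveRoot.pow_eq_one
  have hφz1 : φ z ≠ 1 := by
    intro h
    apply hζP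
    rw [← Ideal.Quotient.eq, map_one]
    exact h
  have hφzp : (φ z) ^ p = 1 := by rw [← map_pow, hz, map_one]
  have hord : orderOf (φ z) = p := orderOf_eq_prime hφzp hφz1
  have hprim : IsPrimitiveRoot (φ z) p := by
    rw [IsPrimitiveRoot.iff_orderOf]; exact hord
  have hcardF : Nat.card (𝓞 K ⧸ P) = Fintype.card (𝓞 K ⧸ P) := Nat.card_eq_fintype_card
  have hdvd : p ∣ Fintype.card (𝓞 K ⧸ P) - 1 := by
    rw [← hord]
    apply orderOf_dvd_of_pow_eq_one
    apply FiniteField.pow_card_sub_one_eq_one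
    intro h0
    rw [h0, zero_pow hp.out.ne_zero] at hφzp
    exact zero_ne_one hφzp
  obtain ⟨a, ha⟩ := hdvd
  have hl2 : 2 ≤ Fintype.card (𝓞 K ⧸ P) := by rw [← hcardF]; exact hl.two_le
  have ha0 : 0 < a := by
    rcases Nat.eq_zero_or_pos a with h | h
    · rw [h, mul_zero] at ha; omega
    · exact h
  obtain ⟨χ, hχ1, hχ2⟩ := A1Aux.exists_char φ p a hp.out.pos ha0 ha z hz hprim
  -- Galois action on the values
  have htau : ∀ (u : (ZMod p)ˣ) (x : 𝓞 K ⧸ P), tau p K u (χ x) = (χ x) ^ (u : ZMod p).val := by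
    intro u x
    have hu0 : (u : ZMod p).val ≠ 0 := by
      rw [Ne, ZMod.val_eq_zero]
      exact u.ne_zero
    rcases hχ2 x with h | ⟨m, h⟩
    · rw [h, map_zero, zero_pow hu0]
    · rw [h, map_pow, hzdef, tau_zeta, ← pow_mul, ← pow_mul, mul_comm]
  have htauJ : ∀ u : (ZMod p)ˣ, tau p K u (jacobiSum χ χ) =
      ∑ x, (χ x) ^ (u : ZMod p).val * (χ (1 - x)) ^ (u : ZMod p).val := by
    intro u
    rw [jacobiSum, map_sum]
    exact Finset.sum_congr rfl fun x _ => by rw [map_mul, htau, htau]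
  refine ⟨jacobiSum χ χ, ?_, ?_⟩
  · intro u hu
    rw [mem_H] at hu
    rw [← Ideal.Quotient.eq_zero_iff_mem, ← hφ, htauJ, map_sum]
    rw [show (∑ x, φ ((χ x) ^ (u : ZMod p).val * (χ (1 - x)) ^ (u : ZMod p).val)) =
      ∑ x : 𝓞 K ⧸ P, x ^ (a * (u : ZMod p).val) * (1 - x) ^ (a * (u : ZMod p).val) from
      Finset.sum_congr rfl fun x _ => by
        rw [map_mul, map_pow, map_pow, hχ1, hχ1, ← pow_mul, ← pow_mul]]
    apply A1Aux.sum_zero
    rw [ha]
    calc 2 * (a * (u : ZMod p).val) = (2 * (u : ZMod p).val) * a := by ring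
      _ < p * a := Nat.mul_lt_mul_of_pos_right hu ha0
  · -- the product
    set ι : 𝓞 K →+* K := algebraMap (𝓞 K) K with hι
    have hιinj : Function.Injective ι := RingOfIntegers.coe_injective
    set χ' : MulChar (𝓞 K ⧸ P) K := χ.ringHomComp ι with hχ'
    obtain ⟨g, hg⟩ := IsCyclic.exists_generator (α := (𝓞 K ⧸ P)ˣ)
    have hgord : orderOf g = p * a := by
      rw [orderOf_eq_card_of_forall_mem_zpowers hg, Nat.card_eq_fintype_card, Fintype.card_units, ha]
    have hne : ∀ j : ℕ, 0 < j → j < p → ι (χ (g : 𝓞 K ⧸ P)) ^ j ≠ 1 := by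
      intro j hj0 hjp h
      rw [← map_pow, ← map_one ι] at h
      have h1 := congrArg φ (hιinj h)
      rw [map_pow, hχ1, map_one, ← pow_mul, ← Units.val_pow_eq_pow_val, Units.val_eq_one] at h1
      have h2 := orderOf_dvd_of_pow_eq_one h1
      rw [hgord] at h2
      have h3 := Nat.le_of_dvd (Nat.mul_pos ha0 hj0) h2
      rw [mul_comm a j] at h3
      exact absurd (Nat.le_of_mul_le_mul_right h3 ha0) (by omega)
    have hp3 : 2 < p := lt_of_le_of_ne hp.out.two_le (Ne.symm hp2)
    have hχ'1 : χ' ≠ 1 := by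
      intro h
      have := congrArg (fun c : MulChar (𝓞 K ⧸ P) K => c (g : 𝓞 K ⧸ P)) h
      simp only [hχ', MulChar.ringHomComp_apply, MulChar.one_apply_coe] at this
      exact hne 1 one_pos (by omega) (by rw [pow_one]; exact this)
    have hχ'2 : χ' * χ' ≠ 1 := by
      intro h
      have := congrArg (fun c : MulChar (𝓞 K ⧸ P) K => c (g : 𝓞 K ⧸ P)) h
      simp only [MulChar.mul_apply, hχ', MulChar.ringHomComp_apply, MulChar.one_apply_coe] at this
      exact hne 2 two_pos hp3 (by rw [pow_two]; exact this)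
    have hinv : ∀ x, χ'⁻¹ x = ι ((χ x) ^ (p - 1)) := by
      intro x
      by_cases hx : IsUnit x
      · rcases hχ2 x with h | ⟨m, h⟩
        · exfalso
          have h1 := hx.map χ
          rw [h] at h1
          exact not_isUnit_zero h1
        · have h1 : (χ' x) * ι ((χ x) ^ (p - 1)) = 1 := by
            rw [hχ', MulChar.ringHomComp_apply, ← map_mul, ← pow_succ', Nat.sub_add_cancel hp.out.one_le,
              h, ← pow_mul, mul_comm, pow_mul, hz, one_pow, map_one]
          rw [MulChar.inv_apply_eq_inv', ]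
          exact inv_eq_of_mul_eq_one_right h1
      · rw [MulChar.map_nonunit _ hx, MulChar.map_nonunit _ hx, zero_pow (by omega), map_zero]
    have hJ1 : ι (jacobiSum χ χ) = jacobiSum χ' χ' := (jacobiSum_ringHomComp χ χ ι).symm
    have hval : ((-1 : (ZMod p)ˣ) : ZMod p).val = p - 1 := by
      rw [Units.val_neg, Units.val_one]
      haveI : NeZero p := ⟨hp.out.ne_zero⟩
      rw [ZMod.neg_val, if_neg one_ne_zero, ZMod.val_one]
    have hJ2 : ι (tau p K (-1) (jacobiSum χ χ)) = jacobiSum χ'⁻¹ χ'⁻¹ := by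
      rw [htauJ, hval, map_sum, jacobiSum]
      exact Finset.sum_congr rfl fun x _ => by rw [map_mul, hinv, hinv]
    apply hιinj
    rw [map_mul, hJ1, hJ2, jacobiSum_mul_jacobiSum_inv _ hχ'1 hχ'1 hχ'2, map_natCast, hcardF]
    rw [ringChar.eq_zero]
    intro h
    have := CharP.ringChar_ne_zero_of_finite (𝓞 K ⧸ P)
    exact this h.symm

end Pool.Agent.U792.SW
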