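import Mathlib
import Pool.Agent.U792.SW.Stm

/-!
# Project SW, package A2 (helper61): the factorisation of the Jacobi sum
-/

set_option autoImplicit false
set_option linter.unusedSectionVars false

namespace Pool.Agent.U792.SW

open NumberField Finset

namespace PkgA2

variable {p : ℕ} [hp : Fact p.Prime] {K : Type*} [Field K] [NumberField K]
  [IsCyclotomicExtension {p} ℚ K]

/-- `τ_u` as a ring automorphism -/
noncomputable def te (u : (ZMod p)ˣ) : 𝓞 K ≃+* 𝓞 K where
  toFun := tau p K u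
  invFun := tau p K u⁻¹
  left_inv := tau_inv_tau p u
  right_inv := tau_tau_inv p u
  map_mul' := (tau p K u).map_mul
  map_add' := (tau p K u).map_add

lemma te_coe (u : (ZMod p)ˣ) : (te (K := K) u : 𝓞 K →+* 𝓞 K) = tau p K u := RingHom.ext fun _ => rfl

lemma mem_mapt (u : (ZMod p)ˣ) (P : Ideal (𝓞 K)) (x : 𝓞 K) :
    x ∈ P.map (tau p K u⁻¹) ↔ tau p K u x ∈ P := by
  constructor
  · intro h
    have h1 : P.map (tau p K u⁻¹) ≤ P.comap (tau p K u) := by
      rw [Ideal.map_le_iff_le_comap]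
      intro y hy
      rw [Ideal.mem_comap, Ideal.mem_comap, tau_tau_inv]
      exact hy
    exact h1 h
  · intro h
    have h1 := Ideal.mem_map_of_mem (tau p K u⁻¹) h
    rwa [tau_inv_tau] at h1

lemma map_eq (u : (ZMod p)ˣ) (P : Ideal (𝓞 K)) :
    P.map (tau p K u⁻¹) = P.comap (tau p K u) := Ideal.ext fun x => mem_mapt u P x

lemma card_map (u : (ZMod p)ˣ) (P : Ideal (𝓞 K)) :
    Nat.card (𝓞 K ⧸ P.map (tau p K u)) = Nat.card (𝓞 K ⧸ P) :=
  (Nat.card_congr (Ideal.quotientEquiv P (P.map (tau p K u)) (te u) (by rw [te_coe])).toEquiv).symm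

lemma absNorm_map (u : (ZMod p)ˣ) (P : Ideal (𝓞 K)) :
    Ideal.absNorm (P.map (tau p K u)) = Ideal.absNorm P := by
  rw [Ideal.absNorm_apply, Ideal.absNorm_apply, Submodule.cardQuot_apply, Submodule.cardQuot_apply]
  exact card_map u P

lemma two_mul_card_H (hp2 : p ≠ 2) : 2 * (H p).card = p - 1 := by
  classical
  have hodd : p % 2 = 1 := hp.out.eq_two_or_odd.resolve_left hp2
  have h1 := Finset.card_filter_add_card_filter_not (s := (univ : Finset (ZMod p)ˣ))
    (fun u => 2 * (u : ZMod p).val < p)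
  rw [Finset.card_univ, ZMod.card_units] at h1
  have h2 : (univ.filter fun u : (ZMod p)ˣ => 2 * (u : ZMod p).val < p) = H p := by
    ext u
    rw [mem_H]
    simp
  have h3 : (univ.filter fun u : (ZMod p)ˣ => ¬ 2 * (u : ZMod p).val < p).card = (H p).card := by
    refine Finset.card_nbij' (fun u => -u) (fun u => -u) ?_ ?_ (fun u _ => neg_neg u)
      (fun u _ => neg_neg u)
    · intro u hu
      rw [Finset.mem_coe, Finset.mem_filter] at hu
      rw [Finset.mem_coe, mem_H]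
      have : NeZero (u : ZMod p) := ⟨u.ne_zero⟩
      rw [Units.val_neg, ZMod.val_neg_of_ne_zero]
      have := ZMod.val_lt (u : ZMod p)
      omega
    · intro u hu
      rw [Finset.mem_coe, mem_H] at hu
      rw [Finset.mem_coe, Finset.mem_filter]
      have : NeZero (u : ZMod p) := ⟨u.ne_zero⟩
      refine ⟨mem_univ _, ?_⟩
      rw [Units.val_neg, ZMod.val_neg_of_ne_zero]
      have := ZMod.val_lt (u : ZMod p)
      omega
  rw [h2, h3] at h1
  omega

/-- integers represent all classes modulo a prime of degree one -/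
lemma exists_nat {P : Ideal (𝓞 K)} (hP : (Nat.card (𝓞 K ⧸ P)).Prime) (x : 𝓞 K) :
    ∃ c : ℕ, x - (c : 𝓞 K) ∈ P := by
  have hfin : Finite (𝓞 K ⧸ P) := Nat.finite_of_card_ne_zero hP.ne_zero
  have : Fintype (𝓞 K ⧸ P) := Fintype.ofFinite _
  have hne : NeZero (Nat.card (𝓞 K ⧸ P)) := ⟨hP.ne_zero⟩
  let e := ZMod.ringEquivOfPrime (𝓞 K ⧸ P) hP (by rw [Nat.card_eq_fintype_card])
  obtain ⟨z, hz⟩ := e.surjective (Ideal.Quotient.mk P x)
  refine ⟨z.val, ?_⟩
  rw [← Ideal.Quotient.eq, ← hz, map_natCast, ← map_natCast e, ZMod.natCast_zmod_val]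

lemma unit_eq {ζ : K} (hζ : IsPrimitiveRoot ζ p) {P : Ideal (𝓞 K)} (hPp : P.IsPrime)
    (hP : (Nat.card (𝓞 K ⧸ P)).Prime) (hz : hζ.toInteger - 1 ∉ P) (w : (ZMod p)ˣ)
    (hw : ∀ x ∈ P, tau p K w x ∈ P) : w = 1 := by
  obtain ⟨c, hc⟩ := exists_nat hP hζ.toInteger
  have h1 := hw _ hc
  rw [map_sub, tau_zeta p hζ, map_natCast] at h1
  have h2 : hζ.toInteger ^ (w : ZMod p).val - hζ.toInteger ∈ P := by
    have := P.sub_mem h1 hc
    have e : hζ.toInteger ^ (w : ZMod p).val - (c : 𝓞 K) - (hζ.toInteger - (c : 𝓞 K)) =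
      hζ.toInteger ^ (w : ZMod p).val - hζ.toInteger := by ring
    rwa [e] at this
  have hz1 : hζ.toInteger ^ p = 1 := hζ.toInteger_isPrimitiveRoot.pow_eq_one
  have hw0 : (w : ZMod p).val ≠ 0 := by
    rw [Ne, ZMod.val_eq_zero]
    exact w.ne_zero
  obtain ⟨a, ha⟩ := Nat.exists_eq_succ_of_ne_zero hw0
  have hwlt := ZMod.val_lt (w : ZMod p)
  by_contra hne
  have ha0 : a ≠ 0 := by
    rintro rfl
    apply hne
    apply Units.ext
    apply ZMod.val_injective p
    rw [ha, Units.val_one, ZMod.val_one]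
  -- `ζ ^ a - 1 ∈ P`
  have h3 : hζ.toInteger ^ a - 1 ∈ P := by
    rw [ha, Nat.succ_eq_add_one] at h2
    have e : hζ.toInteger ^ a - 1 = hζ.toInteger ^ (p - 1) *
        (hζ.toInteger ^ (a + 1) - hζ.toInteger) := by
      have e1 : hζ.toInteger ^ (p - 1) * hζ.toInteger = 1 := by
        rw [← pow_succ, Nat.sub_add_cancel hp.out.one_lt.le, hz1]
      calc hζ.toInteger ^ a - 1 = (hζ.toInteger ^ (p - 1) * hζ.toInteger) * (hζ.toInteger ^ a - 1) := by
            rw [e1, one_mul]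
        _ = _ := by ring
    rw [e]
    exact P.mul_mem_left _ h2
  have hcop : Nat.Coprime a p := by
    rw [Nat.coprime_comm]
    exact (Nat.Prime.coprime_iff_not_dvd hp.out).2 fun hd => by
      have := Nat.le_of_dvd (Nat.pos_of_ne_zero ha0) hd
      omega
  obtain ⟨b, -, hb⟩ := Nat.exists_mul_mod_eq_one_of_coprime hcop hp.out.one_lt
  apply hz
  have h4 : hζ.toInteger = (hζ.toInteger ^ a) ^ b := by
    rw [← pow_mul]
    conv_lhs => rw [← pow_one hζ.toInteger]
    rw [← Nat.div_add_mod (a * b) p, hb, pow_add, pow_mul, hz1, one_pow, one_mul]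
  have h5 : hζ.toInteger ^ a - 1 ∣ hζ.toInteger - 1 := by
    conv_rhs => rw [h4]
    exact sub_one_dvd_pow_sub_one _ _
  exact P.mem_of_dvd h5 h3

end PkgA2

open PkgA2

theorem t_A2 (p : ℕ) [hp : Fact p.Prime] (K : Type*) [Field K] [NumberField K]
    [IsCyclotomicExtension {p} ℚ K] : S_A2 p K := by
  classical
  intro ζ hζ P J hp2 hPp hP hz hJ hJJ
  have hcard : ∀ u : (ZMod p)ˣ, Nat.card (𝓞 K ⧸ P.map (tau p K u⁻¹)) = Nat.card (𝓞 K ⧸ P) :=
    fun u => card_map u⁻¹ P
  have habs : ∀ I : Ideal (𝓞 K), Ideal.absNorm I = Nat.card (𝓞 K ⧸ I) := fun I => by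
    rw [Ideal.absNorm_apply, Submodule.cardQuot_apply]
  have hne : ∀ u : (ZMod p)ˣ, P.map (tau p K u⁻¹) ≠ ⊥ := by
    intro u h0
    have h1 : Ideal.absNorm (P.map (tau p K u⁻¹)) ≠ 0 := by
      rw [habs, hcard u]
      exact hP.ne_zero
    apply h1
    rw [h0, Ideal.absNorm_bot]
  have hprime : ∀ u : (ZMod p)ˣ, (P.map (tau p K u⁻¹)).IsPrime := by
    intro u
    rw [map_eq]
    exact Ideal.IsPrime.comap _
  have hdvd : (∏ u ∈ H p, P.map (tau p K u⁻¹)) ∣ Ideal.span {J} := by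
    refine Finset.prod_dvd_of_isRelPrime ?_ ?_
    · intro u _ v _ huv
      rw [Function.onFun]
      have hne' : P.map (tau p K u⁻¹) ≠ P.map (tau p K v⁻¹) := by
        intro heq
        apply huv
        have h1 := unit_eq hζ hPp hP hz (v * u⁻¹) (fun x hx => by
          rw [tau_mul, ← mem_mapt v P, ← heq, mem_mapt u P, tau_tau_inv]
          exact hx)
        exact (mul_inv_eq_one.1 h1).symm
      have h1 : IsCoprime (P.map (tau p K u⁻¹)) (P.map (tau p K v⁻¹)) := by
        rw [Ideal.isCoprime_iff_sup_eq]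
        exact ((hprime u).isMaximal (hne u)).coprime_of_ne ((hprime v).isMaximal (hne v)) hne'
      exact h1.isRelPrime
    · intro u hu
      rw [Ideal.dvd_iff_le, Ideal.span_singleton_le_iff_mem, mem_mapt]
      exact hJ u hu
  have hn1 : Ideal.absNorm (∏ u ∈ H p, P.map (tau p K u⁻¹)) =
      Nat.card (𝓞 K ⧸ P) ^ (H p).card := by
    rw [map_prod, Finset.prod_congr rfl (fun u _ => (habs _).trans (hcard u)), Finset.prod_const]
  have hn2 : Ideal.absNorm (Ideal.span {J}) * Ideal.absNorm (Ideal.span {J}) =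
      Nat.card (𝓞 K ⧸ P) ^ (p - 1) := by
    have h1 : Ideal.absNorm (Ideal.span {tau p K (-1) J}) = Ideal.absNorm (Ideal.span {J}) := by
      rw [← absNorm_map (-1 : (ZMod p)ˣ) (Ideal.span {J}), Ideal.map_span, Set.image_singleton]
    have h2 : Ideal.absNorm (Ideal.span {(Nat.card (𝓞 K ⧸ P) : 𝓞 K)}) =
        Nat.card (𝓞 K ⧸ P) ^ (p - 1) := by
      rw [Ideal.absNorm_span_natCast, RingOfIntegers.rank, IsCyclotomicExtension.Rat.finrank p K,
        Nat.totient_prime hp.out]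
    rw [← h2, ← hJJ, ← Ideal.span_singleton_mul_span_singleton, map_mul, h1]
  have hn3 : Ideal.absNorm (Ideal.span {J}) = Nat.card (𝓞 K ⧸ P) ^ (H p).card := by
    rw [← two_mul_card_H hp2, pow_mul', sq] at hn2
    exact Nat.mul_self_inj.1 hn2
  obtain ⟨L, hL⟩ := hdvd
  have h4 : Ideal.absNorm L = 1 := by
    have h5 := congrArg Ideal.absNorm hL
    rw [map_mul, hn1, hn3] at h5
    have h6 : 0 < Nat.card (𝓞 K ⧸ P) ^ (H p).card := pow_pos hP.pos _
    exact Nat.eq_of_mul_eq_mul_left h6 (by rw [← h5, mul_one])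
  rw [hL, Ideal.absNorm_eq_one_iff.1 h4, Ideal.mul_top]

end Pool.Agent.U792.SW
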