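import Mathlib
import Pool.Agent.U792.SW.Stm

/-!
Project SW, package B1: the prime divisors of `X + ζ Y` have degree one.
-/

set_option autoImplicit false

namespace Pool.Agent.U792.SW

open NumberField Finset

theorem t_B1 (p : ℕ) [Fact p.Prime] (K : Type*) [Field K] [NumberField K]
    [IsCyclotomicExtension {p} ℚ K] : S_B1 p K := by
  intro ζ hζ P X Y hP hP0 hXY hmem
  haveI := hP
  haveI : Finite (𝓞 K ⧸ P) := Ideal.finiteQuotientOfFreeOfNeBot P hP0
  haveI : IsDomain (𝓞 K ⧸ P) := Ideal.Quotient.isDomain P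
  -- `Y` is not in `P`
  have hY : ((Y : ℤ) : 𝓞 K ⧸ P) ≠ 0 := by
    intro h0
    have hYP : (Y : 𝓞 K) ∈ P := by
      rw [← Ideal.Quotient.eq_zero_iff_mem]
      simpa using h0
    have hXP : (X : 𝓞 K) ∈ P := by
      have := P.sub_mem hmem (P.mul_mem_left hζ.toInteger hYP)
      simpa using this
    obtain ⟨a, b, hab⟩ := hXY
    have h1 : (1 : 𝓞 K) ∈ P := by
      have h := P.add_mem (P.mul_mem_left (a : 𝓞 K) hXP) (P.mul_mem_left (b : 𝓞 K) hYP)
      have h2 : (a : 𝓞 K) * X + (b : 𝓞 K) * Y = 1 := by exact_mod_cast congrArg (Int.cast : ℤ → 𝓞 K) hab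
      rwa [h2] at h
    exact hP.ne_top ((Ideal.eq_top_iff_one P).2 h1)
  -- the characteristic
  obtain ⟨l, hl⟩ := CharP.exists (𝓞 K ⧸ P)
  haveI := hl
  have hlp : l.Prime := CharP.char_prime_of_ne_zero (𝓞 K ⧸ P)
    (CharP.char_ne_zero_of_finite (𝓞 K ⧸ P) l)
  haveI : Fact l.Prime := ⟨hlp⟩
  let f : ZMod l →+* 𝓞 K ⧸ P := ZMod.castHom (dvd_refl l) (𝓞 K ⧸ P)
  have hf : Function.Injective f := RingHom.injective f
  have hYf : f (Y : ZMod l) = ((Y : ℤ) : 𝓞 K ⧸ P) := map_intCast f Y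
  have hXf : f (X : ZMod l) = ((X : ℤ) : 𝓞 K ⧸ P) := map_intCast f X
  have hY' : (Y : ZMod l) ≠ 0 := by
    intro h
    apply hY
    rw [← hYf, h, map_zero]
  have hrel : (X : 𝓞 K ⧸ P) + Ideal.Quotient.mk P hζ.toInteger * (Y : 𝓞 K ⧸ P) = 0 := by
    have := (Ideal.Quotient.eq_zero_iff_mem).2 hmem
    simpa using this
  have hzf : f (-(X : ZMod l) * (Y : ZMod l)⁻¹) = Ideal.Quotient.mk P hζ.toInteger := by
    apply mul_right_cancel₀ hY
    rw [← hYf, ← map_mul, mul_assoc, inv_mul_cancel₀ hY', mul_one, map_neg, hXf, hYf]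
    linear_combination -hrel
  have hsurj : Function.Surjective f := by
    intro x
    obtain ⟨x, rfl⟩ := Ideal.Quotient.mk_surjective x
    obtain ⟨g, hg⟩ := hζ.integralPowerBasis.exists_eq_aeval' x
    rw [hζ.integralPowerBasis_gen] at hg
    refine ⟨Polynomial.eval₂ (Int.castRingHom (ZMod l)) (-(X : ZMod l) * (Y : ZMod l)⁻¹) g, ?_⟩
    rw [Polynomial.hom_eval₂, hzf, hg, Polynomial.aeval_def, Polynomial.hom_eval₂]
    congr 1
    exact RingHom.ext_int _ _
  have hcard : Nat.card (𝓞 K ⧸ P) = l := by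
    rw [← Nat.card_congr (Equiv.ofBijective f ⟨hf, hsurj⟩), Nat.card_zmod]
  rw [hcard]
  exact hlp

end Pool.Agent.U792.SW
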