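import Pool.Agent.U792.SW.Stm

/-! Project SW, package B2: from primes to ideals. -/

set_option autoImplicit false

namespace Pool.Agent.U792.SW

open NumberField Finset

variable (p : ℕ) [hp : Fact p.Prime] (K : Type*) [Field K] [NumberField K]
  [IsCyclotomicExtension {p} ℚ K]

theorem map_tau_ne_bot {K : Type*} [Field K] [NumberField K] [IsCyclotomicExtension {p} ℚ K]
    (u : (ZMod p)ˣ) {I : Ideal (𝓞 K)} (hI : I ≠ ⊥) : I.map (tau p K u) ≠ ⊥ := by
  intro h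
  exact hI ((Ideal.map_eq_bot_iff_of_injective (tau_injective p u)).1 h)

theorem t_B2 : S_B2 p K := by
  intro ζ hζ hP I hI hg
  have key : ∀ I : Ideal (𝓞 K), I ≠ ⊥ → (∀ P : Ideal (𝓞 K), P.IsPrime → P ≠ ⊥ → I ≤ P → Good hζ P) →
      ∃ J : 𝓞 K, Ideal.span {J} = ∏ u ∈ H p, I.map (tau p K u⁻¹) := by
    intro I
    refine UniqueFactorizationMonoid.induction_on_prime (α := Ideal (𝓞 K))
      (P := fun I => I ≠ ⊥ → (∀ P : Ideal (𝓞 K), P.IsPrime → P ≠ ⊥ → I ≤ P → Good hζ P) →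
        ∃ J : 𝓞 K, Ideal.span {J} = ∏ u ∈ H p, I.map (tau p K u⁻¹)) I ?_ ?_ ?_
    · intro h
      exact absurd rfl h
    · intro x hx _ _
      rw [Ideal.isUnit_iff] at hx
      refine ⟨1, ?_⟩
      rw [hx, Ideal.span_singleton_one]
      rw [← Ideal.one_eq_top]
      refine (Finset.prod_eq_one fun u _ => ?_).symm
      rw [Ideal.one_eq_top, Ideal.map_top]
    · intro a P ha hPp ih _ hg
      have hPP : P.IsPrime := Ideal.isPrime_of_prime hPp
      obtain ⟨J₁, h₁⟩ := hP P (hg P hPP hPp.ne_zero Ideal.mul_le_left)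
      obtain ⟨J₂, h₂⟩ := ih ha (fun Q hQ hQ0 hle => hg Q hQ hQ0 (Ideal.mul_le_right.trans hle))
      refine ⟨J₁ * J₂, ?_⟩
      rw [← Ideal.span_singleton_mul_span_singleton, h₁, h₂, ← Finset.prod_mul_distrib]
      refine Finset.prod_congr rfl fun u _ => ?_
      rw [Ideal.map_mul]
  obtain ⟨J, hJ⟩ := key I hI hg
  refine ⟨J, ?_, hJ⟩
  rintro rfl
  rw [Ideal.span_singleton_eq_bot.2 rfl] at hJ
  have h0 : ∏ u ∈ H p, I.map (tau p K u⁻¹) = 0 := hJ.symm
  rw [Finset.prod_eq_zero_iff] at h0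
  obtain ⟨u, _, hu⟩ := h0
  exact map_tau_ne_bot p _ hI hu

end Pool.Agent.U792.SW
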