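import Pool.Agent.U792.SW.Stm

/-!
Project SW, package E: coefficients with respect to the basis `1, ζ, ..., ζ ^ (p - 2)`.
-/

set_option autoImplicit false

namespace Pool.Agent.U792.SW

open NumberField Finset

theorem t_E (p : ℕ) [Fact p.Prime] (K : Type*) [Field K] [NumberField K]
    [IsCyclotomicExtension {p} ℚ K] : S_E p K := by
  intro ζ hζ M f hdvd k hk
  obtain ⟨y, hy⟩ := hdvd
  have hp : p.Prime := Fact.out
  have hdim : hζ.integralPowerBasis.dim = p - 1 := by
    rw [hζ.integralPowerBasis_dim, Nat.totient_prime hp]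
  have hk' : k < hζ.integralPowerBasis.dim := by rw [hdim]; exact hk
  have h1 : ∑ j ∈ range (p - 1), (f j : 𝓞 K) * hζ.toInteger ^ j =
      ∑ j : Fin hζ.integralPowerBasis.dim, f j • hζ.integralPowerBasis.basis j := by
    rw [← hdim, Finset.sum_range]
    refine Finset.sum_congr rfl fun j _ => ?_
    rw [zsmul_eq_mul, PowerBasis.coe_basis, hζ.integralPowerBasis_gen]
  have h2 : hζ.integralPowerBasis.basis.repr
      (∑ j : Fin hζ.integralPowerBasis.dim, f j • hζ.integralPowerBasis.basis j) ⟨k, hk'⟩ = f k := by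
    rw [Module.Basis.repr_sum_self]
  have h3 : hζ.integralPowerBasis.basis.repr ((M : 𝓞 K) * y) ⟨k, hk'⟩ =
      M * hζ.integralPowerBasis.basis.repr y ⟨k, hk'⟩ := by
    rw [← zsmul_eq_mul, map_zsmul, Finsupp.smul_apply, smul_eq_mul]
  refine ⟨hζ.integralPowerBasis.basis.repr y ⟨k, hk'⟩, ?_⟩
  rw [← h3, ← hy, h1, h2]

end Pool.Agent.U792.SW
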