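import Mathlib
import Pool.Agent.U792.SW.Stm

set_option autoImplicit false

namespace Pool.Agent.U792.SW

open NumberField Finset Polynomial

variable (p : ℕ) [hp : Fact p.Prime] (K : Type*) [Field K] [NumberField K]
  [IsCyclotomicExtension {p} ℚ K]

omit [IsCyclotomicExtension {p} ℚ K] hp in
theorem g1_nonunit {l : ℕ} (hl : l.Prime) : ¬ IsUnit (l : 𝓞 K) := by
  intro hu
  have h1 : IsUnit (Algebra.norm ℤ (l : 𝓞 K)) := hu.map _
  have h2 : Algebra.norm ℤ (l : 𝓞 K) = (l : ℤ) ^ Module.finrank ℤ (𝓞 K) := by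
    have := Algebra.norm_algebraMap (R := ℤ) (S := 𝓞 K) (l : ℤ)
    simpa using this
  rw [h2, isUnit_pow_iff] at h1
  · rw [Int.isUnit_iff_natAbs_eq, Int.natAbs_natCast] at h1
    exact hl.one_lt.ne' h1
  · rw [RingOfIntegers.rank]
    exact Module.finrank_pos.ne'

variable {K}

/-- the Frobenius congruence `x ^ q ≡ tau u x` modulo `q` -/
theorem g1_frob {ζ : K} (hζ : IsPrimitiveRoot ζ p) {q : ℕ} (hq : q.Prime) (u : (ZMod p)ˣ)
    (hu : (u : ZMod p) = (q : ZMod p)) (x : 𝓞 K) : (q : 𝓞 K) ∣ x ^ q - tau p K u x := by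
  have : Fact q.Prime := ⟨hq⟩
  have hlu : (q : 𝓞 K) ∈ nonunits (𝓞 K) := g1_nonunit K hq
  let A := 𝓞 K ⧸ (Ideal.span {(q : 𝓞 K)} : Ideal (𝓞 K))
  have : CharP A q := CharP.quotient (𝓞 K) q hlu
  have : ExpChar A q := ExpChar.prime hq
  let mk : 𝓞 K →+* A := Ideal.Quotient.mk _
  have hmk : ∀ a b : 𝓞 K, mk a = mk b ↔ (q : 𝓞 K) ∣ a - b := by
    intro a b
    rw [Ideal.Quotient.mk_eq_mk_iff_sub_mem, Ideal.mem_span_singleton]
  let F : A →+* A := frobenius A q
  have hF : ∀ a : A, F a = a ^ q := fun a => frobenius_def q a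
  obtain ⟨f, hf⟩ := hζ.integralPowerBasis.exists_eq_aeval' x
  rw [hζ.integralPowerBasis_gen] at hf
  have hζp : hζ.toInteger ^ p = 1 := hζ.toInteger_isPrimitiveRoot.pow_eq_one
  have key : F (mk x) = eval₂ (Int.castRingHom A) (mk (hζ.toInteger) ^ q) f := by
    rw [hf, aeval_def, hom_eval₂, hom_eval₂, hF]
    congr 1
    exact RingHom.ext_int _ _
  have key2 : mk (tau p K u x) = eval₂ (Int.castRingHom A) (mk (hζ.toInteger ^ q)) f := by
    have hz : tau p K u hζ.toInteger = hζ.toInteger ^ q := by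
      rw [tau_zeta p hζ u, hu, ZMod.val_natCast]
      conv_rhs => rw [← Nat.mod_add_div q p, pow_add, pow_mul, hζp, one_pow, mul_one]
    rw [hf, aeval_def, hom_eval₂, hom_eval₂, hz]
    congr 1
    exact RingHom.ext_int _ _
  rw [← map_pow, ← key2, hF, ← map_pow] at key
  exact (hmk _ _).1 key

variable (K)

theorem t_G1 : S_G1 p K := by
  intro ζ hζ q A B a b u hq _ hu hb h
  have e1 : ∀ x : 𝓞 K, (q : 𝓞 K) ^ 2 ∣ (x ^ q) ^ q - (tau p K u x) ^ q := by
    intro x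
    have h1 := dvd_sub_pow_of_dvd_sub (g1_frob p hζ hq u hu x) 1
    simpa using h1
  have ht : tau p K u A * tau p K u a ^ q = tau p K u B * tau p K u b ^ q := by
    rw [← map_pow, ← map_mul, ← map_pow, ← map_mul, h]
  have hpow : A ^ q * (a ^ q) ^ q = B ^ q * (b ^ q) ^ q := by
    rw [← mul_pow, ← mul_pow, h]
  have hco : IsCoprime ((q : 𝓞 K) ^ 2) (tau p K u b ^ q) := by
    have h1 := hb.map (tau p K u)
    rw [map_natCast] at h1
    exact (h1.pow_left.pow_right).symm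
  refine hco.dvd_of_dvd_mul_right ?_
  obtain ⟨s, hs⟩ := e1 a
  obtain ⟨t, ht'⟩ := e1 b
  refine ⟨tau p K u A * (-(A ^ q * s) + B ^ q * t), ?_⟩
  have h2 : (A ^ q * tau p K u B - B ^ q * tau p K u A) * tau p K u b ^ q =
      A ^ q * (tau p K u B * tau p K u b ^ q) - B ^ q * tau p K u A * tau p K u b ^ q := by ring
  rw [h2, ← ht]
  linear_combination (-(tau p K u A * A ^ q)) * hs + (tau p K u A * B ^ q) * ht' +
    (tau p K u A) * hpow

end Pool.Agent.U792.SW
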