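import Mathlib
import Pool.Agent.U792.SW.Stm

/-!
Project SW (helper792), package G2 (helper7).
-/

set_option autoImplicit false

namespace Pool.Agent.U792.SW

open NumberField Finset

namespace G2

theorem expand {R : Type*} [CommRing R] (X Y z z' : R) (q : ℕ) (h : z * z' = 1) :
    (X + z * Y) ^ q * (X + z' ^ q * Y) =
      ∑ k ∈ range (q + 1), (q.choose k : R) *
        (X ^ (q + 1 - k) * Y ^ k * z ^ k + X ^ k * Y ^ (q + 1 - k) * z' ^ k) := by
  have h1 : (X + z * Y) ^ q * X =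
      ∑ k ∈ range (q + 1), (q.choose k : R) * (X ^ (q + 1 - k) * Y ^ k * z ^ k) := by
    rw [add_comm X, add_pow, Finset.sum_mul]
    refine Finset.sum_congr rfl fun k hk => ?_
    have : q + 1 - k = (q - k) + 1 := by have := mem_range.1 hk; omega
    rw [this, pow_succ, mul_pow]
    ring
  have h2 : (X + z * Y) ^ q * (z' ^ q * Y) =
      ∑ k ∈ range (q + 1), (q.choose k : R) * (X ^ k * Y ^ (q + 1 - k) * z' ^ k) := by
    rw [add_pow, Finset.sum_mul]
    refine Finset.sum_congr rfl fun k hk => ?_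
    have hk' := mem_range.1 hk
    have e1 : q + 1 - k = (q - k) + 1 := by omega
    have e2 : z' ^ q = z' ^ (q - k) * z' ^ k := by rw [← pow_add]; congr 1; omega
    have e3 : z ^ (q - k) * z' ^ (q - k) = 1 := by rw [← mul_pow, h, one_pow]
    rw [e1, e2, pow_succ, mul_pow]
    linear_combination (X ^ k * Y ^ (q - k) * (q.choose k : R) * z' ^ k * Y) * e3
  calc (X + z * Y) ^ q * (X + z' ^ q * Y)
      = (X + z * Y) ^ q * X + (X + z * Y) ^ q * (z' ^ q * Y) := by ring
    _ = _ := by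
      rw [h1, h2, ← Finset.sum_add_distrib]
      refine Finset.sum_congr rfl fun k _ => ?_
      ring

/-- the coefficients -/
def g (q : ℕ) (X Y : ℤ) (k : ℕ) : ℤ :=
  (q.choose k : ℤ) * (X ^ (q + 1 - k) * Y ^ k - X ^ k * Y ^ (q + 1 - k))

/-- the coefficients, with zero at `0` -/
def w (q : ℕ) (X Y : ℤ) (k : ℕ) : ℤ := if k = 0 then 0 else g q X Y k

theorem w_pos {q : ℕ} {X Y : ℤ} {k : ℕ} (hk : k ≠ 0) : w q X Y k = g q X Y k := by
  simp [w, hk]

theorem w_big {q : ℕ} {X Y : ℤ} {k : ℕ} (hk : q < k) : w q X Y k = 0 := by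
  simp [w, g, Nat.choose_eq_zero_of_lt hk]

theorem diff {R : Type*} [CommRing R] (X Y : ℤ) (z : R) (p q : ℕ) (hq : q < p) (hz : z ^ p = 1) :
    ((X : R) + z * Y) ^ q * ((X : R) + z ^ ((p - 1) * q) * Y) -
      ((X : R) + z ^ (p - 1) * Y) ^ q * ((X : R) + z ^ q * Y) =
    z * ∑ j ∈ range (p - 1), (((w q X Y (j + 1) - w q X Y (p - 1 - j) : ℤ)) : R) * z ^ j := by
  have hp : 1 ≤ p := by omega
  have hzz : z * z ^ (p - 1) = 1 := by
    rw [← pow_succ', Nat.sub_add_cancel hp, hz]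
  have hzz' : z ^ (p - 1) * z = 1 := by rw [mul_comm, hzz]
  have h1 := expand (X : R) (Y : R) z (z ^ (p - 1)) q hzz
  have h2 := expand (X : R) (Y : R) (z ^ (p - 1)) z q hzz'
  rw [pow_mul, h1, h2, ← Finset.sum_sub_distrib]
  -- powers of the inverse
  have hinv : ∀ k, k ≤ p → (z ^ (p - 1)) ^ k = z ^ (p - k) := by
    intro k hk
    have a1 : (z ^ (p - 1)) ^ k * z ^ k = 1 := by rw [← mul_pow, hzz', one_pow]
    have a2 : z ^ (p - k) * z ^ k = 1 := by rw [← pow_add, Nat.sub_add_cancel hk, hz]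
    have a3 : z ^ k * z ^ (p - k) = 1 := by rw [mul_comm, a2]
    calc (z ^ (p - 1)) ^ k = (z ^ (p - 1)) ^ k * (z ^ k * z ^ (p - k)) := by rw [a3, mul_one]
      _ = ((z ^ (p - 1)) ^ k * z ^ k) * z ^ (p - k) := by ring
      _ = z ^ (p - k) := by rw [a1, one_mul]
  have e1 : ∀ k ∈ range (q + 1),
      ((q.choose k : R) * ((X : R) ^ (q + 1 - k) * (Y : R) ^ k * z ^ k +
        (X : R) ^ k * (Y : R) ^ (q + 1 - k) * (z ^ (p - 1)) ^ k) -
      (q.choose k : R) * ((X : R) ^ (q + 1 - k) * (Y : R) ^ k * (z ^ (p - 1)) ^ k +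
        (X : R) ^ k * (Y : R) ^ (q + 1 - k) * z ^ k)) =
      ((w q X Y k : ℤ) : R) * (z ^ k - z ^ (p - k)) := by
    intro k hk
    have hk' := mem_range.1 hk
    rw [hinv k (by omega)]
    rcases Nat.eq_zero_or_pos k with rfl | hk0
    · simp [w, hz]
    · rw [w_pos hk0.ne', g]
      push_cast
      ring
  rw [Finset.sum_congr rfl e1]
  -- extend the sum to `range p`
  have e2 : ∑ k ∈ range (q + 1), ((w q X Y k : ℤ) : R) * (z ^ k - z ^ (p - k)) =
      ∑ k ∈ range p, ((w q X Y k : ℤ) : R) * (z ^ k - z ^ (p - k)) := by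
    apply Finset.sum_subset
    · intro k hk
      have := mem_range.1 hk
      exact mem_range.2 (by omega)
    · intro k _ hk
      have hk' : q < k := by
        by_contra hcon
        exact hk (mem_range.2 (by omega))
      rw [w_big hk']
      simp
  rw [e2]
  obtain ⟨m, rfl⟩ : ∃ m, p = m + 1 := ⟨p - 1, by omega⟩
  rw [Finset.sum_range_succ']
  have e3 : ((w q X Y 0 : ℤ) : R) * (z ^ 0 - z ^ (m + 1 - 0)) = 0 := by simp [w]
  rw [e3, add_zero, Nat.add_sub_cancel]
  have e4 : ∑ j ∈ range m, ((w q X Y (j + 1) : ℤ) : R) * (z ^ (j + 1) - z ^ (m + 1 - (j + 1))) =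
      ∑ j ∈ range m, ((w q X Y (j + 1) : ℤ) : R) * z ^ (j + 1) -
      ∑ j ∈ range m, ((w q X Y (j + 1) : ℤ) : R) * z ^ (m - j) := by
    rw [← Finset.sum_sub_distrib]
    refine Finset.sum_congr rfl fun j hj => ?_
    have : m + 1 - (j + 1) = m - j := by omega
    rw [this]
    ring
  rw [e4, ← Finset.sum_range_reflect (fun j => ((w q X Y (j + 1) : ℤ) : R) * z ^ (m - j)),
    ← Finset.sum_sub_distrib, Finset.mul_sum]
  refine Finset.sum_congr rfl fun j hj => ?_
  have hj' := mem_range.1 hj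
  have a1 : m - 1 - j + 1 = m - j := by omega
  have a2 : m - (m - 1 - j) = j + 1 := by omega
  simp only [a1, a2]
  push_cast
  ring

theorem dec3 : ∀ x y : ZMod 3, x * y * (x - y) * (x + y) = 0 := by decide

theorem dec5 : ∀ x y : ZMod 5, x ^ 2 + y ^ 2 + 3 * (x * y) = 0 → x ^ 2 - y ^ 2 = 0 := by decide

/-- the arithmetic -/
theorem arith (p q : ℕ) [Fact p.Prime] (X Y : ℤ) (hq : q.Prime) (hq2 : q ≠ 2) (hqp : q < p)
    (h : ∀ i, 1 ≤ i → i ≤ p - 1 → (q : ℤ) ^ 2 ∣ w q X Y i - w q X Y (p - i)) :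
    (q : ℤ) ∣ X * Y * (X - Y) * (X + Y) := by
  have : Fact q.Prime := ⟨hq⟩
  have hp : p.Prime := Fact.out
  have hqodd : Odd q := hq.odd_of_ne_two hq2
  have hpodd : Odd p := hp.odd_of_ne_two (by have := hq.two_le; omega)
  have hq3 : 3 ≤ q := by have := hq.two_le; omega
  have hq0 : (q : ℤ) ≠ 0 := by positivity
  -- reduce to `ZMod q`
  rw [← ZMod.intCast_zmod_eq_zero_iff_dvd]
  push_cast
  set x : ZMod q := (X : ZMod q) with hx
  set y : ZMod q := (Y : ZMod q) with hy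
  by_cases hx0 : x = 0
  · simp [hx0]
  by_cases hy0 : y = 0
  · simp [hy0]
  have hxq : x ^ (q - 1) = 1 := ZMod.pow_card_sub_one_eq_one hx0
  have hyq : y ^ (q - 1) = 1 := ZMod.pow_card_sub_one_eq_one hy0
  have hcast : ((q : ℕ) : ZMod q) = 0 := ZMod.natCast_self q
  -- a general principle: from `q ^ 2 ∣ q * A` to `A = 0` in `ZMod q`
  have hprin : ∀ A : ℤ, (q : ℤ) ^ 2 ∣ (q : ℤ) * A → ((A : ℤ) : ZMod q) = 0 := by
    intro A hA
    rw [pow_two] at hA
    exact (ZMod.intCast_zmod_eq_zero_iff_dvd A q).2 (Int.dvd_of_mul_dvd_mul_left hq0 hA)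
  have hc2 : (2 : ℤ) * (q.choose 2 : ℤ) = q * (q - 1) := by
    have := Nat.choose_two_right q
    have h2 : 2 ∣ q * (q - 1) := (Nat.even_mul_pred_self q).two_dvd
    have h3 : 2 * q.choose 2 = q * (q - 1) := by rw [this]; omega
    have : ((2 * q.choose 2 : ℕ) : ℤ) = ((q * (q - 1) : ℕ) : ℤ) := by rw [h3]
    push_cast [Nat.cast_sub (by omega : 1 ≤ q)] at this
    linarith
  have hc1 : ((q.choose (q - 1) : ℕ) : ℤ) = q := by
    rw [Nat.choose_symm (by omega : 1 ≤ q), Nat.choose_one_right]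
  -- the case `q = 3`
  by_cases h3 : q = 3
  · subst h3
    exact dec3 x y
  have hq5 : 5 ≤ q := by
    rcases hqodd with ⟨r, hr⟩
    omega
  have hfin : (x ^ 2 - y ^ 2) = 0 → x * y * (x - y) * (x + y) = 0 := by
    intro hh
    linear_combination (x * y) * hh
  have hone : ∀ n : ℕ, (1 : ℕ) ≤ n → n < q → ((n : ℕ) : ZMod q) ≠ 0 := by
    intro n hn1 hn2 hn
    rw [ZMod.natCast_eq_zero_iff] at hn
    exact absurd (Nat.le_of_dvd (by omega) hn) (by omega)
  have hcases : q ≤ p - 4 ∨ p = q + 2 := by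
    rcases hqodd with ⟨r, hr⟩
    rcases hpodd with ⟨t, ht⟩
    omega
  rcases hcases with hc | hc
  · -- `i = 2`
    have h2 := h 2 (by norm_num) (by omega)
    rw [w_big (by omega : q < p - 2), sub_zero, w_pos (by norm_num), g] at h2
    have h2' : (q : ℤ) ^ 2 ∣ (q : ℤ) * ((q - 1) *
        (X ^ (q + 1 - 2) * Y ^ 2 - X ^ 2 * Y ^ (q + 1 - 2))) := by
      have e : (q : ℤ) * ((q - 1) * (X ^ (q + 1 - 2) * Y ^ 2 - X ^ 2 * Y ^ (q + 1 - 2))) =
          2 * ((q.choose 2 : ℤ) * (X ^ (q + 1 - 2) * Y ^ 2 - X ^ 2 * Y ^ (q + 1 - 2))) := by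
        linear_combination (-(X ^ (q + 1 - 2) * Y ^ 2 - X ^ 2 * Y ^ (q + 1 - 2))) * hc2
      rw [e]
      exact Dvd.dvd.mul_left h2 2
    have h4 := hprin _ h2'
    have eq1 : q + 1 - 2 = q - 1 := by omega
    rw [eq1] at h4
    push_cast at h4
    rw [← hx, ← hy, hxq, hyq, hcast] at h4
    apply hfin
    linear_combination h4
  · -- `i = 3`
    have h3' := h 3 (by norm_num) (by omega)
    have ep3 : p - 3 = q - 1 := by omega
    rw [ep3, w_pos (by norm_num), w_pos (by omega : q - 1 ≠ 0), g, g, hc1] at h3'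
    have hc3 : (6 : ℤ) * (q.choose 3 : ℤ) = q * (q - 1) * (q - 2) := by
      obtain ⟨r, rfl⟩ : ∃ r, q = r + 3 := ⟨q - 3, by omega⟩
      have := Nat.descFactorial_eq_factorial_mul_choose (r + 3) 3
      simp only [Nat.descFactorial_succ, Nat.descFactorial_zero, Nat.factorial] at this
      have e1 : r + 3 - 2 = r + 1 := by omega
      have e2 : r + 3 - 1 = r + 2 := by omega
      rw [e1, e2] at this
      have := congrArg (Nat.cast : ℕ → ℤ) this
      push_cast at this ⊢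
      linarith
    have h3'' : (q : ℤ) ^ 2 ∣ (q : ℤ) * ((q - 1) * (q - 2) *
        (X ^ (q - 2) * Y ^ 3 - X ^ 3 * Y ^ (q - 2)) -
        6 * (X ^ 2 * Y ^ (q - 1) - X ^ (q - 1) * Y ^ 2)) := by
      have eq1 : q + 1 - 3 = q - 2 := by omega
      have eq2 : q + 1 - (q - 1) = 2 := by omega
      rw [eq1, eq2] at h3'
      have e : (q : ℤ) * ((q - 1) * (q - 2) *
        (X ^ (q - 2) * Y ^ 3 - X ^ 3 * Y ^ (q - 2)) -
        6 * (X ^ 2 * Y ^ (q - 1) - X ^ (q - 1) * Y ^ 2)) =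
          6 * ((q.choose 3 : ℤ) * (X ^ (q - 2) * Y ^ 3 - X ^ 3 * Y ^ (q - 2)) -
            q * (X ^ 2 * Y ^ (q - 1) - X ^ (q - 1) * Y ^ 2)) := by
        linear_combination (-(X ^ (q - 2) * Y ^ 3 - X ^ 3 * Y ^ (q - 2))) * hc3
      rw [e]
      exact Dvd.dvd.mul_left h3' 6
    have h4 := hprin _ h3''
    push_cast at h4
    rw [← hx, ← hy, hxq, hyq, hcast] at h4
    have hx2 : x * x ^ (q - 2) = 1 := by
      rw [← pow_succ', show q - 2 + 1 = q - 1 by omega, hxq]
    have hy2 : y * y ^ (q - 2) = 1 := by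
      rw [← pow_succ', show q - 2 + 1 = q - 1 by omega, hyq]
    have h5 : 2 * ((x ^ 2 - y ^ 2) * (x ^ 2 + y ^ 2 + 3 * (x * y))) = 0 := by
      linear_combination (-(x * y)) * h4 + 2 * y ^ 4 * hx2 - 2 * x ^ 4 * hy2
    have h20 : (2 : ZMod q) ≠ 0 := by exact_mod_cast hone 2 (by norm_num) (by omega)
    have h6 : (x ^ 2 - y ^ 2) * (x ^ 2 + y ^ 2 + 3 * (x * y)) = 0 := by
      rcases mul_eq_zero.1 h5 with h | h
      · exact absurd h h20
      · exact h
    apply hfin
    rcases mul_eq_zero.1 h6 with h7 | h7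
    · exact h7
    · by_cases hq5' : q = 5
      · subst hq5'
        exact dec5 x y h7
      · have hq7 : 7 ≤ q := by
          rcases hqodd with ⟨r, hr⟩
          omega
        have h4' := h 4 (by norm_num) (by omega)
        have ep4 : p - 4 = q - 2 := by omega
        rw [ep4, w_pos (by norm_num), w_pos (by omega : q - 2 ≠ 0), g, g,
          Nat.choose_symm (by omega : 2 ≤ q)] at h4'
        have hc4 : (24 : ℤ) * (q.choose 4 : ℤ) = q * (q - 1) * (q - 2) * (q - 3) := by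
          obtain ⟨r, rfl⟩ : ∃ r, q = r + 4 := ⟨q - 4, by omega⟩
          have := Nat.descFactorial_eq_factorial_mul_choose (r + 4) 4
          simp only [Nat.descFactorial_succ, Nat.descFactorial_zero, Nat.factorial] at this
          have e1 : r + 4 - 2 = r + 2 := by omega
          have e2 : r + 4 - 1 = r + 3 := by omega
          have e3 : r + 4 - 3 = r + 1 := by omega
          rw [e1, e2, e3] at this
          have := congrArg (Nat.cast : ℕ → ℤ) this
          push_cast at this ⊢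
          linarith
        have h4'' : (q : ℤ) ^ 2 ∣ (q : ℤ) * ((q - 1) * (q - 2) * (q - 3) *
            (X ^ (q - 3) * Y ^ 4 - X ^ 4 * Y ^ (q - 3)) -
            12 * (q - 1) * (X ^ 3 * Y ^ (q - 2) - X ^ (q - 2) * Y ^ 3)) := by
          have eq1 : q + 1 - 4 = q - 3 := by omega
          have eq2 : q + 1 - (q - 2) = 3 := by omega
          rw [eq1, eq2] at h4'
          have e : (q : ℤ) * ((q - 1) * (q - 2) * (q - 3) *
            (X ^ (q - 3) * Y ^ 4 - X ^ 4 * Y ^ (q - 3)) -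
            12 * (q - 1) * (X ^ 3 * Y ^ (q - 2) - X ^ (q - 2) * Y ^ 3)) =
              24 * ((q.choose 4 : ℤ) * (X ^ (q - 3) * Y ^ 4 - X ^ 4 * Y ^ (q - 3)) -
                (q.choose 2 : ℤ) * (X ^ 3 * Y ^ (q - 2) - X ^ (q - 2) * Y ^ 3)) := by
            linear_combination (-(X ^ (q - 3) * Y ^ 4 - X ^ 4 * Y ^ (q - 3))) * hc4 +
              12 * (X ^ 3 * Y ^ (q - 2) - X ^ (q - 2) * Y ^ 3) * hc2
          rw [e]
          exact Dvd.dvd.mul_left h4' 24
        have h8 := hprin _ h4''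
        push_cast at h8
        rw [← hx, ← hy, hcast] at h8
        have hx3 : x ^ 2 * x ^ (q - 3) = 1 := by
          rw [← pow_add, show 2 + (q - 3) = q - 1 by omega, hxq]
        have hy3 : y ^ 2 * y ^ (q - 3) = 1 := by
          rw [← pow_add, show 2 + (q - 3) = q - 1 by omega, hyq]
        have h9 : 6 * ((x ^ 2 - y ^ 2) *
            (x ^ 4 + x ^ 2 * y ^ 2 + y ^ 4 + 2 * (x * y) * (x ^ 2 + y ^ 2))) = 0 := by
          linear_combination (x ^ 2 * y ^ 2) * h8 + 6 * y ^ 6 * hx3 - 6 * x ^ 6 * hy3 +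
            12 * (x * y ^ 5 * hx2 - x ^ 5 * y * hy2)
        have h10 : 12 * ((x ^ 2 - y ^ 2) * (x ^ 2 * y ^ 2)) = 0 := by
          linear_combination h9 - 6 * (x ^ 2 - y ^ 2) * (x ^ 2 + y ^ 2 - (x * y)) * h7
        have h20' : (12 : ZMod q) ≠ 0 := by
          have h30 : (3 : ZMod q) ≠ 0 := by exact_mod_cast hone 3 (by norm_num) (by omega)
          have : (12 : ZMod q) = 2 * 2 * 3 := by norm_num
          rw [this]
          exact mul_ne_zero (mul_ne_zero h20 h20) h30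
        rcases mul_eq_zero.1 h10 with h | h
        · exact absurd h h20'
        rcases mul_eq_zero.1 h with h | h
        · exact h
        · exact absurd h (mul_ne_zero (pow_ne_zero 2 hx0) (pow_ne_zero 2 hy0))

end G2

variable (p : ℕ) [hp : Fact p.Prime] (K : Type*) [Field K] [NumberField K]
  [IsCyclotomicExtension {p} ℚ K]

set_option linter.unusedSectionVars false in
theorem t_G2 (hE : S_E p K) : S_G2 p K := by
  intro ζ hζ q X Y hq hq2 hqp hdiv
  have hz : hζ.toInteger ^ p = 1 := hζ.toInteger_isPrimitiveRoot.pow_eq_one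
  rw [G2.diff X Y hζ.toInteger p q hqp hz] at hdiv
  have hunit : IsUnit hζ.toInteger := hζ.toInteger_isPrimitiveRoot.isUnit hp.out.ne_zero
  rw [hunit.dvd_mul_left] at hdiv
  have hdiv' : (((q : ℤ) ^ 2 : ℤ) : 𝓞 K) ∣ ∑ j ∈ range (p - 1),
      (((G2.w q X Y (j + 1) - G2.w q X Y (p - 1 - j) : ℤ)) : 𝓞 K) * hζ.toInteger ^ j := by
    push_cast at hdiv ⊢
    exact hdiv
  have h := hE ζ hζ ((q : ℤ) ^ 2) (fun j => G2.w q X Y (j + 1) - G2.w q X Y (p - 1 - j)) hdiv'
  refine G2.arith p q X Y hq hq2 hqp fun i hi1 hi2 => ?_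
  have := h (i - 1) (by omega)
  rwa [Nat.sub_add_cancel hi1, show p - 1 - (i - 1) = p - i by omega] at this

end Pool.Agent.U792.SW

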