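import Mathlib
import Pool.Agent.U792.SW.Stm

/-!
Project SW, third part: statements.
-/

set_option autoImplicit false

namespace Pool.Agent.U792.SW

open NumberField Finset

/-- There is `f ≥ 1` with `gcd (n, l (l ^ f - 1)) = 1` such that `l = p` or `l ^ f ≡ 1` modulo `p`. -/
def FreeAt (p n l : ℕ) : Prop :=
  ∃ f : ℕ, 0 < f ∧ (l = p ∨ l ^ f ≡ 1 [MOD p]) ∧ Nat.Coprime n (l * (l ^ f - 1))

/-- Package R1: `n`-th roots are unique modulo `Q`. -/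
def S_R1 (p : ℕ) [Fact p.Prime] (K : Type*) [Field K] [NumberField K]
    [IsCyclotomicExtension {p} ℚ K] : Prop :=
  ∀ (ζ : K) (_ : IsPrimitiveRoot ζ p) (n Q : ℕ) (a b : 𝓞 K), n ≠ 0 → Q ≠ 0 →
    (∀ l : ℕ, l.Prime → l ∣ Q → FreeAt p n l) →
    IsCoprime a (Q : 𝓞 K) → IsCoprime b (Q : 𝓞 K) →
    (Q : 𝓞 K) ∣ a ^ n - b ^ n → (Q : 𝓞 K) ∣ a - b

/-- Package L1: the second case. -/
def S_L1 : Prop :=
  ∀ (p n : ℕ) (X Y z : ℤ), p.Prime → p ≠ 2 → n ≠ 0 → IsCoprime X Y → X + Y ≠ 0 →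
    X ^ p + Y ^ p = z ^ n →
    ((p : ℤ) ∣ z → (p : ℤ) ^ (n - 1) ∣ X + Y) ∧
    (∀ q : ℕ, q.Prime → q ≠ p → (q : ℤ) ∣ X + Y → (q : ℤ) ^ n ∣ X + Y)

end Pool.Agent.U792.SW
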