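import Mathlib
import Pool.Agent.U792.SW.Stm3

/-!
Project SW, package L1 (helper324 for helper792): the second case by lifting the exponent.
-/

set_option autoImplicit false

namespace Pool.Agent.U792.SW

open Finset

/-- a common prime divisor of coprime integers does not exist -/
theorem l1_coprime {X Y : ℤ} (hXY : IsCoprime X Y) {q : ℕ} (hq : q.Prime)
    (hs : (q : ℤ) ∣ X + Y) : ¬ (q : ℤ) ∣ X := by
  intro hX
  have hY : (q : ℤ) ∣ Y := (dvd_add_right hX).1 hs
  have h5 := hXY.isUnit_of_dvd' hX hY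
  have h6 := Int.isUnit_iff.1 h5
  have := hq.one_lt
  omega

theorem t_L1 : S_L1 := by
  intro p n X Y z hp hp2 hn hXY hs0 h
  have hodd : Odd p := hp.odd_of_ne_two hp2
  have hpZ : Prime (p : ℤ) := Nat.prime_iff_prime_int.1 hp
  have : Fact p.Prime := ⟨hp⟩
  constructor
  · intro hz
    have h1 : (p : ℤ) ∣ X ^ p + Y ^ p := by
      rw [h]
      exact hz.trans (dvd_pow_self z hn)
    have h2 : (p : ℤ) ∣ X + Y := by
      rw [← ZMod.intCast_zmod_eq_zero_iff_dvd] at h1 ⊢
      push_cast at h1 ⊢
      rw [ZMod.pow_card, ZMod.pow_card] at h1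
      exact h1
    have h3 : ¬ (p : ℤ) ∣ X := l1_coprime hXY hp h2
    have h4 := Int.emultiplicity_pow_add_pow hp hodd h2 h3 hodd
    have h5 : (p : ℤ) ^ n ∣ X ^ p + Y ^ p := by
      rw [h]
      exact pow_dvd_pow_of_dvd hz n
    have h6 := le_emultiplicity_of_pow_dvd h5
    have h7 : emultiplicity p p = 1 := by
      have := Nat.Prime.emultiplicity_self hp
      exact this
    rw [h4, h7] at h6
    obtain ⟨m, rfl⟩ := Nat.exists_eq_succ_of_ne_zero hn
    rw [Nat.succ_sub_one]
    apply pow_dvd_of_le_emultiplicity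
    push_cast at h6
    exact (ENat.add_le_add_iff_right (by simp)).1 h6
  · intro q hq hqp hqs
    have hqZ : Prime (q : ℤ) := Nat.prime_iff_prime_int.1 hq
    have hqX : ¬ (q : ℤ) ∣ X := l1_coprime hXY hq hqs
    set F : ℤ := ∑ i ∈ range p, X ^ i * (-Y) ^ (p - 1 - i) with hF
    have e1 : (X + Y) * F = X ^ p + Y ^ p := by
      have := (Commute.all X (-Y)).mul_geom_sum₂ p
      rw [hodd.neg_pow, sub_neg_eq_add, sub_neg_eq_add] at this
      exact this
    have e2 : (q : ℤ) ∣ F - p * X ^ (p - 1) := by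
      have e3 : F - p * X ^ (p - 1) =
          ∑ i ∈ range p, (X ^ i * (-Y) ^ (p - 1 - i) - X ^ i * X ^ (p - 1 - i)) := by
        rw [Finset.sum_sub_distrib]
        congr 1
        rw [Finset.sum_congr rfl (g := fun _ => X ^ (p - 1))]
        · rw [Finset.sum_const, card_range, nsmul_eq_mul]
        · intro i hi
          rw [mem_range] at hi
          rw [← pow_add]
          congr 1
          omega
      rw [e3]
      refine Finset.dvd_sum fun i _ => ?_
      rw [← mul_sub]
      refine Dvd.dvd.mul_left ?_ _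
      have e4 : (q : ℤ) ∣ -Y - X := by
        have : -Y - X = -(X + Y) := by ring
        rw [this]
        exact (dvd_neg).2 hqs
      exact e4.trans (sub_dvd_pow_sub_pow _ _ _)
    have e5 : ¬ (q : ℤ) ∣ F := by
      intro h1
      have h2 : (q : ℤ) ∣ p * X ^ (p - 1) := by
        have := dvd_sub h1 e2
        rwa [sub_sub_cancel] at this
      rcases hqZ.dvd_or_dvd h2 with h3 | h3
      · have h4 := Int.natCast_dvd_natCast.1 h3
        exact hqp ((Nat.prime_dvd_prime_iff_eq hq hp).1 h4)
      · exact hqX (hqZ.dvd_of_dvd_pow h3)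
    have h1 : (q : ℤ) ∣ z := by
      apply hqZ.dvd_of_dvd_pow (n := n)
      rw [← h, ← e1]
      exact hqs.mul_right _
    have h2 : (q : ℤ) ^ n ∣ (X + Y) * F := by
      rw [e1, h]
      exact pow_dvd_pow_of_dvd h1 n
    have h3 : IsCoprime ((q : ℤ) ^ n) F := by
      apply IsCoprime.pow_left
      exact (hqZ.coprime_iff_not_dvd).2 e5
    exact h3.dvd_of_dvd_mul_right h2

end Pool.Agent.U792.SW
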