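import Mathlib
import Pool.Agent.U792.KU.Cor
import Pool.Agent.U792.SW.Stm

/-!
`∏ σ_u⁻¹ (X + ζ Y)` (over `u = 1, ..., (p - 1) / 2`) is a unit times a power of `ζ - 1` times an
`n`-th power.
-/

set_option autoImplicit false

namespace Pool.Agent.U792.SW

open NumberField NumberField.IsCMField Polynomial Finset Pool.Agent.U792.KU

variable {p : ℕ} [hp : Fact p.Prime] {K : Type*} [Field K] [NumberField K]
  [IsCyclotomicExtension {p} ℚ K] {ζ : K}

/-- as `KU.exists_w`, with `d ≤ 1` -/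
theorem exists_w' (hζ : IsPrimitiveRoot ζ p) (hp2 : p ≠ 2) {X Y : ℤ} (hXY : IsCoprime X Y) :
    ∃ (d : ℕ) (w : 𝓞 K), d ≤ 1 ∧ (X : 𝓞 K) + hζ.toInteger * Y = (hζ.toInteger - 1) ^ d * w ∧
      IsCoprime w (hζ.toInteger - 1) := by
  have key : ∀ w : 𝓞 K, ¬ hζ.toInteger - 1 ∣ w → IsCoprime w (hζ.toInteger - 1) := by
    intro w hw
    exact (IsCoprime.of_isCoprime_of_dvd_left
      (IsCyclotomicExtension.Rat.isCoprime_of_not_zeta_sub_one_dvd p hζ hw)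
      hζ.toInteger_sub_one_dvd_prime').symm
  have hdiv : ∀ t : ℤ, hζ.toInteger - 1 ∣ (t : 𝓞 K) ↔ (p : ℤ) ∣ t := fun t =>
    IsCyclotomicExtension.Rat.zeta_sub_one_dvd_intCast_iff' p hζ
  by_cases h : (p : ℤ) ∣ X + Y
  · obtain ⟨t, ht⟩ := h
    obtain ⟨s, hs⟩ : (hζ.toInteger - 1) ^ 2 ∣ (p : 𝓞 K) := by
      refine (pow_dvd_pow _ ?_).trans
        (IsCyclotomicExtension.Rat.associated_zeta_sub_one_pow_prime p hζ).dvd
      have := hp.out.two_le
      omega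
    have hXY' : (X : 𝓞 K) + Y = (hζ.toInteger - 1) ^ 2 * s * t := by
      have : ((X + Y : ℤ) : 𝓞 K) = ((p * t : ℤ) : 𝓞 K) := by rw [ht]
      push_cast at this
      rw [this, hs]
    refine ⟨1, (hζ.toInteger - 1) * (s * t) + Y, le_refl _, ?_, key _ ?_⟩
    · rw [pow_one]
      linear_combination hXY'
    · intro h1
      have h2 : hζ.toInteger - 1 ∣ (Y : 𝓞 K) := (dvd_add_right (dvd_mul_right _ _)).1 h1
      have h3 := (hdiv Y).1 h2
      have h4 : (p : ℤ) ∣ X := by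
        have h5 : (p : ℤ) ∣ X + Y := ⟨t, ht⟩
        exact (dvd_add_left h3).1 h5
      have h6 := hXY.isUnit_of_dvd' h4 h3
      rw [Int.isUnit_iff_natAbs_eq, Int.natAbs_natCast] at h6
      exact hp.out.one_lt.ne' h6
  · refine ⟨0, (X : 𝓞 K) + hζ.toInteger * Y, by norm_num, by rw [pow_zero, one_mul], key _ ?_⟩
    intro h1
    apply h
    rw [← hdiv]
    have h2 : ((X + Y : ℤ) : 𝓞 K) = (X : 𝓞 K) + hζ.toInteger * Y -
        (hζ.toInteger - 1) * Y := by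
      push_cast
      ring
    rw [h2]
    exact dvd_sub h1 (dvd_mul_right _ _)

omit [IsCyclotomicExtension {p} ℚ K] in
/-- the ideal part of `KU.factor` -/
theorem factor_ideal (hζ : IsPrimitiveRoot ζ p) {n : ℕ} (hp2 : p ≠ 2) {X Y z : ℤ}
    (hXY : IsCoprime X Y) (h : X ^ p + Y ^ p = z ^ n) {d : ℕ} {w : 𝓞 K}
    (hw : (X : 𝓞 K) + hζ.toInteger * Y = (hζ.toInteger - 1) ^ d * w)
    (hwπ : IsCoprime w (hζ.toInteger - 1)) : ∃ I : Ideal (𝓞 K), Ideal.span {w} = I ^ n := by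
  classical
  have hprim := hζ.toInteger_isPrimitiveRoot
  have hζmem : hζ.toInteger ∈ nthRootsFinset p (1 : 𝓞 K) :=
    (mem_nthRootsFinset hp.out.pos (1 : 𝓞 K)).2 hprim.pow_eq_one
  have hprod := hprim.pow_add_pow_eq_prod_add_mul (X : 𝓞 K) (Y : 𝓞 K)
    (hp.out.odd_of_ne_two hp2)
  rw [← mul_prod_erase _ _ hζmem, hw] at hprod
  set R : 𝓞 K := (hζ.toInteger - 1) ^ d * ∏ η ∈ (nthRootsFinset p (1 : 𝓞 K)).erase hζ.toInteger,
    ((X : 𝓞 K) + η * Y) with hR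
  have hwR : w * R = (z : 𝓞 K) ^ n := by
    have h1 : ((X ^ p + Y ^ p : ℤ) : 𝓞 K) = ((z ^ n : ℤ) : 𝓞 K) := by rw [h]
    push_cast at h1
    rw [← h1, hprod, hR]
    ring
  have hcop : IsCoprime w R := by
    rw [hR]
    refine IsCoprime.mul_right (IsCoprime.pow_right hwπ) (IsCoprime.prod_right ?_)
    intro η hη
    obtain ⟨hne, hη'⟩ := mem_erase.1 hη
    have hass := hprim.nthRootsFinset_pairwise_associated_sub_one_sub_of_prime hp.out
      hζmem hη' hne.symm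
    have h1 : IsCoprime w (hζ.toInteger - η) := by
      obtain ⟨u, hu⟩ := hass
      rw [← hu]
      exact (isCoprime_mul_unit_right_right u.isUnit _ _).2 hwπ
    obtain ⟨a, b, hab⟩ := hXY
    have hab' : (a : 𝓞 K) * X + b * Y = 1 := by exact_mod_cast congrArg (Int.cast : ℤ → 𝓞 K) hab
    have h2 : hζ.toInteger - η = ((X : 𝓞 K) + η * Y) * (a * hζ.toInteger - b) +
        w * ((hζ.toInteger - 1) ^ d * (b - a * η)) := by
      have h3 : w * ((hζ.toInteger - 1) ^ d * (b - a * η)) =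
          ((X : 𝓞 K) + hζ.toInteger * Y) * (b - a * η) := by
        rw [hw]
        ring
      rw [h3]
      linear_combination (η - hζ.toInteger) * hab'
    rw [h2, IsCoprime.add_mul_left_right_iff] at h1
    exact h1.of_mul_right_left
  have hI : Ideal.span {w} * Ideal.span {R} = Ideal.span {(z : 𝓞 K)} ^ n := by
    rw [Ideal.span_singleton_mul_span_singleton, hwR, Ideal.span_singleton_pow]
  exact exists_eq_pow_of_mul_eq_pow_of_coprime
    ((Ideal.isCoprime_span_singleton_iff w R).2 hcop) hI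

variable (p) in
/-- the product over `σ_u⁻¹`, `u ∈ H` -/
noncomputable def TT (x : 𝓞 K) : 𝓞 K := ∏ u ∈ H p, tau p K u⁻¹ x

theorem TT_mul (x y : 𝓞 K) : TT p (x * y) = TT p x * TT p y := by
  simp only [TT, map_mul, prod_mul_distrib]

theorem TT_pow (x : 𝓞 K) (n : ℕ) : TT p (x ^ n) = TT p x ^ n := by
  simp only [TT, map_pow, prod_pow]

theorem TT_ne_zero {x : 𝓞 K} (hx : x ≠ 0) : TT p x ≠ 0 := by
  unfold TT
  rw [prod_ne_zero_iff]
  intro u _
  exact (map_ne_zero_iff _ (tau_injective p u⁻¹)).2 hx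

theorem span_TT (x : 𝓞 K) :
    Ideal.span {TT p x} = ∏ u ∈ H p, (Ideal.span {x}).map (tau p K u⁻¹) := by
  simp only [TT, Ideal.map_span, Set.image_singleton, Ideal.prod_span_singleton]

/-- Stickelberger: the factorisation -/
theorem factorTT (hA1 : S_A1 p K) (hA2 : S_A2 p K) (hB1 : S_B1 p K) (hB2 : S_B2 p K)
    (hζ : IsPrimitiveRoot ζ p) {n : ℕ} (hp2 : p ≠ 2) (hn0 : n ≠ 0) {X Y z : ℤ}
    (hXY : IsCoprime X Y) (h : X ^ p + Y ^ p = z ^ n) {d : ℕ} {w : 𝓞 K}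
    (hw : (X : 𝓞 K) + hζ.toInteger * Y = (hζ.toInteger - 1) ^ d * w)
    (hwπ : IsCoprime w (hζ.toInteger - 1)) :
    ∃ (ε : (𝓞 K)ˣ) (γ : 𝓞 K), γ ≠ 0 ∧
      TT p ((X : 𝓞 K) + hζ.toInteger * (Y : 𝓞 K)) =
        TT p (hζ.toInteger - 1) ^ d * (ε : 𝓞 K) * γ ^ n := by
  obtain ⟨I, hI⟩ := factor_ideal hζ hp2 hXY h hw hwπ
  have hw0 : w ≠ 0 := by
    rintro rfl
    rw [isCoprime_zero_left] at hwπ
    exact hζ.zeta_sub_one_prime'.not_isUnit hwπ
  have hI0 : I ≠ ⊥ := by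
    rintro rfl
    rw [← Ideal.zero_eq_bot, zero_pow hn0, Ideal.zero_eq_bot, Ideal.span_singleton_eq_bot] at hI
    exact hw0 hI
  have hgood : ∀ P : Ideal (𝓞 K), P.IsPrime → P ≠ ⊥ → I ≤ P → Good hζ P := by
    intro P hP hP0 hIP
    have hwP : w ∈ P := by
      have h1 : w ∈ I ^ n := by
        rw [← hI]
        exact Ideal.mem_span_singleton_self w
      exact hIP (Ideal.pow_le_self hn0 h1)
    have h1 : (X : 𝓞 K) + hζ.toInteger * Y ∈ P := by
      rw [hw]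
      exact P.mul_mem_left _ hwP
    refine ⟨hP, hB1 ζ hζ P X Y hP hP0 hXY h1, ?_⟩
    intro h2
    obtain ⟨a, b, hab⟩ := hwπ
    apply hP.ne_top
    rw [Ideal.eq_top_iff_one, ← hab]
    exact P.add_mem (P.mul_mem_left _ hwP) (P.mul_mem_left _ h2)
  obtain ⟨γ, hγ0, hγ⟩ := hB2 ζ hζ (fun P hP => by
    obtain ⟨J, hJ1, hJ2⟩ := hA1 ζ hζ P hp2 hP.1 hP.2.1 hP.2.2
    exact ⟨J, hA2 ζ hζ P J hp2 hP.1 hP.2.1 hP.2.2 hJ1 hJ2⟩) I hI0 hgood
  have hspan : Ideal.span {γ ^ n} = Ideal.span {TT p w} := by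
    rw [span_TT, hI, ← Ideal.span_singleton_pow, hγ, ← prod_pow]
    refine prod_congr rfl fun u _ => ?_
    rw [Ideal.map_pow]
  obtain ⟨ε, hε⟩ := Ideal.span_singleton_eq_span_singleton.1 hspan
  refine ⟨ε, γ, hγ0, ?_⟩
  rw [hw, TT_mul, TT_pow, ← hε]
  ring

end Pool.Agent.U792.SW
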