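import Mathlib
import Pool.Agent.U792.SW.Fac

/-!
Project SW, second part: statements.
-/

set_option autoImplicit false

namespace Pool.Agent.U792.SW

open NumberField NumberField.IsCMField Finset Pool.Agent.U792.KU

variable (p : ℕ) [hp : Fact p.Prime] (K : Type*) [Field K] [NumberField K]
  [IsCyclotomicExtension {p} ℚ K] [IsCMField K]

/-- There is no ideal class `c ≠ 1` with `c ^ n = 1` and `c * conj c = 1`. -/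
def MinusFree (K : Type*) [Field K] [NumberField K] [IsCMField K] (n : ℕ) : Prop :=
  ∀ I : Ideal (𝓞 K), I ≠ ⊥ → (I ^ n).IsPrincipal → (I * I.map (cc K)).IsPrincipal → I.IsPrincipal

/-- Package M1. -/
def S_M1 (K : Type*) [Field K] [NumberField K] [IsCMField K] : Prop :=
  ∀ (n : ℕ) (w : 𝓞 K) (I : Ideal (𝓞 K)), n ≠ 0 → w ≠ 0 → Ideal.span {w} = I ^ n →
    MinusFree K n → ∃ γ : 𝓞 K, Ideal.span {γ} = I * (I.map (cc K)) ^ (n - 1)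

/-- Package M2. -/
def S_M2 : Prop :=
  ∀ (ζ : K) (hζ : IsPrimitiveRoot ζ p) (n d : ℕ) (X Y : ℤ) (w γ : 𝓞 K) (I : Ideal (𝓞 K)),
    p ≠ 2 → Nat.Coprime n (2 * p) → n ≠ 0 → w ≠ 0 → Ideal.span {w} = I ^ n →
    (X : 𝓞 K) + hζ.toInteger * Y = (hζ.toInteger - 1) ^ d * w →
    Ideal.span {γ} = I * (I.map (cc K)) ^ (n - 1) →
    ∃ s : ℕ, ((X : 𝓞 K) + hζ.toInteger * Y) * ((cc K γ * cc K w) ^ ((n + 1) / 2) * w) ^ n =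
      ((X : 𝓞 K) + cc K hζ.toInteger * Y) *
        ((-hζ.toInteger) ^ s * ((γ * w) ^ ((n + 1) / 2) * cc K w)) ^ n

/-- Package M3. -/
def S_M3 : Prop :=
  ∀ (ζ : K) (hζ : IsPrimitiveRoot ζ p) (n d Q k s : ℕ) (X Y : ℤ) (w γ : 𝓞 K) (I : Ideal (𝓞 K)),
    p ≠ 2 → Odd n → w ≠ 0 → Ideal.span {w} = I ^ n →
    (X : 𝓞 K) + hζ.toInteger * Y = (hζ.toInteger - 1) ^ d * w →
    Ideal.span {γ} = I * (I.map (cc K)) ^ (n - 1) →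
    IsCoprime w (Q : 𝓞 K) →
    (Q : 𝓞 K) ∣ (-hζ.toInteger) ^ k * ((cc K γ * cc K w) ^ ((n + 1) / 2) * w) -
      (-hζ.toInteger) ^ s * ((γ * w) ^ ((n + 1) / 2) * cc K w) →
    (-hζ.toInteger) ^ k * ((cc K γ * cc K w) ^ ((n + 1) / 2) * w) ≠
      (-hζ.toInteger) ^ s * ((γ * w) ^ ((n + 1) / 2) * cc K w) →
    (Q : ℤ) ^ n ≤ 2 ^ n * (|X| + |Y|)

/-- Package N1. -/
def S_N1 (p : ℕ) [Fact p.Prime] (K : Type*) [Field K] [NumberField K]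
    [IsCyclotomicExtension {p} ℚ K] : Prop :=
  ∀ (ζ : K) (hζ : IsPrimitiveRoot ζ p) (d : ℕ) (X Y : ℤ) (w : 𝓞 K),
    5 ≤ p → d ≤ 1 → X ≠ 0 → Y ≠ 0 → X ≠ Y → X ≠ -Y →
    (X : 𝓞 K) + hζ.toInteger * Y = (hζ.toInteger - 1) ^ d * w → ¬ IsUnit w

/-- Package N3. -/
def S_N3 (p : ℕ) [Fact p.Prime] (K : Type*) [Field K] [NumberField K]
    [IsCyclotomicExtension {p} ℚ K] : Prop :=
  ∀ (ζ : K) (hζ : IsPrimitiveRoot ζ p) (q : ℕ), p ≠ 2 → 2 ≤ q →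
    ¬ (q : 𝓞 K) ∣ ∑ u ∈ H p,
      (hζ.toInteger ^ (p - ((u⁻¹ : (ZMod p)ˣ) : ZMod p).val) -
        hζ.toInteger ^ ((u⁻¹ : (ZMod p)ˣ) : ZMod p).val)

/-- Package N4. -/
def S_N4 (p : ℕ) [Fact p.Prime] (K : Type*) [Field K] [NumberField K]
    [IsCyclotomicExtension {p} ℚ K] : Prop :=
  ∀ (ζ : K) (hζ : IsPrimitiveRoot ζ p) (q : ℕ) (e : (ZMod p)ˣ → 𝓞 K), p ≠ 2 → 2 ≤ q →
    (∀ u, e u * (1 + hζ.toInteger ^ (u : ZMod p).val) = 1) →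
    (q : 𝓞 K) ∣ ∑ u ∈ H p, (1 - hζ.toInteger ^ ((u⁻¹ : (ZMod p)ˣ) : ZMod p).val) * e u⁻¹ →
    q ∣ (p - 1) / 2

end Pool.Agent.U792.SW
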