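import Mathlib
import Pool.Agent.U792.SW.Stm2

/-!
# Project SW, package M1 (helper61): the minus part of the class group
-/

set_option autoImplicit false

namespace Pool.Agent.U792.SW

open NumberField NumberField.IsCMField Finset Pool.Agent.U792.KU

theorem PkgM1.cc_cc (K : Type*) [Field K] [NumberField K] [IsCMField K] (x : 𝓞 K) :
    cc K (cc K x) = x := by
  apply RingOfIntegers.ext
  change complexConj K (complexConj K (x : K)) = x
  exact complexConj_apply_apply K (x : K)

theorem PkgM1.map_map (K : Type*) [Field K] [NumberField K] [IsCMField K] (I : Ideal (𝓞 K)) :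
    (I.map (cc K)).map (cc K) = I := by
  rw [Ideal.map_map]
  have h : (cc K).comp (cc K) = RingHom.id (𝓞 K) := RingHom.ext fun x => PkgM1.cc_cc K x
  rw [h, Ideal.map_id]

theorem t_M1 (K : Type*) [Field K] [NumberField K] [IsCMField K] : S_M1 K := by
  intro n w I hn hw hI hMF
  have hinj : Function.Injective (cc K) := fun x y h => by
    rw [← PkgM1.cc_cc K x, h, PkgM1.cc_cc K y]
  have hI0 : I ≠ ⊥ := by
    rintro rfl
    rw [Ideal.bot_pow hn, Ideal.span_singleton_eq_bot] at hI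
    exact hw hI
  have hM0 : I.map (cc K) ≠ ⊥ := by
    rw [Ne, Ideal.map_eq_bot_iff_of_injective hinj]
    exact hI0
  have hMn : (I.map (cc K)) ^ n = Ideal.span {cc K w} := by
    rw [← Ideal.map_pow, ← hI, Ideal.map_span, Set.image_singleton]
  obtain ⟨k, rfl⟩ := Nat.exists_eq_succ_of_ne_zero hn
  have h1 : I * (I.map (cc K)) ^ (k.succ - 1) ≠ ⊥ :=
    mul_ne_zero hI0 (pow_ne_zero _ hM0)
  have h2 : (I * (I.map (cc K)) ^ (k.succ - 1)) ^ k.succ =
      Ideal.span {w * (cc K w) ^ (k.succ - 1)} := by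
    rw [mul_pow, ← pow_mul, mul_comm (k.succ - 1) k.succ, pow_mul, hMn, ← hI,
      Ideal.span_singleton_pow, Ideal.span_singleton_mul_span_singleton]
  have h3 : I * (I.map (cc K)) ^ (k.succ - 1) * (I * (I.map (cc K)) ^ (k.succ - 1)).map (cc K) =
      Ideal.span {w * cc K w} := by
    rw [Ideal.map_mul, Ideal.map_pow, PkgM1.map_map, ← Ideal.span_singleton_mul_span_singleton,
      hI, ← hMn, Nat.succ_sub_one, pow_succ, pow_succ]
    ring
  obtain ⟨γ, hγ⟩ := hMF _ h1 (by rw [h2]; exact ⟨⟨_, rfl⟩⟩) (by rw [h3]; exact ⟨⟨_, rfl⟩⟩)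
  exact ⟨γ, hγ.symm⟩

end Pool.Agent.U792.SW
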