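import Mathlib
import Pool.Agent.U792.SW.Stm2

/-!
Project SW, package M2: the relation between `X + ζ Y` and its conjugate.
-/

set_option autoImplicit false

namespace Pool.Agent.U792.SW

open NumberField NumberField.IsCMField Finset Pool.Agent.U792.KU

theorem M2_cc_cc {K : Type*} [Field K] [NumberField K] [IsCMField K] (x : 𝓞 K) :
    cc K (cc K x) = x := by
  apply RingOfIntegers.ext
  change complexConj K (complexConj K (x : K)) = x
  exact complexConj_apply_apply K _

theorem t_M2 (p : ℕ) [Fact p.Prime] (K : Type*) [Field K] [NumberField K]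
    [IsCyclotomicExtension {p} ℚ K] [IsCMField K] : S_M2 p K := by
  intro ζ hζ n d X Y w γ I hp2 hcop hn hw hI hXY hγ
  have hp : p.Prime := Fact.out
  -- `γ ^ n` up to a unit
  have hassoc : Associated (w * (cc K w) ^ (n - 1)) (γ ^ n) := by
    rw [← Ideal.span_singleton_eq_span_singleton]
    have h1 : Ideal.span {cc K w} = (I.map (cc K)) ^ n := by
      rw [← Ideal.map_pow, ← hI, Ideal.map_span, Set.image_singleton]
    rw [← Ideal.span_singleton_mul_span_singleton, ← Ideal.span_singleton_pow,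
      ← Ideal.span_singleton_pow, h1, hI, hγ, mul_pow, ← pow_mul, ← pow_mul, mul_comm n (n - 1)]
  obtain ⟨ε, hε⟩ := hassoc
  obtain ⟨r, hr⟩ := unit_rel (hζ := hζ) hp2 ε
  have hcz := conj_zeta hζ
  obtain ⟨k, hk⟩ : Odd n := by
    rcases Nat.even_or_odd n with h | h
    · exfalso
      have h2 : 2 ∣ Nat.gcd n (2 * p) := Nat.dvd_gcd h.two_dvd (dvd_mul_right 2 p)
      rw [hcop] at h2
      omega
    · exact h
  obtain ⟨m, hm⟩ : ∃ m, m = (n + 1) / 2 := ⟨_, rfl⟩
  have hmk : m = k + 1 := by omega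
  have hn1 : n - 1 = 2 * k := by omega
  -- the relations
  have e1 : γ ^ n = w * (cc K w) ^ (2 * k) * ε := by rw [← hε, hn1]
  have e2 : (cc K γ) ^ n = cc K w * w ^ (2 * k) * cc K (ε : 𝓞 K) := by
    have := congrArg (cc K) e1
    simp only [map_pow, map_mul, M2_cc_cc] at this
    exact this
  have h1 : (X : 𝓞 K) + cc K hζ.toInteger * Y = (cc K hζ.toInteger - 1) ^ d * cc K w := by
    have := congrArg (cc K) hXY
    simpa using this
  have h4 : hζ.toInteger - 1 = -hζ.toInteger * (cc K hζ.toInteger - 1) := by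
    linear_combination hcz
  -- the root of unity is an `n`-th power
  obtain ⟨s, hs⟩ : ∃ s : ℕ, (-hζ.toInteger) ^ (s * n) * (-hζ.toInteger) ^ (r * m) =
      (-hζ.toInteger) ^ d := by
    have h2p : (-hζ.toInteger) ^ (2 * p) = 1 := by
      rw [pow_mul, neg_sq, ← pow_mul, mul_comm, pow_mul,
        hζ.toInteger_isPrimitiveRoot.pow_eq_one, one_pow]
    obtain ⟨u, -, hu⟩ := Nat.exists_mul_mod_eq_one_of_coprime hcop
      (by have := hp.two_le; omega)
    refine ⟨u * (d + r * m * (2 * p - 1)), ?_⟩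
    have h3 : n * u = 1 + 2 * p * (n * u / (2 * p)) := by
      have := Nat.mod_add_div (n * u) (2 * p)
      omega
    have h5 : u * (d + r * m * (2 * p - 1)) * n + r * m =
        d + 2 * p * (r * m + n * u / (2 * p) * (d + r * m * (2 * p - 1))) := by
      have h6 : r * m * (2 * p - 1) + r * m = r * m * (2 * p) := by
        have : 2 * p - 1 + 1 = 2 * p := by have := hp.two_le; omega
        calc r * m * (2 * p - 1) + r * m = r * m * (2 * p - 1 + 1) := by ring
          _ = _ := by rw [this]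
      calc u * (d + r * m * (2 * p - 1)) * n + r * m
          = n * u * (d + r * m * (2 * p - 1)) + r * m := by ring
        _ = (1 + 2 * p * (n * u / (2 * p))) * (d + r * m * (2 * p - 1)) + r * m := by rw [← h3]
        _ = d + (r * m * (2 * p - 1) + r * m) +
            2 * p * (n * u / (2 * p) * (d + r * m * (2 * p - 1))) := by ring
        _ = _ := by rw [h6]; ring
    rw [← pow_add, h5, pow_add, pow_mul _ (2 * p), h2p, one_pow, mul_one]
  refine ⟨s, ?_⟩
  rw [← hm, hXY, h1]
  have a1 : ((cc K γ * cc K w) ^ m * w) ^ n = ((cc K γ) ^ n) ^ m * (cc K w) ^ (m * n) * w ^ n := by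
    rw [mul_pow, mul_pow, mul_pow, ← pow_mul, ← pow_mul, ← pow_mul, mul_comm m n]
  have a2 : ((-hζ.toInteger) ^ s * ((γ * w) ^ m * cc K w)) ^ n =
      (-hζ.toInteger) ^ (s * n) * ((γ ^ n) ^ m * w ^ (m * n) * (cc K w) ^ n) := by
    rw [mul_pow, mul_pow, mul_pow, mul_pow, ← pow_mul, ← pow_mul, ← pow_mul, ← pow_mul,
      mul_comm m n]
  rw [a1, a2, e1, e2]
  have hεm : ((ε : 𝓞 K)) ^ m = (-hζ.toInteger) ^ (r * m) * (cc K (ε : 𝓞 K)) ^ m := by
    rw [pow_mul, ← mul_pow, ← hr]
  have hd : (hζ.toInteger - 1) ^ d = (-hζ.toInteger) ^ d * (cc K hζ.toInteger - 1) ^ d := by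
    rw [h4, mul_pow]
  rw [hd, ← hs, mul_pow (w * cc K w ^ (2 * k)), hεm]
  subst hmk
  subst hk
  ring

end Pool.Agent.U792.SW
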