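import Mathlib
import Pool.Agent.U792.SW.Stm2

/-!
Project SW, package M3: the norm bound.
-/

set_option autoImplicit false

namespace Pool.Agent.U792.SW

open NumberField NumberField.IsCMField Finset Pool.Agent.U792.KU

section M3

variable {K : Type*} [Field K] [NumberField K]

theorem m3_absNorm_span (x : 𝓞 K) : ((Ideal.absNorm (Ideal.span {x}) : ℕ) : ℝ) = Nm x := by
  rw [Nm_eq, Ideal.absNorm_span_singleton]
  rw [Nat.cast_natAbs]
  push_cast
  rfl

variable [IsCMField K]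

theorem m3_cc_cc (x : 𝓞 K) : cc K (cc K x) = x := by
  apply RingOfIntegers.ext
  change complexConj K (complexConj K (x : K)) = (x : K)
  exact complexConj_apply_apply K (x : K)

theorem m3_map_map (I : Ideal (𝓞 K)) : (I.map (cc K)).map (cc K) = I := by
  rw [Ideal.map_map]
  have h : (cc K).comp (cc K) = RingHom.id (𝓞 K) := RingHom.ext m3_cc_cc
  rw [h, Ideal.map_id]

end M3

theorem t_M3 (p : ℕ) [hp : Fact p.Prime] (K : Type*) [Field K] [NumberField K]
    [IsCyclotomicExtension {p} ℚ K] [IsCMField K] : S_M3 p K := by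
  intro ζ hζ n d Q k s X Y w γ I hp2 hn hw hI hA hγ hcop hdvd hne
  obtain ⟨m, hm⟩ : ∃ m, m = (n + 1) / 2 := ⟨_, rfl⟩
  rw [← hm] at hdvd hne
  have hn0 : n ≠ 0 := by
    rintro rfl
    exact absurd hn (by decide)
  have h2m : 2 * m = n + 1 := by
    obtain ⟨r, hr⟩ := hn
    omega
  obtain ⟨N, hN⟩ : ∃ N, N = (n + 1) * m - 1 := ⟨_, rfl⟩
  have hm0 : 1 ≤ m := by omega
  have hN1 : (n + 1) * m = N + 1 := by
    have : 1 ≤ (n + 1) * m := Nat.mul_pos (by omega) hm0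
    omega
  have hN2 : (n - 1) * m + n = N := by
    have e1 : (n + 1) * m = (n - 1) * m + 2 * m := by
      rw [← add_mul]
      congr 1
      omega
    omega
  obtain ⟨J, hJ⟩ : ∃ J, J = I.map (cc K) := ⟨_, rfl⟩
  have hJJ : J.map (cc K) = I := by rw [hJ]; exact m3_map_map I
  rw [← hJ] at hγ
  have hcw : Ideal.span {cc K w} = J ^ n := by
    have := congrArg (Ideal.map (cc K)) hI
    rw [Ideal.map_span, Set.image_singleton, Ideal.map_pow, ← hJ] at this
    exact this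
  have hcγ : Ideal.span {cc K γ} = J * I ^ (n - 1) := by
    have := congrArg (Ideal.map (cc K)) hγ
    rw [Ideal.map_span, Set.image_singleton, Ideal.map_mul, Ideal.map_pow, ← hJ, hJJ] at this
    exact this
  obtain ⟨b, hb⟩ : ∃ b, b = (-hζ.toInteger) ^ s * ((γ * w) ^ m * cc K w) := ⟨_, rfl⟩
  obtain ⟨a, ha⟩ : ∃ a, a = (-hζ.toInteger) ^ k * ((cc K γ * cc K w) ^ m * w) := ⟨_, rfl⟩
  rw [← ha, ← hb] at hdvd hne
  have hu : ∀ r : ℕ, Ideal.span {(-hζ.toInteger) ^ r} = (1 : Ideal (𝓞 K)) := by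
    intro r
    rw [Ideal.one_eq_top, Ideal.span_singleton_eq_top]
    apply IsUnit.pow
    apply IsUnit.neg
    exact hζ.toInteger_isPrimitiveRoot.isUnit hp.out.ne_zero
  have en : n - 1 + 1 = n := by omega
  have hsb : Ideal.span {b} = (I * J) ^ N * I := by
    rw [hb, ← Ideal.span_singleton_mul_span_singleton, hu, one_mul,
      ← Ideal.span_singleton_mul_span_singleton, hcw, ← Ideal.span_singleton_pow,
      ← Ideal.span_singleton_mul_span_singleton, hγ, hI]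
    have e1 : I * J ^ (n - 1) * I ^ n = I ^ (n + 1) * J ^ (n - 1) := by ring
    rw [e1, mul_pow, ← pow_mul, ← pow_mul, hN1, mul_assoc, ← pow_add, hN2]
    ring
  have hsa : Ideal.span {a} = (I * J) ^ N * J := by
    rw [ha, ← Ideal.span_singleton_mul_span_singleton, hu, one_mul,
      ← Ideal.span_singleton_mul_span_singleton, hI, ← Ideal.span_singleton_pow,
      ← Ideal.span_singleton_mul_span_singleton, hcγ, hcw]
    have e1 : J * I ^ (n - 1) * J ^ n = J ^ (n + 1) * I ^ (n - 1) := by ring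
    rw [e1, mul_pow, ← pow_mul, ← pow_mul, hN1, mul_assoc, ← pow_add, hN2]
    ring
  obtain ⟨C, hC⟩ : ∃ C, C = (I * J) ^ N := ⟨_, rfl⟩
  rw [← hC] at hsa hsb
  have hCd : C ∣ Ideal.span {a - b} := by
    rw [Ideal.dvd_span_singleton]
    apply Ideal.sub_mem
    · rw [← Ideal.dvd_span_singleton, hsa]
      exact dvd_mul_right _ _
    · rw [← Ideal.dvd_span_singleton, hsb]
      exact dvd_mul_right _ _
  have hQd : Ideal.span {(Q : 𝓞 K)} ∣ Ideal.span {a - b} := by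
    rw [Ideal.dvd_span_singleton]
    exact Ideal.mem_span_singleton.2 hdvd
  have hIQ : IsCoprime I (Ideal.span {(Q : 𝓞 K)}) := by
    have h1 : IsCoprime (Ideal.span {w}) (Ideal.span {(Q : 𝓞 K)}) :=
      (Ideal.isCoprime_span_singleton_iff _ _).2 hcop
    rw [hI] at h1
    exact (IsCoprime.pow_left_iff (Nat.pos_of_ne_zero hn0)).1 h1
  have hJQ : IsCoprime J (Ideal.span {(Q : 𝓞 K)}) := by
    have h0 : IsCoprime (cc K w) (Q : 𝓞 K) := by
      have := hcop.map (cc K)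
      rwa [map_natCast] at this
    have h1 : IsCoprime (Ideal.span {cc K w}) (Ideal.span {(Q : 𝓞 K)}) :=
      (Ideal.isCoprime_span_singleton_iff _ _).2 h0
    rw [hcw] at h1
    exact (IsCoprime.pow_left_iff (Nat.pos_of_ne_zero hn0)).1 h1
  have hCQ : IsCoprime C (Ideal.span {(Q : 𝓞 K)}) := by
    rw [hC]
    exact (hIQ.mul_left hJQ).pow_left
  have hdd : C * Ideal.span {(Q : 𝓞 K)} ∣ Ideal.span {a - b} := hCQ.mul_dvd hCd hQd
  have hab0 : a - b ≠ 0 := sub_ne_zero.2 hne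
  have hI0 : I ≠ ⊥ := by
    rintro rfl
    apply hw
    rw [← Ideal.span_singleton_eq_bot, hI, ← Ideal.zero_eq_bot, zero_pow hn0]
  have hJ0 : J ≠ ⊥ := by
    intro h0
    apply hI0
    rw [← hJJ, h0, Ideal.map_bot]
  have hC0 : C ≠ ⊥ := by
    rw [hC, ← Ideal.zero_eq_bot]
    apply pow_ne_zero
    apply mul_ne_zero <;> assumption
  obtain ⟨f, hf⟩ : ∃ f, f = Module.finrank ℚ K := ⟨_, rfl⟩
  have hp1 : f = p - 1 := by
    rw [hf, IsCyclotomicExtension.finrank K (Polynomial.cyclotomic.irreducible_rat hp.out.pos),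
      Nat.totient_prime hp.out]
  have hf0 : f ≠ 0 := by
    have := hp.out.two_le
    omega
  have hN1 : (Ideal.absNorm C : ℝ) * (Q : ℝ) ^ f ≤ Nm (a - b) := by
    have h1 : Ideal.absNorm (C * Ideal.span {(Q : 𝓞 K)}) ∣ Ideal.absNorm (Ideal.span {a - b}) :=
      Ideal.absNorm_dvd_absNorm_of_le (Ideal.dvd_iff_le.1 hdd)
    have h2 : Ideal.absNorm (Ideal.span {a - b}) ≠ 0 := by
      intro h0
      rw [Ideal.absNorm_eq_zero_iff, Ideal.span_singleton_eq_bot] at h0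
      exact hab0 h0
    have h3 := Nat.le_of_dvd (Nat.pos_of_ne_zero h2) h1
    rw [map_mul] at h3
    have h4 : ((Ideal.absNorm C * Ideal.absNorm (Ideal.span {(Q : 𝓞 K)}) : ℕ) : ℝ) ≤
        ((Ideal.absNorm (Ideal.span {a - b}) : ℕ) : ℝ) := by exact_mod_cast h3
    rw [Nat.cast_mul, m3_absNorm_span, m3_absNorm_span, Nm_natCast, ← hf] at h4
    exact h4
  have hNb : Nm b = (Ideal.absNorm C : ℝ) * (Ideal.absNorm I : ℝ) := by
    rw [← m3_absNorm_span, hsb, map_mul, Nat.cast_mul]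
  have hab : ∀ σ : K →ₐ[ℚ] ℂ, ‖σ (a : K)‖ = ‖σ (b : K)‖ := by
    intro σ
    rw [ha, hb, norm_neg_zeta_pow_mul hζ, norm_neg_zeta_pow_mul hζ]
    simp only [map_mul, map_pow, norm_mul, norm_pow, norm_cc]
  have h2 : Nm (a - b) ≤ 2 ^ f * Nm b := by
    rw [hf]
    exact Nm_sub_le hab fun _ => rfl
  have hCpos : (0 : ℝ) < (Ideal.absNorm C : ℝ) := by
    have : Ideal.absNorm C ≠ 0 := by
      intro h0
      rw [Ideal.absNorm_eq_zero_iff] at h0
      exact hC0 h0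
    exact_mod_cast Nat.pos_of_ne_zero this
  have h3 : (Q : ℝ) ^ f ≤ 2 ^ f * (Ideal.absNorm I : ℝ) := by
    have h4 := hN1.trans h2
    rw [hNb] at h4
    have h5 : (Ideal.absNorm C : ℝ) * (Q : ℝ) ^ f ≤
        (Ideal.absNorm C : ℝ) * (2 ^ f * (Ideal.absNorm I : ℝ)) := by
      calc _ ≤ _ := h4
        _ = _ := by ring
    exact le_of_mul_le_mul_left h5 hCpos
  have h4 : (Ideal.absNorm I : ℝ) ^ n ≤ ((|X| + |Y| : ℤ) : ℝ) ^ f := by
    have h5 : (Ideal.absNorm I : ℝ) ^ n = Nm w := by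
      rw [← m3_absNorm_span, hI, map_pow, Nat.cast_pow]
    rw [h5, hf]
    refine le_trans ?_ (Nm_lin_le (X := X) (Y := Y) (norm_zeta hζ))
    rw [hA, Nm_mul]
    refine le_mul_of_one_le_left (Nm_nonneg _) (one_le_Nm ?_)
    apply pow_ne_zero
    intro h0
    exact hζ.toInteger_isPrimitiveRoot.ne_one hp.out.one_lt (sub_eq_zero.1 h0)
  have h5 : ((Q : ℝ) ^ n) ^ f ≤ (2 ^ n * ((|X| + |Y| : ℤ) : ℝ)) ^ f := by
    calc ((Q : ℝ) ^ n) ^ f = ((Q : ℝ) ^ f) ^ n := by rw [← pow_mul, ← pow_mul, mul_comm]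
      _ ≤ (2 ^ f * (Ideal.absNorm I : ℝ)) ^ n := pow_le_pow_left₀ (by positivity) h3 n
      _ = (2 ^ f) ^ n * (Ideal.absNorm I : ℝ) ^ n := mul_pow _ _ _
      _ ≤ (2 ^ f) ^ n * ((|X| + |Y| : ℤ) : ℝ) ^ f := mul_le_mul_of_nonneg_left h4 (by positivity)
      _ = (2 ^ n * ((|X| + |Y| : ℤ) : ℝ)) ^ f := by
          rw [mul_pow, ← pow_mul, ← pow_mul, mul_comm n]
  have h6 : 0 ≤ 2 ^ n * ((|X| + |Y| : ℤ) : ℝ) := by positivity
  have h7 := le_of_pow_le_pow_left₀ hf0 h6 h5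
  exact_mod_cast h7

end Pool.Agent.U792.SW
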