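import Mathlib
import Pool.Agent.U792.SW.Stm

/-! Project SW, package D: an inequality. -/

set_option autoImplicit false

namespace Pool.Agent.U792.SW

theorem D_pow (m : ℕ) (hm : 5 ≤ m) : 2 * (m : ℤ) ≤ 2 ^ (m - 1) := by
  induction m, hm using Nat.le_induction with
  | base => norm_num
  | succ n hn ih =>
    have h : n + 1 - 1 = (n - 1) + 1 := by omega
    rw [h, pow_succ]
    push_cast
    have : (5 : ℤ) ≤ n := by exact_mod_cast hn
    linarith

theorem D_same (m : ℕ) (a b : ℤ) (hm : 5 ≤ m) (hb : 1 ≤ b) (hab : b < a) :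
    (m : ℤ) * (a + b) < a ^ m + b ^ m := by
  have h1 : a ^ m = a ^ (m - 1) * a := by rw [← pow_succ]; congr 1; omega
  have h2 : (2 : ℤ) ^ (m - 1) ≤ a ^ (m - 1) := pow_le_pow_left₀ (by norm_num) (by linarith) _
  have h3 := D_pow m hm
  have h4 : 0 < b ^ m := pow_pos (by linarith) _
  have h5 : 2 * (m : ℤ) * a ≤ a ^ (m - 1) * a :=
    mul_le_mul_of_nonneg_right (h3.trans h2) (by linarith)
  have h6 : (m : ℤ) * b ≤ m * a := mul_le_mul_of_nonneg_left hab.le (by positivity)
  rw [h1]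
  nlinarith

theorem D_opp (m : ℕ) (a b : ℤ) (hm : 5 ≤ m) (hb : 1 ≤ b) (hab : b < a) :
    (m : ℤ) * (a - b) < a ^ m - b ^ m := by
  have h1 : a ^ m = a ^ (m - 1) * a := by rw [← pow_succ]; congr 1; omega
  have h1' : b ^ m = b ^ (m - 1) * b := by rw [← pow_succ]; congr 1; omega
  have h2 : (2 : ℤ) ^ (m - 1) ≤ a ^ (m - 1) := pow_le_pow_left₀ (by norm_num) (by linarith) _
  have h3 := D_pow m hm
  have h4 : b ^ (m - 1) ≤ a ^ (m - 1) := pow_le_pow_left₀ (by linarith) hab.le _
  have h5 : b ^ (m - 1) * b ≤ a ^ (m - 1) * b := mul_le_mul_of_nonneg_right h4 (by linarith)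
  have hm0 : (5 : ℤ) ≤ m := by exact_mod_cast hm
  have h6 : (m : ℤ) * (a - b) < a ^ (m - 1) * (a - b) :=
    mul_lt_mul_of_pos_right (by linarith) (by linarith)
  rw [h1, h1']
  linarith

theorem D_lt (m : ℕ) (X Y : ℤ) (hm : 5 ≤ m) (hodd : Odd m) (hY : Y ≠ 0)
    (h : |Y| < |X|) : (m : ℤ) * |X + Y| < |X ^ m + Y ^ m| := by
  have hX : X ≠ 0 := by
    rintro rfl
    simp only [abs_zero] at h
    exact absurd h (not_lt.2 (abs_nonneg _))
  -- reduce to `0 < X`
  wlog hpos : 0 < X generalizing X Y with H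
  · have := H (-X) (-Y) (neg_ne_zero.2 hY) (by simpa using h) (neg_ne_zero.2 hX)
      (by rcases lt_trichotomy X 0 with h0 | h0 | h0 <;> [linarith; exact absurd h0 hX; exact absurd h0 hpos])
    rw [hodd.neg_pow, hodd.neg_pow, ← neg_add, ← neg_add, abs_neg, abs_neg] at this
    exact this
  · rw [abs_of_pos hpos] at h
    rcases lt_trichotomy Y 0 with hy | hy | hy
    · obtain ⟨b, rfl⟩ : ∃ b, Y = -b := ⟨-Y, by ring⟩
      rw [abs_neg] at h
      have hb : 0 < b := by linarith
      rw [abs_of_pos hb] at h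
      have h1 := D_opp m X b hm (by linarith) h
      rw [hodd.neg_pow, ← sub_eq_add_neg, ← sub_eq_add_neg, abs_of_pos (by linarith : 0 < X - b)]
      exact h1.trans_le (le_abs_self _)
    · exact absurd hy hY
    · rw [abs_of_pos hy] at h
      have h1 := D_same m X Y hm (by linarith) h
      rw [abs_of_pos (by linarith : 0 < X + Y)]
      exact h1.trans_le (le_abs_self _)

theorem t_D : S_D := by
  intro m X Y F hm hodd hX hY hXY hXY' hF
  have hne : |X| ≠ |Y| := by
    intro h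
    rcases abs_eq_abs.1 h with h | h
    · exact hXY h
    · exact hXY' h
  have key : (m : ℤ) * |X + Y| < |X ^ m + Y ^ m| := by
    rcases lt_or_gt_of_ne hne with h | h
    · have := D_lt m Y X hm hodd hX h
      rwa [add_comm Y X, add_comm (Y ^ m)] at this
    · exact D_lt m X Y hm hodd hY h
  have hs : 0 < |X + Y| := by
    rw [abs_pos]
    intro h
    exact hXY' (by linarith)
  rw [← hF, abs_mul, mul_comm] at key
  have h2 : (m : ℤ) < |F| := lt_of_mul_lt_mul_left key hs.le
  refine ⟨?_, h2⟩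
  have : (5 : ℤ) ≤ m := by exact_mod_cast hm
  linarith

end Pool.Agent.U792.SW
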