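import Mathlib
import Pool.Agent.U792.SW.Stm2
import Pool.Agent.U792.SW.PkgD

/-! Project SW, package N1: `w` is not a unit. -/

set_option autoImplicit false

namespace Pool.Agent.U792.SW

open NumberField Polynomial Finset

theorem N1_dvd (K : Type*) [Field K] [NumberField K] (a b : ℤ) (h : (a : 𝓞 K) ∣ (b : 𝓞 K)) :
    a ∣ b := by
  have h1 := map_dvd (Algebra.norm ℤ) h
  have e : ∀ t : ℤ, Algebra.norm ℤ (t : 𝓞 K) = t ^ Module.finrank ℤ (𝓞 K) := fun t => by
    have := Algebra.norm_algebraMap_of_basis (Module.Free.chooseBasis ℤ (𝓞 K)) t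
    rw [← Module.finrank_eq_card_chooseBasisIndex] at this
    simpa using this
  rw [e, e] at h1
  exact (Int.pow_dvd_pow_iff (by
    have : 0 < Module.finrank ℤ (𝓞 K) := Module.finrank_pos
    omega)).1 h1

theorem t_N1 (p : ℕ) [hp : Fact p.Prime] (K : Type*) [Field K] [NumberField K]
    [IsCyclotomicExtension {p} ℚ K] : S_N1 p K := by
  classical
  intro ζ hζ d X Y w hp5 hd hX hY hXY hXY' hw hu
  have hodd : Odd p := hp.out.odd_of_ne_two (by omega)
  have hprim := hζ.toInteger_isPrimitiveRoot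
  obtain ⟨F, hF⟩ := hodd.add_dvd_pow_add_pow X Y
  have hD := (t_D p X Y F hp5 hodd hX hY hXY hXY' hF.symm).2
  have hone : (1 : 𝓞 K) ∈ nthRootsFinset p (1 : 𝓞 K) :=
    (mem_nthRootsFinset hp.out.pos (1 : 𝓞 K)).2 (one_pow p)
  have hprod := hprim.pow_add_pow_eq_prod_add_mul (X : 𝓞 K) (Y : 𝓞 K) hodd
  rw [← mul_prod_erase _ _ hone, one_mul] at hprod
  have hs : (X : 𝓞 K) + Y ≠ 0 := by
    intro h
    apply hXY'
    have : ((X + Y : ℤ) : 𝓞 K) = 0 := by push_cast; exact h
    have := Int.cast_eq_zero.1 this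
    linarith
  have hFprod : (F : 𝓞 K) = ∏ η ∈ (nthRootsFinset p (1 : 𝓞 K)).erase 1,
      ((X : 𝓞 K) + η * Y) := by
    apply mul_left_cancel₀ hs
    rw [← hprod]
    have : ((X ^ p + Y ^ p : ℤ) : 𝓞 K) = (((X + Y) * F : ℤ) : 𝓞 K) := by rw [hF]
    push_cast at this
    exact this.symm
  have hfac : ∀ η ∈ (nthRootsFinset p (1 : 𝓞 K)).erase 1,
      ((X : 𝓞 K) + η * Y) ∣ (hζ.toInteger - 1) ^ d := by
    intro η hη
    obtain ⟨hne, hη'⟩ := mem_erase.1 hη
    have hpow := (mem_nthRootsFinset hp.out.pos (1 : 𝓞 K)).1 hη'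
    obtain ⟨i, hi, rfl⟩ := hprim.eq_pow_of_pow_eq_one hpow
    have hi0 : i ≠ 0 := by
      rintro rfl
      exact hne (pow_zero _)
    have hcop : Nat.Coprime i p :=
      (Nat.coprime_of_lt_prime hi0 hi hp.out).symm
    set u := ZMod.unitOfCoprime i hcop with hudef
    have hval : (u : ZMod p).val = i := by
      rw [hudef, ZMod.coe_unitOfCoprime, ZMod.val_natCast_of_lt hi]
    have ht : tau p K u hζ.toInteger = hζ.toInteger ^ i := by
      rw [tau_zeta p hζ u, hval]
    have h1 := congrArg (tau p K u) hw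
    simp only [map_add, map_mul, map_pow, map_sub, map_one, map_intCast, ht] at h1
    rw [h1]
    have hass := hprim.nthRootsFinset_pairwise_associated_sub_one_sub_of_prime hp.out
      hη' hone hne
    have hun : IsUnit (tau p K u w) := hu.map (tau p K u)
    rw [hun.mul_right_dvd]
    exact (hass.pow_pow (n := d)).symm.dvd
  have hdvd : (F : 𝓞 K) ∣ ((p ^ d : ℤ) : 𝓞 K) := by
    rw [hFprod]
    refine (Finset.prod_dvd_prod_of_dvd _ _ hfac).trans ?_
    rw [prod_const, card_erase_of_mem hone, hprim.card_nthRootsFinset, ← pow_mul, mul_comm, pow_mul]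
    push_cast
    exact pow_dvd_pow_of_dvd
      (IsCyclotomicExtension.Rat.associated_zeta_sub_one_pow_prime p hζ).dvd _
  have h2 := N1_dvd K _ _ hdvd
  have hppos : (0 : ℤ) < p := by exact_mod_cast hp.out.pos
  have h3 : |F| ≤ (p : ℤ) ^ d := by
    have := Int.le_of_dvd (pow_pos hppos d) ((abs_dvd _ _).2 h2)
    exact this
  have h4 : (p : ℤ) ^ d ≤ p := by
    calc (p : ℤ) ^ d ≤ (p : ℤ) ^ 1 := pow_le_pow_right₀ (by linarith) hd
      _ = p := pow_one _
  linarith

end Pool.Agent.U792.SW
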