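import Mathlib
import Pool.Agent.U792.SW.Stm2
import Pool.Agent.U792.SW.PkgE

/-!
Project SW, package N3: a sum of roots of unity is not divisible by `q` (helper894).
-/

set_option autoImplicit false

namespace Pool.Agent.U792.SW

open NumberField Finset

theorem t_N3 (p : ℕ) [Fact p.Prime] (K : Type*) [Field K] [NumberField K]
    [IsCyclotomicExtension {p} ℚ K] : S_N3 p K := by
  classical
  intro ζ hζ q hp2 hq hdvd
  have hp : p.Prime := Fact.out
  have hp3 : 3 ≤ p := by
    have := hp.two_le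
    omega
  haveI : Fact (1 < p) := ⟨by omega⟩
  have hj1 : ∀ u : (ZMod p)ˣ, 1 ≤ ((u⁻¹ : (ZMod p)ˣ) : ZMod p).val := by
    intro u
    have h0 : ((u⁻¹ : (ZMod p)ˣ) : ZMod p) ≠ 0 := Units.ne_zero _
    have := (ZMod.val_ne_zero _).2 h0
    omega
  have hj2 : ∀ u : (ZMod p)ˣ, ((u⁻¹ : (ZMod p)ˣ) : ZMod p).val < p := fun u => ZMod.val_lt _
  let f : ℕ → ℤ := fun k => ∑ u ∈ H p,
    ((if p - ((u⁻¹ : (ZMod p)ˣ) : ZMod p).val = k + 1 then 1 else 0) -
      (if ((u⁻¹ : (ZMod p)ˣ) : ZMod p).val = k + 1 then 1 else 0))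
  have key : ∀ m, 1 ≤ m → m < p →
      ∑ k ∈ range (p - 1), (if m = k + 1 then hζ.toInteger ^ (k + 1) else 0) =
        hζ.toInteger ^ m := by
    intro m h1 h2
    rw [sum_eq_single (m - 1)]
    · rw [if_pos (by omega)]
      congr 1
      omega
    · intro b _ hb
      rw [if_neg (by omega)]
    · intro h
      exact absurd (mem_range.2 (by omega)) h
  have hsum : ∑ u ∈ H p,
      (hζ.toInteger ^ (p - ((u⁻¹ : (ZMod p)ˣ) : ZMod p).val) -
        hζ.toInteger ^ ((u⁻¹ : (ZMod p)ˣ) : ZMod p).val) =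
      hζ.toInteger * ∑ k ∈ range (p - 1), (f k : 𝓞 K) * hζ.toInteger ^ k := by
    rw [mul_sum]
    have h1 : ∀ k ∈ range (p - 1), hζ.toInteger * ((f k : 𝓞 K) * hζ.toInteger ^ k) =
        ∑ u ∈ H p, ((if p - ((u⁻¹ : (ZMod p)ˣ) : ZMod p).val = k + 1 then
            hζ.toInteger ^ (k + 1) else 0) -
          (if ((u⁻¹ : (ZMod p)ˣ) : ZMod p).val = k + 1 then hζ.toInteger ^ (k + 1) else 0)) := by
      intro k _
      simp only [f]
      push_cast
      rw [sum_mul, mul_sum]
      refine sum_congr rfl fun u _ => ?_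
      split_ifs <;> ring
    rw [sum_congr rfl h1, sum_comm]
    refine sum_congr rfl fun u _ => ?_
    have a1 := hj1 u
    have a2 := hj2 u
    rw [sum_sub_distrib, key _ (by omega) (by omega), key _ a1 a2]
  rw [hsum] at hdvd
  have hu : IsUnit hζ.toInteger := hζ.toInteger_isPrimitiveRoot.isUnit hp.ne_zero
  rw [hu.dvd_mul_left] at hdvd
  have hE := t_E p K ζ hζ (q : ℤ) f (by exact_mod_cast hdvd) 0 (by omega)
  have hf0 : f 0 = -1 := by
    have e1 : f 0 = ∑ u ∈ H p, (if u = 1 then (-1 : ℤ) else 0) := by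
      simp only [f]
      refine sum_congr rfl fun u hu => ?_
      rw [mem_H] at hu
      have b1 : ¬ (p - ((u⁻¹ : (ZMod p)ˣ) : ZMod p).val = 0 + 1) := by
        intro h
        have a2 := hj2 u
        have h3 : ((u⁻¹ : (ZMod p)ˣ) : ZMod p).val = p - 1 := by omega
        have h4 : ((u⁻¹ : (ZMod p)ˣ) : ZMod p) = -1 := by
          rw [← ZMod.natCast_zmod_val ((u⁻¹ : (ZMod p)ˣ) : ZMod p), h3,
            Nat.cast_sub (by omega)]
          simp
        have h5 : u⁻¹ = -1 := Units.ext (by rw [h4]; simp)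
        have h6 : u = -1 := by
          rw [← inv_inv u, h5]; simp
        rw [h6] at hu
        have h7 : (((-1 : (ZMod p)ˣ) : ZMod p)).val = p - 1 := by
          rw [← h3, h5]
        rw [h7] at hu
        omega
      rw [if_neg b1]
      by_cases hu1 : u = 1
      · rw [if_pos hu1, if_pos]
        · norm_num
        · rw [hu1]; simp [ZMod.val_one]
      · rw [if_neg hu1, if_neg]
        · norm_num
        · intro h
          apply hu1
          have h4 : ((u⁻¹ : (ZMod p)ˣ) : ZMod p) = 1 := by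
            rw [← ZMod.natCast_zmod_val ((u⁻¹ : (ZMod p)ˣ) : ZMod p), h]
            simp
          have h5 : u⁻¹ = 1 := Units.ext (by rw [h4]; simp)
          rw [← inv_inv u, h5]; simp
    rw [e1, sum_ite_eq']
    rw [if_pos]
    rw [mem_H]
    simp only [Units.val_one, ZMod.val_one]
    omega
  rw [hf0] at hE
  have h2 : (q : ℤ) ∣ 1 := by simpa using hE
  have h3 : q ∣ 1 := by exact_mod_cast h2
  have h4 := Nat.le_of_dvd one_pos h3
  omega

end Pool.Agent.U792.SW
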