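import Mathlib
import Pool.Agent.U792.SW.Stm3
import Pool.Agent.U792.KU.Root

/-!
Project SW, package R1: uniqueness of `n`-th roots modulo `Q`.
-/

set_option autoImplicit false

namespace Pool.Agent.U792.SW

open NumberField Polynomial Pool.Agent.U792.KU

variable {p : ℕ} [hp : Fact p.Prime] {K : Type*} [Field K] [NumberField K]
  [IsCyclotomicExtension {p} ℚ K] {ζ : K} (hζ : IsPrimitiveRoot ζ p)

include hζ in
/-- the `f`-th iterate of the Frobenius map modulo `l` -/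
theorem r1_frob {l e : ℕ} (hl : l.Prime) (he : 0 < e) (x : 𝓞 K) :
    (l ^ e ≡ 1 [MOD p] → (l : 𝓞 K) ∣ x ^ l ^ e - x) ∧
      (l = p → ∃ c : ℤ, (l : 𝓞 K) ∣ x ^ l ^ e - (c : 𝓞 K)) := by
  have : Fact l.Prime := ⟨hl⟩
  have hlu : (l : 𝓞 K) ∈ nonunits (𝓞 K) := frob_nonunit hl
  let A := 𝓞 K ⧸ (Ideal.span {(l : 𝓞 K)} : Ideal (𝓞 K))
  have : CharP A l := CharP.quotient (𝓞 K) l hlu
  have : ExpChar A l := ExpChar.prime hl
  let mk : 𝓞 K →+* A := Ideal.Quotient.mk _
  have hmk : ∀ a b : 𝓞 K, mk a = mk b ↔ (l : 𝓞 K) ∣ a - b := by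
    intro a b
    rw [Ideal.Quotient.mk_eq_mk_iff_sub_mem, Ideal.mem_span_singleton]
  let F : A →+* A := iterateFrobenius A l e
  have hF : ∀ a : A, F a = a ^ l ^ e := fun a => iterateFrobenius_def l e a
  obtain ⟨f, hf⟩ := hζ.integralPowerBasis.exists_eq_aeval' x
  rw [hζ.integralPowerBasis_gen] at hf
  have hζp : hζ.toInteger ^ p = 1 := hζ.toInteger_isPrimitiveRoot.pow_eq_one
  have key : F (mk x) = eval₂ (Int.castRingHom A) (mk (hζ.toInteger) ^ l ^ e) f := by
    rw [hf, aeval_def, hom_eval₂, hom_eval₂, hF]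
    congr 1
    exact RingHom.ext_int _ _
  have hx : eval₂ (Int.castRingHom A) (mk hζ.toInteger) f = mk x := by
    rw [hf, aeval_def, hom_eval₂]
    congr 1
  constructor
  · intro h1
    have h2 : hζ.toInteger ^ l ^ e = hζ.toInteger := by
      obtain ⟨t, ht⟩ := (Nat.modEq_iff_dvd' (Nat.one_le_pow _ _ hl.pos)).1 h1.symm
      have h3 : l ^ e = p * t + 1 := by
        have := Nat.one_le_pow e l hl.pos
        omega
      rw [h3, pow_succ, pow_mul, hζp, one_pow, one_mul]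
    rw [← map_pow, h2, hx, hF, ← map_pow] at key
    exact (hmk _ _).1 key
  · intro hlp
    have h2 : hζ.toInteger ^ l ^ e = 1 := by
      obtain ⟨k, hk⟩ : ∃ k, e = k + 1 := ⟨e - 1, by omega⟩
      rw [hlp, hk, pow_succ', pow_mul, hζp, one_pow]
    refine ⟨f.eval 1, ?_⟩
    rw [← map_pow, h2, map_one, hF, ← map_pow] at key
    have h3 : eval₂ (Int.castRingHom A) 1 f = mk ((f.eval 1 : ℤ) : 𝓞 K) := by
      rw [eval₂_at_one, map_intCast]
      simp
    rw [h3] at key
    exact (hmk _ _).1 key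

include hζ in
/-- `x ^ M` is `1` modulo `l` for the units `x` modulo `l`, with `M` prime to `n` -/
theorem r1_exists_exp {l n : ℕ} (hl : l.Prime) (hn : FreeAt p n l) :
    Nat.Coprime n l ∧
    ∃ M : ℕ, Nat.Coprime n M ∧ ∀ x : 𝓞 K, IsCoprime x (l : 𝓞 K) → (l : 𝓞 K) ∣ x ^ M - 1 := by
  obtain ⟨e, he, hlp, hn⟩ := hn
  have hnl : Nat.Coprime n l := Nat.Coprime.coprime_mul_right_right hn
  have hn2 : Nat.Coprime n (l ^ e - 1) := Nat.Coprime.coprime_mul_left_right hn
  have hpos : 1 ≤ l ^ e := Nat.one_le_pow _ _ hl.pos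
  refine ⟨hnl, ?_⟩
  rcases hlp with hlp | hlp
  · refine ⟨l ^ e * (l - 1), ?_, ?_⟩
    · refine Nat.Coprime.mul_right (hnl.pow_right _) ?_
      refine Nat.Coprime.coprime_dvd_right ?_ hn2
      have := Nat.sub_dvd_pow_sub_pow l 1 e
      rwa [one_pow] at this
    · intro x hx
      obtain ⟨c, hc⟩ := (r1_frob hζ hl he x).2 hlp
      have hlc : ¬ (l : ℤ) ∣ c := by
        intro h
        have h1 : (l : 𝓞 K) ∣ (c : 𝓞 K) := by
          have := (Int.castRingHom (𝓞 K)).map_dvd h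
          simpa using this
        have h2 : (l : 𝓞 K) ∣ x ^ l ^ e := by
          have := dvd_add hc h1
          rwa [sub_add_cancel] at this
        have h3 : IsUnit (l : 𝓞 K) := (IsCoprime.pow_left hx).isUnit_of_dvd' h2 dvd_rfl
        have h4 := (frob_nonunit hl) h3
        exact h4
      have h1 := dvd_pow_sub_one_of_coprime_int (K := K) hl hlc
      have h2 : (l : 𝓞 K) ∣ (x ^ l ^ e) ^ (l - 1) - (c : 𝓞 K) ^ (l - 1) :=
        hc.trans (sub_dvd_pow_sub_pow _ _ _)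
      have h3 := dvd_add h2 h1
      rw [sub_add_sub_cancel, ← pow_mul] at h3
      exact h3
  · refine ⟨l ^ e - 1, hn2, ?_⟩
    intro x hx
    have h1 := (r1_frob hζ hl he x).1 hlp
    have h2 : x ^ l ^ e - x = x * (x ^ (l ^ e - 1) - 1) := by
      rw [mul_sub, mul_one, mul_pow_sub_one (by omega)]
    rw [h2] at h1
    exact hx.symm.dvd_of_dvd_mul_left h1

/-- Package R1. -/
theorem t_R1 (p : ℕ) [Fact p.Prime] (K : Type*) [Field K] [NumberField K]
    [IsCyclotomicExtension {p} ℚ K] : S_R1 p K := by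
  intro ζ hζ n Q
  induction Q using Nat.recOnPosPrimePosCoprime with
  | prime_pow l k hl hk =>
    intro a b hn0 hQ0 hQ ha hb h
    obtain ⟨j, rfl⟩ : ∃ j, k = j + 1 := ⟨k - 1, by omega⟩
    have h1 := hQ l hl (dvd_pow_self _ (by omega))
    obtain ⟨hnl, M, hM1, hM2⟩ := r1_exists_exp hζ hl h1
    have hcp : ∀ x : 𝓞 K, IsCoprime x ((l ^ (j + 1) : ℕ) : 𝓞 K) → IsCoprime x (l : 𝓞 K) := by
      intro x hx
      push_cast at hx
      exact (IsCoprime.pow_right_iff (by omega)).1 hx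
    exact root_prime_pow hn0 hM1 hnl hM2 (hcp a ha) (hcp b hb) h
  | zero =>
    intro a b hn0 hQ0
    exact absurd rfl hQ0
  | one =>
    intro a b hn0 hQ0 hQ ha hb h
    simp
  | coprime c d hc hd hcd ihc ihd =>
    intro a b hn0 hQ0 hQ ha hb h
    have hc' : ((c * d : ℕ) : 𝓞 K) = (c : 𝓞 K) * (d : 𝓞 K) := by push_cast; rfl
    rw [hc'] at ha hb h ⊢
    have hcop : IsCoprime (c : 𝓞 K) (d : 𝓞 K) := by
      have := (Nat.isCoprime_iff_coprime.2 hcd).map (Int.castRingHom (𝓞 K))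
      simpa using this
    refine hcop.mul_dvd ?_ ?_
    · exact ihc a b hn0 (by omega) (fun l hl hlc => hQ l hl (hlc.mul_right _))
        ha.of_mul_right_left hb.of_mul_right_left ((dvd_mul_right _ _).trans h)
    · exact ihd a b hn0 (by omega) (fun l hl hlc => hQ l hl (hlc.mul_left _))
        ha.of_mul_right_right hb.of_mul_right_right ((dvd_mul_left _ _).trans h)

end Pool.Agent.U792.SW
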