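import Mathlib
import Pool.Agent.U792.SW.Stm2

/-!
From a relation `A a ^ n = B b ^ n` and `Q ∣ A - κ B` to `Q ∣ κ' a - b`; the case of prime `n` and
`Q = n ^ m`.
-/

set_option autoImplicit false

namespace Pool.Agent.U792.SW

open NumberField NumberField.IsCMField Polynomial Finset Pool.Agent.U792.KU

variable {p : ℕ} [hp : Fact p.Prime] {K : Type*} [Field K] [NumberField K]
  [IsCyclotomicExtension {p} ℚ K] {ζ : K}

omit [IsCyclotomicExtension {p} ℚ K] in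
theorem rel_pow (hζ : IsPrimitiveRoot ζ p) {n : ℕ} (hnp : Nat.Coprime n (2 * p)) (k : ℕ)
    {A B a b : 𝓞 K} (hrel : A * a ^ n = B * b ^ n) :
    ∃ t : ℕ, B * (((-hζ.toInteger) ^ t * a) ^ n - b ^ n) =
      -((A - (-hζ.toInteger) ^ k * B) * a ^ n) := by
  obtain ⟨t, ht⟩ := root_pow hζ hnp k
  refine ⟨t, ?_⟩
  rw [mul_pow, ← pow_mul, mul_comm t n, ht]
  linear_combination hrel

theorem core3 (hζ : IsPrimitiveRoot ζ p) {n : ℕ} (hn0 : n ≠ 0) (hnp : Nat.Coprime n (2 * p))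
    {A B a b : 𝓞 K} (hrel : A * a ^ n = B * b ^ n) (ha0 : a ≠ 0) {k Q : ℕ} (hQ0 : Q ≠ 0)
    (hQ : ∀ l : ℕ, l.Prime → l ∣ Q → Nat.Coprime n (l * (l ^ (p - 1) - 1)))
    (hdvd : (Q : 𝓞 K) ∣ A - (-hζ.toInteger) ^ k * B)
    (hne : A ≠ (-hζ.toInteger) ^ k * B)
    (hB : IsCoprime B (Q : 𝓞 K)) (ha : IsCoprime a (Q : 𝓞 K)) (hb : IsCoprime b (Q : 𝓞 K)) :
    ∃ t : ℕ, (Q : 𝓞 K) ∣ (-hζ.toInteger) ^ t * a - b ∧ (-hζ.toInteger) ^ t * a ≠ b := by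
  obtain ⟨t, ht⟩ := rel_pow hζ hnp k hrel
  refine ⟨t, ?_, ?_⟩
  · have h2 : (Q : 𝓞 K) ∣ ((-hζ.toInteger) ^ t * a) ^ n - b ^ n := by
      refine hB.symm.dvd_of_dvd_mul_left ?_
      rw [ht]
      exact (hdvd.mul_right _).neg_right
    exact root_unique (hζ := hζ) hn0 hQ0 hQ
      ((isCoprime_mul_unit_left_left (isUnit_neg_zeta hζ t) _ _).2 ha) hb h2
  · intro h0
    rw [h0, sub_self, mul_zero] at ht
    have h4 := mul_eq_zero.1 (neg_eq_zero.1 ht.symm)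
    rcases h4 with h5 | h5
    · exact hne (sub_eq_zero.1 h5)
    · exact ha0 (pow_eq_zero_iff hn0 |>.1 h5)

theorem frob_inj (hζ : IsPrimitiveRoot ζ p) {q : ℕ} (hq : q.Prime) (hqp : q ≠ p) {a b : 𝓞 K}
    (h : (q : 𝓞 K) ∣ a ^ q - b ^ q) : (q : 𝓞 K) ∣ a - b := by
  have hp2 := hp.out.two_le
  have h1 := (frob (hζ := hζ) hq a).1 hqp
  have h2 := (frob (hζ := hζ) hq b).1 hqp
  have e : q ^ (p - 1) = q * q ^ (p - 2) := by
    rw [← pow_succ']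
    congr 1
    omega
  have h3 : (q : 𝓞 K) ∣ a ^ q ^ (p - 1) - b ^ q ^ (p - 1) := by
    rw [e, pow_mul, pow_mul]
    exact h.trans (sub_dvd_pow_sub_pow _ _ _)
  have h4 := dvd_add (dvd_sub h3 h1) h2
  have e2 : a ^ q ^ (p - 1) - b ^ q ^ (p - 1) - (a ^ q ^ (p - 1) - a) +
      (b ^ q ^ (p - 1) - b) = a - b := by ring
  rwa [e2] at h4

/-- `q`-th roots modulo `q ^ m` -/
theorem lift_back {q : ℕ} (hq : q.Prime) (hq2 : q ≠ 2) {a b : 𝓞 K} (hb : IsCoprime b (q : 𝓞 K))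
    (h1 : (q : 𝓞 K) ∣ a - b) {m : ℕ} (h : (q : 𝓞 K) ^ (m + 1) ∣ a ^ q - b ^ q) :
    (q : 𝓞 K) ^ m ∣ a - b := by
  have hq0 : (q : 𝓞 K) ≠ 0 := by exact_mod_cast hq.ne_zero
  obtain ⟨c, hc⟩ := h1
  have ha : a = b + q * c := by rw [← hc]; ring
  have hg : (∑ i ∈ range q, a ^ i * b ^ (q - 1 - i)) * (a - b) = a ^ q - b ^ q :=
    (Commute.all a b).geom_sum₂_mul q
  obtain ⟨r, hr⟩ := odd_sq_dvd_geom_sum₂_sub (R := 𝓞 K) (a := b) (b := c) (p := q)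
    (hq.odd_of_ne_two hq2)
  rw [← ha] at hr
  have h2 : (∑ i ∈ range q, a ^ i * b ^ (q - 1 - i)) = q * (b ^ (q - 1) + q * r) := by
    linear_combination hr
  rw [h2, mul_assoc] at hg
  rw [← hg, pow_succ'] at h
  have h3 := (mul_dvd_mul_iff_left hq0).1 h
  refine IsCoprime.dvd_of_dvd_mul_left ?_ h3
  refine IsCoprime.pow_left ?_
  rw [IsCoprime.add_mul_left_right_iff]
  exact hb.symm.pow_right

/-- `n = q` prime -/
theorem coreq (hζ : IsPrimitiveRoot ζ p) {q : ℕ} (hq : q.Prime) (hq2 : q ≠ 2) (hqp : q ≠ p)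
    (hnp : Nat.Coprime q (2 * p))
    {A B a b : 𝓞 K} (hrel : A * a ^ q = B * b ^ q) (ha0 : a ≠ 0) {k m : ℕ}
    (hdvd : (q : 𝓞 K) ^ (m + 1) ∣ A - (-hζ.toInteger) ^ k * B)
    (hne : A ≠ (-hζ.toInteger) ^ k * B)
    (hB : IsCoprime B (q : 𝓞 K)) (ha : IsCoprime a (q : 𝓞 K)) (hb : IsCoprime b (q : 𝓞 K)) :
    (q : 𝓞 K) ^ 2 ∣ A - (-hζ.toInteger) ^ k * B ∧
    ∃ t : ℕ, (q : 𝓞 K) ∣ (-hζ.toInteger) ^ t * a - b ∧
      (q : 𝓞 K) ^ m ∣ (-hζ.toInteger) ^ t * a - b ∧ (-hζ.toInteger) ^ t * a ≠ b := by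
  obtain ⟨t, ht⟩ := rel_pow hζ hnp k hrel
  have h2 : (q : 𝓞 K) ^ (m + 1) ∣ ((-hζ.toInteger) ^ t * a) ^ q - b ^ q := by
    refine (IsCoprime.pow_left hB.symm).dvd_of_dvd_mul_left ?_
    rw [ht]
    exact (hdvd.mul_right _).neg_right
  have h3 : (q : 𝓞 K) ∣ (-hζ.toInteger) ^ t * a - b :=
    frob_inj hζ hq hqp ((dvd_pow_self _ (by omega)).trans h2)
  have h4 : (q : 𝓞 K) ^ m ∣ (-hζ.toInteger) ^ t * a - b := lift_back hq hq2 hb h3 h2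
  refine ⟨?_, t, h3, h4, ?_⟩
  · have h5 := dvd_sub_pow_of_dvd_sub (R := 𝓞 K) (p := q) h3 1
    rw [pow_one] at h5
    have h6 : (q : 𝓞 K) ^ 2 ∣ (A - (-hζ.toInteger) ^ k * B) * a ^ q := by
      have h7 : (q : 𝓞 K) ^ 2 ∣ B * (((-hζ.toInteger) ^ t * a) ^ q - b ^ q) := h5.mul_left _
      rw [ht] at h7
      exact (dvd_neg.1 h7)
    exact (IsCoprime.pow (m := 2) (n := q) ha.symm).dvd_of_dvd_mul_right h6
  · intro h0
    rw [h0, sub_self, mul_zero] at ht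
    have h4 := mul_eq_zero.1 (neg_eq_zero.1 ht.symm)
    rcases h4 with h5 | h5
    · exact hne (sub_eq_zero.1 h5)
    · exact ha0 (pow_eq_zero_iff hq.ne_zero |>.1 h5)

end Pool.Agent.U792.SW
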