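import Mathlib
import Pool.Agent.U792.SW.Core

/-!
The four cases `Q ∣ X`, `Q ∣ Y`, `Q ∣ X - Y`, `Q ∣ X + Y`: for `X + ζ Y` and for the product `TT`.
-/

set_option autoImplicit false

namespace Pool.Agent.U792.SW

open NumberField NumberField.IsCMField Polynomial Finset Pool.Agent.U792.KU

variable {p : ℕ} [hp : Fact p.Prime] {K : Type*} [Field K] [NumberField K]
  [IsCyclotomicExtension {p} ℚ K] {ζ : K} [IsCMField K]

omit [IsCMField K] in
theorem cop_p (hζ : IsPrimitiveRoot ζ p) {Q : ℕ} (hpQ : ¬ p ∣ Q) :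
    IsCoprime (hζ.toInteger - 1) (Q : 𝓞 K) := by
  have h6 : IsCoprime (p : 𝓞 K) (Q : 𝓞 K) := by
    have h7 : Nat.Coprime p Q := (Nat.Prime.coprime_iff_not_dvd hp.out).2 hpQ
    have := (Nat.isCoprime_iff_coprime.2 h7).map (Int.castRingHom (𝓞 K))
    simpa using this
  exact IsCoprime.of_isCoprime_of_dvd_left h6 hζ.toInteger_sub_one_dvd_prime'

theorem unit_cop {R : Type*} [CommRing R] {u : R} (hu : IsUnit u) (x : R) : IsCoprime u x := by
  obtain ⟨v, rfl⟩ := hu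
  exact ⟨((v⁻¹ : Rˣ) : R), 0, by simp⟩

/-- `X + ζ Y` is prime to `Q` -/
theorem cop_Q (hζ : IsPrimitiveRoot ζ p) (hp2 : p ≠ 2) {X Y : ℤ} (hXY : IsCoprime X Y) {Q : ℕ}
    (hD : (Q : ℤ) ∣ X ∨ (Q : ℤ) ∣ Y ∨ (Q : ℤ) ∣ X - Y ∨ ((Q : ℤ) ∣ X + Y ∧ ¬ p ∣ Q)) :
    IsCoprime ((X : 𝓞 K) + hζ.toInteger * Y) (Q : 𝓞 K) := by
  have hζu : IsUnit hζ.toInteger := hζ.toInteger_isPrimitiveRoot.isUnit hp.out.ne_zero
  rcases hD with hQD | hQD | hQD | ⟨hQD, hpQ⟩
  · obtain ⟨r, hr⟩ := dvd_cast (K := K) hQD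
    rw [hr, add_comm, IsCoprime.add_mul_left_left_iff]
    refine (isCoprime_mul_unit_left_left hζu _ _).2 ?_
    have := (IsCoprime.of_isCoprime_of_dvd_left hXY hQD).symm.map (Int.castRingHom (𝓞 K))
    simpa using this
  · obtain ⟨r, hr⟩ := dvd_cast (K := K) hQD
    rw [hr, mul_left_comm, IsCoprime.add_mul_left_left_iff]
    have := (IsCoprime.of_isCoprime_of_dvd_right hXY hQD).map (Int.castRingHom (𝓞 K))
    simpa using this
  · obtain ⟨r, hr⟩ := dvd_cast (K := K) hQD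
    have e2 : (X : 𝓞 K) + hζ.toInteger * Y = (1 + hζ.toInteger) * Y + (Q : 𝓞 K) * r := by
      rw [← hr]
      push_cast
      ring
    rw [e2, IsCoprime.add_mul_left_left_iff]
    refine (isCoprime_mul_unit_left_left (isUnit_one_add hζ hp2) _ _).2 ?_
    have h5 : IsCoprime Y (X - Y) := by
      have := (IsCoprime.add_mul_left_right_iff (x := Y) (y := X) (z := -1)).2 hXY.symm
      rwa [mul_neg_one, ← sub_eq_add_neg] at this
    have := (IsCoprime.of_isCoprime_of_dvd_right h5 hQD).map (Int.castRingHom (𝓞 K))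
    simpa using this
  · obtain ⟨r, hr⟩ := dvd_cast (K := K) hQD
    have e2 : (X : 𝓞 K) + hζ.toInteger * Y = (hζ.toInteger - 1) * Y + (Q : 𝓞 K) * r := by
      rw [← hr]
      push_cast
      ring
    rw [e2, IsCoprime.add_mul_left_left_iff]
    refine IsCoprime.mul_left (cop_p hζ hpQ) ?_
    have h5 : IsCoprime Y (X + Y) := by
      have := (IsCoprime.add_mul_left_right_iff (x := Y) (y := X) (z := 1)).2 hXY.symm
      rwa [mul_one] at this
    have := (IsCoprime.of_isCoprime_of_dvd_right h5 hQD).map (Int.castRingHom (𝓞 K))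
    simpa using this

/-- `D` is one of the four numbers -/
def IsD (X Y D : ℤ) : Prop := D = X ∨ D = Y ∨ D = X - Y ∨ D = X + Y

/-- `A - κ B = D c` -/
theorem four (hζ : IsPrimitiveRoot ζ p) (hp2 : p ≠ 2) {X Y D : ℤ} (hD : IsD X Y D) :
    ∃ (k : ℕ) (c : 𝓞 K), ((X : 𝓞 K) + hζ.toInteger * Y) -
        (-hζ.toInteger) ^ k * ((X : 𝓞 K) + cc K hζ.toInteger * Y) = (D : 𝓞 K) * c ∧ c ≠ 0 ∧
      ∀ Q : ℕ, ¬ p ∣ Q → IsCoprime c (Q : 𝓞 K) := by
  have hcz := conj_zeta hζ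
  have hζu : IsUnit hζ.toInteger := hζ.toInteger_isPrimitiveRoot.isUnit hp.out.ne_zero
  have hcu : IsUnit (cc K hζ.toInteger) := IsUnit.of_mul_eq_one _ hcz
  have hζ1 : hζ.toInteger - 1 ≠ 0 := hζ.zeta_sub_one_prime'.ne_zero
  have h1u := isUnit_one_add hζ hp2
  have hζ2 : 1 + hζ.toInteger ≠ 0 := h1u.ne_zero
  rcases hD with rfl | rfl | rfl | rfl
  · refine ⟨2, -((hζ.toInteger - 1) * (1 + hζ.toInteger)), ?_,
      neg_ne_zero.2 (mul_ne_zero hζ1 hζ2), fun Q hQ => ?_⟩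
    · linear_combination (-hζ.toInteger * Y) * hcz
    · exact (IsCoprime.mul_left (cop_p hζ hQ) (unit_cop h1u (Q : 𝓞 K))).neg_left
  · refine ⟨0, cc K hζ.toInteger * ((hζ.toInteger - 1) * (1 + hζ.toInteger)), ?_,
      mul_ne_zero hcu.ne_zero (mul_ne_zero hζ1 hζ2), fun Q hQ => ?_⟩
    · linear_combination (-hζ.toInteger * D) * hcz
    · exact IsCoprime.mul_left (unit_cop hcu (Q : 𝓞 K))
        (IsCoprime.mul_left (cop_p hζ hQ) (unit_cop h1u (Q : 𝓞 K)))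
  · have hpe : Even (p + 1) := by
      have := hp.out.odd_of_ne_two hp2
      exact this.add_one
    have hk : (-hζ.toInteger) ^ (p + 1) = hζ.toInteger := by
      rw [hpe.neg_pow, pow_succ, hζ.toInteger_isPrimitiveRoot.pow_eq_one, one_mul]
    refine ⟨p + 1, -(hζ.toInteger - 1), ?_, neg_ne_zero.2 hζ1, fun Q hQ => ?_⟩
    · rw [hk]
      push_cast
      linear_combination (-(Y : 𝓞 K)) * hcz
    · exact (cop_p hζ hQ).neg_left
  · refine ⟨1, 1 + hζ.toInteger, ?_, hζ2, fun Q _ => unit_cop h1u (Q : 𝓞 K)⟩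
    push_cast
    linear_combination (Y : 𝓞 K) * hcz

end Pool.Agent.U792.SW
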