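import Mathlib
import Pool.Agent.U792.SW.Four

/-!
`X ^ p + Y ^ p = z ^ n` when the minus part of the class group has no elements of order dividing `n`.
-/

set_option autoImplicit false

namespace Pool.Agent.U792.SW

open NumberField NumberField.IsCMField Polynomial Finset Pool.Agent.U792.KU

variable {p : ℕ} [hp : Fact p.Prime] {K : Type*} [Field K] [NumberField K]
  [IsCyclotomicExtension {p} ℚ K] {ζ : K} [IsCMField K]

omit [IsCyclotomicExtension {p} ℚ K] hp in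
theorem cc_inj : Function.Injective (cc K) :=
  AlgEquiv.injective (ringOfIntegersComplexConj K : 𝓞 K ≃ₐ[_] 𝓞 K)

/-- the data for `A = X + ζ Y` -/
theorem alpha_data (hM1 : S_M1 K) (hM2 : S_M2 p K) (hM3 : S_M3 p K)
    (hζ : IsPrimitiveRoot ζ p) (hp2 : p ≠ 2) {n : ℕ} (hn0 : n ≠ 0)
    (hnp : Nat.Coprime n (2 * p)) (hmf : MinusFree K n) {X Y z : ℤ} (hXY : IsCoprime X Y)
    (h : X ^ p + Y ^ p = z ^ n) :
    ∃ a b : 𝓞 K, a ≠ 0 ∧
      ((X : 𝓞 K) + hζ.toInteger * Y) * a ^ n = ((X : 𝓞 K) + cc K hζ.toInteger * Y) * b ^ n ∧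
      (∀ Q : ℕ, IsCoprime ((X : 𝓞 K) + hζ.toInteger * Y) (Q : 𝓞 K) →
        IsCoprime a (Q : 𝓞 K) ∧ IsCoprime b (Q : 𝓞 K)) ∧
      ∀ Q t : ℕ, IsCoprime ((X : 𝓞 K) + hζ.toInteger * Y) (Q : 𝓞 K) →
        (Q : 𝓞 K) ∣ (-hζ.toInteger) ^ t * a - b → (-hζ.toInteger) ^ t * a ≠ b →
        (Q : ℤ) ^ n ≤ 2 ^ n * (|X| + |Y|) := by
  obtain ⟨d, w, -, hw, hwπ⟩ := exists_w' hζ hp2 hXY
  obtain ⟨I, hI⟩ := factor_ideal hζ hp2 hXY h hw hwπ
  have hw0 : w ≠ 0 := by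
    rintro rfl
    rw [isCoprime_zero_left] at hwπ
    exact hζ.zeta_sub_one_prime'.not_isUnit hwπ
  obtain ⟨γ, hγ⟩ := hM1 n w I hn0 hw0 hI hmf
  obtain ⟨s, hs⟩ := hM2 ζ hζ n d X Y w γ I hp2 hnp hn0 hw0 hI hw hγ
  have hodd : Odd n := by
    rw [← Nat.coprime_two_right]
    exact Nat.Coprime.coprime_dvd_right (Dvd.intro _ rfl) hnp
  have hcw0 : cc K w ≠ 0 := (map_ne_zero_iff _ cc_inj).2 hw0
  -- `γ ^ n` is a unit times `w (cc w) ^ (n - 1)`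
  have hγn : Ideal.span {γ ^ n} = Ideal.span {w * (cc K w) ^ (n - 1)} := by
    rw [← Ideal.span_singleton_pow, hγ, mul_pow, ← hI, ← pow_mul, mul_comm (n - 1) n, pow_mul,
      ← Ideal.map_pow, ← hI, Ideal.map_span, Set.image_singleton, Ideal.span_singleton_pow,
      Ideal.span_singleton_mul_span_singleton]
  obtain ⟨ε, hε⟩ := Ideal.span_singleton_eq_span_singleton.1 hγn
  have hγ0 : γ ≠ 0 := by
    rintro rfl
    rw [zero_pow hn0, zero_mul] at hε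
    exact mul_ne_zero hw0 (pow_ne_zero _ hcw0) hε.symm
  have hcγ0 : cc K γ ≠ 0 := (map_ne_zero_iff _ cc_inj).2 hγ0
  have hcop : ∀ Q : ℕ, IsCoprime ((X : 𝓞 K) + hζ.toInteger * Y) (Q : 𝓞 K) →
      IsCoprime w (Q : 𝓞 K) ∧ IsCoprime (cc K w) (Q : 𝓞 K) ∧ IsCoprime γ (Q : 𝓞 K) ∧
        IsCoprime (cc K γ) (Q : 𝓞 K) := by
    intro Q hQ
    have h1 : IsCoprime w (Q : 𝓞 K) := by
      rw [hw] at hQ
      exact hQ.of_mul_left_right
    have h2 : IsCoprime (cc K w) (Q : 𝓞 K) := by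
      have := h1.map (cc K)
      simpa using this
    have h3 : IsCoprime γ (Q : 𝓞 K) := by
      have h4 : IsCoprime (γ ^ n * ε) (Q : 𝓞 K) := by
        rw [hε]
        exact IsCoprime.mul_left h1 h2.pow_left
      exact (IsCoprime.pow_left_iff (Nat.pos_of_ne_zero hn0)).1 h4.of_mul_left_left
    have h4 : IsCoprime (cc K γ) (Q : 𝓞 K) := by
      have := h3.map (cc K)
      simpa using this
    exact ⟨h1, h2, h3, h4⟩
  refine ⟨(cc K γ * cc K w) ^ ((n + 1) / 2) * w,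
    (-hζ.toInteger) ^ s * ((γ * w) ^ ((n + 1) / 2) * cc K w),
    mul_ne_zero (pow_ne_zero _ (mul_ne_zero hcγ0 hcw0)) hw0, hs, ?_, ?_⟩
  · intro Q hQ
    obtain ⟨h1, h2, h3, h4⟩ := hcop Q hQ
    refine ⟨IsCoprime.mul_left (IsCoprime.pow_left (IsCoprime.mul_left h4 h2)) h1, ?_⟩
    exact (isCoprime_mul_unit_left_left (isUnit_neg_zeta hζ s) _ _).2
      (IsCoprime.mul_left (IsCoprime.pow_left (IsCoprime.mul_left h3 h1)) h2)
  · intro Q t hQ h1 h2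
    exact hM3 ζ hζ n d Q t s X Y w γ I hp2 hodd hw0 hI hw hγ (hcop Q hQ).1 h1 h2

omit [IsCMField K] in
theorem dvd_int {D : ℤ} {q m : ℕ} (h : (q : 𝓞 K) ^ m ∣ (D : 𝓞 K)) : (q : ℤ) ^ m ∣ D := by
  have h1 : (((q : ℤ) ^ m : ℤ) : 𝓞 K) ∣ (D : 𝓞 K) := by
    push_cast
    exact h
  obtain ⟨c, hc⟩ := h1
  rcases eq_or_ne q 0 with rfl | hq
  · rcases Nat.eq_zero_or_pos m with rfl | hm
    · simp
    · rw [Nat.cast_zero, zero_pow (by omega), Int.cast_zero, zero_mul] at hc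
      rw [Int.cast_eq_zero.1 hc]
      exact dvd_zero _
  · -- `D / q ^ m` is a rational number and an algebraic integer
    have hq0 : (((q : ℤ) ^ m : ℤ) : ℚ) ≠ 0 := by
      have : ((q : ℤ) ^ m : ℤ) ≠ 0 := pow_ne_zero _ (by exact_mod_cast hq)
      exact_mod_cast this
    have h2 : algebraMap ℚ K ((D : ℚ) / (((q : ℤ) ^ m : ℤ) : ℚ)) = (c : K) := by
      have h3 : (D : K) = (((q : ℤ) ^ m : ℤ) : K) * (c : K) := by
        have := congrArg (algebraMap (𝓞 K) K) hc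
        rw [map_mul, map_intCast, map_intCast] at this
        exact this
      have h4 : (((q : ℤ) ^ m : ℤ) : K) ≠ 0 := by
        intro h5
        apply hq0
        exact_mod_cast Int.cast_eq_zero.1 h5
      rw [map_div₀, map_intCast, map_intCast, h3, mul_div_cancel_left₀ _ h4]
    have h3 : IsIntegral ℤ ((D : ℚ) / (((q : ℤ) ^ m : ℤ) : ℚ)) := by
      have h4 : IsIntegral ℤ (algebraMap ℚ K ((D : ℚ) / (((q : ℤ) ^ m : ℤ) : ℚ))) := by
        rw [h2]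
        exact c.2
      exact (isIntegral_algebraMap_iff (algebraMap ℚ K).injective).1 h4
    obtain ⟨e, he⟩ := (IsIntegrallyClosed.isIntegral_iff (R := ℤ)).1 h3
    refine ⟨e, ?_⟩
    have h5 : (D : ℚ) = (((q : ℤ) ^ m : ℤ) : ℚ) * (e : ℚ) := by
      have : (e : ℚ) = (D : ℚ) / (((q : ℤ) ^ m : ℤ) : ℚ) := he
      rw [this, mul_div_cancel₀ _ hq0]
    exact_mod_cast h5

/-- free divisors -/
theorem alpha_free (hM1 : S_M1 K) (hM2 : S_M2 p K) (hM3 : S_M3 p K)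
    (hζ : IsPrimitiveRoot ζ p) (hp2 : p ≠ 2) {n : ℕ} (hn0 : n ≠ 0)
    (hnp : Nat.Coprime n (2 * p)) (hmf : MinusFree K n) {X Y z D : ℤ} (hXY : IsCoprime X Y)
    (h : X ^ p + Y ^ p = z ^ n) (hD : IsD X Y D) (hD0 : D ≠ 0) {Q : ℕ} (hQ0 : Q ≠ 0)
    (hQ : ∀ l : ℕ, l.Prime → l ∣ Q → Nat.Coprime n (l * (l ^ (p - 1) - 1)))
    (hQD : (Q : ℤ) ∣ D) (hpQ : D = X + Y → ¬ p ∣ Q) :
    (Q : ℤ) ^ n ≤ 2 ^ n * (|X| + |Y|) := by
  obtain ⟨a, b, ha0, hrel, hcop, hbd⟩ := alpha_data hM1 hM2 hM3 hζ hp2 hn0 hnp hmf hXY h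
  obtain ⟨k, c, hk, hc0, -⟩ := four hζ hp2 hD
  have hA : IsCoprime ((X : 𝓞 K) + hζ.toInteger * Y) (Q : 𝓞 K) := by
    apply cop_Q hζ hp2 hXY
    rcases hD with rfl | rfl | rfl | rfl
    · exact Or.inl hQD
    · exact Or.inr (Or.inl hQD)
    · exact Or.inr (Or.inr (Or.inl hQD))
    · exact Or.inr (Or.inr (Or.inr ⟨hQD, hpQ rfl⟩))
  have hB : IsCoprime ((X : 𝓞 K) + cc K hζ.toInteger * Y) (Q : 𝓞 K) := by
    have := hA.map (cc K)
    simpa using this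
  obtain ⟨t, ht1, ht2⟩ := core3 hζ hn0 hnp hrel ha0 (k := k) hQ0 hQ
    (by rw [hk]; exact (dvd_cast hQD).mul_right _)
    (by
      intro h0
      rw [← sub_eq_zero, hk] at h0
      rcases mul_eq_zero.1 h0 with h1 | h1
      · exact hD0 (Int.cast_eq_zero.1 h1)
      · exact hc0 h1) hB (hcop Q hA).1 (hcop Q hA).2
  exact hbd Q t hA ht1 ht2

/-- `n = q` prime: `q ∣ D` implies `q ^ 2 ∣ D` -/
theorem alpha_q (hM1 : S_M1 K) (hM2 : S_M2 p K) (hM3 : S_M3 p K)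
    (hζ : IsPrimitiveRoot ζ p) (hp2 : p ≠ 2) {q : ℕ} (hq : q.Prime) (hq2 : q ≠ 2) (hqp : q ≠ p)
    (hmf : MinusFree K q) {X Y z D : ℤ} (hXY : IsCoprime X Y)
    (h : X ^ p + Y ^ p = z ^ q) (hD : IsD X Y D) (hD0 : D ≠ 0) {m : ℕ}
    (hQD : (q : ℤ) ^ (m + 1) ∣ D) :
    (q : ℤ) ^ 2 ∣ D ∧ (q : ℤ) ^ q ≤ 2 ^ q * (|X| + |Y|) ∧
      ((q : ℤ) ^ m) ^ q ≤ 2 ^ q * (|X| + |Y|) := by
  have hpq : ¬ p ∣ q := fun h0 => hqp ((Nat.prime_dvd_prime_iff_eq hp.out hq).1 h0).symm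
  have hnp : Nat.Coprime q (2 * p) := by
    refine Nat.Coprime.mul_right ?_ ?_
    · exact (Nat.coprime_primes hq Nat.prime_two).2 hq2
    · exact (Nat.coprime_primes hq hp.out).2 hqp
  obtain ⟨a, b, ha0, hrel, hcop, hbd⟩ := alpha_data hM1 hM2 hM3 hζ hp2 hq.ne_zero hnp hmf hXY h
  obtain ⟨k, c, hk, hc0, hcQ⟩ := four hζ hp2 hD
  have hqD : (q : ℤ) ∣ D := (dvd_pow_self _ (by omega)).trans hQD
  have hA : IsCoprime ((X : 𝓞 K) + hζ.toInteger * Y) (q : 𝓞 K) := by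
    apply cop_Q hζ hp2 hXY
    rcases hD with rfl | rfl | rfl | rfl
    · exact Or.inl hqD
    · exact Or.inr (Or.inl hqD)
    · exact Or.inr (Or.inr (Or.inl hqD))
    · exact Or.inr (Or.inr (Or.inr ⟨hqD, hpq⟩))
  have hB : IsCoprime ((X : 𝓞 K) + cc K hζ.toInteger * Y) (q : 𝓞 K) := by
    have := hA.map (cc K)
    simpa using this
  have hcast : (q : 𝓞 K) ^ (m + 1) ∣ (D : 𝓞 K) := by
    have := (Int.castRingHom (𝓞 K)).map_dvd hQD
    simpa using this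
  obtain ⟨h2, t, ht1, ht2, ht3⟩ := coreq hζ hq hq2 hqp hnp hrel ha0 (k := k) (m := m)
    (by rw [hk]; exact hcast.mul_right _)
    (by
      intro h0
      rw [← sub_eq_zero, hk] at h0
      rcases mul_eq_zero.1 h0 with h1 | h1
      · exact hD0 (Int.cast_eq_zero.1 h1)
      · exact hc0 h1) hB (hcop q hA).1 (hcop q hA).2
  refine ⟨?_, hbd q t hA ht1 ht3, ?_⟩
  · rw [hk] at h2
    exact dvd_int ((IsCoprime.pow_right (hcQ q hpq)).symm.dvd_of_dvd_mul_right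
      (by simpa using h2))
  · have h5 : IsCoprime ((X : 𝓞 K) + hζ.toInteger * Y) ((q ^ m : ℕ) : 𝓞 K) := by
      push_cast
      exact IsCoprime.pow_right hA
    have h6 := hbd (q ^ m) t h5 (by push_cast; exact ht2) ht3
    push_cast at h6
    exact h6

end Pool.Agent.U792.SW
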