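import Mathlib
import Pool.Agent.U792.SW.Alpha

/-!
`X ^ p + Y ^ p = z ^ q` for primes `q < p`: `q ^ 2` divides one of `X`, `Y`, `X - Y`, `X + Y`.
-/

set_option autoImplicit false

namespace Pool.Agent.U792.SW

open NumberField NumberField.IsCMField Polynomial Finset Pool.Agent.U792.KU

variable {p : ℕ} [hp : Fact p.Prime] {K : Type*} [Field K] [NumberField K]
  [IsCyclotomicExtension {p} ℚ K] {ζ : K} [IsCMField K]

omit [IsCyclotomicExtension {p} ℚ K] [IsCMField K] in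
/-- `X + ζ Y` divides `(X ^ p + Y ^ p) / (X + Y)` -/
theorem dvd_F (hζ : IsPrimitiveRoot ζ p) (hp2 : p ≠ 2) {X Y F : ℤ} (hs : X + Y ≠ 0)
    (hF : (X + Y) * F = X ^ p + Y ^ p) : (X : 𝓞 K) + hζ.toInteger * Y ∣ (F : 𝓞 K) := by
  have hodd : Odd p := hp.out.odd_of_ne_two hp2
  have e1 : (X + Y) * (∑ i ∈ range p, X ^ i * (-Y) ^ (p - 1 - i)) = X ^ p + Y ^ p := by
    have := (Commute.all X (-Y)).mul_geom_sum₂ p
    rw [sub_neg_eq_add, hodd.neg_pow, sub_neg_eq_add] at this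
    exact this
  have e2 : F = ∑ i ∈ range p, X ^ i * (-Y) ^ (p - 1 - i) := by
    apply mul_left_cancel₀ hs
    rw [e1, hF]
  have e3 : (F : 𝓞 K) = ∑ i ∈ range p, (X : 𝓞 K) ^ i * (-(Y : 𝓞 K)) ^ (p - 1 - i) := by
    rw [e2]
    push_cast
    rfl
  have e4 : ∑ i ∈ range p, (-(hζ.toInteger * (Y : 𝓞 K))) ^ i * (-(Y : 𝓞 K)) ^ (p - 1 - i) = 0 := by
    have h1 : ∀ i ∈ range p, (-(hζ.toInteger * (Y : 𝓞 K))) ^ i * (-(Y : 𝓞 K)) ^ (p - 1 - i) =
        hζ.toInteger ^ i * (-(Y : 𝓞 K)) ^ (p - 1) := by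
      intro i hi
      have h2 : (-(Y : 𝓞 K)) ^ (p - 1) = (-(Y : 𝓞 K)) ^ i * (-(Y : 𝓞 K)) ^ (p - 1 - i) := by
        rw [← pow_add]
        congr 1
        have := mem_range.1 hi
        omega
      rw [h2, ← mul_assoc, ← mul_pow, mul_neg]
    rw [sum_congr rfl h1, ← sum_mul,
      hζ.toInteger_isPrimitiveRoot.geom_sum_eq_zero hp.out.one_lt, zero_mul]
  have e5 : (F : 𝓞 K) = ∑ i ∈ range p, ((X : 𝓞 K) ^ i - (-(hζ.toInteger * (Y : 𝓞 K))) ^ i) *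
      (-(Y : 𝓞 K)) ^ (p - 1 - i) := by
    simp only [sub_mul]
    rw [sum_sub_distrib, e4, sub_zero, e3]
  rw [e5]
  refine dvd_sum fun i _ => Dvd.dvd.mul_right ?_ _
  have h3 := sub_dvd_pow_sub_pow (X : 𝓞 K) (-(hζ.toInteger * (Y : 𝓞 K))) i
  rwa [sub_neg_eq_add] at h3

omit [IsCyclotomicExtension {p} ℚ K] [IsCMField K] in
theorem cop_small (hζ : IsPrimitiveRoot ζ p) (hp2 : p ≠ 2) {X Y : ℤ} (hXY : IsCoprime X Y)
    (hs : X + Y ≠ 0) {q : ℕ} (hq : q.Prime) (hqp : q < p) :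
    IsCoprime ((X : 𝓞 K) + hζ.toInteger * Y) (q : 𝓞 K) := by
  obtain ⟨F, hF⟩ : X + Y ∣ X ^ p + Y ^ p := (hp.out.odd_of_ne_two hp2).add_dvd_pow_add_pow X Y
  have h1 : ¬ (q : ℤ) ∣ F := by
    intro h0
    have h2 := prime_dvd_phi hp.out hp2 hXY hs hF.symm hq hqp.ne h0
    have h3 := hq.one_lt
    have h4 : q % p = 1 % p := h2
    rw [Nat.mod_eq_of_lt hqp, Nat.mod_eq_of_lt (by omega)] at h4
    omega
  have h2 : IsCoprime F (q : ℤ) := by
    rw [Int.isCoprime_iff_gcd_eq_one]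
    have h3 : Nat.Coprime F.natAbs q := by
      rw [Nat.coprime_comm]
      refine (Nat.Prime.coprime_iff_not_dvd hq).2 fun h0 => h1 ?_
      exact Int.natCast_dvd.2 h0
    exact h3
  have h3 : IsCoprime (F : 𝓞 K) (q : 𝓞 K) := by
    have := h2.map (Int.castRingHom (𝓞 K))
    simpa using this
  exact IsCoprime.of_isCoprime_of_dvd_left h3 (dvd_F hζ hp2 hs hF.symm)

omit [IsCyclotomicExtension {p} ℚ K] in
theorem cc_zeta (hζ : IsPrimitiveRoot ζ p) : cc K hζ.toInteger = hζ.toInteger ^ (p - 1) := by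
  have h1 := conj_zeta hζ
  have h2 : hζ.toInteger ^ (p - 1) * hζ.toInteger = 1 := by
    rw [← pow_succ]
    have : p - 1 + 1 = p := by have := hp.out.pos; omega
    rw [this, hζ.toInteger_isPrimitiveRoot.pow_eq_one]
  have h3 : IsUnit hζ.toInteger := hζ.toInteger_isPrimitiveRoot.isUnit hp.out.ne_zero
  exact h3.mul_right_cancel (h1.trans h2.symm)

/-- the existence of `D` -/
theorem alpha_exists (hM1 : S_M1 K) (hM2 : S_M2 p K) (hM3 : S_M3 p K) (hG1 : S_G1 p K)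
    (hG2 : S_G2 p K)
    (hζ : IsPrimitiveRoot ζ p) {q : ℕ} (hq : q.Prime) (hq2 : q ≠ 2) (hqp : q < p)
    (hmf : MinusFree K q) {X Y z : ℤ} (hXY : IsCoprime X Y) (hs : X + Y ≠ 0)
    (h : X ^ p + Y ^ p = z ^ q) : ∃ D : ℤ, IsD X Y D ∧ (q : ℤ) ∣ D := by
  have hp2 : p ≠ 2 := by
    have := hq.two_le
    omega
  have hnp : Nat.Coprime q (2 * p) := by
    refine Nat.Coprime.mul_right ?_ ?_
    · exact (Nat.coprime_primes hq Nat.prime_two).2 hq2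
    · exact (Nat.coprime_primes hq hp.out).2 hqp.ne
  obtain ⟨a, b, ha0, hrel, hcop, hbd⟩ := alpha_data hM1 hM2 hM3 hζ hp2 hq.ne_zero hnp hmf hXY h
  have hA := cop_small hζ hp2 hXY hs hq hqp
  have hqu : IsUnit (q : ZMod p) := by
    rw [ZMod.isUnit_iff_coprime]
    exact (Nat.coprime_primes hq hp.out).2 hqp.ne
  obtain ⟨u, hu⟩ := hqu
  have h1 := hG1 ζ hζ q _ _ a b u hq hqp.ne hu (hcop q hA).2 hrel
  have huv : (u : ZMod p).val = q := by
    rw [hu, ZMod.val_natCast, Nat.mod_eq_of_lt hqp]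
  have h2 : tau p K u ((X : 𝓞 K) + hζ.toInteger * Y) = (X : 𝓞 K) + hζ.toInteger ^ q * Y := by
    rw [map_add, map_mul, map_intCast, map_intCast, tau_zeta, huv]
  have h3 : tau p K u ((X : 𝓞 K) + cc K hζ.toInteger * Y) =
      (X : 𝓞 K) + hζ.toInteger ^ ((p - 1) * q) * Y := by
    rw [map_add, map_mul, map_intCast, map_intCast, cc_zeta, map_pow, tau_zeta, huv, ← pow_mul,
      mul_comm q]
  rw [h2, h3, cc_zeta] at h1
  have h4 := hG2 ζ hζ q X Y hq hq2 hqp h1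
  have hqP : Prime (q : ℤ) := Nat.prime_iff_prime_int.1 hq
  rcases hqP.dvd_or_dvd h4 with h5 | h5
  · rcases hqP.dvd_or_dvd h5 with h6 | h6
    · rcases hqP.dvd_or_dvd h6 with h7 | h7
      · exact ⟨X, Or.inl rfl, h7⟩
      · exact ⟨Y, Or.inr (Or.inl rfl), h7⟩
    · exact ⟨X - Y, Or.inr (Or.inr (Or.inl rfl)), h6⟩
  · exact ⟨X + Y, Or.inr (Or.inr (Or.inr rfl)), h5⟩

end Pool.Agent.U792.SW
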