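import Mathlib
import Pool.Agent.U792.SW.Wief

/-!
The product `TT` over `σ_u⁻¹`, `u = 1, ..., (p - 1) / 2`: relation, divisibility, non-vanishing.
-/

set_option autoImplicit false

namespace Pool.Agent.U792.SW

open NumberField NumberField.IsCMField Polynomial Finset Pool.Agent.U792.KU

variable {p : ℕ} [hp : Fact p.Prime] {K : Type*} [Field K] [NumberField K]
  [IsCyclotomicExtension {p} ℚ K] {ζ : K} [IsCMField K]

/-- the exponent `j_u` -/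
noncomputable abbrev jj {p : ℕ} (u : (ZMod p)ˣ) : ℕ := ((u⁻¹ : (ZMod p)ˣ) : ZMod p).val

omit [IsCMField K] in
theorem tau_lin (hζ : IsPrimitiveRoot ζ p) (u : (ZMod p)ˣ) (X Y : ℤ) :
    tau p K u⁻¹ ((X : 𝓞 K) + hζ.toInteger * (Y : 𝓞 K)) =
      (X : 𝓞 K) + hζ.toInteger ^ jj u * (Y : 𝓞 K) := by
  rw [map_add, map_mul, map_intCast, map_intCast, tau_zeta]

theorem tau_lin' (hζ : IsPrimitiveRoot ζ p) (u : (ZMod p)ˣ) (X Y : ℤ) :
    tau p K u⁻¹ ((X : 𝓞 K) + cc K hζ.toInteger * (Y : 𝓞 K)) =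
      (X : 𝓞 K) + cc K hζ.toInteger ^ jj u * (Y : 𝓞 K) := by
  have e : ((u⁻¹ : (ZMod p)ˣ) : ZMod p).val * (p - 1) = (p - 1) * jj u := Nat.mul_comm _ _
  rw [map_add, map_mul, map_intCast, map_intCast, cc_zeta, map_pow, tau_zeta, ← pow_mul,
    ← pow_mul, e]

omit [IsCMField K] in
theorem TT_lin (hζ : IsPrimitiveRoot ζ p) (X Y : ℤ) :
    TT p ((X : 𝓞 K) + hζ.toInteger * (Y : 𝓞 K)) =
      ∏ u ∈ H p, ((X : 𝓞 K) + hζ.toInteger ^ jj u * (Y : 𝓞 K)) :=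
  prod_congr rfl fun u _ => tau_lin hζ u X Y

theorem cc_TT_lin (hζ : IsPrimitiveRoot ζ p) (X Y : ℤ) :
    cc K (TT p ((X : 𝓞 K) + hζ.toInteger * (Y : 𝓞 K))) =
      TT p ((X : 𝓞 K) + cc K hζ.toInteger * (Y : 𝓞 K)) := by
  rw [TT_lin, map_prod]
  refine prod_congr rfl fun u _ => ?_
  rw [tau_lin', map_add, map_mul, map_intCast, map_intCast, map_pow]

omit [IsCyclotomicExtension {p} ℚ K] [IsCMField K] [NumberField K] in
theorem neg_one_eq (hζ : IsPrimitiveRoot ζ p) (hp2 : p ≠ 2) :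
    (-hζ.toInteger) ^ p = (-1 : 𝓞 K) := by
  rw [(hp.out.odd_of_ne_two hp2).neg_pow, hζ.toInteger_isPrimitiveRoot.pow_eq_one]

omit [IsCyclotomicExtension {p} ℚ K] [IsCMField K] [NumberField K] in
theorem zeta_eq (hζ : IsPrimitiveRoot ζ p) (hp2 : p ≠ 2) :
    (-hζ.toInteger) ^ (p + 1) = hζ.toInteger := by
  rw [pow_succ, neg_one_eq hζ hp2]
  ring

omit [IsCyclotomicExtension {p} ℚ K] [IsCMField K] [NumberField K] in
theorem neg_zeta_pow (hζ : IsPrimitiveRoot ζ p) (hp2 : p ≠ 2) (j : ℕ) :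
    -hζ.toInteger ^ j = (-hζ.toInteger) ^ (p + (p + 1) * j) := by
  rw [pow_add, neg_one_eq hζ hp2, pow_mul, zeta_eq hζ hp2]
  ring

omit [IsCMField K] in
/-- roots of unity `±ζ ^ k` are preserved by `TT` -/
theorem TT_root (hζ : IsPrimitiveRoot ζ p) (hp2 : p ≠ 2) (k : ℕ) :
    ∃ r : ℕ, TT p ((-hζ.toInteger) ^ k) = (-hζ.toInteger) ^ r := by
  refine ⟨∑ u ∈ H p, (p + (p + 1) * jj u) * k, ?_⟩
  rw [← prod_pow_eq_pow_sum]
  refine prod_congr rfl fun u _ => ?_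
  rw [map_pow, map_neg, tau_zeta, neg_zeta_pow hζ hp2, ← pow_mul]

/-- the relation for `TT (X + ζ Y)` -/
theorem beta_rel (hζ : IsPrimitiveRoot ζ p) (hp2 : p ≠ 2) {n : ℕ} (hnp : Nat.Coprime n (2 * p))
    {X Y : ℤ} {d : ℕ} {ε : (𝓞 K)ˣ} {γ : 𝓞 K}
    (hA : TT p ((X : 𝓞 K) + hζ.toInteger * (Y : 𝓞 K)) =
      TT p (hζ.toInteger - 1) ^ d * (ε : 𝓞 K) * γ ^ n) :
    ∃ s : ℕ, TT p ((X : 𝓞 K) + hζ.toInteger * (Y : 𝓞 K)) * (cc K γ) ^ n =
      cc K (TT p ((X : 𝓞 K) + hζ.toInteger * (Y : 𝓞 K))) * ((-hζ.toInteger) ^ s * γ) ^ n := by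
  obtain ⟨r, hr⟩ := unit_rel (hζ := hζ) hp2 ε
  obtain ⟨r', hr'⟩ := TT_root hζ hp2 1
  have h1 : TT p (hζ.toInteger - 1) = (-hζ.toInteger) ^ r' * cc K (TT p (hζ.toInteger - 1)) := by
    have h2 : cc K (TT p (hζ.toInteger - 1)) = TT p (cc K hζ.toInteger - 1) := by
      have := cc_TT_lin hζ (-1) 1
      rw [Int.cast_neg, Int.cast_one, mul_one, mul_one, neg_add_eq_sub, neg_add_eq_sub] at this
      exact this
    rw [h2, ← hr', ← TT_mul]
    congr 1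
    have hcz := conj_zeta hζ
    linear_combination hcz
  obtain ⟨s, hs⟩ := root_pow hζ hnp (r' * d + r)
  refine ⟨s, ?_⟩
  rw [hA, map_mul, map_mul, map_pow, map_pow, mul_pow, ← pow_mul, mul_comm s n, hs]
  nth_rewrite 1 [hr, h1]
  rw [mul_pow, ← pow_mul, pow_add]
  ring

omit [NumberField K] [IsCyclotomicExtension {p} ℚ K] [IsCMField K] hp in
theorem prod_dvd_sub {ι : Type*} (s : Finset ι) (f g : ι → 𝓞 K) (D : 𝓞 K)
    (h : ∀ i ∈ s, D ∣ f i - g i) : D ∣ ∏ i ∈ s, f i - ∏ i ∈ s, g i := by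
  classical
  induction s using Finset.induction_on with
  | empty => simp
  | insert a s ha ih =>
    rw [prod_insert ha, prod_insert ha]
    have h1 := h a (mem_insert_self a s)
    have h2 := ih fun i hi => h i (mem_insert_of_mem hi)
    have e : f a * ∏ i ∈ s, f i - g a * ∏ i ∈ s, g i =
        (f a - g a) * ∏ i ∈ s, f i + g a * (∏ i ∈ s, f i - ∏ i ∈ s, g i) := by ring
    rw [e]
    exact dvd_add (h1.mul_right _) (h2.mul_left _)

theorem TT_dvd (hζ : IsPrimitiveRoot ζ p) (hp2 : p ≠ 2) {X Y D : ℤ} (hD : IsD X Y D) :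
    ∃ k : ℕ, (D : 𝓞 K) ∣ TT p ((X : 𝓞 K) + hζ.toInteger * (Y : 𝓞 K)) -
      (-hζ.toInteger) ^ k * cc K (TT p ((X : 𝓞 K) + hζ.toInteger * (Y : 𝓞 K))) := by
  obtain ⟨k, c, hk, -, -⟩ := four hζ hp2 hD
  obtain ⟨r, hr⟩ := TT_root hζ hp2 k
  refine ⟨r, ?_⟩
  rw [← hr, cc_TT_lin, ← TT_mul]
  refine prod_dvd_sub _ _ _ _ fun u _ => ?_
  rw [← map_sub, hk, map_mul, map_intCast]
  exact dvd_mul_right _ _

omit [IsCMField K] in
theorem card_H_le (hp2 : p ≠ 2) : (H p).card ≤ (p - 1) / 2 := by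
  have h1 : (H p).card ≤ (Finset.Icc 1 ((p - 1) / 2)).card := by
    refine Finset.card_le_card_of_injOn (fun u => (u : ZMod p).val) ?_ ?_
    · intro u hu
      have h2 := (mem_H p).1 (Finset.mem_coe.1 hu)
      have h3 : (u : ZMod p).val ≠ 0 := by
        intro h0
        exact u.ne_zero ((ZMod.val_eq_zero _).1 h0)
      have := hp.out.odd_of_ne_two hp2
      obtain ⟨m, hm⟩ := this
      simp only [Finset.coe_Icc, Set.mem_Icc]
      omega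
    · intro u _ v _ huv
      exact Units.ext (ZMod.val_injective p huv)
  rwa [Nat.card_Icc, Nat.add_sub_cancel] at h1

theorem norm_pow_zeta (hζ : IsPrimitiveRoot ζ p) (j : ℕ) (σ : K →ₐ[ℚ] ℂ) :
    ‖σ ((hζ.toInteger ^ j : 𝓞 K) : K)‖ = 1 := by
  have : σ ((hζ.toInteger ^ j : 𝓞 K) : K) = (σ ((hζ.toInteger : 𝓞 K) : K)) ^ j := by simp
  rw [this, norm_pow, norm_zeta hζ, one_pow]

theorem Nm_TT_le (hζ : IsPrimitiveRoot ζ p) (hp2 : p ≠ 2) {X Y : ℤ} (hX : X ≠ 0) :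
    Nm (TT p ((X : 𝓞 K) + hζ.toInteger * (Y : 𝓞 K))) ≤
      (((|X| + |Y|) ^ ((p - 1) / 2) : ℤ) : ℝ) ^ Module.finrank ℚ K := by
  have h1 : ∀ s : Finset (ZMod p)ˣ, Nm (∏ u ∈ s, ((X : 𝓞 K) + hζ.toInteger ^ jj u * (Y : 𝓞 K))) ≤
      ((((|X| + |Y|) : ℤ) : ℝ) ^ Module.finrank ℚ K) ^ s.card := by
    intro s
    classical
    induction s using Finset.induction_on with
    | empty => simp [Nm]
    | insert a s ha ih =>
      rw [prod_insert ha, Nm_mul, card_insert_of_notMem ha, pow_succ']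
      exact mul_le_mul (Nm_lin_le (norm_pow_zeta hζ _)) ih (Nm_nonneg _) (by positivity)
  rw [TT_lin]
  refine (h1 _).trans ?_
  rw [← pow_mul, mul_comm, pow_mul]
  push_cast
  refine pow_le_pow_left₀ (by positivity) ?_ _
  refine pow_le_pow_right₀ ?_ (card_H_le hp2)
  have h2 : 1 ≤ |X| := Int.one_le_abs hX
  have h3 : (1 : ℝ) ≤ |(X : ℝ)| := by exact_mod_cast h2
  have h4 : (0 : ℝ) ≤ |(Y : ℝ)| := abs_nonneg _
  linarith

/-- as `KU.final_bound` -/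
theorem final_bound2 {n : ℕ} {Q : ℕ} {R : ℤ} {A γ a b u : 𝓞 K} (hR : 0 ≤ R)
    (hA : A = u * γ ^ n) (hu : u ≠ 0) (hN : Nm A ≤ (R : ℝ) ^ Module.finrank ℚ K)
    (ha : ∀ σ : K →ₐ[ℚ] ℂ, ‖σ (a : K)‖ = ‖σ (γ : K)‖)
    (hb : ∀ σ : K →ₐ[ℚ] ℂ, ‖σ (b : K)‖ = ‖σ (γ : K)‖) (hab : a ≠ b) (h : (Q : 𝓞 K) ∣ a - b) :
    (Q : ℤ) ^ n ≤ 2 ^ n * R := by
  have hp0 : Module.finrank ℚ K ≠ 0 := Module.finrank_pos.ne'
  have h1 := pow_le_Nm (sub_ne_zero.2 hab) h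
  have h2 := h1.trans (Nm_sub_le ha hb)
  have h3 : Nm γ ^ n ≤ (R : ℝ) ^ Module.finrank ℚ K := by
    refine le_trans ?_ hN
    rw [hA, Nm_mul, Nm_pow]
    exact le_mul_of_one_le_left (pow_nonneg (Nm_nonneg _) _) (one_le_Nm hu)
  have h4 := pow_le_pow_left₀ (by positivity) h2 n
  rw [mul_pow] at h4
  have hR' : (0 : ℝ) ≤ R := by exact_mod_cast hR
  have h5 : ((Q : ℝ) ^ n) ^ (Module.finrank ℚ K) ≤ (2 ^ n * (R : ℝ)) ^ (Module.finrank ℚ K) := by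
    calc ((Q : ℝ) ^ n) ^ (Module.finrank ℚ K) = ((Q : ℝ) ^ (Module.finrank ℚ K)) ^ n := by
          rw [← pow_mul, ← pow_mul, mul_comm]
      _ ≤ (2 ^ (Module.finrank ℚ K)) ^ n * Nm γ ^ n := h4
      _ ≤ (2 ^ (Module.finrank ℚ K)) ^ n * (R : ℝ) ^ (Module.finrank ℚ K) :=
          mul_le_mul_of_nonneg_left h3 (by positivity)
      _ = (2 ^ n * (R : ℝ)) ^ (Module.finrank ℚ K) := by
          rw [mul_pow, ← pow_mul, ← pow_mul, mul_comm n]
  have h6 : 0 ≤ 2 ^ n * (R : ℝ) := by positivity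
  have h7 := le_of_pow_le_pow_left₀ hp0 h6 h5
  exact_mod_cast h7

omit hp in
theorem aux_mul (p j : ℕ) (hp : 0 < p) : j + (p - 1) * j = p * j := by
  obtain ⟨m, rfl⟩ : ∃ m, p = m + 1 := ⟨p - 1, by omega⟩
  rw [Nat.add_sub_cancel]
  ring

/-- non-vanishing -/
theorem TT_ne (hζ : IsPrimitiveRoot ζ p) (hp2 : p ≠ 2) {X Y : ℤ} (hXY : IsCoprime X Y) {d : ℕ}
    {w : 𝓞 K} (hw : (X : 𝓞 K) + hζ.toInteger * Y = (hζ.toInteger - 1) ^ d * w)
    (hwπ : IsCoprime w (hζ.toInteger - 1)) (hwu : ¬ IsUnit w) (k : ℕ) :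
    TT p ((X : 𝓞 K) + hζ.toInteger * (Y : 𝓞 K)) ≠
      (-hζ.toInteger) ^ k * cc K (TT p ((X : 𝓞 K) + hζ.toInteger * (Y : 𝓞 K))) := by
  intro h0
  obtain ⟨P, hP, hwP⟩ := exists_max_ideal_of_mem_nonunits hwu
  have hPp : P.IsPrime := hP.isPrime
  have hWP : (X : 𝓞 K) + hζ.toInteger * (Y : 𝓞 K) ∈ P := by
    rw [hw]
    exact P.mul_mem_left _ hwP
  have hπP : hζ.toInteger - 1 ∉ P := by
    intro h1
    obtain ⟨a, b, hab⟩ := hwπ
    apply hP.ne_top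
    rw [Ideal.eq_top_iff_one, ← hab]
    exact P.add_mem (P.mul_mem_left _ hwP) (P.mul_mem_left _ h1)
  have hodd := hp.out.odd_of_ne_two hp2
  have hp3 : 3 ≤ p := by
    have := hp.out.two_le
    omega
  have h1H : (1 : (ZMod p)ˣ) ∈ H p := by
    rw [mem_H, Units.val_one, ZMod.val_one]
    omega
  have hAP : TT p ((X : 𝓞 K) + hζ.toInteger * (Y : 𝓞 K)) ∈ P := by
    unfold TT
    rw [← mul_prod_erase _ _ h1H, inv_one, tau_one]
    exact P.mul_mem_right _ hWP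
  have hBP : cc K (TT p ((X : 𝓞 K) + hζ.toInteger * (Y : 𝓞 K))) ∈ P := by
    rw [h0] at hAP
    rcases hPp.mem_or_mem hAP with h1 | h1
    · exact absurd (P.eq_top_of_isUnit_mem h1 (isUnit_neg_zeta hζ k)) hP.ne_top
    · exact h1
  rw [cc_TT_lin] at hBP
  unfold TT at hBP
  obtain ⟨u, hu, huP⟩ := (hPp.prod_mem_iff).1 hBP
  rw [tau_lin', cc_zeta, ← pow_mul] at huP
  set η : 𝓞 K := hζ.toInteger ^ ((p - 1) * jj u) with hη
  have h2 : (hζ.toInteger - η) ∈ P := by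
    obtain ⟨a, b, hab⟩ := hXY
    have hab' : (a : 𝓞 K) * X + b * Y = 1 := by exact_mod_cast congrArg (Int.cast : ℤ → 𝓞 K) hab
    have e : hζ.toInteger - η = ((X : 𝓞 K) + η * Y) * (a * hζ.toInteger - b) +
        ((X : 𝓞 K) + hζ.toInteger * Y) * (b - a * η) := by
      linear_combination (η - hζ.toInteger) * hab'
    rw [e]
    exact P.add_mem (P.mul_mem_right _ huP) (P.mul_mem_right _ hWP)
  have hprim := hζ.toInteger_isPrimitiveRoot
  have hζmem : hζ.toInteger ∈ nthRootsFinset p (1 : 𝓞 K) :=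
    (mem_nthRootsFinset hp.out.pos (1 : 𝓞 K)).2 hprim.pow_eq_one
  have hηmem : η ∈ nthRootsFinset p (1 : 𝓞 K) := by
    rw [mem_nthRootsFinset hp.out.pos, hη, ← pow_mul, mul_comm, pow_mul, hprim.pow_eq_one,
      one_pow]
  by_cases hne : hζ.toInteger = η
  · -- then `u = -1`
    have h3 : hζ.toInteger ^ jj u * hζ.toInteger = 1 := by
      nth_rewrite 2 [hne]
      rw [hη, ← pow_add]
      rw [aux_mul p (jj u) hp.out.pos, pow_mul, hprim.pow_eq_one, one_pow]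
    rw [← pow_succ, hprim.pow_eq_one_iff_dvd] at h3
    have h4 : jj u < p := ZMod.val_lt _
    have h5 : jj u + 1 = p := by
      have := Nat.le_of_dvd (by omega) h3
      omega
    have h6 : u = -1 := by
      have h7 : ((u⁻¹ : (ZMod p)ˣ) : ZMod p) = -1 := by
        have h8 : ((jj u : ℕ) : ZMod p) = ((u⁻¹ : (ZMod p)ˣ) : ZMod p) := ZMod.natCast_zmod_val _
        rw [← h8]
        have h9 : ((jj u + 1 : ℕ) : ZMod p) = 0 := by rw [h5]; simp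
        push_cast at h9
        linear_combination h9
      have h8 : u⁻¹ = -1 := Units.ext (by rw [Units.val_neg, Units.val_one]; exact h7)
      have h9 : u = (u⁻¹)⁻¹ := (inv_inv u).symm
      rw [h9, h8]
      simp
    rw [mem_H, h6] at hu
    have h7 : (((-1 : (ZMod p)ˣ) : ZMod p)).val = p - 1 := by
      rw [Units.val_neg, Units.val_one, ZMod.val_neg_of_ne_zero, ZMod.val_one]
    rw [h7] at hu
    omega
  · have hass := hprim.nthRootsFinset_pairwise_associated_sub_one_sub_of_prime hp.out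
      hζmem hηmem hne
    obtain ⟨v, hv⟩ := hass
    rw [← hv] at h2
    rcases hPp.mem_or_mem h2 with h3 | h3
    · exact hπP h3
    · exact absurd (P.eq_top_of_isUnit_mem h3 v.isUnit) hP.ne_top

end Pool.Agent.U792.SW
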