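import Mathlib
import Pool.Agent.U792.SW.Beta

/-!
Unconditional results for `X ^ p + Y ^ p = z ^ n`.
-/

set_option autoImplicit false

namespace Pool.Agent.U792.SW

open NumberField NumberField.IsCMField Polynomial Finset Pool.Agent.U792.KU

variable {p : ℕ} [hp : Fact p.Prime] {K : Type*} [Field K] [NumberField K]
  [IsCyclotomicExtension {p} ℚ K] {ζ : K} [IsCMField K]

/-- the data for `A = TT (X + ζ Y)` -/
theorem beta_data (hA1 : S_A1 p K) (hA2 : S_A2 p K) (hB1 : S_B1 p K) (hB2 : S_B2 p K)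
    (hN1 : S_N1 p K)
    (hζ : IsPrimitiveRoot ζ p) (hp5 : 5 ≤ p) {n : ℕ} (hn0 : n ≠ 0)
    (hnp : Nat.Coprime n (2 * p)) {X Y z : ℤ} (hX : X ≠ 0) (hY : Y ≠ 0) (hd : X ≠ Y)
    (hs : X ≠ -Y) (hXY : IsCoprime X Y) (h : X ^ p + Y ^ p = z ^ n) :
    ∃ A a b : 𝓞 K, A = TT p ((X : 𝓞 K) + hζ.toInteger * (Y : 𝓞 K)) ∧ a ≠ 0 ∧
      A * a ^ n = cc K A * b ^ n ∧ (∀ k, A ≠ (-hζ.toInteger) ^ k * cc K A) ∧
      (∀ Q : ℕ, IsCoprime ((X : 𝓞 K) + hζ.toInteger * Y) (Q : 𝓞 K) →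
        IsCoprime (cc K A) (Q : 𝓞 K) ∧ IsCoprime a (Q : 𝓞 K) ∧ IsCoprime b (Q : 𝓞 K)) ∧
      ∀ Q t : ℕ, (Q : 𝓞 K) ∣ (-hζ.toInteger) ^ t * a - b → (-hζ.toInteger) ^ t * a ≠ b →
        (Q : ℤ) ^ n ≤ 2 ^ n * (|X| + |Y|) ^ ((p - 1) / 2) := by
  have hp2 : p ≠ 2 := by omega
  obtain ⟨d, w, hd1, hw, hwπ⟩ := exists_w' hζ hp2 hXY
  obtain ⟨ε, γ, hγ0, hA⟩ := factorTT hA1 hA2 hB1 hB2 hζ hp2 hn0 hXY h hw hwπ
  obtain ⟨s, hs'⟩ := beta_rel hζ hp2 hnp hA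
  have hwu : ¬ IsUnit w := hN1 ζ hζ d X Y w hp5 hd1 hX hY hd hs hw
  have hu0 : TT p (hζ.toInteger - 1) ^ d * (ε : 𝓞 K) ≠ 0 :=
    mul_ne_zero (pow_ne_zero _ (TT_ne_zero hζ.zeta_sub_one_prime'.ne_zero)) ε.ne_zero
  refine ⟨_, cc K γ, (-hζ.toInteger) ^ s * γ, rfl, (map_ne_zero_iff _ cc_inj).2 hγ0, hs',
    TT_ne hζ hp2 hXY hw hwπ hwu, ?_, ?_⟩
  · intro Q hQ
    have h1 : IsCoprime (TT p ((X : 𝓞 K) + hζ.toInteger * (Y : 𝓞 K))) (Q : 𝓞 K) := by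
      refine IsCoprime.prod_left fun u _ => ?_
      have := hQ.map (tau p K u⁻¹)
      simpa using this
    have h2 : IsCoprime γ (Q : 𝓞 K) := by
      rw [hA] at h1
      exact (IsCoprime.pow_left_iff (Nat.pos_of_ne_zero hn0)).1 h1.of_mul_left_right
    refine ⟨?_, ?_, ?_⟩
    · have := h1.map (cc K)
      simpa using this
    · have := h2.map (cc K)
      simpa using this
    · exact (isCoprime_mul_unit_left_left (isUnit_neg_zeta hζ s) _ _).2 h2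
  · intro Q t hQ hne
    refine final_bound2 (R := (|X| + |Y|) ^ ((p - 1) / 2)) (by positivity) hA hu0
      (Nm_TT_le hζ hp2 hX) ?_ ?_ hne hQ
    · intro σ
      rw [norm_neg_zeta_pow_mul hζ, norm_cc]
    · intro σ
      rw [norm_neg_zeta_pow_mul hζ]

theorem cop_D (hζ : IsPrimitiveRoot ζ p) (hp2 : p ≠ 2) {X Y D : ℤ} (hXY : IsCoprime X Y)
    (hD : IsD X Y D) {Q : ℕ} (hQD : (Q : ℤ) ∣ D) (hpQ : D = X + Y → ¬ p ∣ Q) :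
    IsCoprime ((X : 𝓞 K) + hζ.toInteger * Y) (Q : 𝓞 K) := by
  apply cop_Q hζ hp2 hXY
  rcases hD with rfl | rfl | rfl | rfl
  · exact Or.inl hQD
  · exact Or.inr (Or.inl hQD)
  · exact Or.inr (Or.inr (Or.inl hQD))
  · exact Or.inr (Or.inr (Or.inr ⟨hQD, hpQ rfl⟩))

/-- free divisors, no class number condition -/
theorem beta_free (hA1 : S_A1 p K) (hA2 : S_A2 p K) (hB1 : S_B1 p K) (hB2 : S_B2 p K)
    (hN1 : S_N1 p K)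
    (hζ : IsPrimitiveRoot ζ p) (hp5 : 5 ≤ p) {n : ℕ} (hn0 : n ≠ 0)
    (hnp : Nat.Coprime n (2 * p)) {X Y z D : ℤ} (hX : X ≠ 0) (hY : Y ≠ 0) (hd : X ≠ Y)
    (hs : X ≠ -Y) (hXY : IsCoprime X Y) (h : X ^ p + Y ^ p = z ^ n) (hD : IsD X Y D)
    {Q : ℕ} (hQ0 : Q ≠ 0)
    (hQ : ∀ l : ℕ, l.Prime → l ∣ Q → Nat.Coprime n (l * (l ^ (p - 1) - 1)))
    (hQD : (Q : ℤ) ∣ D) (hpQ : D = X + Y → ¬ p ∣ Q) :
    (Q : ℤ) ^ n ≤ 2 ^ n * (|X| + |Y|) ^ ((p - 1) / 2) := by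
  have hp2 : p ≠ 2 := by omega
  obtain ⟨A, a, b, hA, ha0, hrel, hne, hcop, hbd⟩ :=
    beta_data hA1 hA2 hB1 hB2 hN1 hζ hp5 hn0 hnp hX hY hd hs hXY h
  obtain ⟨k, hk⟩ := TT_dvd hζ hp2 hD
  rw [← hA] at hk
  have hW := cop_D hζ hp2 hXY hD hQD hpQ
  obtain ⟨h1, h2, h3⟩ := hcop Q hW
  obtain ⟨t, ht1, ht2⟩ := core3 hζ hn0 hnp hrel ha0 hQ0 hQ ((dvd_cast hQD).trans hk) (hne k)
    h1 h2 h3
  exact hbd Q t ht1 ht2

/-- `n = q` prime, bounds -/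
theorem beta_q (hA1 : S_A1 p K) (hA2 : S_A2 p K) (hB1 : S_B1 p K) (hB2 : S_B2 p K)
    (hN1 : S_N1 p K)
    (hζ : IsPrimitiveRoot ζ p) (hp5 : 5 ≤ p) {q : ℕ} (hq : q.Prime) (hq2 : q ≠ 2) (hqp : q ≠ p)
    {X Y z D : ℤ} (hX : X ≠ 0) (hY : Y ≠ 0) (hd : X ≠ Y)
    (hs : X ≠ -Y) (hXY : IsCoprime X Y) (h : X ^ p + Y ^ p = z ^ q) (hD : IsD X Y D) {m : ℕ}
    (hQD : (q : ℤ) ^ (m + 1) ∣ D) :
    (q : ℤ) ^ q ≤ 2 ^ q * (|X| + |Y|) ^ ((p - 1) / 2) ∧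
      ((q : ℤ) ^ m) ^ q ≤ 2 ^ q * (|X| + |Y|) ^ ((p - 1) / 2) := by
  have hp2 : p ≠ 2 := by omega
  have hpq : ¬ p ∣ q := fun h0 => hqp ((Nat.prime_dvd_prime_iff_eq hp.out hq).1 h0).symm
  have hnp : Nat.Coprime q (2 * p) := by
    refine Nat.Coprime.mul_right ?_ ?_
    · exact (Nat.coprime_primes hq Nat.prime_two).2 hq2
    · exact (Nat.coprime_primes hq hp.out).2 hqp
  obtain ⟨A, a, b, hA, ha0, hrel, hne, hcop, hbd⟩ :=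
    beta_data hA1 hA2 hB1 hB2 hN1 hζ hp5 hq.ne_zero hnp hX hY hd hs hXY h
  obtain ⟨k, hk⟩ := TT_dvd hζ hp2 hD
  rw [← hA] at hk
  have hqD : (q : ℤ) ∣ D := (dvd_pow_self _ (by omega)).trans hQD
  have hW := cop_D hζ hp2 hXY hD hqD fun _ => hpq
  obtain ⟨h1, h2, h3⟩ := hcop q hW
  have hcast : (q : 𝓞 K) ^ (m + 1) ∣ (D : 𝓞 K) := by
    have := (Int.castRingHom (𝓞 K)).map_dvd hQD
    simpa using this
  obtain ⟨-, t, ht1, ht2, ht3⟩ := coreq hζ hq hq2 hqp hnp hrel ha0 (hcast.trans hk) (hne k)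
    h1 h2 h3
  refine ⟨hbd q t ht1 ht3, ?_⟩
  have h6 := hbd (q ^ m) t (by push_cast; exact ht2) ht3
  push_cast at h6
  exact h6

omit [NumberField K] [IsCyclotomicExtension {p} ℚ K] [IsCMField K] hp in
/-- expansion of a product modulo `x ^ 2` -/
theorem prod_expand {ι : Type*} (s : Finset ι) (a : ι → 𝓞 K) (x y : 𝓞 K) :
    x ^ 2 ∣ y * ∏ i ∈ s, (y + a i * x) -
      (y ^ (s.card + 1) + x * y ^ s.card * ∑ i ∈ s, a i) := by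
  classical
  induction s using Finset.induction_on with
  | empty => simp
  | insert b s hb ih =>
    obtain ⟨c, hc⟩ := ih
    rw [prod_insert hb, sum_insert hb, card_insert_of_notMem hb]
    refine ⟨(y + a b * x) * c + a b * y ^ s.card * ∑ i ∈ s, a i, ?_⟩
    linear_combination (y + a b * x) * hc

omit [IsCMField K] in
/-- `q ∣ x`, `q ^ 2 ∣ F (x, y)` implies `q ^ 2 ∣ x` -/
theorem wief_core {δ : 𝓞 K} {x y : ℤ} {q e : ℕ} (hq : q.Prime) (hx : (q : ℤ) ∣ x)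
    (hy : IsCoprime (y : 𝓞 K) (q : 𝓞 K)) (hδ : ¬ (q : 𝓞 K) ∣ δ)
    (h : (q : 𝓞 K) ^ 2 ∣ (x : 𝓞 K) * (y : 𝓞 K) ^ e * δ) : (q : ℤ) ^ 2 ∣ x := by
  obtain ⟨x', rfl⟩ := hx
  have hq0 : (q : 𝓞 K) ≠ 0 := by exact_mod_cast hq.ne_zero
  by_contra hn
  have h1 : ¬ (q : ℤ) ∣ x' := fun h0 => hn (by rw [sq]; exact mul_dvd_mul_left _ h0)
  have h2 : IsCoprime (x' : 𝓞 K) (q : 𝓞 K) := by
    have h3 : Nat.Coprime x'.natAbs q := by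
      rw [Nat.coprime_comm]
      exact (Nat.Prime.coprime_iff_not_dvd hq).2 fun h0 => h1 (Int.natCast_dvd.2 h0)
    have h4 : IsCoprime x' (q : ℤ) := by
      rw [Int.isCoprime_iff_gcd_eq_one]
      exact h3
    have := h4.map (Int.castRingHom (𝓞 K))
    simpa using this
  apply hδ
  have h3 : (q : 𝓞 K) * q ∣ (q : 𝓞 K) * ((x' : 𝓞 K) * (y : 𝓞 K) ^ e * δ) := by
    rw [← sq]
    refine h.trans (dvd_of_eq ?_)
    push_cast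
    ring
  have h4 := (mul_dvd_mul_iff_left hq0).1 h3
  exact IsCoprime.dvd_of_dvd_mul_left (IsCoprime.mul_left h2 hy.pow_left).symm h4

/-- `F (x, y) = ∏ (y + ζ ^ (p - j) x) - ∏ (y + ζ ^ j x)` -/
theorem wief_F (hN3 : S_N3 p K) (hζ : IsPrimitiveRoot ζ p) (hp2 : p ≠ 2) {x y : ℤ} {q : ℕ}
    (hq : q.Prime) (hx : (q : ℤ) ∣ x) (hy : IsCoprime (y : 𝓞 K) (q : 𝓞 K))
    (h : (q : 𝓞 K) ^ 2 ∣ ∏ u ∈ H p, ((y : 𝓞 K) + hζ.toInteger ^ (p - jj u) * (x : 𝓞 K)) -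
      ∏ u ∈ H p, ((y : 𝓞 K) + hζ.toInteger ^ jj u * (x : 𝓞 K))) : (q : ℤ) ^ 2 ∣ x := by
  refine wief_core (e := (H p).card) hq hx hy (hN3 ζ hζ q hp2 hq.two_le) ?_
  have h1 := prod_expand (H p) (fun u => hζ.toInteger ^ (p - jj u)) (x : 𝓞 K) (y : 𝓞 K)
  have h2 := prod_expand (H p) (fun u => hζ.toInteger ^ jj u) (x : 𝓞 K) (y : 𝓞 K)
  have h3 : (q : 𝓞 K) ^ 2 ∣ (x : 𝓞 K) ^ 2 := pow_dvd_pow_of_dvd (dvd_cast hx) 2
  have h4 := dvd_sub (h3.trans h2) (h3.trans h1)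
  have h5 := dvd_add (h.mul_left (y : 𝓞 K)) h4
  refine h5.trans (dvd_of_eq ?_)
  rw [sum_sub_distrib]
  ring

omit [IsCMField K] in
theorem jj_le (u : (ZMod p)ˣ) : jj u ≤ p := (ZMod.val_lt _).le

theorem cc_pow (hζ : IsPrimitiveRoot ζ p) (u : (ZMod p)ˣ) :
    cc K hζ.toInteger ^ jj u = hζ.toInteger ^ (p - jj u) := by
  have h1 := conj_zeta hζ
  have h3 : IsUnit (hζ.toInteger ^ jj u) :=
    (hζ.toInteger_isPrimitiveRoot.isUnit hp.out.ne_zero).pow _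
  refine h3.mul_right_cancel ?_
  rw [← mul_pow, h1, one_pow, ← pow_add, Nat.sub_add_cancel (jj_le u),
    hζ.toInteger_isPrimitiveRoot.pow_eq_one]

/-- Wieferich type: `q ∣ X` implies `q ^ 2 ∣ X`, `q ∣ Y` implies `q ^ 2 ∣ Y` -/
theorem beta_wief (hA1 : S_A1 p K) (hA2 : S_A2 p K) (hB1 : S_B1 p K) (hB2 : S_B2 p K)
    (hN1 : S_N1 p K) (hN3 : S_N3 p K)
    (hζ : IsPrimitiveRoot ζ p) (hp5 : 5 ≤ p) {q : ℕ} (hq : q.Prime) (hq2 : q ≠ 2) (hqp : q ≠ p)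
    {X Y z : ℤ} (hX : X ≠ 0) (hY : Y ≠ 0) (hd : X ≠ Y)
    (hs : X ≠ -Y) (hXY : IsCoprime X Y) (h : X ^ p + Y ^ p = z ^ q) :
    ((q : ℤ) ∣ Y → (q : ℤ) ^ 2 ∣ Y) := by
  intro hqD
  have hp2 : p ≠ 2 := by omega
  have hpq : ¬ p ∣ q := fun h0 => hqp ((Nat.prime_dvd_prime_iff_eq hp.out hq).1 h0).symm
  have hnp : Nat.Coprime q (2 * p) := by
    refine Nat.Coprime.mul_right ?_ ?_
    · exact (Nat.coprime_primes hq Nat.prime_two).2 hq2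
    · exact (Nat.coprime_primes hq hp.out).2 hqp
  obtain ⟨A, a, b, hA, ha0, hrel, hne, hcop, hbd⟩ :=
    beta_data hA1 hA2 hB1 hB2 hN1 hζ hp5 hq.ne_zero hnp hX hY hd hs hXY h
  have hYD : IsD X Y Y := Or.inr (Or.inl rfl)
  have hW := cop_D (K := K) hζ hp2 hXY hYD hqD fun _ => hpq
  obtain ⟨h1, h2, h3⟩ := hcop q hW
  have hB : cc K A = ∏ u ∈ H p, ((X : 𝓞 K) + hζ.toInteger ^ (p - jj u) * (Y : 𝓞 K)) := by
    rw [hA, cc_TT_lin]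
    refine prod_congr rfl fun u _ => ?_
    rw [tau_lin', cc_pow]
  have hA' : A = ∏ u ∈ H p, ((X : 𝓞 K) + hζ.toInteger ^ jj u * (Y : 𝓞 K)) := by
    rw [hA, TT_lin]
  have hdvd : (q : 𝓞 K) ^ (0 + 1) ∣ A - (-hζ.toInteger) ^ 0 * cc K A := by
    rw [pow_zero, one_mul, zero_add, pow_one, hA', ← hA', hB, hA']
    refine prod_dvd_sub _ _ _ _ fun u _ => ?_
    have e : (X : 𝓞 K) + hζ.toInteger ^ jj u * (Y : 𝓞 K) -
        ((X : 𝓞 K) + hζ.toInteger ^ (p - jj u) * (Y : 𝓞 K)) =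
        (Y : 𝓞 K) * (hζ.toInteger ^ jj u - hζ.toInteger ^ (p - jj u)) := by ring
    rw [e]
    exact (dvd_cast hqD).mul_right _
  obtain ⟨h4, -⟩ := coreq hζ hq hq2 hqp hnp hrel ha0 hdvd (hne 0) h1 h2 h3
  rw [pow_zero, one_mul, hB] at h4
  have hXq : IsCoprime (X : 𝓞 K) (q : 𝓞 K) := by
    have := (IsCoprime.of_isCoprime_of_dvd_right hXY hqD).map (Int.castRingHom (𝓞 K))
    simpa using this
  refine wief_F hN3 hζ hp2 hq hqD hXq ?_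
  rw [← dvd_neg, neg_sub, ← hA']
  exact h4

end Pool.Agent.U792.SW
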