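import Mathlib
import Pool.Agent.U792.SW.Beta2

/-!
Unconditional results for `X ^ p + Y ^ p = z ^ q`: `q ∣ X - Y` implies `q ^ 2 ∣ X - Y` if `q` does not
divide `(p - 1) / 2`.
-/

set_option autoImplicit false

namespace Pool.Agent.U792.SW

open NumberField NumberField.IsCMField Polynomial Finset Pool.Agent.U792.KU

variable {p : ℕ} [hp : Fact p.Prime] {K : Type*} [Field K] [NumberField K]
  [IsCyclotomicExtension {p} ℚ K] {ζ : K} [IsCMField K]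

theorem exists_e (hζ : IsPrimitiveRoot ζ p) (hp2 : p ≠ 2) :
    ∃ e : (ZMod p)ˣ → 𝓞 K, ∀ u, e u * (1 + hζ.toInteger ^ (u : ZMod p).val) = 1 := by
  have h1 : ∀ u : (ZMod p)ˣ, IsUnit (1 + hζ.toInteger ^ (u : ZMod p).val) := by
    intro u
    have := (isUnit_one_add hζ hp2).map (tau p K u)
    rwa [map_add, map_one, tau_zeta] at this
  choose v hv using h1
  exact ⟨fun u => ((v u)⁻¹ : (𝓞 K)ˣ), fun u => by rw [← hv u]; exact Units.inv_mul _⟩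

theorem beta_wief_sub (hA1 : S_A1 p K) (hA2 : S_A2 p K) (hB1 : S_B1 p K) (hB2 : S_B2 p K)
    (hN1 : S_N1 p K) (hN4 : S_N4 p K)
    (hζ : IsPrimitiveRoot ζ p) (hp5 : 5 ≤ p) {q : ℕ} (hq : q.Prime) (hq2 : q ≠ 2) (hqp : q ≠ p)
    {X Y z : ℤ} (hX : X ≠ 0) (hY : Y ≠ 0) (hd : X ≠ Y)
    (hs : X ≠ -Y) (hXY : IsCoprime X Y) (h : X ^ p + Y ^ p = z ^ q) (hqp1 : ¬ q ∣ (p - 1) / 2)
    (hqD : (q : ℤ) ∣ X - Y) : (q : ℤ) ^ 2 ∣ X - Y := by
  have hp2 : p ≠ 2 := by omega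
  have hpq : ¬ p ∣ q := fun h0 => hqp ((Nat.prime_dvd_prime_iff_eq hp.out hq).1 h0).symm
  have hnp : Nat.Coprime q (2 * p) := by
    refine Nat.Coprime.mul_right ?_ ?_
    · exact (Nat.coprime_primes hq Nat.prime_two).2 hq2
    · exact (Nat.coprime_primes hq hp.out).2 hqp
  obtain ⟨A, a, b, hA, ha0, hrel, hne, hcop, hbd⟩ :=
    beta_data hA1 hA2 hB1 hB2 hN1 hζ hp5 hq.ne_zero hnp hX hY hd hs hXY h
  have hYD : IsD X Y (X - Y) := Or.inr (Or.inr (Or.inl rfl))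
  have hW := cop_D (K := K) hζ hp2 hXY hYD hqD fun _ => hpq
  obtain ⟨h1, h2, h3⟩ := hcop q hW
  have hB : cc K A = ∏ u ∈ H p, ((X : 𝓞 K) + hζ.toInteger ^ (p - jj u) * (Y : 𝓞 K)) := by
    rw [hA, cc_TT_lin]
    refine prod_congr rfl fun u _ => ?_
    rw [tau_lin', cc_pow]
  have hA' : A = ∏ u ∈ H p, ((X : 𝓞 K) + hζ.toInteger ^ jj u * (Y : 𝓞 K)) := by
    rw [hA, TT_lin]
  set k : ℕ := ∑ u ∈ H p, (p + 1) * jj u with hk
  have hκ : (-hζ.toInteger) ^ k * cc K A =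
      ∏ u ∈ H p, (hζ.toInteger ^ jj u * (X : 𝓞 K) + (Y : 𝓞 K)) := by
    rw [hB, hk, ← prod_pow_eq_pow_sum, ← prod_mul_distrib]
    refine prod_congr rfl fun u _ => ?_
    rw [pow_mul, zeta_eq hζ hp2, mul_add, ← mul_assoc, ← pow_add,
      Nat.add_sub_cancel' (jj_le u), hζ.toInteger_isPrimitiveRoot.pow_eq_one, one_mul]
  have hdvd : (q : 𝓞 K) ^ (0 + 1) ∣ A - (-hζ.toInteger) ^ k * cc K A := by
    rw [zero_add, pow_one, hκ, hA']
    refine prod_dvd_sub _ _ _ _ fun u _ => ?_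
    have e : (X : 𝓞 K) + hζ.toInteger ^ jj u * (Y : 𝓞 K) -
        (hζ.toInteger ^ jj u * (X : 𝓞 K) + (Y : 𝓞 K)) =
        ((X - Y : ℤ) : 𝓞 K) * (1 - hζ.toInteger ^ jj u) := by push_cast; ring
    rw [e]
    exact (dvd_cast hqD).mul_right _
  obtain ⟨h4, -⟩ := coreq hζ hq hq2 hqp hnp hrel ha0 hdvd (hne k) h1 h2 h3
  obtain ⟨e, he⟩ := exists_e (K := K) hζ hp2
  have hδ : ¬ (q : 𝓞 K) ∣ ∑ u ∈ H p, (1 - hζ.toInteger ^ jj u) * e u⁻¹ := fun h0 =>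
    hqp1 (hN4 ζ hζ q e hp2 hq.two_le he h0)
  have hYq : IsCoprime (Y : 𝓞 K) (q : 𝓞 K) := by
    have h5 : IsCoprime Y (X - Y) := by
      have := (IsCoprime.add_mul_left_right_iff (x := Y) (y := X) (z := -1)).2 hXY.symm
      rwa [mul_neg_one, ← sub_eq_add_neg] at this
    have := (IsCoprime.of_isCoprime_of_dvd_right h5 hqD).map (Int.castRingHom (𝓞 K))
    simpa using this
  refine wief_core (e := (H p).card) hq hqD hYq hδ ?_
  -- `A = E * ∏ (Y + e D)`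
  set D : 𝓞 K := ((X - Y : ℤ) : 𝓞 K) with hDdef
  have hXe : (X : 𝓞 K) = Y + D := by rw [hDdef]; push_cast; ring
  set E : 𝓞 K := ∏ u ∈ H p, e u⁻¹ with hE
  have e1 : E * A = ∏ u ∈ H p, ((Y : 𝓞 K) + e u⁻¹ * D) := by
    rw [hA', hE, ← prod_mul_distrib]
    refine prod_congr rfl fun u _ => ?_
    rw [hXe]
    linear_combination (Y : 𝓞 K) * he u⁻¹
  have e2 : E * ((-hζ.toInteger) ^ k * cc K A) =
      ∏ u ∈ H p, ((Y : 𝓞 K) + (hζ.toInteger ^ jj u * e u⁻¹) * D) := by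
    rw [hκ, hE, ← prod_mul_distrib]
    refine prod_congr rfl fun u _ => ?_
    rw [hXe]
    linear_combination (Y : 𝓞 K) * he u⁻¹
  have h5 := prod_expand (H p) (fun u => e u⁻¹) D (Y : 𝓞 K)
  have h6 := prod_expand (H p) (fun u => hζ.toInteger ^ jj u * e u⁻¹) D (Y : 𝓞 K)
  have h7 : (q : 𝓞 K) ^ 2 ∣ D ^ 2 := pow_dvd_pow_of_dvd (dvd_cast hqD) 2
  rw [← e1] at h5
  rw [← e2] at h6
  have h8 := dvd_sub (h7.trans h6) (h7.trans h5)
  have h9 := dvd_add (h4.mul_left ((Y : 𝓞 K) * E)) h8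
  refine h9.trans (dvd_of_eq ?_)
  simp only [sub_mul, one_mul]
  rw [sum_sub_distrib]
  ring

end Pool.Agent.U792.SW
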