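import Mathlib
import Pool.Agent.U792.SW.Beta3
import Pool.Agent.U792.SW.Stm3

/-!
The relation `A a ^ n = B b ^ n` in one form for both methods, and its consequences.
-/

set_option autoImplicit false

namespace Pool.Agent.U792.SW

open NumberField NumberField.IsCMField Polynomial Finset Pool.Agent.U792.KU

variable {p : ℕ} [hp : Fact p.Prime] {K : Type*} [Field K] [NumberField K]
  [IsCyclotomicExtension {p} ℚ K] {ζ : K} [IsCMField K]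

/-- the data: `A = X + ζ Y` or `A = TT (X + ζ Y)` -/
def Rel (hζ : IsPrimitiveRoot ζ p) (n : ℕ) (X Y R : ℤ) : Prop :=
  ∃ A B a b w C B' : 𝓞 K, a ≠ 0 ∧ A * a ^ n = B * b ^ n ∧
    (∀ D : ℤ, IsD X Y D → D ≠ 0 → ∃ k : ℕ, (D : 𝓞 K) ∣ A - (-hζ.toInteger) ^ k * B ∧
      A ≠ (-hζ.toInteger) ^ k * B) ∧
    IsCoprime w (hζ.toInteger - 1) ∧
    (∀ Q : ℕ, IsCoprime ((X : 𝓞 K) + hζ.toInteger * Y) (Q : 𝓞 K) →
      IsCoprime w (Q : 𝓞 K) ∧ IsCoprime B (Q : 𝓞 K)) ∧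
    (∀ Q : ℕ, IsCoprime w (Q : 𝓞 K) → IsCoprime a (Q : 𝓞 K) ∧ IsCoprime b (Q : 𝓞 K) ∧
      IsCoprime B' (Q : 𝓞 K)) ∧ B * C = (p : 𝓞 K) * B' ∧
    (∀ Q t : ℕ, IsCoprime w (Q : 𝓞 K) → (Q : 𝓞 K) ∣ (-hζ.toInteger) ^ t * a - b →
      (-hζ.toInteger) ^ t * a ≠ b → (Q : ℤ) ^ n ≤ 2 ^ n * R)

omit [IsCMField K] in
theorem dvd_p (hζ : IsPrimitiveRoot ζ p) {d : ℕ} (hd : d ≤ p - 1) :
    (hζ.toInteger - 1) ^ d ∣ (p : 𝓞 K) :=
  (pow_dvd_pow _ hd).trans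
    (IsCyclotomicExtension.Rat.associated_zeta_sub_one_pow_prime p hζ).dvd

omit [IsCMField K] in
theorem cop_w_p (hζ : IsPrimitiveRoot ζ p) {w : 𝓞 K} (h : IsCoprime w (hζ.toInteger - 1)) :
    IsCoprime w (p : 𝓞 K) := by
  have h1 : (p : 𝓞 K) ∣ (hζ.toInteger - 1) ^ (p - 1) :=
    (IsCyclotomicExtension.Rat.associated_zeta_sub_one_pow_prime p hζ).symm.dvd
  exact IsCoprime.of_isCoprime_of_dvd_right (IsCoprime.pow_right h) h1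

theorem rel_alpha (hM1 : S_M1 K) (hM2 : S_M2 p K) (hM3 : S_M3 p K)
    (hζ : IsPrimitiveRoot ζ p) (hp2 : p ≠ 2) {n : ℕ} (hn0 : n ≠ 0)
    (hnp : Nat.Coprime n (2 * p)) (hmf : MinusFree K n) {X Y z : ℤ} (hXY : IsCoprime X Y)
    (h : X ^ p + Y ^ p = z ^ n) : Rel hζ n X Y (|X| + |Y|) := by
  obtain ⟨d, w, hd1, hw, hwπ⟩ := exists_w' hζ hp2 hXY
  obtain ⟨I, hI⟩ := factor_ideal hζ hp2 hXY h hw hwπ
  have hw0 : w ≠ 0 := by
    rintro rfl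
    rw [isCoprime_zero_left] at hwπ
    exact hζ.zeta_sub_one_prime'.not_isUnit hwπ
  obtain ⟨γ, hγ⟩ := hM1 n w I hn0 hw0 hI hmf
  obtain ⟨s, hs⟩ := hM2 ζ hζ n d X Y w γ I hp2 hnp hn0 hw0 hI hw hγ
  have hodd : Odd n := by
    rw [← Nat.coprime_two_right]
    exact Nat.Coprime.coprime_dvd_right (Dvd.intro _ rfl) hnp
  have hcw0 : cc K w ≠ 0 := (map_ne_zero_iff _ cc_inj).2 hw0
  -- `γ ^ n` is a unit times `w (cc w) ^ (n - 1)`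
  have hγn : Ideal.span {γ ^ n} = Ideal.span {w * (cc K w) ^ (n - 1)} := by
    rw [← Ideal.span_singleton_pow, hγ, mul_pow, ← hI, ← pow_mul, mul_comm (n - 1) n, pow_mul,
      ← Ideal.map_pow, ← hI, Ideal.map_span, Set.image_singleton, Ideal.span_singleton_pow,
      Ideal.span_singleton_mul_span_singleton]
  obtain ⟨ε, hε⟩ := Ideal.span_singleton_eq_span_singleton.1 hγn
  have hγ0 : γ ≠ 0 := by
    rintro rfl
    rw [zero_pow hn0, zero_mul] at hε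
    exact mul_ne_zero hw0 (pow_ne_zero _ hcw0) hε.symm
  have hcγ0 : cc K γ ≠ 0 := (map_ne_zero_iff _ cc_inj).2 hγ0
  have hcop : ∀ Q : ℕ, IsCoprime w (Q : 𝓞 K) → IsCoprime (cc K w) (Q : 𝓞 K) ∧
      IsCoprime γ (Q : 𝓞 K) ∧ IsCoprime (cc K γ) (Q : 𝓞 K) := by
    intro Q h1
    have h2 : IsCoprime (cc K w) (Q : 𝓞 K) := by
      have := h1.map (cc K)
      simpa using this
    have h3 : IsCoprime γ (Q : 𝓞 K) := by
      have h4 : IsCoprime (γ ^ n * ε) (Q : 𝓞 K) := by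
        rw [hε]
        exact IsCoprime.mul_left h1 h2.pow_left
      exact (IsCoprime.pow_left_iff (Nat.pos_of_ne_zero hn0)).1 h4.of_mul_left_left
    have h4 : IsCoprime (cc K γ) (Q : 𝓞 K) := by
      have := h3.map (cc K)
      simpa using this
    exact ⟨h2, h3, h4⟩
  have hBeq : (X : 𝓞 K) + cc K hζ.toInteger * Y = (cc K hζ.toInteger - 1) ^ d * cc K w := by
    have := congrArg (cc K) hw
    simpa using this
  obtain ⟨C, hC⟩ : (cc K hζ.toInteger - 1) ^ d ∣ (p : 𝓞 K) := by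
    have h1 := (cc K).map_dvd (dvd_p hζ (d := d) (by have := hp.out.two_le; omega))
    simpa using h1
  refine ⟨(X : 𝓞 K) + hζ.toInteger * Y, (X : 𝓞 K) + cc K hζ.toInteger * Y,
    (cc K γ * cc K w) ^ ((n + 1) / 2) * w,
    (-hζ.toInteger) ^ s * ((γ * w) ^ ((n + 1) / 2) * cc K w), w, C, cc K w,
    mul_ne_zero (pow_ne_zero _ (mul_ne_zero hcγ0 hcw0)) hw0, hs, ?_, hwπ, ?_, ?_, ?_, ?_⟩
  · intro D hD hD0
    obtain ⟨k, c, hk, hc0, -⟩ := four hζ hp2 hD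
    refine ⟨k, by rw [hk]; exact dvd_mul_right _ _, ?_⟩
    intro h0
    rw [← sub_eq_zero, hk] at h0
    rcases mul_eq_zero.1 h0 with h1 | h1
    · exact hD0 (Int.cast_eq_zero.1 h1)
    · exact hc0 h1
  · intro Q hQ
    refine ⟨?_, ?_⟩
    · rw [hw] at hQ
      exact hQ.of_mul_left_right
    · have := hQ.map (cc K)
      simpa using this
  · intro Q h1
    obtain ⟨h2, h3, h4⟩ := hcop Q h1
    refine ⟨IsCoprime.mul_left (IsCoprime.pow_left (IsCoprime.mul_left h4 h2)) h1, ?_, h2⟩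
    exact (isCoprime_mul_unit_left_left (isUnit_neg_zeta hζ s) _ _).2
      (IsCoprime.mul_left (IsCoprime.pow_left (IsCoprime.mul_left h3 h1)) h2)
  · rw [hBeq, hC]
    ring
  · intro Q t hQ h1 h2
    exact hM3 ζ hζ n d Q t s X Y w γ I hp2 hodd hw0 hI hw hγ hQ h1 h2

theorem TT_pi (hζ : IsPrimitiveRoot ζ p) (hp2 : p ≠ 2) :
    TT p (hζ.toInteger - 1) ∣ (p : 𝓞 K) := by
  have h1 : Associated (∏ u ∈ H p, (hζ.toInteger - 1)) (TT p (hζ.toInteger - 1)) := by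
    refine Associated.prod _ _ _ fun u _ => ?_
    rw [map_sub, map_one, tau_zeta]
    refine hζ.toInteger_isPrimitiveRoot.associated_sub_one_pow_sub_one_of_coprime ?_
    have h2 : ((u⁻¹ : (ZMod p)ˣ) : ZMod p).val ≠ 0 := by
      intro h0
      exact (u⁻¹ : (ZMod p)ˣ).ne_zero ((ZMod.val_eq_zero _).1 h0)
    rw [Nat.coprime_comm]
    refine (Nat.Prime.coprime_iff_not_dvd hp.out).2 fun h3 => ?_
    have h4 := Nat.le_of_dvd (Nat.pos_of_ne_zero h2) h3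
    have h5 : ((u⁻¹ : (ZMod p)ˣ) : ZMod p).val < p := ZMod.val_lt _
    omega
  rw [prod_const] at h1
  refine h1.symm.dvd.trans (dvd_p hζ ?_)
  have := card_H_le hp2
  omega

theorem rel_beta (hA1 : S_A1 p K) (hA2 : S_A2 p K) (hB1 : S_B1 p K) (hB2 : S_B2 p K)
    (hN1 : S_N1 p K)
    (hζ : IsPrimitiveRoot ζ p) (hp5 : 5 ≤ p) {n : ℕ} (hn0 : n ≠ 0)
    (hnp : Nat.Coprime n (2 * p)) {X Y z : ℤ} (hX : X ≠ 0) (hY : Y ≠ 0) (hd : X ≠ Y)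
    (hs : X ≠ -Y) (hXY : IsCoprime X Y) (h : X ^ p + Y ^ p = z ^ n) :
    Rel hζ n X Y ((|X| + |Y|) ^ ((p - 1) / 2)) := by
  have hp2 : p ≠ 2 := by omega
  obtain ⟨d, w, hd1, hw, hwπ⟩ := exists_w' hζ hp2 hXY
  obtain ⟨ε, γ, hγ0, hA⟩ := factorTT hA1 hA2 hB1 hB2 hζ hp2 hn0 hXY h hw hwπ
  obtain ⟨s, hs'⟩ := beta_rel hζ hp2 hnp hA
  have hwu : ¬ IsUnit w := hN1 ζ hζ d X Y w hp5 hd1 hX hY hd hs hw
  have hu0 : TT p (hζ.toInteger - 1) ^ d * (ε : 𝓞 K) ≠ 0 :=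
    mul_ne_zero (pow_ne_zero _ (TT_ne_zero hζ.zeta_sub_one_prime'.ne_zero)) ε.ne_zero
  have hTw : TT p ((X : 𝓞 K) + hζ.toInteger * (Y : 𝓞 K)) =
      TT p (hζ.toInteger - 1) ^ d * TT p w := by
    rw [hw, TT_mul, TT_pow]
  have hTw2 : TT p w = ε * γ ^ n := by
    have h1 := hTw.symm.trans hA
    rw [mul_assoc] at h1
    exact mul_left_cancel₀ (pow_ne_zero _ (TT_ne_zero hζ.zeta_sub_one_prime'.ne_zero)) h1
  obtain ⟨C, hC⟩ : cc K (TT p (hζ.toInteger - 1) ^ d) ∣ (p : 𝓞 K) := by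
    have h1 : TT p (hζ.toInteger - 1) ^ d ∣ (p : 𝓞 K) :=
      (pow_dvd_pow _ hd1).trans (by rw [pow_one]; exact TT_pi hζ hp2)
    have h2 := (cc K).map_dvd h1
    simpa using h2
  have hcop1 : ∀ (x : 𝓞 K) (Q : ℕ), IsCoprime x (Q : 𝓞 K) → IsCoprime (TT p x) (Q : 𝓞 K) := by
    intro x Q hQ
    refine IsCoprime.prod_left fun u _ => ?_
    have := hQ.map (tau p K u⁻¹)
    simpa using this
  have hcop2 : ∀ (x : 𝓞 K) (Q : ℕ), IsCoprime x (Q : 𝓞 K) → IsCoprime (cc K x) (Q : 𝓞 K) := by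
    intro x Q hQ
    have := hQ.map (cc K)
    simpa using this
  refine ⟨TT p ((X : 𝓞 K) + hζ.toInteger * (Y : 𝓞 K)),
    cc K (TT p ((X : 𝓞 K) + hζ.toInteger * (Y : 𝓞 K))), cc K γ, (-hζ.toInteger) ^ s * γ, w, C,
    cc K (TT p w), (map_ne_zero_iff _ cc_inj).2 hγ0, hs', ?_, hwπ, ?_, ?_, ?_, ?_⟩
  · intro D hD _
    obtain ⟨k, hk⟩ := TT_dvd hζ hp2 hD
    exact ⟨k, hk, TT_ne hζ hp2 hXY hw hwπ hwu k⟩
  · intro Q hQ
    refine ⟨?_, hcop2 _ Q (hcop1 _ Q hQ)⟩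
    rw [hw] at hQ
    exact hQ.of_mul_left_right
  · intro Q hQ
    have h1 := hcop1 w Q hQ
    have h2 : IsCoprime γ (Q : 𝓞 K) := by
      rw [hTw2] at h1
      exact (IsCoprime.pow_left_iff (Nat.pos_of_ne_zero hn0)).1 h1.of_mul_left_right
    exact ⟨hcop2 _ Q h2, (isCoprime_mul_unit_left_left (isUnit_neg_zeta hζ s) _ _).2 h2,
      hcop2 _ Q h1⟩
  · rw [hTw, map_mul, hC]
    ring
  · intro Q t _ hQ hne
    refine final_bound2 (R := (|X| + |Y|) ^ ((p - 1) / 2)) (by positivity) hA hu0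
      (Nm_TT_le hζ hp2 hX) ?_ ?_ hne hQ
    · intro σ
      rw [norm_neg_zeta_pow_mul hζ, norm_cc]
    · intro σ
      rw [norm_neg_zeta_pow_mul hζ]

/-- free divisors of the four numbers -/
theorem rel_free (hR1 : S_R1 p K) (hζ : IsPrimitiveRoot ζ p) (hp2 : p ≠ 2) {n : ℕ} (hn0 : n ≠ 0)
    (hnp : Nat.Coprime n (2 * p)) {X Y R D : ℤ} (hXY : IsCoprime X Y) (hrel : Rel hζ n X Y R)
    (hD : IsD X Y D) (hD0 : D ≠ 0) {Q : ℕ} (hQ0 : Q ≠ 0)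
    (hQ : ∀ l : ℕ, l.Prime → l ∣ Q → FreeAt p n l)
    (hQD : (Q : ℤ) ∣ D) (hpQ : D = X + Y → ¬ p ∣ Q) : (Q : ℤ) ^ n ≤ 2 ^ n * R := by
  obtain ⟨A, B, a, b, w, C, B', ha0, hr, hDk, hwπ, hW, hcop, hBC, hbd⟩ := hrel
  obtain ⟨k, hk, hne⟩ := hDk D hD hD0
  have hA := cop_D (K := K) hζ hp2 hXY hD hQD hpQ
  obtain ⟨hwQ, hBQ⟩ := hW Q hA
  obtain ⟨haQ, hbQ, -⟩ := hcop Q hwQ
  obtain ⟨t, ht⟩ := rel_pow hζ hnp k hr
  have h2 : (Q : 𝓞 K) ∣ ((-hζ.toInteger) ^ t * a) ^ n - b ^ n := by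
    refine hBQ.symm.dvd_of_dvd_mul_left ?_
    rw [ht]
    exact (((dvd_cast hQD).trans hk).mul_right _).neg_right
  have h3 := hR1 ζ hζ n Q _ _ hn0 hQ0 hQ
      ((isCoprime_mul_unit_left_left (isUnit_neg_zeta hζ t) _ _).2 haQ) hbQ h2
  refine hbd Q t hwQ h3 ?_
  intro h0
  rw [h0, sub_self, mul_zero] at ht
  rcases mul_eq_zero.1 (neg_eq_zero.1 ht.symm) with h5 | h5
  · exact hne (sub_eq_zero.1 h5)
  · exact ha0 (pow_eq_zero_iff hn0 |>.1 h5)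

/-- second case -/
theorem rel_p (hR1 : S_R1 p K) (hζ : IsPrimitiveRoot ζ p) (hp2 : p ≠ 2) {n : ℕ} (hn0 : n ≠ 0)
    (hnp : Nat.Coprime n (2 * p)) {X Y R : ℤ} (hXY : IsCoprime X Y) (hrel : Rel hζ n X Y R)
    (hs : X + Y ≠ 0) (hp1 : Nat.Coprime n (p - 1)) {m : ℕ} (hm : (p : ℤ) ^ (m + 1) ∣ X + Y) :
    ((p : ℤ) ^ m) ^ n ≤ 2 ^ n * R := by
  obtain ⟨A, B, a, b, w, C, B', ha0, hr, hDk, hwπ, hW, hcop, hBC, hbd⟩ := hrel
  obtain ⟨k, hk, hne⟩ := hDk (X + Y) (Or.inr (Or.inr (Or.inr rfl))) hs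
  have hwp := cop_w_p hζ hwπ
  obtain ⟨haQ, hbQ, hBQ⟩ := hcop p hwp
  have hp0 : (p : 𝓞 K) ≠ 0 := by exact_mod_cast hp.out.ne_zero
  obtain ⟨t, ht⟩ := rel_pow hζ hnp k hr
  have hcast : (p : 𝓞 K) ^ (m + 1) ∣ ((X + Y : ℤ) : 𝓞 K) := by
    have := (Int.castRingHom (𝓞 K)).map_dvd hm
    simpa using this
  have h2 : ((p ^ m : ℕ) : 𝓞 K) ∣ ((-hζ.toInteger) ^ t * a) ^ n - b ^ n := by
    push_cast
    have h3 : (p : 𝓞 K) ^ (m + 1) ∣ (p : 𝓞 K) *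
        (B' * (((-hζ.toInteger) ^ t * a) ^ n - b ^ n)) := by
      have e : (p : 𝓞 K) * (B' * (((-hζ.toInteger) ^ t * a) ^ n - b ^ n)) =
          C * (B * (((-hζ.toInteger) ^ t * a) ^ n - b ^ n)) := by
        rw [← mul_assoc, ← hBC]
        ring
      rw [e, ht]
      exact (((hcast.trans hk).mul_right _).neg_right).mul_left _
    rw [pow_succ'] at h3
    have h4 := (mul_dvd_mul_iff_left hp0).1 h3
    exact IsCoprime.dvd_of_dvd_mul_left (IsCoprime.pow_right hBQ).symm h4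
  have hfree : ∀ l : ℕ, l.Prime → l ∣ p ^ m → FreeAt p n l := by
    intro l hl hlp
    have h1 : l = p := (Nat.prime_dvd_prime_iff_eq hl hp.out).1 (hl.dvd_of_dvd_pow hlp)
    subst h1
    refine ⟨1, one_pos, Or.inl rfl, ?_⟩
    rw [pow_one]
    exact Nat.Coprime.mul_right (Nat.Coprime.coprime_mul_left_right hnp) hp1
  have hcp : IsCoprime w ((p ^ m : ℕ) : 𝓞 K) := by
    push_cast
    exact IsCoprime.pow_right hwp
  obtain ⟨ha2, hb2, -⟩ := hcop (p ^ m) hcp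
  have h3 := hR1 ζ hζ n (p ^ m) _ _ hn0 (pow_ne_zero _ hp.out.ne_zero) hfree
      ((isCoprime_mul_unit_left_left (isUnit_neg_zeta hζ t) _ _).2 ha2) hb2 h2
  have h4 := hbd (p ^ m) t hcp h3 (by
    intro h0
    rw [h0, sub_self, mul_zero] at ht
    rcases mul_eq_zero.1 (neg_eq_zero.1 ht.symm) with h5 | h5
    · exact hne (sub_eq_zero.1 h5)
    · exact ha0 (pow_eq_zero_iff hn0 |>.1 h5))
  push_cast at h4
  exact h4

/-- `n = q` prime -/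
theorem rel_q (hζ : IsPrimitiveRoot ζ p) (hp2 : p ≠ 2) {q : ℕ} (hq : q.Prime) (hq2 : q ≠ 2)
    (hqp : q ≠ p) {X Y R D : ℤ} (hXY : IsCoprime X Y) (hrel : Rel hζ q X Y R)
    (hD : IsD X Y D) (hD0 : D ≠ 0) {m : ℕ} (hQD : (q : ℤ) ^ (m + 1) ∣ D) :
    (q : ℤ) ^ q ≤ 2 ^ q * R ∧ ((q : ℤ) ^ m) ^ q ≤ 2 ^ q * R := by
  have hpq : ¬ p ∣ q := fun h0 => hqp ((Nat.prime_dvd_prime_iff_eq hp.out hq).1 h0).symm
  have hnp : Nat.Coprime q (2 * p) := by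
    refine Nat.Coprime.mul_right ?_ ?_
    · exact (Nat.coprime_primes hq Nat.prime_two).2 hq2
    · exact (Nat.coprime_primes hq hp.out).2 hqp
  obtain ⟨A, B, a, b, w, C, B', ha0, hr, hDk, hwπ, hW, hcop, hBC, hbd⟩ := hrel
  obtain ⟨k, hk, hne⟩ := hDk D hD hD0
  have hqD : (q : ℤ) ∣ D := (dvd_pow_self _ (by omega)).trans hQD
  have hA := cop_D (K := K) hζ hp2 hXY hD hqD fun _ => hpq
  obtain ⟨hwQ, hBQ⟩ := hW q hA
  obtain ⟨haQ, hbQ, -⟩ := hcop q hwQ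
  have hcast : (q : 𝓞 K) ^ (m + 1) ∣ (D : 𝓞 K) := by
    have := (Int.castRingHom (𝓞 K)).map_dvd hQD
    simpa using this
  obtain ⟨-, t, ht1, ht2, ht3⟩ := coreq hζ hq hq2 hqp hnp hr ha0 (hcast.trans hk) hne
    hBQ haQ hbQ
  refine ⟨hbd q t hwQ ht1 ht3, ?_⟩
  have hcp : IsCoprime w ((q ^ m : ℕ) : 𝓞 K) := by
    push_cast
    exact IsCoprime.pow_right hwQ
  have h6 := hbd (q ^ m) t hcp (by push_cast; exact ht2) ht3
  push_cast at h6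
  exact h6

end Pool.Agent.U792.SW
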