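import Mathlib
import Pool.Agent.U792.SW.Rel
import Pool.Agent.U792.SW.PkgA1
import Pool.Agent.U792.SW.PkgA2
import Pool.Agent.U792.SW.PkgB1
import Pool.Agent.U792.SW.PkgB2
import Pool.Agent.U792.SW.PkgE
import Pool.Agent.U792.SW.PkgG1
import Pool.Agent.U792.SW.PkgG2
import Pool.Agent.U792.SW.PkgM1
import Pool.Agent.U792.SW.PkgM2
import Pool.Agent.U792.SW.PkgM3
import Pool.Agent.U792.SW.PkgN1
import Pool.Agent.U792.SW.PkgN3
import Pool.Agent.U792.SW.PkgN4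
import Pool.Agent.U792.SW.PkgR1
import Pool.Agent.U792.SW.PkgL1

/-!
`X ^ p + Y ^ p = z ^ n`: final form for the field `ℚ(ζ_p)`.
-/

set_option autoImplicit false

namespace Pool.Agent.U792.SW

open NumberField NumberField.IsCMField Polynomial Finset Pool.Agent.U792.KU

/-- There is no ideal class `C ≠ 1` of `ℚ(ζ_p)` with `C ^ n = 1` and `C * conj C = 1`; here `c` is
complex conjugation, the endomorphism which inverts the `p`-th roots of unity. -/
def NoMinusClass (p n : ℕ) : Prop :=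
  ∀ c : 𝓞 (CyclotomicField p ℚ) →+* 𝓞 (CyclotomicField p ℚ),
    (∀ x : 𝓞 (CyclotomicField p ℚ), x ^ p = 1 → c x * x = 1) →
    ∀ I : Ideal (𝓞 (CyclotomicField p ℚ)), I ≠ ⊥ → (I ^ n).IsPrincipal →
      (I * I.map c).IsPrincipal → I.IsPrincipal

theorem minusFree {p n : ℕ} (hp : p.Prime) [IsCMField (CyclotomicField p ℚ)]
    (h : NoMinusClass p n) : MinusFree (CyclotomicField p ℚ) n := by
  have hF : Fact p.Prime := ⟨hp⟩
  have hCyc := instCyc p
  have hζ : IsPrimitiveRoot (IsCyclotomicExtension.zeta p ℚ (CyclotomicField p ℚ)) p :=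
    IsCyclotomicExtension.zeta_spec p ℚ (CyclotomicField p ℚ)
  refine h (cc (CyclotomicField p ℚ)) ?_
  intro x hx
  have : NeZero p := ⟨hp.ne_zero⟩
  obtain ⟨i, -, hi⟩ := hζ.toInteger_isPrimitiveRoot.eq_pow_of_pow_eq_one hx
  rw [← hi, map_pow, ← mul_pow, conj_zeta hζ, one_pow]

/-- the relation with the exponent `E` -/
theorem rel_E {p n : ℕ} (hp : p.Prime) (hp5 : 5 ≤ p) (hn : 2 ≤ n)
    (hnp : Nat.Coprime n (2 * p)) {X Y z : ℤ} (hX : X ≠ 0) (hY : Y ≠ 0) (hs : X + Y ≠ 0)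
    (hXY : IsCoprime X Y) (h : X ^ p + Y ^ p = z ^ n) {E : ℕ}
    (hE : E = (p - 1) / 2 ∨ (E = 1 ∧ NoMinusClass p n)) [Fact p.Prime]
    [IsCyclotomicExtension {p} ℚ (CyclotomicField p ℚ)] [IsCMField (CyclotomicField p ℚ)]
    (hζ : IsPrimitiveRoot (IsCyclotomicExtension.zeta p ℚ (CyclotomicField p ℚ)) p) :
    Rel hζ n X Y ((|X| + |Y|) ^ E) := by
  have hd : X - Y ≠ 0 := sub_ne hn hXY h
  have hp2 : p ≠ 2 := by omega
  rcases hE with rfl | ⟨rfl, hm⟩
  · exact rel_beta (t_A1 p _) (t_A2 p _) (t_B1 p _) (t_B2 p _) (t_N1 p _) hζ hp5 (by omega) hnp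
      hX hY (fun h0 => hd (by rw [h0, sub_self])) (fun h0 => hs (by rw [h0, neg_add_cancel]))
      hXY h
  · rw [pow_one]
    exact rel_alpha (t_M1 _) (t_M2 p _) (t_M3 p _) hζ hp2 (by omega) hnp (minusFree hp hm) hXY h

end Pool.Agent.U792.SW
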