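import Mathlib
import Pool.Agent.U792.SW.Rel

/-!
Project SW, fourth part: differences of two Stickelberger elements. Statements.
-/

set_option autoImplicit false

namespace Pool.Agent.U792.SW

open NumberField NumberField.IsCMField Finset Pool.Agent.U792.KU

/-- the classes `u` with `(u mod p) + (a u mod p) < p` -/
noncomputable def Sa (p : ℕ) [Fact p.Prime] (a : ℕ) : Finset (ZMod p)ˣ := by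
  classical
  exact univ.filter (fun u => (u : ZMod p).val + ((a : ZMod p) * (u : ZMod p)).val < p)

theorem mem_Sa {p : ℕ} [Fact p.Prime] {a : ℕ} {u : (ZMod p)ˣ} :
    u ∈ Sa p a ↔ (u : ZMod p).val + ((a : ZMod p) * (u : ZMod p)).val < p := by
  classical
  simp [Sa]

variable (p : ℕ) [hp : Fact p.Prime] (K : Type*) [Field K] [NumberField K]
  [IsCyclotomicExtension {p} ℚ K]

/-- Package A3: the Jacobi sum `J (χ, χ ^ a)`. -/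
def S_A3 : Prop :=
  ∀ (ζ : K) (hζ : IsPrimitiveRoot ζ p) (a : ℕ) (P : Ideal (𝓞 K)), p ≠ 2 → (a : ZMod p) ≠ 0 →
    (a : ZMod p) + 1 ≠ 0 → P.IsPrime → (Nat.card (𝓞 K ⧸ P)).Prime → hζ.toInteger - 1 ∉ P →
    ∃ J : 𝓞 K, (∀ u ∈ Sa p a, tau p K u J ∈ P) ∧
      J * tau p K (-1) J = (Nat.card (𝓞 K ⧸ P) : 𝓞 K)

/-- Package A4: the factorisation for a set `T` of `(p - 1) / 2` classes. -/
def S_A4 : Prop :=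
  ∀ (ζ : K) (hζ : IsPrimitiveRoot ζ p) (T : Finset (ZMod p)ˣ) (P : Ideal (𝓞 K)) (J : 𝓞 K),
    p ≠ 2 → 2 * T.card = p - 1 → P.IsPrime → (Nat.card (𝓞 K ⧸ P)).Prime →
    hζ.toInteger - 1 ∉ P → (∀ u ∈ T, tau p K u J ∈ P) →
    J * tau p K (-1) J = (Nat.card (𝓞 K ⧸ P) : 𝓞 K) →
    Ideal.span {J} = ∏ u ∈ T, P.map (tau p K u⁻¹)

/-- Package A5. -/
def S_A5 : Prop :=
  ∀ a : ℕ, p ≠ 2 → (a : ZMod p) ≠ 0 → (a : ZMod p) + 1 ≠ 0 →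
    2 * (Sa p a).card = p - 1 ∧ ∀ u : (ZMod p)ˣ, u ∈ Sa p a ↔ -u ∉ Sa p a

/-- Package B3: from primes to ideals, with the norm. -/
def S_B3 : Prop :=
  ∀ (ζ : K) (hζ : IsPrimitiveRoot ζ p) (T : Finset (ZMod p)ˣ),
    (∀ P : Ideal (𝓞 K), Good hζ P → ∃ J : 𝓞 K, Ideal.span {J} = ∏ u ∈ T, P.map (tau p K u⁻¹) ∧
      J * tau p K (-1) J = (Nat.card (𝓞 K ⧸ P) : 𝓞 K)) →
    ∀ I : Ideal (𝓞 K), I ≠ ⊥ → (∀ P : Ideal (𝓞 K), P.IsPrime → P ≠ ⊥ → I ≤ P → Good hζ P) →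
      ∃ J : 𝓞 K, J ≠ 0 ∧ Ideal.span {J} = ∏ u ∈ T, I.map (tau p K u⁻¹) ∧
        J * tau p K (-1) J = (Ideal.absNorm I : 𝓞 K)

variable [IsCMField K]

/-- the product over `σ_u⁻¹`, `u ∈ T` -/
noncomputable def TP {p : ℕ} [Fact p.Prime] {K : Type*} [Field K] [NumberField K]
    [IsCyclotomicExtension {p} ℚ K] (T : Finset (ZMod p)ˣ) (x : 𝓞 K) : 𝓞 K :=
  ∏ u ∈ T, tau p K u⁻¹ x

/-- Package C1: the relation. -/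
def S_C1 : Prop :=
  ∀ (ζ : K) (hζ : IsPrimitiveRoot ζ p) (n d : ℕ) (X Y : ℤ) (w g1 g2 : 𝓞 K) (I : Ideal (𝓞 K))
    (S1 S2 T U : Finset (ZMod p)ˣ), p ≠ 2 → Nat.Coprime n (2 * p) → n ≠ 0 → w ≠ 0 →
    Ideal.span {w} = I ^ n → (X : 𝓞 K) + hζ.toInteger * (Y : 𝓞 K) = (hζ.toInteger - 1) ^ d * w →
    (∀ u, u ∈ S1 ↔ u ∈ T ∨ u ∈ U) → (∀ u, u ∈ S2 ↔ -u ∈ T ∨ u ∈ U) →
    (∀ u ∈ T, u ∉ U ∧ -u ∉ U ∧ -u ∉ T) →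
    g1 ≠ 0 → g2 ≠ 0 → Ideal.span {g1} = ∏ u ∈ S1, I.map (tau p K u⁻¹) →
    Ideal.span {g2} = ∏ u ∈ S2, I.map (tau p K u⁻¹) →
    g1 * tau p K (-1) g1 = (Ideal.absNorm I : 𝓞 K) →
    g2 * tau p K (-1) g2 = (Ideal.absNorm I : 𝓞 K) →
    ∃ s : ℕ, TP T ((X : 𝓞 K) + hζ.toInteger * (Y : 𝓞 K)) * g2 ^ n =
      cc K (TP T ((X : 𝓞 K) + hζ.toInteger * (Y : 𝓞 K))) * ((-hζ.toInteger) ^ s * g1) ^ n

/-- Package C2: the bound. -/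
def S_C2 : Prop :=
  ∀ (ζ : K) (hζ : IsPrimitiveRoot ζ p) (n d Q t s : ℕ) (X Y : ℤ) (w g1 g2 : 𝓞 K)
    (I : Ideal (𝓞 K)) (S1 S2 T U : Finset (ZMod p)ˣ), p ≠ 2 → n ≠ 0 → w ≠ 0 →
    Ideal.span {w} = I ^ n → (X : 𝓞 K) + hζ.toInteger * (Y : 𝓞 K) = (hζ.toInteger - 1) ^ d * w →
    (∀ u, u ∈ S1 ↔ u ∈ T ∨ u ∈ U) → (∀ u, u ∈ S2 ↔ -u ∈ T ∨ u ∈ U) →
    (∀ u ∈ T, u ∉ U ∧ -u ∉ U ∧ -u ∉ T) → 2 * S1.card = p - 1 →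
    Ideal.span {g1} = ∏ u ∈ S1, I.map (tau p K u⁻¹) →
    Ideal.span {g2} = ∏ u ∈ S2, I.map (tau p K u⁻¹) →
    g1 * tau p K (-1) g1 = (Ideal.absNorm I : 𝓞 K) →
    g2 * tau p K (-1) g2 = (Ideal.absNorm I : 𝓞 K) → IsCoprime w (Q : 𝓞 K) →
    (Q : 𝓞 K) ∣ (-hζ.toInteger) ^ t * g2 - (-hζ.toInteger) ^ s * g1 →
    (-hζ.toInteger) ^ t * g2 ≠ (-hζ.toInteger) ^ s * g1 →
    (Q : ℤ) ^ n ≤ 2 ^ n * (|X| + |Y|) ^ T.card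

/-- Package C3: non-vanishing. -/
def S_C3 : Prop :=
  ∀ (ζ : K) (hζ : IsPrimitiveRoot ζ p) (d k : ℕ) (X Y : ℤ) (w : 𝓞 K) (T : Finset (ZMod p)ˣ),
    p ≠ 2 → IsCoprime X Y →
    (X : 𝓞 K) + hζ.toInteger * (Y : 𝓞 K) = (hζ.toInteger - 1) ^ d * w →
    IsCoprime w (hζ.toInteger - 1) → ¬ IsUnit w → T.Nonempty → (∀ u ∈ T, -u ∉ T) →
    TP T ((X : 𝓞 K) + hζ.toInteger * (Y : 𝓞 K)) ≠
      (-hζ.toInteger) ^ k * cc K (TP T ((X : 𝓞 K) + hζ.toInteger * (Y : 𝓞 K)))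

/-- Package N5: coefficient of `ζ ^ 2`. -/
def S_N5 (p : ℕ) [Fact p.Prime] (K : Type*) [Field K] [NumberField K]
    [IsCyclotomicExtension {p} ℚ K] : Prop :=
  ∀ (ζ : K) (hζ : IsPrimitiveRoot ζ p) (q : ℕ) (e : (ZMod p)ˣ → 𝓞 K), p ≠ 2 → q.Prime → q ≠ 2 →
    q ≠ p → (∀ u, e u * (hζ.toInteger ^ (u : ZMod p).val - 1) = (p : 𝓞 K)) →
    (q : 𝓞 K) ∣ ∑ u ∈ H p, (1 + hζ.toInteger ^ ((u⁻¹ : (ZMod p)ˣ) : ZMod p).val) * e u⁻¹ →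
    q ∣ (p - 1) / 2

end Pool.Agent.U792.SW
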