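import Mathlib
import Pool.Agent.U792.SW.Stm4

/-!
`X ^ p + Y ^ p = c z ^ n`: the ideal `(w)` is an `n`-th power; the relation for `X + ζ Y` itself and
its consequences.
-/

set_option autoImplicit false

namespace Pool.Agent.U792.SW

open NumberField NumberField.IsCMField Polynomial Finset Pool.Agent.U792.KU

variable {p : ℕ} [hp : Fact p.Prime] {K : Type*} [Field K] [NumberField K]
  [IsCyclotomicExtension {p} ℚ K] {ζ : K} [IsCMField K]

/-- the ideal of the `w` in `X + ζ Y = (ζ - 1) ^ d w` is an `n`-th power -/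
def Pw (hζ : IsPrimitiveRoot ζ p) (n : ℕ) (X Y : ℤ) : Prop :=
  ∀ (d : ℕ) (w : 𝓞 K), (X : 𝓞 K) + hζ.toInteger * (Y : 𝓞 K) = (hζ.toInteger - 1) ^ d * w →
    IsCoprime w (hζ.toInteger - 1) → ∃ I : Ideal (𝓞 K), Ideal.span {w} = I ^ n

omit [IsCMField K] in
theorem cop_nat {w : 𝓞 K} (m : ℕ) (hm : m ≠ 0)
    (h : ∀ l : ℕ, l.Prime → l ∣ m → IsCoprime w (l : 𝓞 K)) : IsCoprime w (m : 𝓞 K) := by
  induction m using Nat.recOnMul with
  | zero => exact absurd rfl hm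
  | one => simpa using isCoprime_one_right
  | prime q hq => exact h q hq dvd_rfl
  | mul a b iha ihb =>
    push_cast
    refine IsCoprime.mul_right (iha (fun h0 => hm (by rw [h0, zero_mul])) ?_)
      (ihb (fun h0 => hm (by rw [h0, mul_zero])) ?_)
    · exact fun l hl hla => h l hl (hla.mul_right b)
    · exact fun l hl hlb => h l hl (hlb.mul_left a)

/-- coefficients `c` without prime factors `≡ 1` modulo `p` -/
theorem pw_of_eq (hζ : IsPrimitiveRoot ζ p) {n : ℕ} (hp2 : p ≠ 2) {X Y z c : ℤ}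
    (hXY : IsCoprime X Y) (hs : X + Y ≠ 0)
    (hc : ∀ l : ℕ, l.Prime → (l : ℤ) ∣ c → ¬ l ≡ 1 [MOD p])
    (h : X ^ p + Y ^ p = c * z ^ n) : Pw hζ n X Y := by
  intro d w hw hwπ
  classical
  have hodd := hp.out.odd_of_ne_two hp2
  have hc0 : c ≠ 0 := by
    rintro rfl
    rw [zero_mul] at h
    apply hs
    have h1 : X ^ p = (-Y) ^ p := by
      rw [hodd.neg_pow]
      linear_combination h
    have h2 : X = -Y := hodd.strictMono_pow.injective h1
    rw [h2, neg_add_cancel]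
  -- `w` is prime to `c`
  obtain ⟨F, hF⟩ : X + Y ∣ X ^ p + Y ^ p := hodd.add_dvd_pow_add_pow X Y
  have hwc : IsCoprime w (c : 𝓞 K) := by
    have h1 : IsCoprime w ((c.natAbs : ℕ) : 𝓞 K) := by
      refine cop_nat _ (Int.natAbs_ne_zero.2 hc0) fun l hl hlc => ?_
      have hlc' : (l : ℤ) ∣ c := Int.natCast_dvd.2 hlc
      by_cases hlp : l = p
      · rw [hlp]
        exact cop_w_p hζ hwπ
      · have h2 : ¬ (l : ℤ) ∣ F := fun h0 => hc l hl hlc'
          (prime_dvd_phi hp.out hp2 hXY hs hF.symm hl hlp h0)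
        have h3 : IsCoprime F (l : ℤ) := by
          rw [Int.isCoprime_iff_gcd_eq_one]
          have h3 : Nat.Coprime F.natAbs l := by
            rw [Nat.coprime_comm]
            refine (Nat.Prime.coprime_iff_not_dvd hl).2 fun h0 => h2 ?_
            exact Int.natCast_dvd.2 h0
          exact h3
        have h4 : IsCoprime (F : 𝓞 K) (l : 𝓞 K) := by
          have := h3.map (Int.castRingHom (𝓞 K))
          simpa using this
        have h5 := IsCoprime.of_isCoprime_of_dvd_left h4 (dvd_F hζ hp2 hs hF.symm)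
        rw [hw] at h5
        exact h5.of_mul_left_right
    rcases Int.natAbs_eq c with h2 | h2
    · rw [h2, Int.cast_natCast]
      exact h1
    · rw [h2, Int.cast_neg, Int.cast_natCast]
      exact h1.neg_right
  have hprim := hζ.toInteger_isPrimitiveRoot
  have hζmem : hζ.toInteger ∈ nthRootsFinset p (1 : 𝓞 K) :=
    (mem_nthRootsFinset hp.out.pos (1 : 𝓞 K)).2 hprim.pow_eq_one
  have hprod := hprim.pow_add_pow_eq_prod_add_mul (X : 𝓞 K) (Y : 𝓞 K)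
    (hp.out.odd_of_ne_two hp2)
  rw [← mul_prod_erase _ _ hζmem, hw] at hprod
  set R : 𝓞 K := (hζ.toInteger - 1) ^ d * ∏ η ∈ (nthRootsFinset p (1 : 𝓞 K)).erase hζ.toInteger,
    ((X : 𝓞 K) + η * Y) with hR
  have hwR : w * R = (c : 𝓞 K) * (z : 𝓞 K) ^ n := by
    have h1 : ((X ^ p + Y ^ p : ℤ) : 𝓞 K) = ((c * z ^ n : ℤ) : 𝓞 K) := by rw [h]
    push_cast at h1
    rw [← h1, hprod, hR]
    ring
  have hcop : IsCoprime w R := by
    rw [hR]
    refine IsCoprime.mul_right (IsCoprime.pow_right hwπ) (IsCoprime.prod_right ?_)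
    intro η hη
    obtain ⟨hne, hη'⟩ := mem_erase.1 hη
    have hass := hprim.nthRootsFinset_pairwise_associated_sub_one_sub_of_prime hp.out
      hζmem hη' hne.symm
    have h1 : IsCoprime w (hζ.toInteger - η) := by
      obtain ⟨u, hu⟩ := hass
      rw [← hu]
      exact (isCoprime_mul_unit_right_right u.isUnit _ _).2 hwπ
    obtain ⟨a, b, hab⟩ := hXY
    have hab' : (a : 𝓞 K) * X + b * Y = 1 := by exact_mod_cast congrArg (Int.cast : ℤ → 𝓞 K) hab
    have h2 : hζ.toInteger - η = ((X : 𝓞 K) + η * Y) * (a * hζ.toInteger - b) +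
        w * ((hζ.toInteger - 1) ^ d * (b - a * η)) := by
      have h3 : w * ((hζ.toInteger - 1) ^ d * (b - a * η)) =
          ((X : 𝓞 K) + hζ.toInteger * Y) * (b - a * η) := by
        rw [hw]
        ring
      rw [h3]
      linear_combination (η - hζ.toInteger) * hab'
    rw [h2, IsCoprime.add_mul_left_right_iff] at h1
    exact h1.of_mul_right_left
  obtain ⟨R', hR'⟩ : (c : 𝓞 K) ∣ R := by
    refine hwc.symm.dvd_of_dvd_mul_left ?_
    rw [hwR]
    exact dvd_mul_right _ _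
  have hwR' : w * R' = (z : 𝓞 K) ^ n := by
    have hc0' : (c : 𝓞 K) ≠ 0 := Int.cast_ne_zero.2 hc0
    apply mul_left_cancel₀ hc0'
    rw [← hwR, hR']
    ring
  have hcop' : IsCoprime w R' := by
    rw [hR'] at hcop
    exact hcop.of_mul_right_right
  have hI : Ideal.span {w} * Ideal.span {R'} = Ideal.span {(z : 𝓞 K)} ^ n := by
    rw [Ideal.span_singleton_mul_span_singleton, hwR', Ideal.span_singleton_pow]
  exact exists_eq_pow_of_mul_eq_pow_of_coprime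
    ((Ideal.isCoprime_span_singleton_iff w R').2 hcop') hI

/-- the relation for `X + ζ Y` -/
def WRel (hζ : IsPrimitiveRoot ζ p) (n : ℕ) (X Y : ℤ) : Prop :=
  ∃ a b : 𝓞 K, a ≠ 0 ∧
    ((X : 𝓞 K) + hζ.toInteger * Y) * a ^ n = ((X : 𝓞 K) + cc K hζ.toInteger * Y) * b ^ n ∧
    ∀ Q : ℕ, IsCoprime ((X : 𝓞 K) + hζ.toInteger * Y) (Q : 𝓞 K) →
        IsCoprime a (Q : 𝓞 K) ∧ IsCoprime b (Q : 𝓞 K)

/-- `n = q` prime: `q ∣ D` implies `q ^ 2 ∣ D` -/
theorem wrel_q (hζ : IsPrimitiveRoot ζ p) (hp2 : p ≠ 2) {q : ℕ} (hq : q.Prime) (hq2 : q ≠ 2)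
    (hqp : q ≠ p) {X Y D : ℤ} (hXY : IsCoprime X Y) (hrel : WRel hζ q X Y) (hD : IsD X Y D)
    (hD0 : D ≠ 0) (hqD : (q : ℤ) ∣ D) : (q : ℤ) ^ 2 ∣ D := by
  have hpq : ¬ p ∣ q := fun h0 => hqp ((Nat.prime_dvd_prime_iff_eq hp.out hq).1 h0).symm
  have hnp : Nat.Coprime q (2 * p) := by
    refine Nat.Coprime.mul_right ?_ ?_
    · exact (Nat.coprime_primes hq Nat.prime_two).2 hq2
    · exact (Nat.coprime_primes hq hp.out).2 hqp
  obtain ⟨a, b, ha0, hr, hcop⟩ := hrel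
  obtain ⟨k, c, hk, hc0, hcQ⟩ := four hζ hp2 hD
  have hA := cop_D (K := K) hζ hp2 hXY hD hqD fun _ => hpq
  have hB : IsCoprime ((X : 𝓞 K) + cc K hζ.toInteger * Y) (q : 𝓞 K) := by
    have := hA.map (cc K)
    simpa using this
  obtain ⟨h2, -⟩ := coreq hζ hq hq2 hqp hnp hr ha0 (k := k) (m := 0)
    (by rw [hk, zero_add, pow_one]; exact (dvd_cast hqD).mul_right _)
    (by
      intro h0
      rw [← sub_eq_zero, hk] at h0
      rcases mul_eq_zero.1 h0 with h1 | h1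
      · exact hD0 (Int.cast_eq_zero.1 h1)
      · exact hc0 h1) hB (hcop q hA).1 (hcop q hA).2
  rw [hk] at h2
  exact dvd_int ((IsCoprime.pow_right (hcQ q hpq)).symm.dvd_of_dvd_mul_right
      (by simpa using h2))

/-- the existence of `D` -/
theorem wrel_exists (hG1 : S_G1 p K) (hG2 : S_G2 p K)
    (hζ : IsPrimitiveRoot ζ p) {q : ℕ} (hq : q.Prime) (hq2 : q ≠ 2) (hqp : q < p)
    {X Y : ℤ} (hXY : IsCoprime X Y) (hs : X + Y ≠ 0) (hrel : WRel hζ q X Y) :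
    ∃ D : ℤ, IsD X Y D ∧ (q : ℤ) ∣ D := by
  have hp2 : p ≠ 2 := by
    have := hq.two_le
    omega
  obtain ⟨a, b, ha0, hrel, hcop⟩ := hrel
  have hA := cop_small (K := K) hζ hp2 hXY hs hq hqp
  have hqu : IsUnit (q : ZMod p) := by
    rw [ZMod.isUnit_iff_coprime]
    exact (Nat.coprime_primes hq hp.out).2 hqp.ne
  obtain ⟨u, hu⟩ := hqu
  have h1 := hG1 ζ hζ q _ _ a b u hq hqp.ne hu (hcop q hA).2 hrel
  have huv : (u : ZMod p).val = q := by
    rw [hu, ZMod.val_natCast, Nat.mod_eq_of_lt hqp]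
  have h2 : tau p K u ((X : 𝓞 K) + hζ.toInteger * Y) = (X : 𝓞 K) + hζ.toInteger ^ q * Y := by
    rw [map_add, map_mul, map_intCast, map_intCast, tau_zeta, huv]
  have h3 : tau p K u ((X : 𝓞 K) + cc K hζ.toInteger * Y) =
      (X : 𝓞 K) + hζ.toInteger ^ ((p - 1) * q) * Y := by
    rw [map_add, map_mul, map_intCast, map_intCast, cc_zeta, map_pow, tau_zeta, huv, ← pow_mul,
      mul_comm q]
  rw [h2, h3, cc_zeta] at h1
  have h4 := hG2 ζ hζ q X Y hq hq2 hqp h1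
  have hqP : Prime (q : ℤ) := Nat.prime_iff_prime_int.1 hq
  rcases hqP.dvd_or_dvd h4 with h5 | h5
  · rcases hqP.dvd_or_dvd h5 with h6 | h6
    · rcases hqP.dvd_or_dvd h6 with h7 | h7
      · exact ⟨X, Or.inl rfl, h7⟩
      · exact ⟨Y, Or.inr (Or.inl rfl), h7⟩
    · exact ⟨X - Y, Or.inr (Or.inr (Or.inl rfl)), h6⟩
  · exact ⟨X + Y, Or.inr (Or.inr (Or.inr rfl)), h5⟩

/-- the relation under `MinusFree` -/
theorem rel_alphaC (hM1 : S_M1 K) (hM2 : S_M2 p K) (hM3 : S_M3 p K)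
    (hζ : IsPrimitiveRoot ζ p) (hp2 : p ≠ 2) {n : ℕ} (hn0 : n ≠ 0)
    (hnp : Nat.Coprime n (2 * p)) (hmf : MinusFree K n) {X Y : ℤ} (hXY : IsCoprime X Y)
    (h : Pw hζ n X Y) : Rel hζ n X Y (|X| + |Y|) ∧ WRel hζ n X Y := by
  obtain ⟨d, w, hd1, hw, hwπ⟩ := exists_w' hζ hp2 hXY
  obtain ⟨I, hI⟩ := h d w hw hwπ
  have hw0 : w ≠ 0 := by
    rintro rfl
    rw [isCoprime_zero_left] at hwπ
    exact hζ.zeta_sub_one_prime'.not_isUnit hwπ
  obtain ⟨γ, hγ⟩ := hM1 n w I hn0 hw0 hI hmf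
  obtain ⟨s, hs⟩ := hM2 ζ hζ n d X Y w γ I hp2 hnp hn0 hw0 hI hw hγ
  have hodd : Odd n := by
    rw [← Nat.coprime_two_right]
    exact Nat.Coprime.coprime_dvd_right (Dvd.intro _ rfl) hnp
  have hcw0 : cc K w ≠ 0 := (map_ne_zero_iff _ cc_inj).2 hw0
  -- `γ ^ n` is a unit times `w (cc w) ^ (n - 1)`
  have hγn : Ideal.span {γ ^ n} = Ideal.span {w * (cc K w) ^ (n - 1)} := by
    rw [← Ideal.span_singleton_pow, hγ, mul_pow, ← hI, ← pow_mul, mul_comm (n - 1) n, pow_mul,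
      ← Ideal.map_pow, ← hI, Ideal.map_span, Set.image_singleton, Ideal.span_singleton_pow,
      Ideal.span_singleton_mul_span_singleton]
  obtain ⟨ε, hε⟩ := Ideal.span_singleton_eq_span_singleton.1 hγn
  have hγ0 : γ ≠ 0 := by
    rintro rfl
    rw [zero_pow hn0, zero_mul] at hε
    exact mul_ne_zero hw0 (pow_ne_zero _ hcw0) hε.symm
  have hcγ0 : cc K γ ≠ 0 := (map_ne_zero_iff _ cc_inj).2 hγ0
  have hcop : ∀ Q : ℕ, IsCoprime w (Q : 𝓞 K) → IsCoprime (cc K w) (Q : 𝓞 K) ∧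
      IsCoprime γ (Q : 𝓞 K) ∧ IsCoprime (cc K γ) (Q : 𝓞 K) := by
    intro Q h1
    have h2 : IsCoprime (cc K w) (Q : 𝓞 K) := by
      have := h1.map (cc K)
      simpa using this
    have h3 : IsCoprime γ (Q : 𝓞 K) := by
      have h4 : IsCoprime (γ ^ n * ε) (Q : 𝓞 K) := by
        rw [hε]
        exact IsCoprime.mul_left h1 h2.pow_left
      exact (IsCoprime.pow_left_iff (Nat.pos_of_ne_zero hn0)).1 h4.of_mul_left_left
    have h4 : IsCoprime (cc K γ) (Q : 𝓞 K) := by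
      have := h3.map (cc K)
      simpa using this
    exact ⟨h2, h3, h4⟩
  have hBeq : (X : 𝓞 K) + cc K hζ.toInteger * Y = (cc K hζ.toInteger - 1) ^ d * cc K w := by
    have := congrArg (cc K) hw
    simpa using this
  obtain ⟨C, hC⟩ : (cc K hζ.toInteger - 1) ^ d ∣ (p : 𝓞 K) := by
    have h1 := (cc K).map_dvd (dvd_p hζ (d := d) (by have := hp.out.two_le; omega))
    simpa using h1
  have hab : ∀ Q : ℕ, IsCoprime w (Q : 𝓞 K) →
      IsCoprime ((cc K γ * cc K w) ^ ((n + 1) / 2) * w) (Q : 𝓞 K) ∧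
      IsCoprime ((-hζ.toInteger) ^ s * ((γ * w) ^ ((n + 1) / 2) * cc K w)) (Q : 𝓞 K) ∧
      IsCoprime (cc K w) (Q : 𝓞 K) := by
    intro Q h1
    obtain ⟨h2, h3, h4⟩ := hcop Q h1
    refine ⟨IsCoprime.mul_left (IsCoprime.pow_left (IsCoprime.mul_left h4 h2)) h1, ?_, h2⟩
    exact (isCoprime_mul_unit_left_left (isUnit_neg_zeta hζ s) _ _).2
      (IsCoprime.mul_left (IsCoprime.pow_left (IsCoprime.mul_left h3 h1)) h2)
  have hWw : ∀ Q : ℕ, IsCoprime ((X : 𝓞 K) + hζ.toInteger * Y) (Q : 𝓞 K) →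
      IsCoprime w (Q : 𝓞 K) := by
    intro Q hQ
    rw [hw] at hQ
    exact hQ.of_mul_left_right
  have ha0 : (cc K γ * cc K w) ^ ((n + 1) / 2) * w ≠ 0 :=
    mul_ne_zero (pow_ne_zero _ (mul_ne_zero hcγ0 hcw0)) hw0
  refine ⟨⟨(X : 𝓞 K) + hζ.toInteger * Y, (X : 𝓞 K) + cc K hζ.toInteger * Y,
    (cc K γ * cc K w) ^ ((n + 1) / 2) * w,
    (-hζ.toInteger) ^ s * ((γ * w) ^ ((n + 1) / 2) * cc K w), w, C, cc K w,
    ha0, hs, ?_, hwπ, ?_, hab, ?_, ?_⟩, _, _, ha0, hs, fun Q hQ =>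
      ⟨(hab Q (hWw Q hQ)).1, (hab Q (hWw Q hQ)).2.1⟩⟩
  · intro D hD hD0
    obtain ⟨k, c, hk, hc0, -⟩ := four hζ hp2 hD
    refine ⟨k, by rw [hk]; exact dvd_mul_right _ _, ?_⟩
    intro h0
    rw [← sub_eq_zero, hk] at h0
    rcases mul_eq_zero.1 h0 with h1 | h1
    · exact hD0 (Int.cast_eq_zero.1 h1)
    · exact hc0 h1
  · intro Q hQ
    refine ⟨hWw Q hQ, ?_⟩
    have := hQ.map (cc K)
    simpa using this
  · rw [hBeq, hC]
    ring
  · intro Q t hQ h1 h2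
    exact hM3 ζ hζ n d Q t s X Y w γ I hp2 hodd hw0 hI hw hγ hQ h1 h2

end Pool.Agent.U792.SW
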