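import Mathlib
import Pool.Agent.U792.SW.GenA

/-!
Differences of two Stickelberger elements.
-/

set_option autoImplicit false

namespace Pool.Agent.U792.SW

open NumberField NumberField.IsCMField Polynomial Finset Pool.Agent.U792.KU

variable {p : ℕ} [hp : Fact p.Prime] {K : Type*} [Field K] [NumberField K]
  [IsCyclotomicExtension {p} ℚ K] {ζ : K} [IsCMField K]

omit [IsCMField K] in
theorem TP_mul (T : Finset (ZMod p)ˣ) (x y : 𝓞 K) : TP T (x * y) = TP T x * TP T y := by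
  simp only [TP, map_mul, prod_mul_distrib]

omit [IsCMField K] in
theorem TP_pow (T : Finset (ZMod p)ˣ) (x : 𝓞 K) (n : ℕ) : TP T (x ^ n) = TP T x ^ n := by
  simp only [TP, map_pow, prod_pow]

omit [IsCMField K] in
theorem TP_ne_zero (T : Finset (ZMod p)ˣ) {x : 𝓞 K} (hx : x ≠ 0) : TP T x ≠ 0 := by
  unfold TP
  rw [prod_ne_zero_iff]
  intro u _
  exact (map_ne_zero_iff _ (tau_injective p u⁻¹)).2 hx

omit [IsCMField K] in
theorem span_TP (T : Finset (ZMod p)ˣ) (x : 𝓞 K) :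
    Ideal.span {TP T x} = ∏ u ∈ T, (Ideal.span {x}).map (tau p K u⁻¹) := by
  simp only [TP, Ideal.map_span, Set.image_singleton, Ideal.prod_span_singleton]

omit [IsCMField K] in
theorem TP_lin (hζ : IsPrimitiveRoot ζ p) (T : Finset (ZMod p)ˣ) (X Y : ℤ) :
    TP T ((X : 𝓞 K) + hζ.toInteger * (Y : 𝓞 K)) =
      ∏ u ∈ T, ((X : 𝓞 K) + hζ.toInteger ^ jj u * (Y : 𝓞 K)) :=
  prod_congr rfl fun u _ => tau_lin hζ u X Y

theorem cc_TP_lin (hζ : IsPrimitiveRoot ζ p) (T : Finset (ZMod p)ˣ) (X Y : ℤ) :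
    cc K (TP T ((X : 𝓞 K) + hζ.toInteger * (Y : 𝓞 K))) =
      TP T ((X : 𝓞 K) + cc K hζ.toInteger * (Y : 𝓞 K)) := by
  rw [TP_lin, map_prod]
  refine prod_congr rfl fun u _ => ?_
  rw [tau_lin', map_add, map_mul, map_intCast, map_intCast, map_pow]

omit [IsCMField K] in
theorem TP_root (hζ : IsPrimitiveRoot ζ p) (hp2 : p ≠ 2) (T : Finset (ZMod p)ˣ) (k : ℕ) :
    ∃ r : ℕ, TP T ((-hζ.toInteger) ^ k) = (-hζ.toInteger) ^ r := by
  refine ⟨∑ u ∈ T, (p + (p + 1) * jj u) * k, ?_⟩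
  rw [← prod_pow_eq_pow_sum]
  refine prod_congr rfl fun u _ => ?_
  rw [map_pow, map_neg, tau_zeta, neg_zeta_pow hζ hp2, ← pow_mul]

theorem TP_dvd (hζ : IsPrimitiveRoot ζ p) (hp2 : p ≠ 2) (T : Finset (ZMod p)ˣ) {X Y D : ℤ}
    (hD : IsD X Y D) :
    ∃ k : ℕ, (D : 𝓞 K) ∣ TP T ((X : 𝓞 K) + hζ.toInteger * (Y : 𝓞 K)) -
      (-hζ.toInteger) ^ k * cc K (TP T ((X : 𝓞 K) + hζ.toInteger * (Y : 𝓞 K))) := by
  obtain ⟨k, c, hk, -, -⟩ := four hζ hp2 hD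
  obtain ⟨r, hr⟩ := TP_root hζ hp2 T k
  refine ⟨r, ?_⟩
  rw [← hr, cc_TP_lin, ← TP_mul]
  refine prod_dvd_sub _ _ _ _ fun u _ => ?_
  rw [← map_sub, hk, map_mul, map_intCast]
  exact dvd_mul_right _ _

theorem TP_pi (hζ : IsPrimitiveRoot ζ p) (T : Finset (ZMod p)ˣ) (hT : T.card ≤ p - 1) :
    TP T (hζ.toInteger - 1) ∣ (p : 𝓞 K) := by
  have h1 : Associated (∏ u ∈ T, (hζ.toInteger - 1)) (TP T (hζ.toInteger - 1)) := by
    refine Associated.prod _ _ _ fun u _ => ?_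
    rw [map_sub, map_one, tau_zeta]
    refine hζ.toInteger_isPrimitiveRoot.associated_sub_one_pow_sub_one_of_coprime ?_
    have h2 : ((u⁻¹ : (ZMod p)ˣ) : ZMod p).val ≠ 0 := by
      intro h0
      exact (u⁻¹ : (ZMod p)ˣ).ne_zero ((ZMod.val_eq_zero _).1 h0)
    rw [Nat.coprime_comm]
    refine (Nat.Prime.coprime_iff_not_dvd hp.out).2 fun h3 => ?_
    have h4 := Nat.le_of_dvd (Nat.pos_of_ne_zero h2) h3
    have h5 : ((u⁻¹ : (ZMod p)ˣ) : ZMod p).val < p := ZMod.val_lt _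
    omega
  rw [prod_const] at h1
  exact h1.symm.dvd.trans (dvd_p hζ hT)

/-- the set `T` for the difference of the Stickelberger elements for `1` and `a` -/
noncomputable def Ta (p : ℕ) [Fact p.Prime] (a : ℕ) : Finset (ZMod p)ˣ := by
  classical
  exact (Sa p 1).filter (fun u => u ∉ Sa p a)

theorem mem_Ta {a : ℕ} {u : (ZMod p)ˣ} : u ∈ Ta p a ↔ u ∈ Sa p 1 ∧ u ∉ Sa p a := by
  classical
  simp [Ta]

/-- the relation for the difference of the Stickelberger elements for `1` and `a` -/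
theorem rel_T (hA3 : S_A3 p K) (hA4 : S_A4 p K) (hA5 : S_A5 p) (hB1 : S_B1 p K)
    (hB3 : S_B3 p K) (hC1 : S_C1 p K) (hC2 : S_C2 p K) (hC3 : S_C3 p K) (hN1 : S_N1 p K)
    (hζ : IsPrimitiveRoot ζ p) (hp5 : 5 ≤ p) {n : ℕ} (hn0 : n ≠ 0)
    (hnp : Nat.Coprime n (2 * p)) {X Y : ℤ} (hX : X ≠ 0) (hY : Y ≠ 0) (hd : X ≠ Y)
    (hs : X ≠ -Y) (hXY : IsCoprime X Y) (h : Pw hζ n X Y) {a : ℕ} (ha : (a : ZMod p) ≠ 0)
    (ha1 : (a : ZMod p) + 1 ≠ 0) (hT : (Ta p a).Nonempty) :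
    Rel hζ n X Y ((|X| + |Y|) ^ (Ta p a).card) ∧
      ((Ta p a).card = 1 → WRel hζ n X Y) := by
  classical
  have hp2 : p ≠ 2 := by omega
  obtain ⟨d, w, hd1, hw, hwπ⟩ := exists_w' hζ hp2 hXY
  obtain ⟨I, hI⟩ := h d w hw hwπ
  have hw0 : w ≠ 0 := by
    rintro rfl
    rw [isCoprime_zero_left] at hwπ
    exact hζ.zeta_sub_one_prime'.not_isUnit hwπ
  have hI0 : I ≠ ⊥ := by
    rintro rfl
    rw [← Ideal.zero_eq_bot, zero_pow hn0, Ideal.zero_eq_bot, Ideal.span_singleton_eq_bot] at hI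
    exact hw0 hI
  have hwu : ¬ IsUnit w := hN1 ζ hζ d X Y w hp5 hd1 hX hY hd hs hw
  have hgood : ∀ P : Ideal (𝓞 K), P.IsPrime → P ≠ ⊥ → I ≤ P → Good hζ P := by
    intro P hP hP0 hIP
    have hwP : w ∈ P := by
      have h1 : w ∈ I ^ n := by
        rw [← hI]
        exact Ideal.mem_span_singleton_self w
      exact hIP (Ideal.pow_le_self hn0 h1)
    have h1 : (X : 𝓞 K) + hζ.toInteger * Y ∈ P := by
      rw [hw]
      exact P.mul_mem_left _ hwP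
    refine ⟨hP, hB1 ζ hζ P X Y hP hP0 hXY h1, ?_⟩
    intro h2
    obtain ⟨a, b, hab⟩ := hwπ
    apply hP.ne_top
    rw [Ideal.eq_top_iff_one, ← hab]
    exact P.add_mem (P.mul_mem_left _ hwP) (P.mul_mem_left _ h2)
  -- the two generators
  have gen : ∀ a : ℕ, (a : ZMod p) ≠ 0 → (a : ZMod p) + 1 ≠ 0 → ∃ g : 𝓞 K, g ≠ 0 ∧
      Ideal.span {g} = ∏ u ∈ Sa p a, I.map (tau p K u⁻¹) ∧
      g * tau p K (-1) g = (Ideal.absNorm I : 𝓞 K) := by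
    intro a ha ha1
    refine hB3 ζ hζ (Sa p a) (fun P hP => ?_) I hI0 hgood
    obtain ⟨J, hJ1, hJ2⟩ := hA3 ζ hζ a P hp2 ha ha1 hP.1 hP.2.1 hP.2.2
    exact ⟨J, hA4 ζ hζ (Sa p a) P J hp2 (hA5 a hp2 ha ha1).1 hP.1 hP.2.1 hP.2.2 hJ1 hJ2, hJ2⟩
  have h11 : ((1 : ℕ) : ZMod p) ≠ 0 := by
    rw [Nat.cast_one]
    exact one_ne_zero
  have h12 : ((1 : ℕ) : ZMod p) + 1 ≠ 0 := by
    intro h0
    have h1 : ((2 : ℕ) : ZMod p) = 0 := by
      push_cast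
      push_cast at h0
      rw [← h0]
      norm_num
    rw [ZMod.natCast_eq_zero_iff] at h1
    have := Nat.le_of_dvd (by norm_num) h1
    omega
  obtain ⟨g1, hg10, hg1, hg1n⟩ := gen 1 h11 h12
  obtain ⟨g2, hg20, hg2, hg2n⟩ := gen a ha ha1
  set T := Ta p a with hTdef
  set U : Finset (ZMod p)ˣ := (Sa p 1).filter (fun u => u ∈ Sa p a) with hU
  have n1 := (hA5 1 hp2 h11 h12).2
  have n2 := (hA5 a hp2 ha ha1).2
  have mT : ∀ u, u ∈ T ↔ u ∈ Sa p 1 ∧ u ∉ Sa p a := fun u => mem_Ta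
  have mU : ∀ u, u ∈ U ↔ u ∈ Sa p 1 ∧ u ∈ Sa p a := fun u => mem_filter
  have c1 : ∀ u, u ∈ Sa p 1 ↔ u ∈ T ∨ u ∈ U := by
    intro u
    rw [mT, mU]
    constructor
    · intro h1
      by_cases h2 : u ∈ Sa p a
      · exact Or.inr ⟨h1, h2⟩
      · exact Or.inl ⟨h1, h2⟩
    · rintro (h1 | h1) <;> exact h1.1
  have c2 : ∀ u, u ∈ Sa p a ↔ -u ∈ T ∨ u ∈ U := by
    intro u
    rw [mT, mU]
    constructor
    · intro h1
      by_cases h2 : u ∈ Sa p 1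
      · exact Or.inr ⟨h2, h1⟩
      · refine Or.inl ⟨?_, (n2 u).1 h1⟩
        by_contra h3
        exact h2 ((n1 u).2 h3)
    · rintro (h1 | h1)
      · exact (n2 u).2 h1.2
      · exact h1.2
  have c3 : ∀ u ∈ T, u ∉ U ∧ -u ∉ U ∧ -u ∉ T := by
    intro u hu
    obtain ⟨h1, h2⟩ := (mT u).1 hu
    have h3 := (n1 u).1 h1
    exact ⟨fun h4 => h2 ((mU u).1 h4).2, fun h4 => h3 ((mU _).1 h4).1,
      fun h4 => h3 ((mT _).1 h4).1⟩
  obtain ⟨s, hs'⟩ := hC1 ζ hζ n d X Y w g1 g2 I (Sa p 1) (Sa p a) T U hp2 hnp hn0 hw0 hI hw c1 c2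
    c3 hg10 hg20 hg1 hg2 hg1n hg2n
  have hcop1 : ∀ (S : Finset (ZMod p)ˣ) (x : 𝓞 K) (Q : ℕ), IsCoprime x (Q : 𝓞 K) →
      IsCoprime (TP S x) (Q : 𝓞 K) := by
    intro S x Q hQ
    refine IsCoprime.prod_left fun u _ => ?_
    have := hQ.map (tau p K u⁻¹)
    simpa using this
  have hcop2 : ∀ (x : 𝓞 K) (Q : ℕ), IsCoprime x (Q : 𝓞 K) → IsCoprime (cc K x) (Q : 𝓞 K) := by
    intro x Q hQ
    have := hQ.map (cc K)
    simpa using this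
  have hg : ∀ (S : Finset (ZMod p)ˣ) (g : 𝓞 K), Ideal.span {g} = ∏ u ∈ S, I.map (tau p K u⁻¹) →
      ∀ Q : ℕ, IsCoprime w (Q : 𝓞 K) → IsCoprime g (Q : 𝓞 K) := by
    intro S g hgS Q hQ
    have h1 : Ideal.span {g ^ n} = Ideal.span {TP S w} := by
      rw [span_TP, hI, ← Ideal.span_singleton_pow, hgS, ← prod_pow]
      refine prod_congr rfl fun u _ => ?_
      rw [Ideal.map_pow]
    obtain ⟨ε, hε⟩ := Ideal.span_singleton_eq_span_singleton.1 h1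
    have h2 : IsCoprime (g ^ n * ε) (Q : 𝓞 K) := by
      rw [hε]
      exact hcop1 S w Q hQ
    exact (IsCoprime.pow_left_iff (Nat.pos_of_ne_zero hn0)).1 h2.of_mul_left_left
  have hTcard : T.card ≤ p - 1 := by
    have h1 : T.card ≤ (Sa p 1).card := by
      refine card_le_card fun u hu => ?_
      rw [hTdef, mem_Ta] at hu
      exact hu.1
    have h2 := (hA5 1 hp2 h11 h12).1
    omega
  have hTw : TP T ((X : 𝓞 K) + hζ.toInteger * (Y : 𝓞 K)) =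
      TP T (hζ.toInteger - 1) ^ d * TP T w := by
    rw [hw, TP_mul, TP_pow]
  obtain ⟨C, hC⟩ : cc K (TP T (hζ.toInteger - 1) ^ d) ∣ (p : 𝓞 K) := by
    have h1 : TP T (hζ.toInteger - 1) ^ d ∣ (p : 𝓞 K) :=
      (pow_dvd_pow _ hd1).trans (by rw [pow_one]; exact TP_pi hζ T hTcard)
    have h2 := (cc K).map_dvd h1
    simpa using h2
  have hWw : ∀ Q : ℕ, IsCoprime ((X : 𝓞 K) + hζ.toInteger * Y) (Q : 𝓞 K) →
      IsCoprime w (Q : 𝓞 K) := by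
    intro Q hQ
    rw [hw] at hQ
    exact hQ.of_mul_left_right
  have hb : ∀ Q : ℕ, IsCoprime w (Q : 𝓞 K) →
      IsCoprime ((-hζ.toInteger) ^ s * g1) (Q : 𝓞 K) := fun Q hQ =>
    (isCoprime_mul_unit_left_left (isUnit_neg_zeta hζ s) _ _).2 (hg _ g1 hg1 Q hQ)
  refine ⟨⟨TP T ((X : 𝓞 K) + hζ.toInteger * (Y : 𝓞 K)),
    cc K (TP T ((X : 𝓞 K) + hζ.toInteger * (Y : 𝓞 K))), g2, (-hζ.toInteger) ^ s * g1, w, C,
    cc K (TP T w), hg20, hs', ?_, hwπ, ?_, ?_, ?_, ?_⟩, ?_⟩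
  · intro D hD _
    obtain ⟨k, hk⟩ := TP_dvd hζ hp2 T hD
    exact ⟨k, hk, hC3 ζ hζ d k X Y w T hp2 hXY hw hwπ hwu hT fun u hu => (c3 u hu).2.2⟩
  · intro Q hQ
    exact ⟨hWw Q hQ, hcop2 _ Q (hcop1 T _ Q hQ)⟩
  · intro Q hQ
    exact ⟨hg _ g2 hg2 Q hQ, hb Q hQ, hcop2 _ Q (hcop1 T w Q hQ)⟩
  · rw [hTw, map_mul, hC]
    ring
  · intro Q t hwQ hQ hne
    exact hC2 ζ hζ n d Q t s X Y w g1 g2 I (Sa p 1) (Sa p a) T U hp2 hn0 hw0 hI hw c1 c2 c3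
      (hA5 1 hp2 h11 h12).1 hg1 hg2 hg1n hg2n hwQ hQ hne
  · intro hcard
    obtain ⟨v, hv⟩ := card_eq_one.1 hcard
    have e1 : TP T ((X : 𝓞 K) + hζ.toInteger * (Y : 𝓞 K)) =
        tau p K v⁻¹ ((X : 𝓞 K) + hζ.toInteger * (Y : 𝓞 K)) := by
      unfold TP
      rw [hv, prod_singleton]
    have e2 : cc K (TP T ((X : 𝓞 K) + hζ.toInteger * (Y : 𝓞 K))) =
        tau p K v⁻¹ ((X : 𝓞 K) + cc K hζ.toInteger * (Y : 𝓞 K)) := by
      rw [cc_TP_lin]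
      unfold TP
      rw [hv, prod_singleton]
    have h1 := congrArg (tau p K v) hs'
    rw [e2, e1, map_mul, map_mul, tau_tau_inv, tau_tau_inv, map_pow, map_pow] at h1
    refine ⟨_, _, (map_ne_zero_iff _ (tau_injective p v)).2 hg20, h1, fun Q hQ => ⟨?_, ?_⟩⟩
    · have := (hg _ g2 hg2 Q (hWw Q hQ)).map (tau p K v)
      simpa using this
    · have := (hb Q (hWw Q hQ)).map (tau p K v)
      simpa using this

end Pool.Agent.U792.SW
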