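import Mathlib
import Pool.Agent.U792.SW.GenB

/-!
`X ^ p + Y ^ p = c z ^ q`: the statements of Wieferich type without class number condition.
-/

set_option autoImplicit false

namespace Pool.Agent.U792.SW

open NumberField NumberField.IsCMField Polynomial Finset Pool.Agent.U792.KU

variable {p : ℕ} [hp : Fact p.Prime] {K : Type*} [Field K] [NumberField K]
  [IsCyclotomicExtension {p} ℚ K] {ζ : K} [IsCMField K]

/-- as `factorTT` -/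
theorem factorTTC (hA1 : S_A1 p K) (hA2 : S_A2 p K) (hB1 : S_B1 p K) (hB2 : S_B2 p K)
    (hζ : IsPrimitiveRoot ζ p) {n : ℕ} (hp2 : p ≠ 2) (hn0 : n ≠ 0) {X Y : ℤ}
    (hXY : IsCoprime X Y) (h : Pw hζ n X Y) {d : ℕ} {w : 𝓞 K}
    (hw : (X : 𝓞 K) + hζ.toInteger * Y = (hζ.toInteger - 1) ^ d * w)
    (hwπ : IsCoprime w (hζ.toInteger - 1)) :
    ∃ (ε : (𝓞 K)ˣ) (γ : 𝓞 K), γ ≠ 0 ∧
      TT p ((X : 𝓞 K) + hζ.toInteger * (Y : 𝓞 K)) =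
        TT p (hζ.toInteger - 1) ^ d * (ε : 𝓞 K) * γ ^ n := by
  obtain ⟨I, hI⟩ := h d w hw hwπ
  have hw0 : w ≠ 0 := by
    rintro rfl
    rw [isCoprime_zero_left] at hwπ
    exact hζ.zeta_sub_one_prime'.not_isUnit hwπ
  have hI0 : I ≠ ⊥ := by
    rintro rfl
    rw [← Ideal.zero_eq_bot, zero_pow hn0, Ideal.zero_eq_bot, Ideal.span_singleton_eq_bot] at hI
    exact hw0 hI
  have hgood : ∀ P : Ideal (𝓞 K), P.IsPrime → P ≠ ⊥ → I ≤ P → Good hζ P := by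
    intro P hP hP0 hIP
    have hwP : w ∈ P := by
      have h1 : w ∈ I ^ n := by
        rw [← hI]
        exact Ideal.mem_span_singleton_self w
      exact hIP (Ideal.pow_le_self hn0 h1)
    have h1 : (X : 𝓞 K) + hζ.toInteger * Y ∈ P := by
      rw [hw]
      exact P.mul_mem_left _ hwP
    refine ⟨hP, hB1 ζ hζ P X Y hP hP0 hXY h1, ?_⟩
    intro h2
    obtain ⟨a, b, hab⟩ := hwπ
    apply hP.ne_top
    rw [Ideal.eq_top_iff_one, ← hab]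
    exact P.add_mem (P.mul_mem_left _ hwP) (P.mul_mem_left _ h2)
  obtain ⟨γ, hγ0, hγ⟩ := hB2 ζ hζ (fun P hP => by
    obtain ⟨J, hJ1, hJ2⟩ := hA1 ζ hζ P hp2 hP.1 hP.2.1 hP.2.2
    exact ⟨J, hA2 ζ hζ P J hp2 hP.1 hP.2.1 hP.2.2 hJ1 hJ2⟩) I hI0 hgood
  have hspan : Ideal.span {γ ^ n} = Ideal.span {TT p w} := by
    rw [span_TT, hI, ← Ideal.span_singleton_pow, hγ, ← prod_pow]
    refine prod_congr rfl fun u _ => ?_
    rw [Ideal.map_pow]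
  obtain ⟨ε, hε⟩ := Ideal.span_singleton_eq_span_singleton.1 hspan
  refine ⟨ε, γ, hγ0, ?_⟩
  rw [hw, TT_mul, TT_pow, ← hε]
  ring

/-- the data for `A = TT (X + ζ Y)` -/
theorem beta_dataC (hA1 : S_A1 p K) (hA2 : S_A2 p K) (hB1 : S_B1 p K) (hB2 : S_B2 p K)
    (hN1 : S_N1 p K)
    (hζ : IsPrimitiveRoot ζ p) (hp5 : 5 ≤ p) {n : ℕ} (hn0 : n ≠ 0)
    (hnp : Nat.Coprime n (2 * p)) {X Y : ℤ} (hX : X ≠ 0) (hY : Y ≠ 0) (hd : X ≠ Y)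
    (hs : X ≠ -Y) (hXY : IsCoprime X Y) (h : Pw hζ n X Y) :
    ∃ A a b : 𝓞 K, A = TT p ((X : 𝓞 K) + hζ.toInteger * (Y : 𝓞 K)) ∧ a ≠ 0 ∧
      A * a ^ n = cc K A * b ^ n ∧ (∀ k, A ≠ (-hζ.toInteger) ^ k * cc K A) ∧
      (∀ Q : ℕ, IsCoprime ((X : 𝓞 K) + hζ.toInteger * Y) (Q : 𝓞 K) →
        IsCoprime (cc K A) (Q : 𝓞 K) ∧ IsCoprime a (Q : 𝓞 K) ∧ IsCoprime b (Q : 𝓞 K)) ∧
      ∀ Q t : ℕ, (Q : 𝓞 K) ∣ (-hζ.toInteger) ^ t * a - b → (-hζ.toInteger) ^ t * a ≠ b →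
        (Q : ℤ) ^ n ≤ 2 ^ n * (|X| + |Y|) ^ ((p - 1) / 2) := by
  have hp2 : p ≠ 2 := by omega
  obtain ⟨d, w, hd1, hw, hwπ⟩ := exists_w' hζ hp2 hXY
  obtain ⟨ε, γ, hγ0, hA⟩ := factorTTC hA1 hA2 hB1 hB2 hζ hp2 hn0 hXY h hw hwπ
  obtain ⟨s, hs'⟩ := beta_rel hζ hp2 hnp hA
  have hwu : ¬ IsUnit w := hN1 ζ hζ d X Y w hp5 hd1 hX hY hd hs hw
  have hu0 : TT p (hζ.toInteger - 1) ^ d * (ε : 𝓞 K) ≠ 0 :=
    mul_ne_zero (pow_ne_zero _ (TT_ne_zero hζ.zeta_sub_one_prime'.ne_zero)) ε.ne_zero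
  refine ⟨_, cc K γ, (-hζ.toInteger) ^ s * γ, rfl, (map_ne_zero_iff _ cc_inj).2 hγ0, hs',
    TT_ne hζ hp2 hXY hw hwπ hwu, ?_, ?_⟩
  · intro Q hQ
    have h1 : IsCoprime (TT p ((X : 𝓞 K) + hζ.toInteger * (Y : 𝓞 K))) (Q : 𝓞 K) := by
      refine IsCoprime.prod_left fun u _ => ?_
      have := hQ.map (tau p K u⁻¹)
      simpa using this
    have h2 : IsCoprime γ (Q : 𝓞 K) := by
      rw [hA] at h1
      exact (IsCoprime.pow_left_iff (Nat.pos_of_ne_zero hn0)).1 h1.of_mul_left_right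
    refine ⟨?_, ?_, ?_⟩
    · have := h1.map (cc K)
      simpa using this
    · have := h2.map (cc K)
      simpa using this
    · exact (isCoprime_mul_unit_left_left (isUnit_neg_zeta hζ s) _ _).2 h2
  · intro Q t hQ hne
    refine final_bound2 (R := (|X| + |Y|) ^ ((p - 1) / 2)) (by positivity) hA hu0
      (Nm_TT_le hζ hp2 hX) ?_ ?_ hne hQ
    · intro σ
      rw [norm_neg_zeta_pow_mul hζ, norm_cc]
    · intro σ
      rw [norm_neg_zeta_pow_mul hζ]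

/-- Wieferich type: `q ∣ X` implies `q ^ 2 ∣ X`, `q ∣ Y` implies `q ^ 2 ∣ Y` -/
theorem beta_wiefC (hA1 : S_A1 p K) (hA2 : S_A2 p K) (hB1 : S_B1 p K) (hB2 : S_B2 p K)
    (hN1 : S_N1 p K) (hN3 : S_N3 p K)
    (hζ : IsPrimitiveRoot ζ p) (hp5 : 5 ≤ p) {q : ℕ} (hq : q.Prime) (hq2 : q ≠ 2) (hqp : q ≠ p)
    {X Y : ℤ} (hX : X ≠ 0) (hY : Y ≠ 0) (hd : X ≠ Y)
    (hs : X ≠ -Y) (hXY : IsCoprime X Y) (h : Pw hζ q X Y) :
    ((q : ℤ) ∣ Y → (q : ℤ) ^ 2 ∣ Y) := by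
  intro hqD
  have hp2 : p ≠ 2 := by omega
  have hpq : ¬ p ∣ q := fun h0 => hqp ((Nat.prime_dvd_prime_iff_eq hp.out hq).1 h0).symm
  have hnp : Nat.Coprime q (2 * p) := by
    refine Nat.Coprime.mul_right ?_ ?_
    · exact (Nat.coprime_primes hq Nat.prime_two).2 hq2
    · exact (Nat.coprime_primes hq hp.out).2 hqp
  obtain ⟨A, a, b, hA, ha0, hrel, hne, hcop, hbd⟩ :=
    beta_dataC hA1 hA2 hB1 hB2 hN1 hζ hp5 hq.ne_zero hnp hX hY hd hs hXY h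
  have hYD : IsD X Y Y := Or.inr (Or.inl rfl)
  have hW := cop_D (K := K) hζ hp2 hXY hYD hqD fun _ => hpq
  obtain ⟨h1, h2, h3⟩ := hcop q hW
  have hB : cc K A = ∏ u ∈ H p, ((X : 𝓞 K) + hζ.toInteger ^ (p - jj u) * (Y : 𝓞 K)) := by
    rw [hA, cc_TT_lin]
    refine prod_congr rfl fun u _ => ?_
    rw [tau_lin', cc_pow]
  have hA' : A = ∏ u ∈ H p, ((X : 𝓞 K) + hζ.toInteger ^ jj u * (Y : 𝓞 K)) := by
    rw [hA, TT_lin]
  have hdvd : (q : 𝓞 K) ^ (0 + 1) ∣ A - (-hζ.toInteger) ^ 0 * cc K A := by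
    rw [pow_zero, one_mul, zero_add, pow_one, hA', ← hA', hB, hA']
    refine prod_dvd_sub _ _ _ _ fun u _ => ?_
    have e : (X : 𝓞 K) + hζ.toInteger ^ jj u * (Y : 𝓞 K) -
        ((X : 𝓞 K) + hζ.toInteger ^ (p - jj u) * (Y : 𝓞 K)) =
        (Y : 𝓞 K) * (hζ.toInteger ^ jj u - hζ.toInteger ^ (p - jj u)) := by ring
    rw [e]
    exact (dvd_cast hqD).mul_right _
  obtain ⟨h4, -⟩ := coreq hζ hq hq2 hqp hnp hrel ha0 hdvd (hne 0) h1 h2 h3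
  rw [pow_zero, one_mul, hB] at h4
  have hXq : IsCoprime (X : 𝓞 K) (q : 𝓞 K) := by
    have := (IsCoprime.of_isCoprime_of_dvd_right hXY hqD).map (Int.castRingHom (𝓞 K))
    simpa using this
  refine wief_F hN3 hζ hp2 hq hqD hXq ?_
  rw [← dvd_neg, neg_sub, ← hA']
  exact h4

theorem beta_wief_subC (hA1 : S_A1 p K) (hA2 : S_A2 p K) (hB1 : S_B1 p K) (hB2 : S_B2 p K)
    (hN1 : S_N1 p K) (hN4 : S_N4 p K)
    (hζ : IsPrimitiveRoot ζ p) (hp5 : 5 ≤ p) {q : ℕ} (hq : q.Prime) (hq2 : q ≠ 2) (hqp : q ≠ p)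
    {X Y : ℤ} (hX : X ≠ 0) (hY : Y ≠ 0) (hd : X ≠ Y)
    (hs : X ≠ -Y) (hXY : IsCoprime X Y) (h : Pw hζ q X Y) (hqp1 : ¬ q ∣ (p - 1) / 2)
    (hqD : (q : ℤ) ∣ X - Y) : (q : ℤ) ^ 2 ∣ X - Y := by
  have hp2 : p ≠ 2 := by omega
  have hpq : ¬ p ∣ q := fun h0 => hqp ((Nat.prime_dvd_prime_iff_eq hp.out hq).1 h0).symm
  have hnp : Nat.Coprime q (2 * p) := by
    refine Nat.Coprime.mul_right ?_ ?_
    · exact (Nat.coprime_primes hq Nat.prime_two).2 hq2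
    · exact (Nat.coprime_primes hq hp.out).2 hqp
  obtain ⟨A, a, b, hA, ha0, hrel, hne, hcop, hbd⟩ :=
    beta_dataC hA1 hA2 hB1 hB2 hN1 hζ hp5 hq.ne_zero hnp hX hY hd hs hXY h
  have hYD : IsD X Y (X - Y) := Or.inr (Or.inr (Or.inl rfl))
  have hW := cop_D (K := K) hζ hp2 hXY hYD hqD fun _ => hpq
  obtain ⟨h1, h2, h3⟩ := hcop q hW
  have hB : cc K A = ∏ u ∈ H p, ((X : 𝓞 K) + hζ.toInteger ^ (p - jj u) * (Y : 𝓞 K)) := by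
    rw [hA, cc_TT_lin]
    refine prod_congr rfl fun u _ => ?_
    rw [tau_lin', cc_pow]
  have hA' : A = ∏ u ∈ H p, ((X : 𝓞 K) + hζ.toInteger ^ jj u * (Y : 𝓞 K)) := by
    rw [hA, TT_lin]
  set k : ℕ := ∑ u ∈ H p, (p + 1) * jj u with hk
  have hκ : (-hζ.toInteger) ^ k * cc K A =
      ∏ u ∈ H p, (hζ.toInteger ^ jj u * (X : 𝓞 K) + (Y : 𝓞 K)) := by
    rw [hB, hk, ← prod_pow_eq_pow_sum, ← prod_mul_distrib]
    refine prod_congr rfl fun u _ => ?_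
    rw [pow_mul, zeta_eq hζ hp2, mul_add, ← mul_assoc, ← pow_add,
      Nat.add_sub_cancel' (jj_le u), hζ.toInteger_isPrimitiveRoot.pow_eq_one, one_mul]
  have hdvd : (q : 𝓞 K) ^ (0 + 1) ∣ A - (-hζ.toInteger) ^ k * cc K A := by
    rw [zero_add, pow_one, hκ, hA']
    refine prod_dvd_sub _ _ _ _ fun u _ => ?_
    have e : (X : 𝓞 K) + hζ.toInteger ^ jj u * (Y : 𝓞 K) -
        (hζ.toInteger ^ jj u * (X : 𝓞 K) + (Y : 𝓞 K)) =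
        ((X - Y : ℤ) : 𝓞 K) * (1 - hζ.toInteger ^ jj u) := by push_cast; ring
    rw [e]
    exact (dvd_cast hqD).mul_right _
  obtain ⟨h4, -⟩ := coreq hζ hq hq2 hqp hnp hrel ha0 hdvd (hne k) h1 h2 h3
  obtain ⟨e, he⟩ := exists_e (K := K) hζ hp2
  have hδ : ¬ (q : 𝓞 K) ∣ ∑ u ∈ H p, (1 - hζ.toInteger ^ jj u) * e u⁻¹ := fun h0 =>
    hqp1 (hN4 ζ hζ q e hp2 hq.two_le he h0)
  have hYq : IsCoprime (Y : 𝓞 K) (q : 𝓞 K) := by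
    have h5 : IsCoprime Y (X - Y) := by
      have := (IsCoprime.add_mul_left_right_iff (x := Y) (y := X) (z := -1)).2 hXY.symm
      rwa [mul_neg_one, ← sub_eq_add_neg] at this
    have := (IsCoprime.of_isCoprime_of_dvd_right h5 hqD).map (Int.castRingHom (𝓞 K))
    simpa using this
  refine wief_core (e := (H p).card) hq hqD hYq hδ ?_
  -- `A = E * ∏ (Y + e D)`
  set D : 𝓞 K := ((X - Y : ℤ) : 𝓞 K) with hDdef
  have hXe : (X : 𝓞 K) = Y + D := by rw [hDdef]; push_cast; ring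
  set E : 𝓞 K := ∏ u ∈ H p, e u⁻¹ with hE
  have e1 : E * A = ∏ u ∈ H p, ((Y : 𝓞 K) + e u⁻¹ * D) := by
    rw [hA', hE, ← prod_mul_distrib]
    refine prod_congr rfl fun u _ => ?_
    rw [hXe]
    linear_combination (Y : 𝓞 K) * he u⁻¹
  have e2 : E * ((-hζ.toInteger) ^ k * cc K A) =
      ∏ u ∈ H p, ((Y : 𝓞 K) + (hζ.toInteger ^ jj u * e u⁻¹) * D) := by
    rw [hκ, hE, ← prod_mul_distrib]
    refine prod_congr rfl fun u _ => ?_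
    rw [hXe]
    linear_combination (Y : 𝓞 K) * he u⁻¹
  have h5 := prod_expand (H p) (fun u => e u⁻¹) D (Y : 𝓞 K)
  have h6 := prod_expand (H p) (fun u => hζ.toInteger ^ jj u * e u⁻¹) D (Y : 𝓞 K)
  have h7 : (q : 𝓞 K) ^ 2 ∣ D ^ 2 := pow_dvd_pow_of_dvd (dvd_cast hqD) 2
  rw [← e1] at h5
  rw [← e2] at h6
  have h8 := dvd_sub (h7.trans h6) (h7.trans h5)
  have h9 := dvd_add (h4.mul_left ((Y : 𝓞 K) * E)) h8
  refine h9.trans (dvd_of_eq ?_)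
  simp only [sub_mul, one_mul]
  rw [sum_sub_distrib]
  ring


theorem exists_e' (hζ : IsPrimitiveRoot ζ p) :
    ∃ e : (ZMod p)ˣ → 𝓞 K, ∀ u, e u * (hζ.toInteger ^ (u : ZMod p).val - 1) = (p : 𝓞 K) := by
  have h1 : ∀ u : (ZMod p)ˣ, (hζ.toInteger ^ (u : ZMod p).val - 1) ∣ (p : 𝓞 K) := by
    intro u
    have h2 := map_dvd (tau p K u) hζ.toInteger_sub_one_dvd_prime'
    rwa [map_sub, map_one, tau_zeta, map_natCast] at h2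
  choose v hv using h1
  exact ⟨v, fun u => by rw [mul_comm]; exact (hv u).symm⟩

theorem beta_wief_addC (hA1 : S_A1 p K) (hA2 : S_A2 p K) (hB1 : S_B1 p K) (hB2 : S_B2 p K)
    (hN1 : S_N1 p K) (hN5 : S_N5 p K)
    (hζ : IsPrimitiveRoot ζ p) (hp5 : 5 ≤ p) {q : ℕ} (hq : q.Prime) (hq2 : q ≠ 2) (hqp : q ≠ p)
    {X Y : ℤ} (hX : X ≠ 0) (hY : Y ≠ 0) (hd : X ≠ Y)
    (hs : X ≠ -Y) (hXY : IsCoprime X Y) (h : Pw hζ q X Y) (hqp1 : ¬ q ∣ (p - 1) / 2)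
    (hqD : (q : ℤ) ∣ X + Y) : (q : ℤ) ^ 2 ∣ X + Y := by
  have hp2 : p ≠ 2 := by omega
  have hpq : ¬ p ∣ q := fun h0 => hqp ((Nat.prime_dvd_prime_iff_eq hp.out hq).1 h0).symm
  have hnp : Nat.Coprime q (2 * p) := by
    refine Nat.Coprime.mul_right ?_ ?_
    · exact (Nat.coprime_primes hq Nat.prime_two).2 hq2
    · exact (Nat.coprime_primes hq hp.out).2 hqp
  obtain ⟨A, a, b, hA, ha0, hrel, hne, hcop, hbd⟩ :=
    beta_dataC hA1 hA2 hB1 hB2 hN1 hζ hp5 hq.ne_zero hnp hX hY hd hs hXY h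
  have hYD : IsD X Y (X + Y) := Or.inr (Or.inr (Or.inr rfl))
  have hW := cop_D (K := K) hζ hp2 hXY hYD hqD fun _ => hpq
  obtain ⟨h1, h2, h3⟩ := hcop q hW
  have hB : cc K A = ∏ u ∈ H p, ((X : 𝓞 K) + hζ.toInteger ^ (p - jj u) * (Y : 𝓞 K)) := by
    rw [hA, cc_TT_lin]
    refine prod_congr rfl fun u _ => ?_
    rw [tau_lin', cc_pow]
  have hA' : A = ∏ u ∈ H p, ((X : 𝓞 K) + hζ.toInteger ^ jj u * (Y : 𝓞 K)) := by
    rw [hA, TT_lin]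
  set k : ℕ := ∑ u ∈ H p, (p + (p + 1) * jj u) with hk
  have hκ : (-hζ.toInteger) ^ k * cc K A =
      ∏ u ∈ H p, (-(hζ.toInteger ^ jj u * (X : 𝓞 K) + (Y : 𝓞 K))) := by
    rw [hB, hk, ← prod_pow_eq_pow_sum, ← prod_mul_distrib]
    refine prod_congr rfl fun u _ => ?_
    rw [← neg_zeta_pow hζ hp2, mul_add, ← mul_assoc, neg_mul, neg_mul, neg_mul, ← pow_add,
      Nat.add_sub_cancel' (jj_le u), hζ.toInteger_isPrimitiveRoot.pow_eq_one]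
    ring
  have hdvd : (q : 𝓞 K) ^ (0 + 1) ∣ A - (-hζ.toInteger) ^ k * cc K A := by
    rw [zero_add, pow_one, hκ, hA']
    refine prod_dvd_sub _ _ _ _ fun u _ => ?_
    have e : (X : 𝓞 K) + hζ.toInteger ^ jj u * (Y : 𝓞 K) -
        (-(hζ.toInteger ^ jj u * (X : 𝓞 K) + (Y : 𝓞 K))) =
        ((X + Y : ℤ) : 𝓞 K) * (1 + hζ.toInteger ^ jj u) := by push_cast; ring
    rw [e]
    exact (dvd_cast hqD).mul_right _
  obtain ⟨h4, -⟩ := coreq hζ hq hq2 hqp hnp hrel ha0 hdvd (hne k) h1 h2 h3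
  obtain ⟨e, he⟩ := exists_e' (K := K) hζ
  have hδ : ¬ (q : 𝓞 K) ∣ ∑ u ∈ H p, (1 + hζ.toInteger ^ jj u) * e u⁻¹ := fun h0 =>
    hqp1 (hN5 ζ hζ q e hp2 hq hq2 hqp he h0)
  have hYq : IsCoprime (((p : ℤ) * Y : ℤ) : 𝓞 K) (q : 𝓞 K) := by
    have h5 : IsCoprime Y (X + Y) := by
      have := (IsCoprime.add_mul_left_right_iff (x := Y) (y := X) (z := 1)).2 hXY.symm
      rwa [mul_one] at this
    have h6 : IsCoprime Y (q : ℤ) := IsCoprime.of_isCoprime_of_dvd_right h5 hqD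
    have h7 : IsCoprime (p : ℤ) (q : ℤ) :=
      Nat.isCoprime_iff_coprime.2 ((Nat.Prime.coprime_iff_not_dvd hp.out).2 hpq)
    have := (IsCoprime.mul_left h7 h6).map (Int.castRingHom (𝓞 K))
    simpa using this
  refine wief_core (e := (H p).card) hq hqD hYq hδ ?_
  set D : 𝓞 K := ((X + Y : ℤ) : 𝓞 K) with hDdef
  have hXe : (X : 𝓞 K) = -Y + D := by rw [hDdef]; push_cast; ring
  set E : 𝓞 K := ∏ u ∈ H p, e u⁻¹ with hE
  have hpY : (((p : ℤ) * Y : ℤ) : 𝓞 K) = (p : 𝓞 K) * Y := by push_cast; ring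
  have e1 : E * A = ∏ u ∈ H p, ((((p : ℤ) * Y : ℤ) : 𝓞 K) + e u⁻¹ * D) := by
    rw [hA', hE, ← prod_mul_distrib]
    refine prod_congr rfl fun u _ => ?_
    rw [hXe, hpY]
    linear_combination (Y : 𝓞 K) * he u⁻¹
  have e2 : E * ((-hζ.toInteger) ^ k * cc K A) =
      ∏ u ∈ H p, ((((p : ℤ) * Y : ℤ) : 𝓞 K) + (-(hζ.toInteger ^ jj u) * e u⁻¹) * D) := by
    rw [hκ, hE, ← prod_mul_distrib]
    refine prod_congr rfl fun u _ => ?_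
    rw [hXe, hpY]
    linear_combination (Y : 𝓞 K) * he u⁻¹
  have h5 := prod_expand (H p) (fun u => e u⁻¹) D (((p : ℤ) * Y : ℤ) : 𝓞 K)
  have h6 := prod_expand (H p) (fun u => -(hζ.toInteger ^ jj u) * e u⁻¹) D
    (((p : ℤ) * Y : ℤ) : 𝓞 K)
  have h7 : (q : 𝓞 K) ^ 2 ∣ D ^ 2 := pow_dvd_pow_of_dvd (dvd_cast hqD) 2
  rw [← e1] at h5
  rw [← e2] at h6
  have h8 := dvd_sub (h7.trans h6) (h7.trans h5)
  have h9 := dvd_add (h4.mul_left ((((p : ℤ) * Y : ℤ) : 𝓞 K) * E)) h8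
  refine h9.trans (dvd_of_eq ?_)
  have e3 : ∑ u ∈ H p, (1 + hζ.toInteger ^ jj u) * e u⁻¹ =
      ∑ u ∈ H p, e u⁻¹ - ∑ u ∈ H p, -(hζ.toInteger ^ jj u) * e u⁻¹ := by
    rw [← sum_sub_distrib]
    refine sum_congr rfl fun u _ => ?_
    ring
  rw [e3]
  ring

end Pool.Agent.U792.SW
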