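import Mathlib
import Pool.Agent.U792.SW.GenC

/-!
The sizes of the sets `Ta`.
-/

set_option autoImplicit false

namespace Pool.Agent.U792.SW

open NumberField NumberField.IsCMField Polynomial Finset Pool.Agent.U792.KU

variable {p : ℕ} [hp : Fact p.Prime]

theorem val_mul (a : ℕ) (u : (ZMod p)ˣ) :
    ((a : ZMod p) * (u : ZMod p)).val = (a * (u : ZMod p).val) % p := by
  rw [ZMod.val_mul, ZMod.val_natCast]
  exact (Nat.mod_modEq a p).mul_right _

theorem unit_val_pos (u : (ZMod p)ˣ) : 0 < (u : ZMod p).val := by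
  refine Nat.pos_of_ne_zero fun h0 => ?_
  exact u.ne_zero ((ZMod.val_eq_zero _).1 h0)

theorem mod_of_lt2 {m : ℕ} (h1 : p ≤ m) (h2 : m < 2 * p) : m % p = m - p := by
  rw [Nat.mod_eq_sub_mod h1, Nat.mod_eq_of_lt (by omega)]

theorem mem_Ta_val {a : ℕ} {u : (ZMod p)ˣ} : u ∈ Ta p a ↔
    2 * (u : ZMod p).val < p ∧ p ≤ (u : ZMod p).val + (a * (u : ZMod p).val) % p := by
  rw [mem_Ta, mem_Sa, mem_Sa, val_mul, val_mul, one_mul,
    Nat.mod_eq_of_lt (ZMod.val_lt (u : ZMod p)), not_lt, ← two_mul]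

theorem exists_unit {v : ℕ} (h1 : 0 < v) (h2 : v < p) : ∃ u : (ZMod p)ˣ, (u : ZMod p).val = v := by
  have h3 : Nat.Coprime v p := by
    rw [Nat.coprime_comm]
    refine (Nat.Prime.coprime_iff_not_dvd hp.out).2 fun h3 => ?_
    have := Nat.le_of_dvd h1 h3
    omega
  refine ⟨ZMod.unitOfCoprime v h3, ?_⟩
  rw [ZMod.coe_unitOfCoprime, ZMod.val_natCast, Nat.mod_eq_of_lt h2]

theorem Ta3_card (hodd : Odd p) : (Ta p 3).card ≤ p / 3 - p / 4 := by
  have h1 : (Ta p 3).card ≤ (Finset.Ioc (p / 4) (p / 3)).card := by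
    refine Finset.card_le_card_of_injOn (fun u => (u : ZMod p).val) ?_ ?_
    · intro u hu
      obtain ⟨h2, h3⟩ := mem_Ta_val.1 (Finset.mem_coe.1 hu)
      have h4 := unit_val_pos u
      obtain ⟨m, hm⟩ := hodd
      simp only [Finset.coe_Ioc, Set.mem_Ioc]
      rcases Nat.lt_or_ge (3 * (u : ZMod p).val) p with h5 | h5
      · rw [Nat.mod_eq_of_lt h5] at h3
        omega
      · rw [mod_of_lt2 h5 (by omega)] at h3
        omega
    · intro u _ v _ huv
      exact Units.ext (ZMod.val_injective p huv)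
  rwa [Nat.card_Ioc] at h1

theorem Ta2_card (hp5 : 5 ≤ p) : (Ta p 2).card ≤ p / 2 - p / 3 := by
  have h1 : (Ta p 2).card ≤ (Finset.Ioc (p / 3) (p / 2)).card := by
    refine Finset.card_le_card_of_injOn (fun u => (u : ZMod p).val) ?_ ?_
    · intro u hu
      obtain ⟨h2, h3⟩ := mem_Ta_val.1 (Finset.mem_coe.1 hu)
      have h4 := unit_val_pos u
      simp only [Finset.coe_Ioc, Set.mem_Ioc]
      rw [Nat.mod_eq_of_lt h2] at h3
      by_cases h5 : 3 ∣ p
      · have h6 : 3 = p := (Nat.prime_dvd_prime_iff_eq Nat.prime_three hp.out).1 h5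
        omega
      · omega
    · intro u _ v _ huv
      exact Units.ext (ZMod.val_injective p huv)
  rwa [Nat.card_Ioc] at h1

theorem Ta3_nonempty (hp7 : 7 ≤ p) : (Ta p 3).Nonempty := by
  have hodd : Odd p := hp.out.odd_of_ne_two (by omega)
  have h9 : p ≠ 9 := by
    intro h0
    have := hp.out
    rw [h0] at this
    norm_num at this
  obtain ⟨m, hm⟩ := hodd
  obtain ⟨u, hu⟩ := exists_unit (p := p) (v := p / 4 + 1) (by omega) (by omega)
  refine ⟨u, mem_Ta_val.2 ?_⟩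
  rw [hu]
  have h3 : 3 * (p / 4 + 1) < p := by omega
  rw [Nat.mod_eq_of_lt h3]
  omega

theorem Ta2_nonempty (hp5 : 5 ≤ p) : (Ta p 2).Nonempty := by
  have hodd : Odd p := hp.out.odd_of_ne_two (by omega)
  obtain ⟨m, hm⟩ := hodd
  obtain ⟨u, hu⟩ := exists_unit (p := p) (v := p / 2) (by omega) (by omega)
  refine ⟨u, mem_Ta_val.2 ?_⟩
  rw [hu]
  have h3 : 2 * (p / 2) < p := by omega
  rw [Nat.mod_eq_of_lt h3]
  omega

theorem cast_ne {a : ℕ} (h1 : 0 < a) (h2 : a < p) : (a : ZMod p) ≠ 0 := by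
  rw [Ne, ZMod.natCast_eq_zero_iff]
  intro h3
  have := Nat.le_of_dvd h1 h3
  omega

end Pool.Agent.U792.SW
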