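import Mathlib
import Pool.Agent.U792.SW.Stm4
import Pool.Agent.U792.SW.PkgA1

/-!
# Project SW, package A3 (helper346): the Jacobi sum `J (chi, chi ^ a)` of a prime of degree one
-/

set_option autoImplicit false

namespace Pool.Agent.U792.SW

open NumberField Finset

namespace A3Aux

theorem sum_zero {F : Type*} [Field F] [Fintype F] (n k : ℕ) (h : n + k < Fintype.card F - 1) :
    ∑ x : F, x ^ n * (1 - x) ^ k = 0 := by
  have h1 : ∀ x : F, x ^ n * (1 - x) ^ k =
      ∑ m ∈ range (k + 1), ((-1) ^ m * (k.choose m : F)) * x ^ (n + m) := by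
    intro x
    rw [show (1 : F) - x = -x + 1 by ring, add_pow, Finset.mul_sum]
    refine Finset.sum_congr rfl fun m _ => ?_
    rw [one_pow, neg_pow, pow_add]
    ring
  rw [Finset.sum_congr rfl fun x _ => h1 x, Finset.sum_comm]
  refine Finset.sum_eq_zero fun m hm => ?_
  rw [← Finset.mul_sum, FiniteField.sum_pow_lt_card_sub_one, mul_zero]
  have := Finset.mem_range.mp hm
  omega

end A3Aux

theorem t_A3 (p : ℕ) [hp : Fact p.Prime] (K : Type*) [Field K] [NumberField K]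
    [IsCyclotomicExtension {p} ℚ K] : S_A3 p K := by
  classical
  intro ζ hζ a P hp2 ha1 ha2 hP hl hζP
  haveI := hP
  haveI : NeZero p := ⟨hp.out.ne_zero⟩
  haveI : Finite (𝓞 K ⧸ P) := Nat.finite_of_card_ne_zero hl.ne_zero
  have hmax : P.IsMaximal := Ideal.Quotient.maximal_of_isField P (Finite.isField_of_domain _)
  letI : Field (𝓞 K ⧸ P) := Ideal.Quotient.field P
  letI : Fintype (𝓞 K ⧸ P) := Fintype.ofFinite _
  set φ : 𝓞 K →+* 𝓞 K ⧸ P := Ideal.Quotient.mk P with hφ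
  set z : 𝓞 K := hζ.toInteger with hzdef
  have hz : z ^ p = 1 := hζ.toInteger_isPrimitiveRoot.pow_eq_one
  have hφz1 : φ z ≠ 1 := by
    intro h
    apply hζP
    rw [← Ideal.Quotient.eq, map_one]
    exact h
  have hφzp : (φ z) ^ p = 1 := by rw [← map_pow, hz, map_one]
  have hord : orderOf (φ z) = p := orderOf_eq_prime hφzp hφz1
  have hprim : IsPrimitiveRoot (φ z) p := by
    rw [IsPrimitiveRoot.iff_orderOf]; exact hord
  have hcardF : Nat.card (𝓞 K ⧸ P) = Fintype.card (𝓞 K ⧸ P) := Nat.card_eq_fintype_card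
  have hdvd : p ∣ Fintype.card (𝓞 K ⧸ P) - 1 := by
    rw [← hord]
    apply orderOf_dvd_of_pow_eq_one
    apply FiniteField.pow_card_sub_one_eq_one
    intro h0
    rw [h0, zero_pow hp.out.ne_zero] at hφzp
    exact zero_ne_one hφzp
  obtain ⟨al, hal⟩ := hdvd
  have hl2 : 2 ≤ Fintype.card (𝓞 K ⧸ P) := by rw [← hcardF]; exact hl.two_le
  have hal0 : 0 < al := by
    rcases Nat.eq_zero_or_pos al with h | h
    · rw [h, mul_zero] at hal; omega
    · exact h
  have ha0 : a ≠ 0 := by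
    rintro rfl
    exact ha1 (by simp)
  have hpa : ¬ p ∣ a := by
    intro h
    exact ha1 ((ZMod.natCast_eq_zero_iff a p).2 h)
  have hpa1 : ¬ p ∣ a + 1 := by
    intro h
    apply ha2
    have := (ZMod.natCast_eq_zero_iff (a + 1) p).2 h
    push_cast at this
    exact this
  obtain ⟨χ, hχ1, hχ2⟩ := A1Aux.exists_char φ p al hp.out.pos hal0 hal z hz hprim
  set ψ : MulChar (𝓞 K ⧸ P) (𝓞 K) := χ ^ a with hψ
  have hψa : ∀ x, ψ x = (χ x) ^ a := fun x => MulChar.pow_apply' χ ha0 x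
  have hψ2 : ∀ x : 𝓞 K ⧸ P, ψ x = 0 ∨ ∃ m : ℕ, ψ x = z ^ m := by
    intro x
    rw [hψa]
    rcases hχ2 x with h | ⟨m, h⟩
    · left; rw [h, zero_pow ha0]
    · right; exact ⟨m * a, by rw [h, ← pow_mul]⟩
  -- Galois action on the values
  have htau : ∀ (ρ : MulChar (𝓞 K ⧸ P) (𝓞 K)), (∀ x, ρ x = 0 ∨ ∃ m : ℕ, ρ x = z ^ m) →
      ∀ (u : (ZMod p)ˣ) (x : 𝓞 K ⧸ P), tau p K u (ρ x) = (ρ x) ^ (u : ZMod p).val := by
    intro ρ hρ u x
    have hu0 : (u : ZMod p).val ≠ 0 := by
      rw [Ne, ZMod.val_eq_zero]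
      exact u.ne_zero
    rcases hρ x with h | ⟨m, h⟩
    · rw [h, map_zero, zero_pow hu0]
    · rw [h, map_pow, hzdef, tau_zeta, ← pow_mul, ← pow_mul, mul_comm]
  have htauJ : ∀ u : (ZMod p)ˣ, tau p K u (jacobiSum χ ψ) =
      ∑ x, (χ x) ^ (u : ZMod p).val * (ψ (1 - x)) ^ (u : ZMod p).val := by
    intro u
    rw [jacobiSum, map_sum]
    exact Finset.sum_congr rfl fun x _ => by rw [map_mul, htau χ hχ2, htau ψ hψ2]
  refine ⟨jacobiSum χ ψ, ?_, ?_⟩
  · intro u hu
    rw [mem_Sa] at hu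
    have hu0 : (u : ZMod p).val ≠ 0 := by
      rw [Ne, ZMod.val_eq_zero]
      exact u.ne_zero
    have hi0 : ((a : ZMod p) * (u : ZMod p)).val ≠ 0 := by
      rw [Ne, ZMod.val_eq_zero]
      exact mul_ne_zero ha1 u.ne_zero
    have hmod : ∀ y, (ψ y) ^ (u : ZMod p).val = (χ y) ^ ((a : ZMod p) * (u : ZMod p)).val := by
      intro y
      rw [hψa, ← pow_mul]
      rcases hχ2 y with h | ⟨m, h⟩
      · rw [h, zero_pow hi0, zero_pow (Nat.mul_ne_zero ha0 hu0)]
      · have key : z ^ (a * (u : ZMod p).val) = z ^ ((a : ZMod p) * (u : ZMod p)).val := by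
          rw [pow_eq_pow_mod (a * (u : ZMod p).val) hz, ZMod.val_mul, ZMod.val_natCast,
            Nat.mod_mul_mod]
        rw [h]
        calc (z ^ m) ^ (a * (u : ZMod p).val) = (z ^ (a * (u : ZMod p).val)) ^ m := by
              rw [← pow_mul, ← pow_mul, mul_comm]
          _ = (z ^ ((a : ZMod p) * (u : ZMod p)).val) ^ m := by rw [key]
          _ = (z ^ m) ^ ((a : ZMod p) * (u : ZMod p)).val := by
              rw [← pow_mul, ← pow_mul, mul_comm]
    rw [← Ideal.Quotient.eq_zero_iff_mem, ← hφ, htauJ, map_sum]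
    rw [show (∑ x, φ ((χ x) ^ (u : ZMod p).val * (ψ (1 - x)) ^ (u : ZMod p).val)) =
      ∑ x : 𝓞 K ⧸ P, x ^ (al * (u : ZMod p).val) *
        (1 - x) ^ (al * ((a : ZMod p) * (u : ZMod p)).val) from
      Finset.sum_congr rfl fun x _ => by
        rw [hmod, map_mul, map_pow, map_pow, hχ1, hχ1, ← pow_mul, ← pow_mul]]
    apply A3Aux.sum_zero
    rw [hal, ← mul_add, mul_comm p al]
    exact Nat.mul_lt_mul_of_pos_left hu hal0
  · -- the product
    set ι : 𝓞 K →+* K := algebraMap (𝓞 K) K with hι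
    have hιinj : Function.Injective ι := RingOfIntegers.coe_injective
    set χ' : MulChar (𝓞 K ⧸ P) K := χ.ringHomComp ι with hχ'
    set ψ' : MulChar (𝓞 K ⧸ P) K := ψ.ringHomComp ι with hψ'
    obtain ⟨g, hg⟩ := IsCyclic.exists_generator (α := (𝓞 K ⧸ P)ˣ)
    have hgord : orderOf g = p * al := by
      rw [orderOf_eq_card_of_forall_mem_zpowers hg, Nat.card_eq_fintype_card, Fintype.card_units,
        hal]
    have hne : ∀ j : ℕ, ¬ p ∣ j → ι (χ (g : 𝓞 K ⧸ P)) ^ j ≠ 1 := by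
      intro j hj h
      rw [← map_pow, ← map_one ι] at h
      have h1 := congrArg φ (hιinj h)
      rw [map_pow, hχ1, map_one, ← pow_mul, ← Units.val_pow_eq_pow_val, Units.val_eq_one] at h1
      have h2 := orderOf_dvd_of_pow_eq_one h1
      rw [hgord, mul_comm p al] at h2
      exact hj (Nat.dvd_of_mul_dvd_mul_left hal0 h2)
    have hχ'1 : χ' ≠ 1 := by
      intro h
      have := congrArg (fun c : MulChar (𝓞 K ⧸ P) K => c (g : 𝓞 K ⧸ P)) h
      simp only [hχ', MulChar.ringHomComp_apply, MulChar.one_apply_coe] at this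
      exact hne 1 hp.out.not_dvd_one (by rw [pow_one]; exact this)
    have hψ'1 : ψ' ≠ 1 := by
      intro h
      have := congrArg (fun c : MulChar (𝓞 K ⧸ P) K => c (g : 𝓞 K ⧸ P)) h
      simp only [hψ', MulChar.ringHomComp_apply, MulChar.one_apply_coe, hψa, map_pow] at this
      exact hne a hpa this
    have hχψ : χ' * ψ' ≠ 1 := by
      intro h
      have := congrArg (fun c : MulChar (𝓞 K ⧸ P) K => c (g : 𝓞 K ⧸ P)) h
      simp only [MulChar.mul_apply, hχ', hψ', MulChar.ringHomComp_apply, MulChar.one_apply_coe,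
        hψa, map_pow] at this
      exact hne (a + 1) hpa1 (by rw [pow_succ']; exact this)
    have hinv : ∀ (ρ : MulChar (𝓞 K ⧸ P) (𝓞 K)), (∀ x, ρ x = 0 ∨ ∃ m : ℕ, ρ x = z ^ m) →
        ∀ x, (ρ.ringHomComp ι)⁻¹ x = ι ((ρ x) ^ (p - 1)) := by
      intro ρ hρ x
      by_cases hx : IsUnit x
      · rcases hρ x with h | ⟨m, h⟩
        · exfalso
          have h1 := hx.map ρ
          rw [h] at h1
          exact not_isUnit_zero h1
        · have h1 : ((ρ.ringHomComp ι) x) * ι ((ρ x) ^ (p - 1)) = 1 := by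
            rw [MulChar.ringHomComp_apply, ← map_mul, ← pow_succ',
              Nat.sub_add_cancel hp.out.one_le, h, ← pow_mul, mul_comm, pow_mul, hz, one_pow,
              map_one]
          rw [MulChar.inv_apply_eq_inv', ]
          exact inv_eq_of_mul_eq_one_right h1
      · have hp3 : 2 ≤ p := hp.out.two_le
        rw [MulChar.map_nonunit _ hx, MulChar.map_nonunit _ hx, zero_pow (by omega), map_zero]
    have hJ1 : ι (jacobiSum χ ψ) = jacobiSum χ' ψ' := (jacobiSum_ringHomComp χ ψ ι).symm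
    have hval : ((-1 : (ZMod p)ˣ) : ZMod p).val = p - 1 := by
      rw [Units.val_neg, Units.val_one]
      rw [ZMod.neg_val, if_neg one_ne_zero, ZMod.val_one]
    have hJ2 : ι (tau p K (-1) (jacobiSum χ ψ)) = jacobiSum χ'⁻¹ ψ'⁻¹ := by
      rw [htauJ, hval, map_sum, jacobiSum]
      exact Finset.sum_congr rfl fun x _ => by rw [map_mul, hinv χ hχ2, hinv ψ hψ2]
    apply hιinj
    rw [map_mul, hJ1, hJ2, jacobiSum_mul_jacobiSum_inv _ hχ'1 hψ'1 hχψ, map_natCast, hcardF]
    rw [ringChar.eq_zero]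
    intro h
    have := CharP.ringChar_ne_zero_of_finite (𝓞 K ⧸ P)
    exact this h.symm

end Pool.Agent.U792.SW
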