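import Mathlib
import Pool.Agent.U792.SW.Stm4
import Pool.Agent.U792.SW.PkgA2

/-!
# Project SW, package A4 (helper574): the factorisation for a set `T` of `(p - 1) / 2` classes

The proof of package A2 (helper61), which uses only the cardinality of the set.
-/

set_option autoImplicit false
set_option linter.unusedSectionVars false

namespace Pool.Agent.U792.SW

open NumberField Finset

open PkgA2

theorem t_A4 (p : ℕ) [hp : Fact p.Prime] (K : Type*) [Field K] [NumberField K]
    [IsCyclotomicExtension {p} ℚ K] : S_A4 p K := by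
  classical
  intro ζ hζ T P J hp2 hT hPp hP hz hJ hJJ
  have hcard : ∀ u : (ZMod p)ˣ, Nat.card (𝓞 K ⧸ P.map (tau p K u⁻¹)) = Nat.card (𝓞 K ⧸ P) :=
    fun u => card_map u⁻¹ P
  have habs : ∀ I : Ideal (𝓞 K), Ideal.absNorm I = Nat.card (𝓞 K ⧸ I) := fun I => by
    rw [Ideal.absNorm_apply, Submodule.cardQuot_apply]
  have hne : ∀ u : (ZMod p)ˣ, P.map (tau p K u⁻¹) ≠ ⊥ := by
    intro u h0
    have h1 : Ideal.absNorm (P.map (tau p K u⁻¹)) ≠ 0 := by
      rw [habs, hcard u]
      exact hP.ne_zero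
    apply h1
    rw [h0, Ideal.absNorm_bot]
  have hprime : ∀ u : (ZMod p)ˣ, (P.map (tau p K u⁻¹)).IsPrime := by
    intro u
    rw [map_eq]
    exact Ideal.IsPrime.comap _
  have hdvd : (∏ u ∈ T, P.map (tau p K u⁻¹)) ∣ Ideal.span {J} := by
    refine Finset.prod_dvd_of_isRelPrime ?_ ?_
    · intro u _ v _ huv
      rw [Function.onFun]
      have hne' : P.map (tau p K u⁻¹) ≠ P.map (tau p K v⁻¹) := by
        intro heq
        apply huv
        have h1 := unit_eq hζ hPp hP hz (v * u⁻¹) (fun x hx => by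
          rw [tau_mul, ← mem_mapt v P, ← heq, mem_mapt u P, tau_tau_inv]
          exact hx)
        exact (mul_inv_eq_one.1 h1).symm
      have h1 : IsCoprime (P.map (tau p K u⁻¹)) (P.map (tau p K v⁻¹)) := by
        rw [Ideal.isCoprime_iff_sup_eq]
        exact ((hprime u).isMaximal (hne u)).coprime_of_ne ((hprime v).isMaximal (hne v)) hne'
      exact h1.isRelPrime
    · intro u hu
      rw [Ideal.dvd_iff_le, Ideal.span_singleton_le_iff_mem, mem_mapt]
      exact hJ u hu
  have hn1 : Ideal.absNorm (∏ u ∈ T, P.map (tau p K u⁻¹)) =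
      Nat.card (𝓞 K ⧸ P) ^ T.card := by
    rw [map_prod, Finset.prod_congr rfl (fun u _ => (habs _).trans (hcard u)), Finset.prod_const]
  have hn2 : Ideal.absNorm (Ideal.span {J}) * Ideal.absNorm (Ideal.span {J}) =
      Nat.card (𝓞 K ⧸ P) ^ (p - 1) := by
    have h1 : Ideal.absNorm (Ideal.span {tau p K (-1) J}) = Ideal.absNorm (Ideal.span {J}) := by
      rw [← absNorm_map (-1 : (ZMod p)ˣ) (Ideal.span {J}), Ideal.map_span, Set.image_singleton]
    have h2 : Ideal.absNorm (Ideal.span {(Nat.card (𝓞 K ⧸ P) : 𝓞 K)}) =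
        Nat.card (𝓞 K ⧸ P) ^ (p - 1) := by
      rw [Ideal.absNorm_span_natCast, RingOfIntegers.rank, IsCyclotomicExtension.Rat.finrank p K,
        Nat.totient_prime hp.out]
    rw [← h2, ← hJJ, ← Ideal.span_singleton_mul_span_singleton, map_mul, h1]
  have hn3 : Ideal.absNorm (Ideal.span {J}) = Nat.card (𝓞 K ⧸ P) ^ T.card := by
    rw [← hT, pow_mul', sq] at hn2
    exact Nat.mul_self_inj.1 hn2
  obtain ⟨L, hL⟩ := hdvd
  have h4 : Ideal.absNorm L = 1 := by
    have h5 := congrArg Ideal.absNorm hL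
    rw [map_mul, hn1, hn3] at h5
    have h6 : 0 < Nat.card (𝓞 K ⧸ P) ^ T.card := pow_pos hP.pos _
    exact Nat.eq_of_mul_eq_mul_left h6 (by rw [← h5, mul_one])
  rw [hL, Ideal.absNorm_eq_one_iff.1 h4, Ideal.mul_top]

end Pool.Agent.U792.SW
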