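import Mathlib
import Pool.Agent.U792.SW.Stm4

/-!
Project SW, package A5: the cardinality of `Sa`.
-/

set_option autoImplicit false

namespace Pool.Agent.U792.SW

open Finset

theorem a5_mem {p : ℕ} [Fact p.Prime] {a : ℕ} (ha : (a : ZMod p) ≠ 0)
    (ha1 : (a : ZMod p) + 1 ≠ 0) (u : (ZMod p)ˣ) : u ∈ Sa p a ↔ -u ∉ Sa p a := by
  rw [mem_Sa, mem_Sa]
  have hu : (u : ZMod p) ≠ 0 := u.ne_zero
  have hau : (a : ZMod p) * (u : ZMod p) ≠ 0 := mul_ne_zero ha hu
  have e1 : ((-u : (ZMod p)ˣ) : ZMod p).val = p - (u : ZMod p).val := by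
    rw [Units.val_neg, ZMod.neg_val, if_neg hu]
  have e2 : ((a : ZMod p) * ((-u : (ZMod p)ˣ) : ZMod p)).val =
      p - ((a : ZMod p) * (u : ZMod p)).val := by
    rw [Units.val_neg, mul_neg, ZMod.neg_val, if_neg hau]
  have l1 := ZMod.val_lt (u : ZMod p)
  have l2 := ZMod.val_lt ((a : ZMod p) * (u : ZMod p))
  have hne : (u : ZMod p).val + ((a : ZMod p) * (u : ZMod p)).val ≠ p := by
    intro h
    have h1 := congrArg (Nat.cast : ℕ → ZMod p) h
    rw [Nat.cast_add, ZMod.natCast_zmod_val, ZMod.natCast_zmod_val, ZMod.natCast_self] at h1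
    apply ha1
    have h2 : ((a : ZMod p) + 1) * (u : ZMod p) = 0 := by linear_combination h1
    exact (mul_eq_zero.1 h2).resolve_right hu
  rw [e1, e2]
  omega

theorem t_A5 (p : ℕ) [Fact p.Prime] : S_A5 p := by
  classical
  intro a _ ha ha1
  refine ⟨?_, fun u => a5_mem ha ha1 u⟩
  have h1 : (Sa p a)ᶜ = (Sa p a).image (fun u => -u) := by
    ext u
    rw [mem_compl, mem_image]
    constructor
    · intro h
      refine ⟨-u, ?_, neg_neg u⟩
      rw [a5_mem ha ha1, neg_neg]
      exact h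
    · rintro ⟨v, hv, rfl⟩
      exact (a5_mem ha ha1 v).1 hv
  have h2 : ((Sa p a)ᶜ).card = (Sa p a).card := by
    rw [h1]
    exact card_image_of_injective _ neg_injective
  have h3 := card_compl_add_card (Sa p a)
  rw [h2, ZMod.card_units p] at h3
  omega

end Pool.Agent.U792.SW
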