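import Mathlib
import Pool.Agent.U792.SW.Stm4

/-!
Package C1: the relation for the difference of two Stickelberger elements.
-/

set_option autoImplicit false

namespace Pool.Agent.U792.SW

open NumberField NumberField.IsCMField Finset Pool.Agent.U792.KU

namespace C1

variable {p : ℕ} [hp : Fact p.Prime] {K : Type*} [Field K] [NumberField K]
  [IsCyclotomicExtension {p} ℚ K] {ζ : K}

/-- ring homomorphisms which agree at `ζ` are equal -/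
theorem hom_ext (hζ : IsPrimitiveRoot ζ p) {f g : 𝓞 K →+* 𝓞 K}
    (h : f hζ.toInteger = g hζ.toInteger) : f = g := by
  have h1 : f.toIntAlgHom = g.toIntAlgHom := by
    apply hζ.integralPowerBasis.algHom_ext
    rw [hζ.integralPowerBasis_gen]
    exact h
  exact RingHom.ext fun x => DFunLike.congr_fun h1 x

theorem val_neg_one (p : ℕ) [hp : Fact p.Prime] :
    (((-1 : (ZMod p)ˣ) : ZMod p)).val = p - 1 := by
  have h1 := hp.out.one_lt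
  have : Fact (1 < p) := ⟨h1⟩
  rw [Units.val_neg, Units.val_one, ZMod.neg_val', ZMod.val_one, Nat.mod_eq_of_lt (by omega)]

theorem tau_neg_one [IsCMField K] (hζ : IsPrimitiveRoot ζ p) : tau p K (-1) = cc K := by
  apply hom_ext hζ
  rw [tau_zeta, val_neg_one, cc_zeta hζ]

theorem cc_tau [IsCMField K] (hζ : IsPrimitiveRoot ζ p) (u : (ZMod p)ˣ) (x : 𝓞 K) :
    cc K (tau p K u⁻¹ x) = tau p K (-u)⁻¹ x := by
  have h1 : (-u)⁻¹ = (-1) * u⁻¹ := by rw [inv_neg, neg_one_mul]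
  rw [h1, tau_mul, tau_neg_one hζ]

theorem TP_mul (T : Finset (ZMod p)ˣ) (x y : 𝓞 K) : TP T (x * y) = TP T x * TP T y := by
  rw [TP, TP, TP, ← prod_mul_distrib]
  exact prod_congr rfl fun u _ => map_mul _ _ _

theorem TP_pow (T : Finset (ZMod p)ˣ) (x : 𝓞 K) (d : ℕ) : TP T (x ^ d) = TP T x ^ d := by
  rw [TP, TP, ← prod_pow]
  exact prod_congr rfl fun u _ => map_pow _ _ _

theorem TP_ne (T : Finset (ZMod p)ˣ) {x : 𝓞 K} (hx : x ≠ 0) : TP T x ≠ 0 :=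
  prod_ne_zero_iff.mpr fun u _ => (map_ne_zero_iff _ (tau_injective p u⁻¹)).mpr hx

theorem span_tau {w : 𝓞 K} {n : ℕ} {I : Ideal (𝓞 K)} (h : Ideal.span {w} = I ^ n)
    (u : (ZMod p)ˣ) : Ideal.span {tau p K u⁻¹ w} = (I.map (tau p K u⁻¹)) ^ n := by
  rw [← Ideal.map_pow, ← h, Ideal.map_span, Set.image_singleton]

theorem span_TP {w : 𝓞 K} {n : ℕ} {I : Ideal (𝓞 K)} (h : Ideal.span {w} = I ^ n)
    (T : Finset (ZMod p)ˣ) :
    Ideal.span {TP T w} = (∏ u ∈ T, I.map (tau p K u⁻¹)) ^ n := by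
  rw [TP, ← Ideal.prod_span_singleton, ← prod_pow]
  exact prod_congr rfl fun u _ => span_tau h u

theorem span_cc_TP [IsCMField K] (hζ : IsPrimitiveRoot ζ p) {w : 𝓞 K} {n : ℕ}
    {I : Ideal (𝓞 K)} (h : Ideal.span {w} = I ^ n) (T : Finset (ZMod p)ˣ) :
    Ideal.span {cc K (TP T w)} = (∏ u ∈ T, I.map (tau p K (-u)⁻¹)) ^ n := by
  rw [TP, map_prod, ← Ideal.prod_span_singleton, ← prod_pow]
  refine prod_congr rfl fun u _ => ?_
  rw [cc_tau hζ, span_tau h (-u)]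

theorem prod_S1 {M : Type*} [CommMonoid M] {S T U : Finset (ZMod p)ˣ} (f : (ZMod p)ˣ → M)
    (hS : ∀ u, u ∈ S ↔ u ∈ T ∨ u ∈ U) (hd : ∀ u ∈ T, u ∉ U) :
    ∏ u ∈ S, f u = (∏ u ∈ T, f u) * ∏ u ∈ U, f u := by
  classical
  have h1 : S = T ∪ U := by
    ext u
    rw [hS, mem_union]
  rw [h1, prod_union (disjoint_left.mpr hd)]

theorem prod_S2 {M : Type*} [CommMonoid M] {S T U : Finset (ZMod p)ˣ} (f : (ZMod p)ˣ → M)
    (hS : ∀ u, u ∈ S ↔ -u ∈ T ∨ u ∈ U) (hd : ∀ u ∈ T, -u ∉ U) :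
    ∏ u ∈ S, f u = (∏ u ∈ T, f (-u)) * ∏ u ∈ U, f u := by
  classical
  have h1 : S = T.image (fun u => -u) ∪ U := by
    ext u
    rw [hS, mem_union, mem_image]
    constructor
    · rintro (h | h)
      · exact Or.inl ⟨-u, h, neg_neg u⟩
      · exact Or.inr h
    · rintro (⟨v, hv, rfl⟩ | h)
      · left
        rwa [neg_neg]
      · exact Or.inr h
  rw [h1, prod_union, prod_image]
  · exact fun x _ y _ h => neg_inj.mp h
  · rw [disjoint_left]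
    intro u hu
    obtain ⟨v, hv, rfl⟩ := mem_image.mp hu
    exact hd v hv

theorem unit_root (hζ : IsPrimitiveRoot ζ p) (hp2 : p ≠ 2) (ε : (𝓞 K)ˣ)
    (h : ∀ σ : K →ₐ[ℚ] ℂ, ‖σ ((ε : 𝓞 K) : K)‖ = 1) :
    ∃ r : ℕ, (ε : 𝓞 K) = (-hζ.toInteger) ^ r := by
  obtain ⟨m, hm, h1⟩ := NumberField.Embeddings.pow_eq_one_of_norm_eq_one K ℂ
    (x := ((ε : 𝓞 K) : K)) (RingOfIntegers.isIntegral_coe _) (fun φ => h φ.toRatAlgHom)
  obtain ⟨r, hr⟩ := hζ.exists_neg_pow_of_isOfFinOrder (hp.out.odd_of_ne_two hp2)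
    (isOfFinOrder_iff_pow_eq_one.mpr ⟨m, hm, h1⟩)
  refine ⟨r, RingOfIntegers.ext ?_⟩
  have h2 : (((-hζ.toInteger) ^ r : 𝓞 K) : K) = (-ζ) ^ r := by
    have h3 : (((-hζ.toInteger) ^ r : 𝓞 K) : K) = ((-hζ.toInteger : 𝓞 K) : K) ^ r :=
      map_pow (algebraMap (𝓞 K) K) _ _
    rw [h3]
    congr 1
  rw [hr, h2]

theorem norm_ne {x : 𝓞 K} (hx : x ≠ 0) (σ : K →ₐ[ℚ] ℂ) : ‖σ (x : K)‖ ≠ 0 := by
  rw [norm_ne_zero_iff]
  intro h
  have h1 : (x : K) = 0 := (map_eq_zero σ).mp h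
  exact hx (RingOfIntegers.ext h1)

omit [NumberField K] in
theorem coe_mul' (x y : 𝓞 K) : ((x * y : 𝓞 K) : K) = (x : K) * (y : K) :=
  map_mul (algebraMap (𝓞 K) K) _ _

theorem norm_eq [IsCMField K] {g1 g2 N : 𝓞 K} (h1 : g1 * cc K g1 = N) (h2 : g2 * cc K g2 = N)
    (σ : K →ₐ[ℚ] ℂ) : ‖σ (g1 : K)‖ = ‖σ (g2 : K)‖ := by
  have e : ∀ g : 𝓞 K, ‖σ ((g * cc K g : 𝓞 K) : K)‖ = ‖σ (g : K)‖ ^ 2 := by
    intro g
    rw [coe_mul', map_mul, norm_mul, norm_cc, sq]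
  have h3 : ‖σ (g1 : K)‖ ^ 2 = ‖σ (g2 : K)‖ ^ 2 := by rw [← e, ← e, h1, h2]
  exact (sq_eq_sq₀ (norm_nonneg _) (norm_nonneg _)).mp h3

theorem TP_pi [IsCMField K] (hζ : IsPrimitiveRoot ζ p) (hp2 : p ≠ 2) (T : Finset (ZMod p)ˣ) :
    ∃ r : ℕ, TP T (hζ.toInteger - 1) =
      (-hζ.toInteger) ^ r * cc K (TP T (hζ.toInteger - 1)) := by
  refine ⟨∑ u ∈ T, (p + (p + 1) * jj u), ?_⟩
  rw [← prod_pow_eq_pow_sum, TP, map_prod, ← prod_mul_distrib]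
  refine prod_congr rfl fun u _ => ?_
  rw [← neg_zeta_pow hζ hp2, map_sub, map_one, tau_zeta, map_sub, map_one, map_pow]
  have h1 : cc K hζ.toInteger ^ jj u * hζ.toInteger ^ jj u = 1 := by
    rw [← mul_pow, conj_zeta hζ, one_pow]
  change hζ.toInteger ^ jj u - 1 = -hζ.toInteger ^ jj u * (cc K hζ.toInteger ^ jj u - 1)
  linear_combination h1

end C1

open C1 in
theorem t_C1 (p : ℕ) [hp : Fact p.Prime] (K : Type*) [Field K] [NumberField K]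
    [IsCyclotomicExtension {p} ℚ K] [IsCMField K] : S_C1 p K := by
  intro ζ hζ n d X Y w g1 g2 I S1 S2 T U hp2 hnp hn0 hw0 hI hA hS1 hS2 hT hg1 hg2 hJ1 hJ2 hN1 hN2
  rw [tau_neg_one hζ] at hN1 hN2
  have hW0 : TP T w ≠ 0 := TP_ne T hw0
  -- the ideals
  have h1 : Ideal.span {TP T w * g2 ^ n} = Ideal.span {cc K (TP T w) * g1 ^ n} := by
    rw [← Ideal.span_singleton_mul_span_singleton, ← Ideal.span_singleton_mul_span_singleton,
      ← Ideal.span_singleton_pow, ← Ideal.span_singleton_pow, span_TP hI, span_cc_TP hζ hI, hJ1,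
      hJ2, prod_S1 _ hS1 fun u hu => (hT u hu).1, prod_S2 _ hS2 fun u hu => (hT u hu).2.1]
    rw [mul_pow, mul_pow]
    ring
  obtain ⟨ε, hε⟩ := Ideal.span_singleton_eq_span_singleton.mp h1.symm
  -- the unit
  have h2 : ∀ σ : K →ₐ[ℚ] ℂ, ‖σ ((ε : 𝓞 K) : K)‖ = 1 := by
    intro σ
    have e1 := congrArg (fun x : 𝓞 K => ‖σ (x : K)‖) hε
    have hgg := norm_eq hN1 hN2 σ
    have hpow : ∀ (x : 𝓞 K) (m : ℕ), ((x ^ m : 𝓞 K) : K) = (x : K) ^ m := fun x m =>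
      map_pow (algebraMap (𝓞 K) K) _ _
    simp only [hpow, map_mul, map_pow, norm_mul, norm_pow] at e1
    rw [norm_cc, hgg] at e1
    have n3 := mul_ne_zero (norm_ne hW0 σ) (pow_ne_zero n (norm_ne hg2 σ))
    exact mul_left_cancel₀ n3 (e1.trans (mul_one _).symm)
  obtain ⟨j, hj⟩ := unit_root hζ hp2 ε h2
  obtain ⟨r, hr⟩ := TP_pi hζ hp2 T
  obtain ⟨s, hs⟩ := root_pow hζ hnp (r * d + j)
  refine ⟨s, ?_⟩
  rw [hA, TP_mul, TP_pow, map_mul, map_pow, mul_pow _ g1, ← pow_mul, mul_comm s n, hs, mul_assoc,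
    ← hε, hj]
  nth_rewrite 1 [hr]
  rw [mul_pow, ← pow_mul, pow_add]
  ring

end Pool.Agent.U792.SW
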