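import Mathlib
import Pool.Agent.U792.SW.Stm4
import Pool.Agent.U792.SW.PkgM3
import Pool.Agent.U792.SW.PkgA2
import Pool.Agent.U792.SW.Wief

/-!
Project SW, package C2: the norm bound for differences of two Stickelberger elements.
-/

set_option autoImplicit false

namespace Pool.Agent.U792.SW

open NumberField NumberField.IsCMField Finset Pool.Agent.U792.KU

section C2

variable {p : ℕ} [hp : Fact p.Prime] {K : Type*} [Field K] [NumberField K]
  [IsCyclotomicExtension {p} ℚ K] [IsCMField K]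

theorem c2_tau_cc {ζ : K} (hζ : IsPrimitiveRoot ζ p) (x : 𝓞 K) : tau p K (-1) x = cc K x := by
  have h : (tau p K (-1)).toIntAlgHom = (cc K).toIntAlgHom := by
    apply hζ.integralPowerBasis.algHom_ext
    rw [hζ.integralPowerBasis_gen]
    change tau p K (-1) hζ.toInteger = cc K hζ.toInteger
    rw [tau_zeta p hζ, cc_zeta hζ]
    congr 1
    have : NeZero (1 : ZMod p) := ⟨one_ne_zero⟩
    rw [Units.val_neg, Units.val_one, ZMod.val_neg_of_ne_zero, ZMod.val_one]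
  exact DFunLike.congr_fun h x

theorem c2_norm_sq {ζ : K} (hζ : IsPrimitiveRoot ζ p) {g : 𝓞 K} {N : ℕ}
    (h : g * tau p K (-1) g = (N : 𝓞 K)) (σ : K →ₐ[ℚ] ℂ) : ‖σ (g : K)‖ ^ 2 = (N : ℝ) := by
  rw [c2_tau_cc hζ] at h
  have h1 : ‖σ ((g * cc K g : 𝓞 K) : K)‖ = (N : ℝ) := by
    rw [h]
    simp
  have h2 : ((g * cc K g : 𝓞 K) : K) = (g : K) * ((cc K g : 𝓞 K) : K) := rfl
  rw [← h1, h2, map_mul, norm_mul, norm_cc, sq]

end C2

theorem t_C2 (p : ℕ) [hp : Fact p.Prime] (K : Type*) [Field K] [NumberField K]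
    [IsCyclotomicExtension {p} ℚ K] [IsCMField K] : S_C2 p K := by
  classical
  intro ζ hζ n d Q t s X Y w g1 g2 I S1 S2 T U hp2 hn0 hw hI hA hS1 hS2 hTU hcS1 hg1 hg2 hgg1 hgg2
    hcop hdvd hne
  obtain ⟨b, hb⟩ : ∃ b, b = (-hζ.toInteger) ^ s * g1 := ⟨_, rfl⟩
  obtain ⟨a, ha⟩ : ∃ a, a = (-hζ.toInteger) ^ t * g2 := ⟨_, rfl⟩
  rw [← ha, ← hb] at hdvd hne
  have hu : ∀ r : ℕ, Ideal.span {(-hζ.toInteger) ^ r} = (1 : Ideal (𝓞 K)) := by
    intro r
    rw [Ideal.one_eq_top, Ideal.span_singleton_eq_top]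
    apply IsUnit.pow
    apply IsUnit.neg
    exact hζ.toInteger_isPrimitiveRoot.isUnit hp.out.ne_zero
  obtain ⟨F, hF⟩ : ∃ F : (ZMod p)ˣ → Ideal (𝓞 K), F = fun u => I.map (tau p K u⁻¹) := ⟨_, rfl⟩
  have hF' : ∀ u, F u = I.map (tau p K u⁻¹) := fun u => by rw [hF]
  have hsb : Ideal.span {b} = ∏ u ∈ S1, F u := by
    rw [hb, ← Ideal.span_singleton_mul_span_singleton, hu, one_mul, hg1, hF]
  have hsa : Ideal.span {a} = ∏ u ∈ S2, F u := by
    rw [ha, ← Ideal.span_singleton_mul_span_singleton, hu, one_mul, hg2, hF]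
  obtain ⟨C, hC⟩ : ∃ C, C = ∏ u ∈ U, F u := ⟨_, rfl⟩
  have hS1U : S1 = T ∪ U := by
    ext u
    rw [hS1, Finset.mem_union]
  have hdis : Disjoint T U := by
    rw [Finset.disjoint_left]
    intro u hu1 hu2
    exact (hTU u hu1).1 hu2
  have hUS2 : U ⊆ S2 := by
    intro u hu1
    rw [hS2]
    exact Or.inr hu1
  have hCd : C ∣ Ideal.span {a - b} := by
    rw [Ideal.dvd_span_singleton]
    apply Ideal.sub_mem
    · rw [← Ideal.dvd_span_singleton, hsa, hC]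
      exact Finset.prod_dvd_prod_of_subset _ _ _ hUS2
    · rw [← Ideal.dvd_span_singleton, hsb, hC, hS1U]
      exact Finset.prod_dvd_prod_of_subset _ _ _ Finset.subset_union_right
  have hQd : Ideal.span {(Q : 𝓞 K)} ∣ Ideal.span {a - b} := by
    rw [Ideal.dvd_span_singleton]
    exact Ideal.mem_span_singleton.2 hdvd
  have hFQ : ∀ u, IsCoprime (F u) (Ideal.span {(Q : 𝓞 K)}) := by
    intro u
    have h0 : IsCoprime (tau p K u⁻¹ w) (Q : 𝓞 K) := by
      have := hcop.map (tau p K u⁻¹)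
      rwa [map_natCast] at this
    have h1 : IsCoprime (Ideal.span {tau p K u⁻¹ w}) (Ideal.span {(Q : 𝓞 K)}) :=
      (Ideal.isCoprime_span_singleton_iff _ _).2 h0
    have h2 : Ideal.span {tau p K u⁻¹ w} = F u ^ n := by
      have := congrArg (Ideal.map (tau p K u⁻¹)) hI
      rw [Ideal.map_span, Set.image_singleton, Ideal.map_pow, ← hF'] at this
      exact this
    rw [h2] at h1
    exact (IsCoprime.pow_left_iff (Nat.pos_of_ne_zero hn0)).1 h1
  have hCQ : IsCoprime C (Ideal.span {(Q : 𝓞 K)}) := by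
    rw [hC]
    exact IsCoprime.prod_left fun u _ => hFQ u
  have hdd : C * Ideal.span {(Q : 𝓞 K)} ∣ Ideal.span {a - b} := hCQ.mul_dvd hCd hQd
  have hab0 : a - b ≠ 0 := sub_ne_zero.2 hne
  have hI0 : I ≠ ⊥ := by
    rintro rfl
    apply hw
    rw [← Ideal.span_singleton_eq_bot, hI, ← Ideal.zero_eq_bot, zero_pow hn0]
  have hN0 : Ideal.absNorm I ≠ 0 := by
    intro h0
    rw [Ideal.absNorm_eq_zero_iff] at h0
    exact hI0 h0
  have hprodN : ∀ R : Finset (ZMod p)ˣ, Ideal.absNorm (∏ u ∈ R, F u) =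
      Ideal.absNorm I ^ R.card := by
    intro R
    rw [map_prod, Finset.prod_congr rfl (fun u _ => by rw [hF', PkgA2.absNorm_map]),
      Finset.prod_const]
  obtain ⟨f, hf⟩ : ∃ f, f = Module.finrank ℚ K := ⟨_, rfl⟩
  have hp1 : f = p - 1 := by
    rw [hf, IsCyclotomicExtension.finrank K (Polynomial.cyclotomic.irreducible_rat hp.out.pos),
      Nat.totient_prime hp.out]
  have hf0 : f ≠ 0 := by
    have := hp.out.two_le
    omega
  have hN1 : (Ideal.absNorm C : ℝ) * (Q : ℝ) ^ f ≤ Nm (a - b) := by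
    have h1 : Ideal.absNorm (C * Ideal.span {(Q : 𝓞 K)}) ∣ Ideal.absNorm (Ideal.span {a - b}) :=
      Ideal.absNorm_dvd_absNorm_of_le (Ideal.dvd_iff_le.1 hdd)
    have h2 : Ideal.absNorm (Ideal.span {a - b}) ≠ 0 := by
      intro h0
      rw [Ideal.absNorm_eq_zero_iff, Ideal.span_singleton_eq_bot] at h0
      exact hab0 h0
    have h3 := Nat.le_of_dvd (Nat.pos_of_ne_zero h2) h1
    rw [map_mul] at h3
    have h4 : ((Ideal.absNorm C * Ideal.absNorm (Ideal.span {(Q : 𝓞 K)}) : ℕ) : ℝ) ≤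
        ((Ideal.absNorm (Ideal.span {a - b}) : ℕ) : ℝ) := by exact_mod_cast h3
    rw [Nat.cast_mul, m3_absNorm_span, m3_absNorm_span, Nm_natCast, ← hf] at h4
    exact h4
  have hNC : (Ideal.absNorm C : ℝ) = (Ideal.absNorm I : ℝ) ^ U.card := by
    rw [hC, hprodN, Nat.cast_pow]
  have hNb : Nm b = (Ideal.absNorm C : ℝ) * (Ideal.absNorm I : ℝ) ^ T.card := by
    rw [← m3_absNorm_span, hsb, hprodN, Nat.cast_pow, hS1U, Finset.card_union_of_disjoint hdis,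
      hNC, pow_add, mul_comm]
  have hab : ∀ σ : K →ₐ[ℚ] ℂ, ‖σ (a : K)‖ = ‖σ (b : K)‖ := by
    intro σ
    rw [ha, hb, norm_neg_zeta_pow_mul hζ, norm_neg_zeta_pow_mul hζ]
    have h1 := c2_norm_sq hζ hgg1 σ
    have h2 := c2_norm_sq hζ hgg2 σ
    rw [← h1] at h2
    exact (sq_eq_sq₀ (norm_nonneg _) (norm_nonneg _)).1 h2
  have h2 : Nm (a - b) ≤ 2 ^ f * Nm b := by
    rw [hf]
    exact Nm_sub_le hab fun _ => rfl
  have hCpos : (0 : ℝ) < (Ideal.absNorm C : ℝ) := by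
    rw [hNC]
    apply pow_pos
    exact_mod_cast Nat.pos_of_ne_zero hN0
  have h3 : (Q : ℝ) ^ f ≤ 2 ^ f * (Ideal.absNorm I : ℝ) ^ T.card := by
    have h4 := hN1.trans h2
    rw [hNb] at h4
    have h5 : (Ideal.absNorm C : ℝ) * (Q : ℝ) ^ f ≤
        (Ideal.absNorm C : ℝ) * (2 ^ f * (Ideal.absNorm I : ℝ) ^ T.card) := by
      calc _ ≤ _ := h4
        _ = _ := by ring
    exact le_of_mul_le_mul_left h5 hCpos
  have h4 : (Ideal.absNorm I : ℝ) ^ n ≤ ((|X| + |Y| : ℤ) : ℝ) ^ f := by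
    have h5 : (Ideal.absNorm I : ℝ) ^ n = Nm w := by
      rw [← m3_absNorm_span, hI, map_pow, Nat.cast_pow]
    rw [h5, hf]
    refine le_trans ?_ (Nm_lin_le (X := X) (Y := Y) (norm_zeta hζ))
    rw [hA, Nm_mul]
    refine le_mul_of_one_le_left (Nm_nonneg _) (one_le_Nm ?_)
    apply pow_ne_zero
    intro h0
    exact hζ.toInteger_isPrimitiveRoot.ne_one hp.out.one_lt (sub_eq_zero.1 h0)
  have h5 : ((Q : ℝ) ^ n) ^ f ≤ (2 ^ n * ((|X| + |Y| : ℤ) : ℝ) ^ T.card) ^ f := by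
    calc ((Q : ℝ) ^ n) ^ f = ((Q : ℝ) ^ f) ^ n := by rw [← pow_mul, ← pow_mul, mul_comm]
      _ ≤ (2 ^ f * (Ideal.absNorm I : ℝ) ^ T.card) ^ n := pow_le_pow_left₀ (by positivity) h3 n
      _ = (2 ^ f) ^ n * ((Ideal.absNorm I : ℝ) ^ n) ^ T.card := by
          rw [mul_pow, ← pow_mul (Ideal.absNorm I : ℝ), ← pow_mul (Ideal.absNorm I : ℝ),
            mul_comm n]
      _ ≤ (2 ^ f) ^ n * (((|X| + |Y| : ℤ) : ℝ) ^ f) ^ T.card :=
          mul_le_mul_of_nonneg_left (pow_le_pow_left₀ (by positivity) h4 _) (by positivity)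
      _ = (2 ^ n * ((|X| + |Y| : ℤ) : ℝ) ^ T.card) ^ f := by
          rw [mul_pow, ← pow_mul, ← pow_mul, ← pow_mul, ← pow_mul, mul_comm n, mul_comm f T.card]
  have h6 : 0 ≤ 2 ^ n * ((|X| + |Y| : ℤ) : ℝ) ^ T.card := by positivity
  have h7 := le_of_pow_le_pow_left₀ hf0 h6 h5
  exact_mod_cast h7

end Pool.Agent.U792.SW
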