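import Mathlib
import Pool.Agent.U792.SW.Stm4
import Pool.Agent.U792.SW.Beta

/-!
Project SW, package C3: non-vanishing for the product over a set `T` (adaptation of `TT_ne`).
-/

set_option autoImplicit false

namespace Pool.Agent.U792.SW

open NumberField NumberField.IsCMField Polynomial Finset Pool.Agent.U792.KU

variable {p : ℕ} [hp : Fact p.Prime] {K : Type*} [Field K] [NumberField K]
  [IsCyclotomicExtension {p} ℚ K] {ζ : K} [IsCMField K]

theorem c3_cc_TP_lin (hζ : IsPrimitiveRoot ζ p) (T : Finset (ZMod p)ˣ) (X Y : ℤ) :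
    cc K (TP T ((X : 𝓞 K) + hζ.toInteger * (Y : 𝓞 K))) =
      TP T ((X : 𝓞 K) + cc K hζ.toInteger * (Y : 𝓞 K)) := by
  unfold TP
  rw [map_prod]
  refine prod_congr rfl fun u _ => ?_
  rw [tau_lin', tau_lin, map_add, map_mul, map_intCast, map_intCast, map_pow]

theorem c3_main (hζ : IsPrimitiveRoot ζ p) (hp2 : p ≠ 2) {X Y : ℤ} (hXY : IsCoprime X Y) {d : ℕ}
    {w : 𝓞 K} (hw : (X : 𝓞 K) + hζ.toInteger * Y = (hζ.toInteger - 1) ^ d * w)
    (hwπ : IsCoprime w (hζ.toInteger - 1)) (hwu : ¬ IsUnit w) (k : ℕ)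
    {T : Finset (ZMod p)ˣ} (hT : T.Nonempty) (hTn : ∀ u ∈ T, -u ∉ T) :
    TP T ((X : 𝓞 K) + hζ.toInteger * (Y : 𝓞 K)) ≠
      (-hζ.toInteger) ^ k * cc K (TP T ((X : 𝓞 K) + hζ.toInteger * (Y : 𝓞 K))) := by
  intro h0
  obtain ⟨v, hv⟩ := hT
  obtain ⟨P, hP, hwP⟩ := exists_max_ideal_of_mem_nonunits hwu
  have hPp : P.IsPrime := hP.isPrime
  have hWP : (X : 𝓞 K) + hζ.toInteger * (Y : 𝓞 K) ∈ P := by
    rw [hw]
    exact P.mul_mem_left _ hwP
  have hπP : hζ.toInteger - 1 ∉ P := by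
    intro h1
    obtain ⟨a, b, hab⟩ := hwπ
    apply hP.ne_top
    rw [Ideal.eq_top_iff_one, ← hab]
    exact P.add_mem (P.mul_mem_left _ hwP) (P.mul_mem_left _ h1)
  have hprim := hζ.toInteger_isPrimitiveRoot
  have hp1 : 1 < p := hp.out.one_lt
  -- the prime ideal `P'`
  set P' : Ideal (𝓞 K) := P.comap (tau p K v) with hP'
  have hP'p : P'.IsPrime := Ideal.IsPrime.comap _
  have hWP' : (X : 𝓞 K) + hζ.toInteger ^ jj v * (Y : 𝓞 K) ∈ P' := by
    rw [← tau_lin, hP', Ideal.mem_comap, tau_tau_inv]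
    exact hWP
  have hone : (1 : 𝓞 K) ∈ nthRootsFinset p (1 : 𝓞 K) := by
    rw [mem_nthRootsFinset hp.out.pos, one_pow]
  have hζne : ∀ j : ℕ, hζ.toInteger ^ j ∈ nthRootsFinset p (1 : 𝓞 K) := by
    intro j
    rw [mem_nthRootsFinset hp.out.pos, ← pow_mul, mul_comm, pow_mul, hprim.pow_eq_one, one_pow]
  have hπP' : hζ.toInteger - 1 ∉ P' := by
    intro h1
    rw [hP', Ideal.mem_comap, map_sub, map_one, tau_zeta] at h1
    have hne : hζ.toInteger ^ (v : ZMod p).val ≠ 1 := by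
      intro h2
      rw [hprim.pow_eq_one_iff_dvd] at h2
      have h3 : (v : ZMod p).val < p := ZMod.val_lt _
      have h4 : (v : ZMod p).val = 0 := Nat.eq_zero_of_dvd_of_lt h2 h3
      exact v.ne_zero ((ZMod.val_eq_zero _).1 h4)
    have hass := hprim.nthRootsFinset_pairwise_associated_sub_one_sub_of_prime hp.out
      (hζne _) hone hne
    obtain ⟨e, he⟩ := hass
    rw [← he] at h1
    rcases hPp.mem_or_mem h1 with h3 | h3
    · exact hπP h3
    · exact absurd (P.eq_top_of_isUnit_mem h3 e.isUnit) hP.ne_top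
  have hAP : TP T ((X : 𝓞 K) + hζ.toInteger * (Y : 𝓞 K)) ∈ P' := by
    classical
    unfold TP
    rw [← mul_prod_erase _ _ hv, tau_lin]
    exact P'.mul_mem_right _ hWP'
  have hBP : cc K (TP T ((X : 𝓞 K) + hζ.toInteger * (Y : 𝓞 K))) ∈ P' := by
    rw [h0] at hAP
    rcases hP'p.mem_or_mem hAP with h1 | h1
    · exact absurd (P'.eq_top_of_isUnit_mem h1 (isUnit_neg_zeta hζ k)) hP'p.ne_top
    · exact h1
  rw [c3_cc_TP_lin] at hBP
  unfold TP at hBP
  obtain ⟨u, hu, huP⟩ := (hP'p.prod_mem_iff).1 hBP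
  rw [tau_lin', cc_zeta, ← pow_mul] at huP
  set η : 𝓞 K := hζ.toInteger ^ ((p - 1) * jj u) with hη
  set θ : 𝓞 K := hζ.toInteger ^ jj v with hθ
  have h2 : (θ - η) ∈ P' := by
    obtain ⟨a, b, hab⟩ := hXY
    have hab' : (a : 𝓞 K) * X + b * Y = 1 := by exact_mod_cast congrArg (Int.cast : ℤ → 𝓞 K) hab
    have e : θ - η = ((X : 𝓞 K) + η * Y) * (a * θ - b) +
        ((X : 𝓞 K) + θ * Y) * (b - a * η) := by
      linear_combination (η - θ) * hab'
    rw [e]
    exact P'.add_mem (P'.mul_mem_right _ huP) (P'.mul_mem_right _ hWP')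
  by_cases hne : θ = η
  · -- then `v = -u`
    have h3 : hζ.toInteger ^ (jj u + jj v) = 1 := by
      rw [pow_add, ← hθ, hne, hη, ← pow_add, aux_mul p (jj u) hp.out.pos, pow_mul,
        hprim.pow_eq_one, one_pow]
    rw [hprim.pow_eq_one_iff_dvd] at h3
    have h7 : ((u⁻¹ : (ZMod p)ˣ) : ZMod p) + ((v⁻¹ : (ZMod p)ˣ) : ZMod p) = 0 := by
      have h8 : ((jj u : ℕ) : ZMod p) = ((u⁻¹ : (ZMod p)ˣ) : ZMod p) := ZMod.natCast_zmod_val _
      have h8' : ((jj v : ℕ) : ZMod p) = ((v⁻¹ : (ZMod p)ˣ) : ZMod p) := ZMod.natCast_zmod_val _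
      rw [← h8, ← h8', ← Nat.cast_add]
      exact (ZMod.natCast_eq_zero_iff _ _).2 h3
    have h9 : u⁻¹ = -v⁻¹ := Units.ext (by
      rw [Units.val_neg]
      exact eq_neg_of_add_eq_zero_left h7)
    have h10 : u = -v := by
      have h11 : u = (u⁻¹)⁻¹ := (inv_inv u).symm
      rw [h11, h9]
      simp
    exact hTn v hv (h10 ▸ hu)
  · have hass := hprim.nthRootsFinset_pairwise_associated_sub_one_sub_of_prime hp.out
      (hζne _) (hζne _) hne
    obtain ⟨e, he⟩ := hass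
    rw [← he] at h2
    rcases hP'p.mem_or_mem h2 with h3 | h3
    · exact hπP' h3
    · exact absurd (P'.eq_top_of_isUnit_mem h3 e.isUnit) hP'p.ne_top

variable (p K)

theorem t_C3 : S_C3 p K := by
  intro ζ hζ d k X Y w T hp2 hXY hw hwπ hwu hT hTn
  exact c3_main hζ hp2 hXY hw hwπ hwu k hT hTn

end Pool.Agent.U792.SW
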