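import Mathlib
import Pool.Agent.U792.SW.Stm2
import Pool.Agent.U792.SW.PkgE

/-!
Project SW, package N4: the coefficient of `ζ ^ 2`.
-/

set_option autoImplicit false

namespace Pool.Agent.U792.SW

open NumberField Finset

/-- sums over the units of `ZMod p` -/
theorem sum_units_N4 (p : ℕ) [Fact p.Prime] {M : Type*} [AddCommMonoid M] (g : ℕ → M) :
    ∑ v : (ZMod p)ˣ, g (v : ZMod p).val = ∑ k ∈ Ico 1 p, g k := by
  refine Finset.sum_bij (fun v _ => (v : ZMod p).val) ?_ ?_ ?_ ?_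
  · intro v _
    rw [mem_Ico]
    refine ⟨Nat.one_le_iff_ne_zero.2 ?_, ZMod.val_lt _⟩
    rw [Ne, ZMod.val_eq_zero]
    exact v.ne_zero
  · intro v _ w _ h
    exact Units.ext (ZMod.val_injective p h)
  · intro k hk
    rw [mem_Ico] at hk
    have hk0 : (k : ZMod p) ≠ 0 := by
      rw [Ne, ZMod.natCast_eq_zero_iff]
      intro h
      have := Nat.le_of_dvd (by omega) h
      omega
    refine ⟨Units.mk0 (k : ZMod p) hk0, mem_univ _, ?_⟩
    rw [Units.val_mk0, ZMod.val_natCast, Nat.mod_eq_of_lt hk.2]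
  · intro v _
    rfl

theorem card_H_N4 (p : ℕ) [Fact p.Prime] (hp2 : p ≠ 2) : (H p).card = (p - 1) / 2 := by
  have hp : p.Prime := Fact.out
  have hodd : Odd p := hp.odd_of_ne_two hp2
  obtain ⟨m, hm⟩ := hodd
  have h1 : (H p).card = ∑ v : (ZMod p)ˣ, (fun k : ℕ => if 2 * k < p then 1 else 0)
      (v : ZMod p).val := by
    have h2 : H p = univ.filter (fun u : (ZMod p)ˣ => 2 * (u : ZMod p).val < p) := by
      ext u
      rw [mem_H, mem_filter]
      simp
    rw [h2, card_filter]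
  rw [h1, sum_units_N4 p (fun k : ℕ => if 2 * k < p then 1 else 0), ← card_filter]
  have h3 : (Ico 1 p).filter (fun k => 2 * k < p) = Ico 1 (m + 1) := by
    ext k
    simp only [mem_filter, mem_Ico]
    omega
  rw [h3, Nat.card_Ico]
  omega

theorem t_N4 (p : ℕ) [Fact p.Prime] (K : Type*) [Field K] [NumberField K]
    [IsCyclotomicExtension {p} ℚ K] : S_N4 p K := by
  intro ζ hζ q e hp2 hq he hdvd
  have hp : p.Prime := Fact.out
  have hodd : Odd p := hp.odd_of_ne_two hp2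
  have hp3 : 3 ≤ p := by
    have := hp.two_le
    omega
  set z := hζ.toInteger with hzdef
  have hz : z ^ p = 1 := hζ.toInteger_isPrimitiveRoot.pow_eq_one
  have hzu : IsUnit z := IsUnit.of_pow_eq_one hz hp.ne_zero
  have hpow : ∀ a b : ℕ, (a : ZMod p) = b → z ^ a = z ^ b := by
    intro a b hab
    have h1 := (ZMod.natCast_eq_natCast_iff a b p).1 hab
    rw [pow_eq_pow_mod a hz, pow_eq_pow_mod b hz, h1]
  -- geometric sums
  have hgeo : ∀ x : 𝓞 K, x ^ p = 1 → (1 + x) * ∑ k ∈ Ico 1 p, (-1) ^ k * x ^ k = 1 - x := by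
    intro x hx
    have h1 : ∑ k ∈ range p, (-x) ^ k = 1 + ∑ k ∈ Ico 1 p, (-1 : 𝓞 K) ^ k * x ^ k := by
      rw [range_eq_Ico, sum_eq_sum_Ico_succ_bot hp.pos, pow_zero]
      congr 1
      refine sum_congr rfl fun k _ => ?_
      rw [← mul_pow, neg_one_mul]
    have h2 := geom_sum_mul (-x) p
    rw [hodd.neg_pow, hx, h1] at h2
    linear_combination -h2
  -- the terms
  have hterm : ∀ u : (ZMod p)ˣ, (1 - z ^ ((u⁻¹ : (ZMod p)ˣ) : ZMod p).val) * e u⁻¹ =
      ∑ w : (ZMod p)ˣ, (-1) ^ (((u * w : (ZMod p)ˣ) : ZMod p).val) * z ^ (w : ZMod p).val := by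
    intro u
    set x := z ^ ((u⁻¹ : (ZMod p)ˣ) : ZMod p).val with hx
    have hxp : x ^ p = 1 := by rw [hx, ← pow_mul, mul_comm, pow_mul, hz, one_pow]
    have h1 := hgeo x hxp
    have h2 := he u⁻¹
    rw [← hx] at h2
    have h3 : (1 - x) * e u⁻¹ = ∑ k ∈ Ico 1 p, (-1) ^ k * x ^ k := by
      rw [← h1]
      linear_combination (∑ k ∈ Ico 1 p, (-1) ^ k * x ^ k) * h2
    rw [h3, ← sum_units_N4 p (fun k => (-1) ^ k * x ^ k),
      ← Equiv.sum_comp (Equiv.mulLeft u) (fun v : (ZMod p)ˣ =>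
        ((-1 : 𝓞 K) ^ (v : ZMod p).val * x ^ (v : ZMod p).val))]
    refine sum_congr rfl fun w _ => ?_
    rw [Equiv.coe_mulLeft]
    congr 1
    rw [hx, ← pow_mul]
    apply hpow
    rw [Nat.cast_mul, ZMod.natCast_zmod_val, ZMod.natCast_zmod_val, ZMod.natCast_zmod_val,
      ← Units.val_mul, inv_mul_cancel_left]
  set F : ℕ → ℤ := fun n => ∑ u ∈ H p, (-1) ^ (((u : ZMod p) * (n : ZMod p)).val) with hF
  have hS : ∑ u ∈ H p, (1 - z ^ ((u⁻¹ : (ZMod p)ˣ) : ZMod p).val) * e u⁻¹ =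
      z * ∑ r ∈ range (p - 1), ((F (r + 1) : ℤ) : 𝓞 K) * z ^ r := by
    calc ∑ u ∈ H p, (1 - z ^ ((u⁻¹ : (ZMod p)ˣ) : ZMod p).val) * e u⁻¹
        = ∑ u ∈ H p, ∑ w : (ZMod p)ˣ,
            (-1) ^ (((u * w : (ZMod p)ˣ) : ZMod p).val) * z ^ (w : ZMod p).val :=
          sum_congr rfl fun u _ => hterm u
      _ = ∑ w : (ZMod p)ˣ, ((F (w : ZMod p).val : ℤ) : 𝓞 K) * z ^ (w : ZMod p).val := by
          rw [sum_comm]
          refine sum_congr rfl fun w _ => ?_
          rw [← sum_mul, hF]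
          push_cast
          congr 1
          refine sum_congr rfl fun u _ => ?_
          rw [ZMod.natCast_zmod_val]
      _ = ∑ k ∈ Ico 1 p, ((F k : ℤ) : 𝓞 K) * z ^ k :=
          sum_units_N4 p (fun k => ((F k : ℤ) : 𝓞 K) * z ^ k)
      _ = _ := by
          rw [sum_Ico_eq_sum_range, mul_sum]
          refine sum_congr rfl fun r _ => ?_
          rw [add_comm 1 r]
          ring
  rw [hS] at hdvd
  have h1 : (q : 𝓞 K) ∣ ∑ r ∈ range (p - 1), ((F (r + 1) : ℤ) : 𝓞 K) * z ^ r :=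
    (hzu.dvd_mul_left).1 hdvd
  have h2 := t_E p K ζ hζ (q : ℤ) (fun r => F (r + 1)) (by rw [Int.cast_natCast]; exact h1) 1
    (by omega)
  have h3 : F (1 + 1) = ((H p).card : ℤ) := by
    rw [hF]
    simp only
    rw [card_eq_sum_ones, Nat.cast_sum]
    refine sum_congr rfl fun u hu => ?_
    rw [mem_H] at hu
    have h4 : ((u : ZMod p) * ((1 + 1 : ℕ) : ZMod p)).val = 2 * (u : ZMod p).val := by
      have h5 : (u : ZMod p) * ((1 + 1 : ℕ) : ZMod p) = ((2 * (u : ZMod p).val : ℕ) : ZMod p) := by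
        push_cast
        rw [ZMod.natCast_zmod_val]
        ring
      rw [h5, ZMod.val_natCast, Nat.mod_eq_of_lt hu]
    rw [h4, pow_mul, neg_one_sq, one_pow, Nat.cast_one]
  rw [h3, card_H_N4 p hp2] at h2
  exact_mod_cast h2

end Pool.Agent.U792.SW
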