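import Mathlib
import Pool.Agent.U792.SW.Stm4
import Pool.Agent.U792.SW.PkgN4

/-!
Project SW, package N5 (helper981): the coefficient of `ζ ^ 2`.
-/

set_option autoImplicit false

namespace Pool.Agent.U792.SW

open NumberField Finset

theorem sum_H_N5 (p : ℕ) [Fact p.Prime] (hp2 : p ≠ 2) :
    ∑ u ∈ H p, (2 * ((2 * (u : ZMod p).val : ℕ) : ℤ) - p) = (((p - 1) / 2 : ℕ) : ℤ) := by
  have hp : p.Prime := Fact.out
  obtain ⟨m, hm⟩ := hp.odd_of_ne_two hp2
  have h2 : H p = univ.filter (fun u : (ZMod p)ˣ => 2 * (u : ZMod p).val < p) := by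
    ext u
    rw [mem_H, mem_filter]
    simp
  have h1 : ∑ u ∈ H p, (2 * ((2 * (u : ZMod p).val : ℕ) : ℤ) - p) = ∑ v : (ZMod p)ˣ,
      (fun k : ℕ => if 2 * k < p then (2 * ((2 * k : ℕ) : ℤ) - p) else 0) (v : ZMod p).val := by
    rw [h2, sum_filter]
  rw [h1, sum_units_N4 p (fun k : ℕ => if 2 * k < p then (2 * ((2 * k : ℕ) : ℤ) - p) else 0),
    ← sum_filter]
  have h3 : (Ico 1 p).filter (fun k => 2 * k < p) = Ico 1 (m + 1) := by
    ext k
    simp only [mem_filter, mem_Ico]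
    omega
  rw [h3]
  have h4 : ∀ (n : ℕ) (c : ℤ), ∑ k ∈ Ico 1 (n + 1), (2 * ((2 * k : ℕ) : ℤ) - c) =
      2 * n * (n + 1) - c * n := by
    intro n c
    induction n with
    | zero => simp
    | succ n ih =>
      rw [sum_Ico_succ_top (by omega), ih]
      push_cast
      ring
  rw [h4, hm]
  have h5 : (2 * m + 1 - 1) / 2 = m := by omega
  rw [h5]
  push_cast
  ring

theorem t_N5 (p : ℕ) [Fact p.Prime] (K : Type*) [Field K] [NumberField K]
    [IsCyclotomicExtension {p} ℚ K] : S_N5 p K := by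
  intro ζ hζ q e hp2 _ _ _ he hdvd
  have hp : p.Prime := Fact.out
  have hodd : Odd p := hp.odd_of_ne_two hp2
  have hp3 : 3 ≤ p := by
    have := hp.two_le
    omega
  have hpK : (p : 𝓞 K) ≠ 0 := by exact_mod_cast hp.ne_zero
  set z := hζ.toInteger with hzdef
  have hz : z ^ p = 1 := hζ.toInteger_isPrimitiveRoot.pow_eq_one
  have hz1 : z ≠ 1 := by
    have := hζ.toInteger_isPrimitiveRoot.ne_one hp.one_lt
    exact this
  have hzu : IsUnit z := IsUnit.of_pow_eq_one hz hp.ne_zero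
  have hpow : ∀ a b : ℕ, (a : ZMod p) = b → z ^ a = z ^ b := by
    intro a b hab
    have h1 := (ZMod.natCast_eq_natCast_iff a b p).1 hab
    rw [pow_eq_pow_mod a hz, pow_eq_pow_mod b hz, h1]
  -- geometric sums
  have hsum0 : ∀ x : 𝓞 K, x ^ p = 1 → x ≠ 1 → ∑ k ∈ range p, x ^ k = 0 := by
    intro x hx hx1
    have h1 := geom_sum_mul x p
    rw [hx, sub_self] at h1
    exact (mul_eq_zero.1 h1).resolve_right (sub_ne_zero.2 hx1)
  have hid : ∀ (x : 𝓞 K) (n : ℕ), (x - 1) * ∑ k ∈ range n, (k : 𝓞 K) * x ^ k =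
      n * x ^ n - x * ∑ k ∈ range n, x ^ k := by
    intro x n
    induction n with
    | zero => simp
    | succ n ih =>
      rw [sum_range_succ, mul_add, ih, sum_range_succ]
      push_cast
      ring
  have hgeo : ∀ x : 𝓞 K, x ^ p = 1 → x ≠ 1 →
      (x - 1) * ∑ k ∈ Ico 1 p, (k : 𝓞 K) * x ^ k = p := by
    intro x hx hx1
    have h1 : ∑ k ∈ range p, (k : 𝓞 K) * x ^ k = ∑ k ∈ Ico 1 p, (k : 𝓞 K) * x ^ k := by
      rw [range_eq_Ico, sum_eq_sum_Ico_succ_bot hp.pos, Nat.cast_zero, zero_mul, zero_add]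
    rw [← h1, hid x p, hx, hsum0 x hx hx1]
    ring
  have hone : (1 : 𝓞 K) = -∑ w : (ZMod p)ˣ, z ^ (w : ZMod p).val := by
    have h1 := hsum0 z hz hz1
    rw [range_eq_Ico, sum_eq_sum_Ico_succ_bot hp.pos, pow_zero] at h1
    rw [sum_units_N4 p (fun k => z ^ k)]
    linear_combination h1
  -- the terms
  have hterm : ∀ u : (ZMod p)ˣ, (1 + z ^ ((u⁻¹ : (ZMod p)ˣ) : ZMod p).val) * e u⁻¹ =
      ∑ w : (ZMod p)ˣ, ((2 * ((((u * w : (ZMod p)ˣ) : ZMod p).val : ℕ) : ℤ) - p : ℤ) : 𝓞 K) *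
        z ^ (w : ZMod p).val := by
    intro u
    set x := z ^ ((u⁻¹ : (ZMod p)ˣ) : ZMod p).val with hx
    have hxp : x ^ p = 1 := by rw [hx, ← pow_mul, mul_comm, pow_mul, hz, one_pow]
    have h2 := he u⁻¹
    rw [← hx] at h2
    have hx1 : x ≠ 1 := by
      intro h
      rw [h, sub_self, mul_zero] at h2
      exact hpK h2.symm
    have h1 := hgeo x hxp hx1
    have h3 : e u⁻¹ = ∑ k ∈ Ico 1 p, (k : 𝓞 K) * x ^ k := by
      apply mul_left_cancel₀ (sub_ne_zero.2 hx1)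
      rw [h1, mul_comm, h2]
    have h4 : ∑ k ∈ Ico 1 p, (k : 𝓞 K) * x ^ k =
        ∑ w : (ZMod p)ˣ, ((((u * w : (ZMod p)ˣ) : ZMod p).val : ℕ) : 𝓞 K) *
          z ^ (w : ZMod p).val := by
      rw [← sum_units_N4 p (fun k => (k : 𝓞 K) * x ^ k),
        ← Equiv.sum_comp (Equiv.mulLeft u) (fun v : (ZMod p)ˣ =>
          (((v : ZMod p).val : 𝓞 K) * x ^ (v : ZMod p).val))]
      refine sum_congr rfl fun w _ => ?_
      rw [Equiv.coe_mulLeft]
      congr 1
      rw [hx, ← pow_mul]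
      apply hpow
      rw [Nat.cast_mul, ZMod.natCast_zmod_val, ZMod.natCast_zmod_val, ZMod.natCast_zmod_val,
        ← Units.val_mul, inv_mul_cancel_left]
    calc (1 + x) * e u⁻¹ = (p : 𝓞 K) * 1 + 2 * e u⁻¹ := by linear_combination h2
      _ = (p : 𝓞 K) * (-∑ w : (ZMod p)ˣ, z ^ (w : ZMod p).val) +
          2 * ∑ w : (ZMod p)ˣ, ((((u * w : (ZMod p)ˣ) : ZMod p).val : ℕ) : 𝓞 K) *
            z ^ (w : ZMod p).val := by rw [h3, h4, ← hone]
      _ = _ := by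
          rw [mul_neg, mul_sum, mul_sum, ← sum_neg_distrib, ← sum_add_distrib]
          refine sum_congr rfl fun w _ => ?_
          push_cast
          ring
  set F : ℕ → ℤ := fun n => ∑ u ∈ H p, (2 * ((((u : ZMod p) * (n : ZMod p)).val : ℕ) : ℤ) - p)
    with hF
  have hS : ∑ u ∈ H p, (1 + z ^ ((u⁻¹ : (ZMod p)ˣ) : ZMod p).val) * e u⁻¹ =
      z * ∑ r ∈ range (p - 1), ((F (r + 1) : ℤ) : 𝓞 K) * z ^ r := by
    calc ∑ u ∈ H p, (1 + z ^ ((u⁻¹ : (ZMod p)ˣ) : ZMod p).val) * e u⁻¹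
        = ∑ u ∈ H p, ∑ w : (ZMod p)ˣ,
            ((2 * ((((u * w : (ZMod p)ˣ) : ZMod p).val : ℕ) : ℤ) - p : ℤ) : 𝓞 K) *
              z ^ (w : ZMod p).val :=
          sum_congr rfl fun u _ => hterm u
      _ = ∑ w : (ZMod p)ˣ, ((F (w : ZMod p).val : ℤ) : 𝓞 K) * z ^ (w : ZMod p).val := by
          rw [sum_comm]
          refine sum_congr rfl fun w _ => ?_
          rw [← sum_mul, hF]
          push_cast
          congr 1
          refine sum_congr rfl fun u _ => ?_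
          rw [ZMod.natCast_zmod_val]
      _ = ∑ k ∈ Ico 1 p, ((F k : ℤ) : 𝓞 K) * z ^ k :=
          sum_units_N4 p (fun k => ((F k : ℤ) : 𝓞 K) * z ^ k)
      _ = _ := by
          rw [sum_Ico_eq_sum_range, mul_sum]
          refine sum_congr rfl fun r _ => ?_
          rw [add_comm 1 r]
          ring
  rw [hS] at hdvd
  have h1 : (q : 𝓞 K) ∣ ∑ r ∈ range (p - 1), ((F (r + 1) : ℤ) : 𝓞 K) * z ^ r :=
    (hzu.dvd_mul_left).1 hdvd
  have h2 := t_E p K ζ hζ (q : ℤ) (fun r => F (r + 1)) (by rw [Int.cast_natCast]; exact h1) 1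
    (by omega)
  have h3 : F (1 + 1) = (((p - 1) / 2 : ℕ) : ℤ) := by
    rw [hF, ← sum_H_N5 p hp2]
    simp only
    refine sum_congr rfl fun u hu => ?_
    rw [mem_H] at hu
    have h4 : ((u : ZMod p) * ((1 + 1 : ℕ) : ZMod p)).val = 2 * (u : ZMod p).val := by
      have h5 : (u : ZMod p) * ((1 + 1 : ℕ) : ZMod p) = ((2 * (u : ZMod p).val : ℕ) : ZMod p) := by
        push_cast
        rw [ZMod.natCast_zmod_val]
        ring
      rw [h5, ZMod.val_natCast, Nat.mod_eq_of_lt hu]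
    rw [h4]
  rw [h3] at h2
  exact_mod_cast h2

end Pool.Agent.U792.SW
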