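import Mathlib
import Pool.Agent.U792.SW.GenD
import Pool.Agent.U792.SW.Fin
import Pool.Agent.U792.SW.PkgA3
import Pool.Agent.U792.SW.PkgA4
import Pool.Agent.U792.SW.PkgA5
import Pool.Agent.U792.SW.PkgB3
import Pool.Agent.U792.SW.PkgC1
import Pool.Agent.U792.SW.PkgC2
import Pool.Agent.U792.SW.PkgC3
import Pool.Agent.U792.SW.PkgN5

/-!
`X ^ p + Y ^ p = c z ^ n`: final form for the field `ℚ(ζ_p)`.
-/

set_option autoImplicit false

namespace Pool.Agent.U792.SW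

open NumberField NumberField.IsCMField Polynomial Finset Pool.Agent.U792.KU

theorem rel_mono {p : ℕ} [hp : Fact p.Prime] {K : Type*} [Field K] [NumberField K]
    [IsCyclotomicExtension {p} ℚ K] {ζ : K} [IsCMField K] (hζ : IsPrimitiveRoot ζ p) {n : ℕ}
    {X Y R R' : ℤ} (h : Rel hζ n X Y R) (hR : R ≤ R') : Rel hζ n X Y R' := by
  obtain ⟨A, B, a, b, w, C, B', h1, h2, h3, h4, h5, h6, h7, h8⟩ := h
  refine ⟨A, B, a, b, w, C, B', h1, h2, h3, h4, h5, h6, h7, fun Q t hQ hd hne => ?_⟩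
  exact (h8 Q t hQ hd hne).trans (mul_le_mul_of_nonneg_left hR (by positivity))

variable {p n : ℕ}

/-- the relation with the exponent `max 1 (p / 3 - p / 4)` -/
theorem rel_gen (hp5 : 5 ≤ p) (hn0 : n ≠ 0)
    (hnp : Nat.Coprime n (2 * p)) {X Y : ℤ} (hX : X ≠ 0) (hY : Y ≠ 0) (hd : X ≠ Y)
    (hs : X ≠ -Y) (hXY : IsCoprime X Y) [hF : Fact p.Prime]
    [IsCyclotomicExtension {p} ℚ (CyclotomicField p ℚ)] [IsCMField (CyclotomicField p ℚ)]
    (hζ : IsPrimitiveRoot (IsCyclotomicExtension.zeta p ℚ (CyclotomicField p ℚ)) p)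
    (h : Pw hζ n X Y) :
    Rel hζ n X Y ((|X| + |Y|) ^ (max 1 (p / 3 - p / 4))) ∧ (p ≤ 17 → WRel hζ n X Y) := by
  have h1 : 1 ≤ |X| + |Y| := by
    have := Int.one_le_abs hX
    have := abs_nonneg Y
    omega
  have h3 : (p : ℕ) ≠ 3 := by omega
  rcases Nat.lt_or_ge p 7 with h7 | h7
  · have hp5' : p = 5 ∨ p = 6 := by omega
    have hp5'' : p = 5 := by
      rcases hp5' with h0 | h0
      · exact h0
      · exfalso
        have := hF.out
        rw [h0] at this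
        norm_num at this
    have ha1 : ((2 : ℕ) : ZMod p) + 1 ≠ 0 := by
      have := cast_ne (p := p) (a := 3) (by norm_num) (by omega)
      intro h0
      apply this
      push_cast at h0 ⊢
      rw [← h0]
      norm_num
    obtain ⟨r1, r2⟩ := rel_T (t_A3 p _) (t_A4 p _) (t_A5 p) (t_B1 p _) (t_B3 p _) (t_C1 p _)
      (t_C2 p _) (t_C3 p _) (t_N1 p _) hζ hp5 hn0 hnp hX hY hd hs hXY h (a := 2)
      (cast_ne (by norm_num) (by omega)) ha1 (Ta2_nonempty hp5)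
    have hc := Ta2_card (p := p) hp5
    have hc1 : (Ta p 2).card ≤ 1 := by
      refine hc.trans ?_
      omega
    refine ⟨rel_mono hζ r1 (pow_le_pow_right₀ h1 (hc1.trans (le_max_left _ _))), fun _ => r2 ?_⟩
    have := Finset.card_pos.2 (Ta2_nonempty (p := p) hp5)
    omega
  · have hodd : Odd p := hF.out.odd_of_ne_two (by omega)
    have ha1 : ((3 : ℕ) : ZMod p) + 1 ≠ 0 := by
      have := cast_ne (p := p) (a := 4) (by norm_num) (by omega)
      intro h0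
      apply this
      push_cast at h0 ⊢
      rw [← h0]
      norm_num
    obtain ⟨r1, r2⟩ := rel_T (t_A3 p _) (t_A4 p _) (t_A5 p) (t_B1 p _) (t_B3 p _) (t_C1 p _)
      (t_C2 p _) (t_C3 p _) (t_N1 p _) hζ hp5 hn0 hnp hX hY hd hs hXY h (a := 3)
      (cast_ne (by norm_num) (by omega)) ha1 (Ta3_nonempty h7)
    have hc := Ta3_card (p := p) hodd
    refine ⟨rel_mono hζ r1 (pow_le_pow_right₀ h1 (hc.trans (le_max_right _ _))), fun h17 => r2 ?_⟩
    have h8 := Finset.card_pos.2 (Ta3_nonempty (p := p) h7)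
    have h9 : p / 3 - p / 4 ≤ 1 := by
      have hpr := hF.out
      clear r1 r2 ha1 hc h8 hζ h hnp hodd
      interval_cases p <;> first | (norm_num; done) | (exfalso; revert hpr; norm_num; done)
    omega

/-- the relation with the exponent `E` -/
theorem rel_genE (hp5 : 5 ≤ p) (hn0 : n ≠ 0)
    (hnp : Nat.Coprime n (2 * p)) {X Y : ℤ} (hX : X ≠ 0) (hY : Y ≠ 0) (hd : X ≠ Y)
    (hs : X ≠ -Y) (hXY : IsCoprime X Y) [hF : Fact p.Prime]
    [IsCyclotomicExtension {p} ℚ (CyclotomicField p ℚ)] [IsCMField (CyclotomicField p ℚ)]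
    (hζ : IsPrimitiveRoot (IsCyclotomicExtension.zeta p ℚ (CyclotomicField p ℚ)) p)
    (h : Pw hζ n X Y) {E : ℕ}
    (hE : E = max 1 (p / 3 - p / 4) ∨ (E = 1 ∧ NoMinusClass p n)) :
    Rel hζ n X Y ((|X| + |Y|) ^ E) := by
  rcases hE with rfl | ⟨rfl, hm⟩
  · exact (rel_gen hp5 hn0 hnp hX hY hd hs hXY hζ h).1
  · rw [pow_one]
    exact (rel_alphaC (t_M1 _) (t_M2 p _) (t_M3 p _) hζ (by omega) hn0 hnp
      (minusFree hF.out hm) hXY h).1

theorem wrel_gen (hp5 : 5 ≤ p) (hn0 : n ≠ 0)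
    (hnp : Nat.Coprime n (2 * p)) {X Y : ℤ} (hX : X ≠ 0) (hY : Y ≠ 0) (hd : X ≠ Y)
    (hs : X ≠ -Y) (hXY : IsCoprime X Y) [hF : Fact p.Prime]
    [IsCyclotomicExtension {p} ℚ (CyclotomicField p ℚ)] [IsCMField (CyclotomicField p ℚ)]
    (hζ : IsPrimitiveRoot (IsCyclotomicExtension.zeta p ℚ (CyclotomicField p ℚ)) p)
    (h : Pw hζ n X Y) (hE : p ≤ 17 ∨ NoMinusClass p n) : WRel hζ n X Y := by
  rcases hE with h17 | hm
  · exact (rel_gen hp5 hn0 hnp hX hY hd hs hXY hζ h).2 h17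
  · exact (rel_alphaC (t_M1 _) (t_M2 p _) (t_M3 p _) hζ (by omega) hn0 hnp
      (minusFree hF.out hm) hXY h).2

end Pool.Agent.U792.SW
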