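import Mathlib
import Pool.Agent.U792.SW.GenE

/-!
`X ^ p + Y ^ p = c z ^ n`: elementary parts (divisors of `c z ^ n`, exclusion of solutions).
-/

set_option autoImplicit false

namespace Pool.Agent.U792.SW

open Finset Pool.Agent.U792.KU

/-- from the bound for a free divisor of a large number -/
theorem excl {n E : ℕ} {s : ℤ} {Q m : ℕ} (hEn : E ≤ n) (hQ0 : Q ≠ 0) (hs0 : 0 ≤ s)
    (hM : s ≤ 2 * ((Q * m : ℕ) : ℤ)) (hb : (Q : ℤ) ^ n ≤ 2 ^ n * s ^ E) :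
    (Q : ℤ) ^ (n - E) ≤ 2 ^ (n + E) * (m : ℤ) ^ E := by
  have hQ : (0 : ℤ) < Q := by exact_mod_cast Nat.pos_of_ne_zero hQ0
  have h1 : s ^ E ≤ (2 * ((Q * m : ℕ) : ℤ)) ^ E := pow_le_pow_left₀ hs0 hM E
  have h2 : (Q : ℤ) ^ (n - E) * (Q : ℤ) ^ E ≤ (2 ^ (n + E) * (m : ℤ) ^ E) * (Q : ℤ) ^ E := by
    rw [← pow_add, Nat.sub_add_cancel hEn]
    refine hb.trans ((mul_le_mul_of_nonneg_left h1 (by positivity)).trans (le_of_eq ?_))
    push_cast
    rw [mul_pow, mul_pow, pow_add]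
    ring
  exact le_of_mul_le_mul_right h2 (by positivity)

theorem excl4 {n E : ℕ} {Q : ℕ} (hn : 3 * E < n) (h4 : 4 ≤ Q)
    (hb : (Q : ℤ) ^ (n - E) ≤ 2 ^ (n + E) * (1 : ℤ) ^ E) : False := by
  rw [one_pow, mul_one] at hb
  have h1 : (4 : ℤ) ^ (n - E) ≤ (Q : ℤ) ^ (n - E) :=
    pow_le_pow_left₀ (by norm_num) (by exact_mod_cast h4) _
  have h2 : (4 : ℤ) ^ (n - E) = 2 ^ (2 * (n - E)) := by
    rw [pow_mul]
    norm_num
  have h3 : (2 : ℤ) ^ (2 * (n - E)) ≤ 2 ^ (n + E) := by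
    rw [← h2]
    exact h1.trans hb
  have h4' := (pow_le_pow_iff_right₀ (by norm_num : (1 : ℤ) < 2)).1 h3
  omega

/-- divisors of `c z ^ n` -/
theorem dvd_sum_of_dvd {p : ℕ} (hp : p.Prime) (hp2 : p ≠ 2) {X Y : ℤ}
    (hXY : IsCoprime X Y) (hs0 : X + Y ≠ 0) {R : ℕ}
    (hR : ∀ l : ℕ, l.Prime → l ∣ R → l ≠ p ∧ ¬ l ≡ 1 [MOD p]) (hRz : (R : ℤ) ∣ X ^ p + Y ^ p) :
    (R : ℤ) ∣ X + Y := by
  have hodd : Odd p := hp.odd_of_ne_two hp2
  obtain ⟨F, hF⟩ : X + Y ∣ X ^ p + Y ^ p := hodd.add_dvd_pow_add_pow X Y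
  have hcop : IsCoprime (R : ℤ) F := by
    rw [Int.isCoprime_iff_gcd_eq_one]
    by_contra hne
    obtain ⟨l, hl, hlg⟩ := Nat.exists_prime_and_dvd hne
    have h1 : (l : ℤ) ∣ R := (Int.natCast_dvd_natCast.2 hlg).trans (Int.gcd_dvd_left _ _)
    have h2 : (l : ℤ) ∣ F := (Int.natCast_dvd_natCast.2 hlg).trans (Int.gcd_dvd_right _ _)
    have h3 := hR l hl (Int.natCast_dvd_natCast.1 h1)
    exact h3.2 (prime_dvd_phi hp hp2 hXY hs0 hF.symm hl h3.1 h2)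
  rw [hF] at hRz
  exact hcop.dvd_of_dvd_mul_right hRz

/-- powers of `p` -/
theorem p_dvd_sum {p : ℕ} (hp : p.Prime) (hp2 : p ≠ 2) {X Y : ℤ} (hXY : IsCoprime X Y) {k : ℕ}
    (h5 : (p : ℤ) ^ (k + 1) ∣ X ^ p + Y ^ p) : (p : ℤ) ^ k ∣ X + Y := by
  have hodd : Odd p := hp.odd_of_ne_two hp2
  have : Fact p.Prime := ⟨hp⟩
  have h1 : (p : ℤ) ∣ X ^ p + Y ^ p := (dvd_pow_self _ (by omega)).trans h5
  have h2 : (p : ℤ) ∣ X + Y := by
    rw [← ZMod.intCast_zmod_eq_zero_iff_dvd] at h1 ⊢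
    push_cast at h1 ⊢
    rw [ZMod.pow_card, ZMod.pow_card] at h1
    exact h1
  have h3 : ¬ (p : ℤ) ∣ X := l1_coprime hXY hp h2
  have h4 := Int.emultiplicity_pow_add_pow hp hodd h2 h3 hodd
  have h6 := le_emultiplicity_of_pow_dvd h5
  have h7 : emultiplicity p p = 1 := by
    have := Nat.Prime.emultiplicity_self hp
    exact this
  rw [h4, h7] at h6
  apply pow_dvd_of_le_emultiplicity
  push_cast at h6
  exact (ENat.add_le_add_iff_right (by simp)).1 h6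

/-- a prime factor of `X + Y` which does not divide `c` -/
theorem q_dvd_sum {p n : ℕ} {X Y z c : ℤ} (hp : p.Prime) (hp2 : p ≠ 2)
    (hXY : IsCoprime X Y) (h : X ^ p + Y ^ p = c * z ^ n) {q : ℕ} (hq : q.Prime) (hqp : q ≠ p)
    (hqc : ¬ (q : ℤ) ∣ c) (hqs : (q : ℤ) ∣ X + Y) : (q : ℤ) ^ n ∣ X + Y := by
  have hodd : Odd p := hp.odd_of_ne_two hp2
  have hqZ : Prime (q : ℤ) := Nat.prime_iff_prime_int.1 hq
  have hqX : ¬ (q : ℤ) ∣ X := l1_coprime hXY hq hqs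
  set F : ℤ := ∑ i ∈ range p, X ^ i * (-Y) ^ (p - 1 - i) with hF
  have e1 : (X + Y) * F = X ^ p + Y ^ p := by
    have := (Commute.all X (-Y)).mul_geom_sum₂ p
    rw [hodd.neg_pow, sub_neg_eq_add, sub_neg_eq_add] at this
    exact this
  have e2 : (q : ℤ) ∣ F - p * X ^ (p - 1) := by
    have e3 : F - p * X ^ (p - 1) =
        ∑ i ∈ range p, (X ^ i * (-Y) ^ (p - 1 - i) - X ^ i * X ^ (p - 1 - i)) := by
      rw [Finset.sum_sub_distrib]
      congr 1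
      rw [Finset.sum_congr rfl (g := fun _ => X ^ (p - 1))]
      · rw [Finset.sum_const, card_range, nsmul_eq_mul]
      · intro i hi
        rw [mem_range] at hi
        rw [← pow_add]
        congr 1
        omega
    rw [e3]
    refine Finset.dvd_sum fun i _ => ?_
    rw [← mul_sub]
    refine Dvd.dvd.mul_left ?_ _
    have e4 : (q : ℤ) ∣ -Y - X := by
      have : -Y - X = -(X + Y) := by ring
      rw [this]
      exact (dvd_neg).2 hqs
    exact e4.trans (sub_dvd_pow_sub_pow _ _ _)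
  have e5 : ¬ (q : ℤ) ∣ F := by
    intro h1
    have h2 : (q : ℤ) ∣ p * X ^ (p - 1) := by
      have := dvd_sub h1 e2
      rwa [sub_sub_cancel] at this
    rcases hqZ.dvd_or_dvd h2 with h3 | h3
    · have h4 := Int.natCast_dvd_natCast.1 h3
      exact hqp ((Nat.prime_dvd_prime_iff_eq hq hp).1 h4)
    · exact hqX (hqZ.dvd_of_dvd_pow h3)
  rcases Nat.eq_zero_or_pos n with rfl | hn
  · rw [pow_zero]
    exact one_dvd _
  have h1 : (q : ℤ) ∣ z := by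
    have h2 : (q : ℤ) ∣ c * z ^ n := by
      rw [← h, ← e1]
      exact hqs.mul_right _
    rcases hqZ.dvd_or_dvd h2 with h3 | h3
    · exact absurd h3 hqc
    · exact hqZ.dvd_of_dvd_pow h3
  have h2 : (q : ℤ) ^ n ∣ (X + Y) * F := by
    rw [e1, h]
    exact (pow_dvd_pow_of_dvd h1 n).mul_left _
  have h3 : IsCoprime ((q : ℤ) ^ n) F := by
    apply IsCoprime.pow_left
    exact (hqZ.coprime_iff_not_dvd).2 e5
  exact h3.dvd_of_dvd_mul_right h2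

end Pool.Agent.U792.SW
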