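import Mathlib
import Pool.Agent.U792.SW.GenF

/-!
`(X ^ p + Y ^ p) g = (X + Y) c z ^ n` with `g ∣ X + Y` (Nagell-Ljunggren equations): the ideal `(w)`
is an `n`-th power; the collected consequences.
-/

set_option autoImplicit false

namespace Pool.Agent.U792.SW

open NumberField NumberField.IsCMField Polynomial Finset Pool.Agent.U792.KU

section

variable {p : ℕ} [hp : Fact p.Prime] {K : Type*} [Field K] [NumberField K]
  [IsCyclotomicExtension {p} ℚ K] {ζ : K} [IsCMField K]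

/-- equations `(X ^ p + Y ^ p) g = (X + Y) c z ^ n` with `g ∣ X + Y` -/
theorem pw_gen (hζ : IsPrimitiveRoot ζ p) {n : ℕ} (hp2 : p ≠ 2) {X Y z c g : ℤ}
    (hXY : IsCoprime X Y) (hs : X + Y ≠ 0)
    (hc : ∀ l : ℕ, l.Prime → (l : ℤ) ∣ c → ¬ l ≡ 1 [MOD p]) (hg : g ∣ X + Y)
    (h : (X ^ p + Y ^ p) * g = (X + Y) * (c * z ^ n)) : Pw hζ n X Y := by
  intro d w hw hwπ
  classical
  have hodd := hp.out.odd_of_ne_two hp2
  have hg0 : g ≠ 0 := by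
    rintro rfl
    exact hs (zero_dvd_iff.1 hg)
  have hsum0 : X ^ p + Y ^ p ≠ 0 := by
    intro h0
    apply hs
    have h1 : X ^ p = (-Y) ^ p := by
      rw [hodd.neg_pow]
      linear_combination h0
    have h2 : X = -Y := hodd.strictMono_pow.injective h1
    rw [h2, neg_add_cancel]
  have hc0 : c ≠ 0 := by
    rintro rfl
    rw [zero_mul, mul_zero] at h
    rcases mul_eq_zero.1 h with h1 | h1
    · exact hsum0 h1
    · exact hg0 h1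
  -- `w` is prime to `c`
  obtain ⟨F, hF⟩ : X + Y ∣ X ^ p + Y ^ p := hodd.add_dvd_pow_add_pow X Y
  have hFg : F * g = c * z ^ n := by
    apply mul_left_cancel₀ hs
    rw [← h, hF]
    ring
  have hwc : IsCoprime w (c : 𝓞 K) := by
    have h1 : IsCoprime w ((c.natAbs : ℕ) : 𝓞 K) := by
      refine cop_nat _ (Int.natAbs_ne_zero.2 hc0) fun l hl hlc => ?_
      have hlc' : (l : ℤ) ∣ c := Int.natCast_dvd.2 hlc
      by_cases hlp : l = p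
      · rw [hlp]
        exact cop_w_p hζ hwπ
      · have h2 : ¬ (l : ℤ) ∣ F := fun h0 => hc l hl hlc'
          (prime_dvd_phi hp.out hp2 hXY hs hF.symm hl hlp h0)
        have h3 : IsCoprime F (l : ℤ) := by
          rw [Int.isCoprime_iff_gcd_eq_one]
          have h3 : Nat.Coprime F.natAbs l := by
            rw [Nat.coprime_comm]
            refine (Nat.Prime.coprime_iff_not_dvd hl).2 fun h0 => h2 ?_
            exact Int.natCast_dvd.2 h0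
          exact h3
        have h4 : IsCoprime (F : 𝓞 K) (l : 𝓞 K) := by
          have := h3.map (Int.castRingHom (𝓞 K))
          simpa using this
        have h5 := IsCoprime.of_isCoprime_of_dvd_left h4 (dvd_F hζ hp2 hs hF.symm)
        rw [hw] at h5
        exact h5.of_mul_left_right
    rcases Int.natAbs_eq c with h2 | h2
    · rw [h2, Int.cast_natCast]
      exact h1
    · rw [h2, Int.cast_neg, Int.cast_natCast]
      exact h1.neg_right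
  have hprim := hζ.toInteger_isPrimitiveRoot
  have hζmem : hζ.toInteger ∈ nthRootsFinset p (1 : 𝓞 K) :=
    (mem_nthRootsFinset hp.out.pos (1 : 𝓞 K)).2 hprim.pow_eq_one
  have hprod := hprim.pow_add_pow_eq_prod_add_mul (X : 𝓞 K) (Y : 𝓞 K)
    (hp.out.odd_of_ne_two hp2)
  rw [← mul_prod_erase _ _ hζmem, hw] at hprod
  set R : 𝓞 K := (hζ.toInteger - 1) ^ d * ∏ η ∈ (nthRootsFinset p (1 : 𝓞 K)).erase hζ.toInteger,
    ((X : 𝓞 K) + η * Y) with hR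
  have hwR : w * R = (X : 𝓞 K) ^ p + (Y : 𝓞 K) ^ p := by
    rw [hprod, hR]
    ring
  have hcop : IsCoprime w R := by
    rw [hR]
    refine IsCoprime.mul_right (IsCoprime.pow_right hwπ) (IsCoprime.prod_right ?_)
    intro η hη
    obtain ⟨hne, hη'⟩ := mem_erase.1 hη
    have hass := hprim.nthRootsFinset_pairwise_associated_sub_one_sub_of_prime hp.out
      hζmem hη' hne.symm
    have h1 : IsCoprime w (hζ.toInteger - η) := by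
      obtain ⟨u, hu⟩ := hass
      rw [← hu]
      exact (isCoprime_mul_unit_right_right u.isUnit _ _).2 hwπ
    obtain ⟨a, b, hab⟩ := hXY
    have hab' : (a : 𝓞 K) * X + b * Y = 1 := by exact_mod_cast congrArg (Int.cast : ℤ → 𝓞 K) hab
    have h2 : hζ.toInteger - η = ((X : 𝓞 K) + η * Y) * (a * hζ.toInteger - b) +
        w * ((hζ.toInteger - 1) ^ d * (b - a * η)) := by
      have h3 : w * ((hζ.toInteger - 1) ^ d * (b - a * η)) =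
          ((X : 𝓞 K) + hζ.toInteger * Y) * (b - a * η) := by
        rw [hw]
        ring
      rw [h3]
      linear_combination (η - hζ.toInteger) * hab'
    rw [h2, IsCoprime.add_mul_left_right_iff] at h1
    exact h1.of_mul_right_left
  have hw0 : w ≠ 0 := by
    rintro rfl
    rw [isCoprime_zero_left] at hwπ
    exact hζ.zeta_sub_one_prime'.not_isUnit hwπ
  obtain ⟨R2, hR2⟩ : w ∣ (F : 𝓞 K) := by
    have h1 := dvd_F (K := K) hζ hp2 hs hF.symm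
    rw [hw] at h1
    exact (dvd_mul_left _ _).trans h1
  have hRR : R = ((X + Y : ℤ) : 𝓞 K) * R2 := by
    apply mul_left_cancel₀ hw0
    rw [hwR]
    have h1 : ((X ^ p + Y ^ p : ℤ) : 𝓞 K) = (((X + Y) * F : ℤ) : 𝓞 K) := by rw [hF]
    push_cast at h1 ⊢
    rw [h1, hR2]
    ring
  rw [hRR] at hcop
  have hcg : IsCoprime w (g : 𝓞 K) := by
    refine IsCoprime.of_isCoprime_of_dvd_right hcop.of_mul_right_left ?_
    have := (Int.castRingHom (𝓞 K)).map_dvd hg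
    simpa using this
  have hcop2 : IsCoprime w (R2 * (g : 𝓞 K)) := IsCoprime.mul_right hcop.of_mul_right_right hcg
  have hwR2 : w * (R2 * (g : 𝓞 K)) = (c : 𝓞 K) * (z : 𝓞 K) ^ n := by
    have h1 : ((F * g : ℤ) : 𝓞 K) = ((c * z ^ n : ℤ) : 𝓞 K) := by rw [hFg]
    push_cast at h1
    rw [← h1, hR2]
    ring
  obtain ⟨R', hR'⟩ : (c : 𝓞 K) ∣ R2 * (g : 𝓞 K) := by
    refine hwc.symm.dvd_of_dvd_mul_left ?_
    rw [hwR2]
    exact dvd_mul_right _ _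
  have hwR' : w * R' = (z : 𝓞 K) ^ n := by
    have hc0' : (c : 𝓞 K) ≠ 0 := Int.cast_ne_zero.2 hc0
    apply mul_left_cancel₀ hc0'
    rw [← hwR2, hR']
    ring
  have hcop' : IsCoprime w R' := by
    rw [hR'] at hcop2
    exact hcop2.of_mul_right_right
  have hI : Ideal.span {w} * Ideal.span {R'} = Ideal.span {(z : 𝓞 K)} ^ n := by
    rw [Ideal.span_singleton_mul_span_singleton, hwR', Ideal.span_singleton_pow]
  exact exists_eq_pow_of_mul_eq_pow_of_coprime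
    ((Ideal.isCoprime_span_singleton_iff w R').2 hcop') hI

end

/-- collected consequences of `Pw` -/
theorem collected (p n : ℕ) (hp : p.Prime) (hp5 : 5 ≤ p) (hn : 2 ≤ n)
    (hnp : Nat.Coprime n (2 * p)) (X Y z c g : ℤ) (hX : X ≠ 0) (hY : Y ≠ 0) (hXY1 : X ≠ Y)
    (hXY2 : X ≠ -Y) (hXY : IsCoprime X Y)
    (hc : ∀ l : ℕ, l.Prime → (l : ℤ) ∣ c → ¬ l ≡ 1 [MOD p]) (hg : g ∣ X + Y)
    (h : (X ^ p + Y ^ p) * g = (X + Y) * (c * z ^ n)) :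
    (∀ E : ℕ, (E = max 1 (p / 3 - p / 4) ∨ (E = 1 ∧ NoMinusClass p n)) →
      (∀ Q : ℕ, Q ≠ 0 → (∀ l : ℕ, l.Prime → l ∣ Q → FreeAt p n l) →
        ((Q : ℤ) ∣ X ∨ (Q : ℤ) ∣ Y ∨ (Q : ℤ) ∣ X - Y ∨ ((Q : ℤ) ∣ X + Y ∧ ¬ p ∣ Q)) →
        (Q : ℤ) ^ n ≤ 2 ^ n * (|X| + |Y|) ^ E) ∧
      (∀ m : ℕ, (p : ℤ) ^ (m + 1) ∣ X + Y → Nat.Coprime n (p - 1) →
        (p : ℤ) ^ (m * n) ≤ 2 ^ n * (|X| + |Y|) ^ E) ∧
      (n.Prime → ∀ m : ℕ, ((n : ℤ) ^ (m + 1) ∣ X ∨ (n : ℤ) ^ (m + 1) ∣ Y ∨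
          (n : ℤ) ^ (m + 1) ∣ X - Y ∨ (n : ℤ) ^ (m + 1) ∣ X + Y) →
        (n : ℤ) ^ (max m 1 * n) ≤ 2 ^ n * (|X| + |Y|) ^ E) ∧
      (∀ Q m : ℕ, Q ≠ 0 → (∀ l : ℕ, l.Prime → l ∣ Q → FreeAt p n l) → E ≤ n →
        |X| + |Y| ≤ 2 * ((Q * m : ℕ) : ℤ) →
        (((Q * m : ℕ) : ℤ) = |X| ∨ ((Q * m : ℕ) : ℤ) = |Y| ∨ ((Q * m : ℕ) : ℤ) = |X - Y| ∨
          (((Q * m : ℕ) : ℤ) = |X + Y| ∧ ¬ p ∣ Q)) →
        (Q : ℤ) ^ (n - E) ≤ 2 ^ (n + E) * (m : ℤ) ^ E) ∧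
      (∀ M : ℕ, M ≠ 0 → (∀ l : ℕ, l.Prime → l ∣ M → FreeAt p n l) → 3 * E < n → 4 ≤ M →
        |X| + |Y| ≤ 2 * (M : ℤ) →
        (M : ℤ) ≠ |X| ∧ (M : ℤ) ≠ |Y| ∧ (M : ℤ) ≠ |X - Y| ∧ ((M : ℤ) = |X + Y| → p ∣ M))) ∧
    (n.Prime →
      ((n : ℤ) ∣ X → (n : ℤ) ^ 2 ∣ X) ∧ ((n : ℤ) ∣ Y → (n : ℤ) ^ 2 ∣ Y) ∧
      ((n : ℤ) ∣ X - Y → (¬ n ∣ (p - 1) / 2 ∨ p ≤ 17 ∨ NoMinusClass p n) →
        (n : ℤ) ^ 2 ∣ X - Y) ∧
      ((n : ℤ) ∣ X + Y → (¬ n ∣ (p - 1) / 2 ∨ p ≤ 17 ∨ NoMinusClass p n) →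
        (n : ℤ) ^ 2 ∣ X + Y) ∧
      (n < p → (p ≤ 17 ∨ NoMinusClass p n) →
        ((n : ℤ) ^ 2 ∣ X ∨ (n : ℤ) ^ 2 ∣ Y ∨ (n : ℤ) ^ 2 ∣ X - Y ∨ (n : ℤ) ^ 2 ∣ X + Y) ∧
        (n : ℤ) ^ n ≤ 2 ^ n * (|X| + |Y|))) := by
  have hF : Fact p.Prime := ⟨hp⟩
  have hCyc := instCyc p
  have hCM := inst (p := p) (by omega)
  have hζ : IsPrimitiveRoot (IsCyclotomicExtension.zeta p ℚ (CyclotomicField p ℚ)) p :=
    IsCyclotomicExtension.zeta_spec p ℚ (CyclotomicField p ℚ)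
  have hp2 : p ≠ 2 := by omega
  have hn0 : n ≠ 0 := by omega
  have hn2 : n ≠ 2 := by
    rintro rfl
    have h2 := Nat.Coprime.coprime_dvd_right (Dvd.intro _ rfl : 2 ∣ 2 * p) hnp
    norm_num at h2
  have hnp' : n ≠ p := by
    rintro rfl
    have h2 := Nat.Coprime.coprime_dvd_right (Dvd.intro_left _ rfl : n ∣ 2 * n) hnp
    rw [Nat.coprime_self] at h2
    omega
  have hs : X + Y ≠ 0 := fun h0 => hXY2 (by omega)
  have hd : X - Y ≠ 0 := fun h0 => hXY1 (by omega)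
  have hR1 := t_R1 p (CyclotomicField p ℚ)
  have hne : ∀ D : ℤ, IsD X Y D → D ≠ 0 := by
    rintro D (rfl | rfl | rfl | rfl) <;> assumption
  have isX : IsD X Y X := Or.inl rfl
  have isY : IsD X Y Y := Or.inr (Or.inl rfl)
  have isM : IsD X Y (X - Y) := Or.inr (Or.inr (Or.inl rfl))
  have isP : IsD X Y (X + Y) := Or.inr (Or.inr (Or.inr rfl))
  have hPw : Pw hζ n X Y := pw_gen hζ hp2 hXY hs hc hg h
  have hPw' : Pw hζ n Y X := by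
    refine pw_gen hζ hp2 (z := z) hXY.symm (by rwa [add_comm]) hc (g := g) (by rwa [add_comm]) ?_
    rw [add_comm, add_comm Y X]
    exact h
  -- part 1
  have part1 : ∀ E : ℕ, (E = max 1 (p / 3 - p / 4) ∨ (E = 1 ∧ NoMinusClass p n)) →
      (∀ Q : ℕ, Q ≠ 0 → (∀ l : ℕ, l.Prime → l ∣ Q → FreeAt p n l) →
        ((Q : ℤ) ∣ X ∨ (Q : ℤ) ∣ Y ∨ (Q : ℤ) ∣ X - Y ∨ ((Q : ℤ) ∣ X + Y ∧ ¬ p ∣ Q)) →
        (Q : ℤ) ^ n ≤ 2 ^ n * (|X| + |Y|) ^ E) ∧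
      (n.Prime → ∀ m : ℕ, ((n : ℤ) ^ (m + 1) ∣ X ∨ (n : ℤ) ^ (m + 1) ∣ Y ∨
          (n : ℤ) ^ (m + 1) ∣ X - Y ∨ (n : ℤ) ^ (m + 1) ∣ X + Y) →
        (n : ℤ) ^ (max m 1 * n) ≤ 2 ^ n * (|X| + |Y|) ^ E) := by
    intro E hE
    have hrel := rel_genE hp5 hn0 hnp hX hY hXY1 hXY2 hXY hζ hPw hE
    refine ⟨?_, ?_⟩
    · intro Q hQ0 hQ hD
      rcases hD with hD | hD | hD | ⟨hD, hpQ⟩
      · exact rel_free hR1 hζ hp2 hn0 hnp hXY hrel isX hX hQ0 hQ hD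
          (fun h0 => absurd h0 (by omega))
      · exact rel_free hR1 hζ hp2 hn0 hnp hXY hrel isY hY hQ0 hQ hD
          (fun h0 => absurd h0 (by omega))
      · exact rel_free hR1 hζ hp2 hn0 hnp hXY hrel isM hd hQ0 hQ hD
          (fun h0 => absurd h0 (by omega))
      · exact rel_free hR1 hζ hp2 hn0 hnp hXY hrel isP hs hQ0 hQ hD (fun _ => hpQ)
    · intro hnP m hm
      have key : ∀ D : ℤ, IsD X Y D → (n : ℤ) ^ (m + 1) ∣ D →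
          (n : ℤ) ^ (max m 1 * n) ≤ 2 ^ n * (|X| + |Y|) ^ E := by
        intro D hD hmD
        have h1 := rel_q hζ hp2 hnP hn2 hnp' hXY hrel hD (hne D hD) hmD
        rcases Nat.eq_zero_or_pos m with rfl | hm0
        · rw [show max 0 1 = 1 from rfl, one_mul]
          exact h1.1
        · rw [max_eq_left hm0, pow_mul]
          exact h1.2
      rcases hm with hm | hm | hm | hm
      · exact key X isX hm
      · exact key Y isY hm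
      · exact key (X - Y) isM hm
      · exact key (X + Y) isP hm
  have part1e : ∀ E : ℕ, (E = max 1 (p / 3 - p / 4) ∨ (E = 1 ∧ NoMinusClass p n)) →
      ∀ Q m : ℕ, Q ≠ 0 → (∀ l : ℕ, l.Prime → l ∣ Q → FreeAt p n l) → E ≤ n →
        |X| + |Y| ≤ 2 * ((Q * m : ℕ) : ℤ) →
        (((Q * m : ℕ) : ℤ) = |X| ∨ ((Q * m : ℕ) : ℤ) = |Y| ∨ ((Q * m : ℕ) : ℤ) = |X - Y| ∨
          (((Q * m : ℕ) : ℤ) = |X + Y| ∧ ¬ p ∣ Q)) →
        (Q : ℤ) ^ (n - E) ≤ 2 ^ (n + E) * (m : ℤ) ^ E := by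
    intro E hE Q m hQ0 hQ hEn hlarge hM
    have hdv : ∀ D : ℤ, ((Q * m : ℕ) : ℤ) = |D| → (Q : ℤ) ∣ D := by
      intro D hD
      rw [← dvd_abs, ← hD]
      push_cast
      exact dvd_mul_right _ _
    refine excl hEn hQ0 (by positivity) hlarge ((part1 E hE).1 Q hQ0 hQ ?_)
    rcases hM with hM | hM | hM | ⟨hM, hpQ⟩
    · exact Or.inl (hdv _ hM)
    · exact Or.inr (Or.inl (hdv _ hM))
    · exact Or.inr (Or.inr (Or.inl (hdv _ hM)))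
    · exact Or.inr (Or.inr (Or.inr ⟨hdv _ hM, hpQ⟩))
  refine ⟨fun E hE => ⟨(part1 E hE).1, ?_, (part1 E hE).2, part1e E hE, ?_⟩, fun hnP => ?_⟩
  · intro m hpz hn1
    rw [pow_mul]
    exact rel_p hR1 hζ hp2 hn0 hnp hXY (rel_genE hp5 hn0 hnp hX hY hXY1 hXY2 hXY hζ hPw hE)
      hs hn1 hpz
  · intro M hM0 hM hn3 hM4 hlarge
    have key : ¬ (((M * 1 : ℕ) : ℤ) = |X| ∨ ((M * 1 : ℕ) : ℤ) = |Y| ∨
        ((M * 1 : ℕ) : ℤ) = |X - Y| ∨ (((M * 1 : ℕ) : ℤ) = |X + Y| ∧ ¬ p ∣ M)) := by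
      intro h0
      have h1 := part1e E hE M 1 hM0 hM (by omega) (by rwa [mul_one]) h0
      rw [Nat.cast_one] at h1
      exact excl4 hn3 hM4 h1
    rw [mul_one] at key
    push Not at key
    exact ⟨key.1, key.2.1, key.2.2.1, key.2.2.2⟩
  have hwX : (n : ℤ) ∣ X → (n : ℤ) ^ 2 ∣ X :=
    beta_wiefC (t_A1 p _) (t_A2 p _) (t_B1 p _) (t_B2 p _) (t_N1 p _) (t_N3 p _) hζ hp5 hnP
      hn2 hnp' (X := Y) (Y := X) hY hX (Ne.symm hXY1) (fun h0 => hXY2 (by rw [h0, neg_neg]))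
      hXY.symm hPw'
  have hwY : (n : ℤ) ∣ Y → (n : ℤ) ^ 2 ∣ Y :=
    beta_wiefC (t_A1 p _) (t_A2 p _) (t_B1 p _) (t_B2 p _) (t_N1 p _) (t_N3 p _) hζ hp5 hnP
      hn2 hnp' hX hY hXY1 hXY2 hXY hPw
  have hwM : (n : ℤ) ∣ X - Y → (¬ n ∣ (p - 1) / 2 ∨ p ≤ 17 ∨ NoMinusClass p n) →
      (n : ℤ) ^ 2 ∣ X - Y := by
    intro h1 h2
    rcases h2 with h2 | h2
    · exact beta_wief_subC (t_A1 p _) (t_A2 p _) (t_B1 p _) (t_B2 p _) (t_N1 p _) (t_N4 p _) hζ hp5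
        hnP hn2 hnp' hX hY hXY1 hXY2 hXY hPw h2 h1
    · exact wrel_q hζ hp2 hnP hn2 hnp' hXY
        (wrel_gen hp5 hn0 hnp hX hY hXY1 hXY2 hXY hζ hPw h2) isM hd h1
  have hwP : (n : ℤ) ∣ X + Y → (¬ n ∣ (p - 1) / 2 ∨ p ≤ 17 ∨ NoMinusClass p n) →
      (n : ℤ) ^ 2 ∣ X + Y := by
    intro h1 h2
    rcases h2 with h2 | h2
    · exact beta_wief_addC (t_A1 p _) (t_A2 p _) (t_B1 p _) (t_B2 p _) (t_N1 p _) (t_N5 p _) hζ hp5
        hnP hn2 hnp' hX hY hXY1 hXY2 hXY hPw h2 h1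
    · exact wrel_q hζ hp2 hnP hn2 hnp' hXY
        (wrel_gen hp5 hn0 hnp hX hY hXY1 hXY2 hXY hζ hPw h2) isP hs h1
  refine ⟨hwX, hwY, hwM, hwP, ?_⟩
  intro hnp3 hmc
  have hw := wrel_gen hp5 hn0 hnp hX hY hXY1 hXY2 hXY hζ hPw hmc
  obtain ⟨D, hD, hnD⟩ := wrel_exists (t_G1 p _) (t_G2 p _ (t_E p _)) hζ hnP hn2 hnp3 hXY hs hw
  have hE1 : 1 = max 1 (p / 3 - p / 4) ∨ (1 = 1 ∧ NoMinusClass p n) := by
    rcases hmc with h17 | hm
    · left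
      clear hw hwM hwX hwY hwP part1e part1 hPw hPw' hR1 hζ hCM hCyc hF hnp hc h
      interval_cases p <;> first | (norm_num; done) | (exfalso; revert hp; norm_num; done)
    · exact Or.inr ⟨rfl, hm⟩
  have hb := (part1 1 hE1).2 hnP 0
  rw [zero_add, pow_one, show max 0 1 = 1 from rfl, one_mul, pow_one] at hb
  rcases hD with rfl | rfl | rfl | rfl
  · exact ⟨Or.inl (hwX hnD), hb (Or.inl hnD)⟩
  · exact ⟨Or.inr (Or.inl (hwY hnD)), hb (Or.inr (Or.inl hnD))⟩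
  · exact ⟨Or.inr (Or.inr (Or.inl (hwM hnD (Or.inr hmc)))), hb (Or.inr (Or.inr (Or.inl hnD)))⟩
  · exact ⟨Or.inr (Or.inr (Or.inr (hwP hnD (Or.inr hmc)))), hb (Or.inr (Or.inr (Or.inr hnD)))⟩

end Pool.Agent.U792.SW
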